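import Pool.Agent.Lib.MP_9ea9ae_an.V.Iface

/-!
# AC: abstract compactness
-/

open scoped symmDiff

namespace Pool.Agent.Lib.MP_9ea9ae_an.V.AC

open Pool.Agent.Lib.MP_9ea9ae_an Pool.Agent.Lib.MP_9ea9ae_an.V

variable {B Ω : Type} [CompleteBooleanAlgebra B]

theorem agree_eq_top {F : Finset (Om Ω)} {κ κ' : Pt Ω B} (h : ∀ o ∈ F, κ o = κ' o) :
    agree F κ κ' = ⊤ := by
  unfold agree
  refine le_antisymm le_top (le_iInf fun o => le_iInf fun ho => ?_)
  rw [h o ho, bihimp_self]

theorem P_congr {P : Finset (Om Ω) → Pt Ω B → B}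
    (h1 : ∀ F κ κ', agree F κ κ' ⊓ P F κ ≤ P F κ') {F : Finset (Om Ω)} {κ κ' : Pt Ω B}
    (h : ∀ o ∈ F, κ o = κ' o) : P F κ = P F κ' := by
  refine le_antisymm ?_ ?_
  · have := h1 F κ κ'
    rwa [agree_eq_top h, top_inf_eq] at this
  · have := h1 F κ' κ
    rwa [agree_eq_top (fun o ho => (h o ho).symm), top_inf_eq] at this

/-- good partial assignments -/
def Good (P : Finset (Om Ω) → Pt Ω B → B) (b : B) (x : Set (Om Ω) × Pt Ω B) : Prop :=
  ∀ F : Finset (Om Ω), (↑F : Set (Om Ω)) ⊆ x.1 → b ⊓ P F x.2 = ⊥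

theorem ext_step [DecidableEq (Om Ω)] {P : Finset (Om Ω) → Pt Ω B → B}
    (h1 : ∀ F κ κ', agree F κ κ' ⊓ P F κ ≤ P F κ')
    (h2 : ∀ F F' κ, F ⊆ F' → P F κ ≤ P F' κ)
    (h3 : ∀ F κ o, o ∉ F → P (insert o F) (Function.update κ o ⊤) ⊓
      P (insert o F) (Function.update κ o ⊥) ≤ P F κ)
    {b : B} {S : Set (Om Ω)} {κ : Pt Ω B} (hg : Good P b (S, κ)) {o : Om Ω} (ho : o ∉ S) :
    ∃ κ1 : Pt Ω B, (∀ o' ∈ S, κ o' = κ1 o') ∧ Good P b (insert o S, κ1) := by
  classical
  let e : B := ⨆ F : {F : Finset (Om Ω) // (↑F : Set (Om Ω)) ⊆ S},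
    P (insert o F.1) (Function.update κ o ⊤)
  refine ⟨Function.update κ o eᶜ, ?_, ?_⟩
  · intro o' ho'
    have : o' ≠ o := fun h => ho (h ▸ ho')
    rw [Function.update_of_ne this]
  · intro F' hF'
    by_cases hoF : o ∈ F'
    · -- F' = insert o F
      set F := F'.erase o with hFdef
      have hF'eq : F' = insert o F := by rw [hFdef, Finset.insert_erase hoF]
      have hFS : (↑F : Set (Om Ω)) ⊆ S := by
        intro x hx
        have hx' : x ∈ F := by exact_mod_cast hx
        rw [hFdef, Finset.mem_erase] at hx'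
        have := hF' (show x ∈ (↑F' : Set (Om Ω)) by exact_mod_cast hx'.2)
        rcases this with h | h
        · exact absurd h hx'.1
        · exact h
      have hoF' : ∀ G : Finset (Om Ω), (↑G : Set (Om Ω)) ⊆ S → o ∉ G := by
        intro G hG h
        exact ho (hG (by exact_mod_cast h))
      change b ⊓ P F' (Function.update κ o eᶜ) = ⊥
      rw [hF'eq]
      set q := P (insert o F) (Function.update κ o eᶜ) with hq
      -- on eᶜ
      have hA : eᶜ ⊓ q ≤ ⊥ := by
        have hag : eᶜ ≤ agree (insert o F) (Function.update κ o eᶜ) (Function.update κ o ⊤) := by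
          unfold agree
          refine le_iInf fun o' => le_iInf fun _ => ?_
          by_cases h : o' = o
          · subst h
            rw [Function.update_self, Function.update_self, bihimp_top]
          · rw [Function.update_of_ne h, Function.update_of_ne h, bihimp_self]
            exact le_top
        have h4 : eᶜ ⊓ q ≤ P (insert o F) (Function.update κ o ⊤) :=
          (inf_le_inf_right _ hag).trans (h1 _ _ _)
        have h5 : P (insert o F) (Function.update κ o ⊤) ≤ e :=
          le_iSup (fun F : {F : Finset (Om Ω) // (↑F : Set (Om Ω)) ⊆ S} =>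
            P (insert o F.1) (Function.update κ o ⊤)) ⟨F, hFS⟩
        calc eᶜ ⊓ q ≤ eᶜ ⊓ e := le_inf inf_le_left (h4.trans h5)
          _ = ⊥ := compl_inf_eq_bot
          _ ≤ ⊥ := le_rfl
      -- on e
      have hC : e ⊓ q ≤ P (insert o F) (Function.update κ o ⊥) := by
        have hag : e ≤ agree (insert o F) (Function.update κ o eᶜ) (Function.update κ o ⊥) := by
          unfold agree
          refine le_iInf fun o' => le_iInf fun _ => ?_
          by_cases h : o' = o
          · subst h
            rw [Function.update_self, Function.update_self, bihimp_bot, compl_compl]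
          · rw [Function.update_of_ne h, Function.update_of_ne h, bihimp_self]
            exact le_top
        exact (inf_le_inf_right _ hag).trans (h1 _ _ _)
      have hD : b ⊓ (e ⊓ P (insert o F) (Function.update κ o ⊥)) ≤ ⊥ := by
        rw [iSup_inf_eq, inf_iSup_eq]
        refine iSup_le fun G => ?_
        have hGF : P (insert o G.1) (Function.update κ o ⊤) ⊓ P (insert o F) (Function.update κ o ⊥)
            ≤ P (F ∪ G.1) κ := by
          refine le_trans (inf_le_inf (h2 _ (insert o (F ∪ G.1)) _ ?_) (h2 _ (insert o (F ∪ G.1)) _ ?_))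
            (h3 (F ∪ G.1) κ o ?_)
          · exact Finset.insert_subset_insert _ Finset.subset_union_right
          · exact Finset.insert_subset_insert _ Finset.subset_union_left
          · rw [Finset.mem_union, not_or]
            exact ⟨hoF' F hFS, hoF' G.1 G.2⟩
        refine (inf_le_inf_left b hGF).trans ?_
        have := hg (F ∪ G.1) (by
          rw [Finset.coe_union]
          exact Set.union_subset hFS G.2)
        exact this.le
      refine le_antisymm ?_ bot_le
      calc b ⊓ q = (b ⊓ q) ⊓ (e ⊔ eᶜ) := by rw [sup_compl_eq_top, inf_top_eq]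
        _ = (b ⊓ q ⊓ e) ⊔ (b ⊓ q ⊓ eᶜ) := inf_sup_left _ _ _
        _ ≤ ⊥ := by
          refine sup_le ?_ ?_
          · refine le_trans ?_ hD
            refine le_inf (inf_le_left.trans inf_le_left) (le_inf inf_le_right ?_)
            refine le_trans ?_ hC
            exact le_inf inf_le_right (inf_le_left.trans inf_le_right)
          · refine le_trans ?_ hA
            exact le_inf inf_le_right (inf_le_left.trans inf_le_right)
    · have hFS : (↑F' : Set (Om Ω)) ⊆ S := by
        intro x hx
        rcases hF' hx with h | h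
        · exact absurd (by exact_mod_cast (h ▸ hx)) hoF
        · exact h
      have hc : P F' (Function.update κ o eᶜ) = P F' κ := by
        refine P_congr h1 fun x hx => ?_
        have : x ≠ o := fun h => hoF (h ▸ hx)
        rw [Function.update_of_ne this]
      change b ⊓ P F' (Function.update κ o eᶜ) = ⊥
      rw [hc]
      exact hg F' hFS

theorem ac : ACStatement := by
  intro B Ω _ _ P Γ h1 h2 h3 h4 κ0
  set b : B := Γ ⊓ (P ∅ κ0)ᶜ with hb
  let α := {x : Set (Om Ω) × Pt Ω B // Good P b x}
  let r : α → α → Prop := fun x y => x.1.1 ⊆ y.1.1 ∧ ∀ o ∈ x.1.1, x.1.2 o = y.1.2 o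
  have hr : ∀ {x y z : α}, r x y → r y z → r x z := by
    intro x y z hxy hyz
    exact ⟨hxy.1.trans hyz.1, fun o ho => (hxy.2 o ho).trans (hyz.2 o (hxy.1 ho))⟩
  have h0 : Good P b ((∅ : Set (Om Ω)), κ0) := by
    intro F hF
    have hFe : F = ∅ := by
      rw [← Finset.coe_eq_empty]
      exact Set.subset_empty_iff.1 hF
    subst hFe
    change Γ ⊓ (P ∅ κ0)ᶜ ⊓ P ∅ κ0 = ⊥
    rw [inf_assoc, compl_inf_eq_bot, inf_bot_eq]
  have hchain : ∀ c : Set α, IsChain r c → ∃ ub : α, ∀ a ∈ c, r a ub := by
    intro c hc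
    classical
    rcases c.eq_empty_or_nonempty with rfl | hne
    · exact ⟨⟨_, h0⟩, fun a ha => absurd ha (Set.notMem_empty a)⟩
    · let S : Set (Om Ω) := {o | ∃ a ∈ c, o ∈ a.1.1}
      let κ : Pt Ω B := fun o => if h : ∃ a ∈ c, o ∈ a.1.1 then h.choose.1.2 o else ⊥
      have hκ : ∀ a ∈ c, ∀ o ∈ a.1.1, a.1.2 o = κ o := by
        intro a ha o ho
        have h : ∃ a ∈ c, o ∈ a.1.1 := ⟨a, ha, ho⟩
        have hk : κ o = h.choose.1.2 o := dif_pos h
        rw [hk]
        have hs := h.choose_spec
        by_cases hEq : a = h.choose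
        · rw [← hEq]
        · rcases hc ha hs.1 hEq with h5 | h5
          · exact h5.2 o ho
          · exact (h5.2 o hs.2).symm
      have hfin : ∀ F : Finset (Om Ω), (↑F : Set (Om Ω)) ⊆ S → ∃ a ∈ c, (↑F : Set (Om Ω)) ⊆ a.1.1 := by
        intro F
        induction F using Finset.induction_on with
        | empty =>
          intro _
          obtain ⟨a, ha⟩ := hne
          exact ⟨a, ha, by simp⟩
        | insert o F _ ih =>
          intro hF
          rw [Finset.coe_insert, Set.insert_subset_iff] at hF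
          obtain ⟨a, ha, haF⟩ := ih hF.2
          obtain ⟨a', ha', hoa'⟩ := hF.1
          by_cases hEq : a = a'
          · refine ⟨a, ha, ?_⟩
            rw [Finset.coe_insert, Set.insert_subset_iff]
            exact ⟨hEq ▸ hoa', haF⟩
          · rcases hc ha ha' hEq with h5 | h5
            · refine ⟨a', ha', ?_⟩
              rw [Finset.coe_insert, Set.insert_subset_iff]
              exact ⟨hoa', haF.trans h5.1⟩
            · refine ⟨a, ha, ?_⟩
              rw [Finset.coe_insert, Set.insert_subset_iff]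
              exact ⟨h5.1 hoa', haF⟩
      refine ⟨⟨(S, κ), ?_⟩, ?_⟩
      · intro F hF
        obtain ⟨a, ha, haF⟩ := hfin F hF
        have := a.2 F haF
        rw [← this]
        change b ⊓ P F κ = b ⊓ P F a.1.2
        rw [P_congr h1 (fun o ho => (hκ a ha o (haF (by exact_mod_cast ho))).symm)]
      · intro a ha
        exact ⟨fun o ho => ⟨a, ha, ho⟩, fun o ho => hκ a ha o ho⟩
  obtain ⟨m, hm⟩ := exists_maximal_of_chains_bounded hchain hr
  have hall : ∀ o, o ∈ m.1.1 := by
    intro o
    by_contra ho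
    obtain ⟨κ1, hk1, hk2⟩ := ext_step (S := m.1.1) (κ := m.1.2) h1 h2 h3 m.2 ho
    have h5 := hm ⟨(insert o m.1.1, κ1), hk2⟩ ⟨Set.subset_insert _ _, hk1⟩
    exact ho (h5.1 (Set.mem_insert _ _))
  have hbot : b = ⊥ := by
    refine le_antisymm ?_ bot_le
    calc b ≤ b ⊓ ⨆ F, P F m.1.2 := le_inf le_rfl (inf_le_left.trans (h4 m.1.2))
      _ = ⨆ F, b ⊓ P F m.1.2 := inf_iSup_eq _ _
      _ ≤ ⊥ := iSup_le fun F => (m.2 F (fun x _ => hall x)).le
  rw [hb] at hbot
  exact disjoint_compl_right_iff.1 (disjoint_iff.2 hbot)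

end Pool.Agent.Lib.MP_9ea9ae_an.V.AC
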