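import Pool.Agent.Lib.MP_9ea9ae_an.V.Base

/-!
# Module BRA: a point of the remainder contains a branch of cones
-/

open scoped symmDiff

namespace Pool.Agent.Lib.MP_9ea9ae_an.V.BRA

open Pool.Agent.Lib.MP_9ea9ae_an Pool.Agent.Lib.MP_9ea9ae_an.V

/-- The lists of length `n` which are legal form a finite set. -/
theorem finite_level (n : ℕ) : {s : List ℕ | Legal s ∧ s.length = n}.Finite := by
  induction n with
  | zero =>
    refine (Set.finite_singleton ([] : List ℕ)).subset ?_
    rintro s ⟨_, hs⟩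
    simpa using List.length_eq_zero_iff.1 hs
  | succ n ih =>
    refine ((((Finset.range (2 ^ (n + 1))).finite_toSet).prod ih).image
      fun p : ℕ × List ℕ => p.1 :: p.2).subset ?_
    rintro s ⟨hs, hl⟩
    cases s with
    | nil => simp at hl
    | cons a s =>
      have hl' : s.length = n := by simpa using hl
      refine ⟨(a, s), ⟨?_, hs.2, hl'⟩, rfl⟩
      have := hs.1
      rw [hl'] at this
      simpa using this

theorem finite_lev (n : ℕ) : {s : T | lev s = n}.Finite := by
  have := (finite_level n).preimage (f := (Subtype.val : T → List ℕ))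
    Subtype.val_injective.injOn
  refine this.subset ?_
  intro s hs
  exact ⟨s.2, hs⟩

theorem finite_lev_lt' (n : ℕ) : {s : T | lev s < n}.Finite := by
  have : {s : T | lev s < n} = ⋃ k : Fin n, {s : T | lev s = k} := by
    ext s
    simp only [Set.mem_ofPred_eq, Set.mem_iUnion]
    exact ⟨fun h => ⟨⟨lev s, h⟩, rfl⟩, fun ⟨k, hk⟩ => hk ▸ k.2⟩
  rw [this]
  exact Set.finite_iUnion fun k => finite_lev k

theorem legal_of_suffix {s t : List ℕ} (h : t <:+ s) (hs : Legal s) : Legal t := by
  induction s with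
  | nil =>
    rw [List.suffix_nil] at h
    subst h; trivial
  | cons a s ih =>
    rw [List.suffix_cons_iff] at h
    rcases h with rfl | h
    · exact hs
    · exact ih h hs.2

/-- A node of level at least `n` has a suffix of length `n`. -/
theorem exists_suffix (s : T) (n : ℕ) (h : n ≤ lev s) : ∃ t : T, lev t = n ∧ t.1 <:+ s.1 := by
  have h1 : s.1.drop (s.1.length - n) <:+ s.1 := List.drop_suffix _ _
  refine ⟨⟨s.1.drop (s.1.length - n), legal_of_suffix h1 s.2⟩, ?_, h1⟩
  have h2 : n ≤ s.1.length := h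
  change (s.1.drop (s.1.length - n)).length = n
  rw [List.length_drop]
  omega

/-- A chain of nodes is a branch. -/
theorem exists_branch (h : ℕ → T) (hl : ∀ n, lev (h n) = n) (hs : ∀ n, (h n).1 <:+ (h (n + 1)).1) :
    ∃ z : Br, ∀ n, nd z n = h n := by
  have key : ∀ n, ∃ a, a < 2 ^ (n + 1) ∧ (h (n + 1)).1 = a :: (h n).1 := by
    intro n
    have h1 : (h (n + 1)).1.length = n + 1 := hl (n + 1)
    have h0 : (h n).1.length = n := hl n
    have h2 := hs n
    have h3 := (h (n + 1)).2
    generalize hL : (h (n + 1)).1 = L at h1 h2 h3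
    cases L with
    | nil => simp at h1
    | cons a L =>
      have h4 : L.length = n := by simpa using h1
      rw [List.suffix_cons_iff] at h2
      rcases h2 with h2 | h2
      · rw [h2] at h0
        simp at h0
        omega
      · have h5 : (h n).1 = L := h2.eq_of_length (by rw [h0, h4])
        refine ⟨a, ?_, by rw [h5]⟩
        have := h3.1
        rwa [h4] at this
  choose a ha1 ha2 using key
  refine ⟨⟨a, ha1⟩, fun n => ?_⟩
  apply Subtype.ext
  change ndl a n = (h n).1
  induction n with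
  | zero => exact (List.length_eq_zero_iff.1 (hl 0)).symm
  | succ n ih => rw [ha2 n, ← ih]; rfl

variable {B : Type} [CompleteBooleanAlgebra B] {Ω : Type} {D : Ω → Br → B}

/-- The level `n` of a point of the remainder is not empty. -/
theorem level_le (κ : Pt Ω B) (n : ℕ) : clK D κ ⊓ noS κ ≤
    ⨆ t : T, tv (lev t = n) ⊓ κ (Sum.inr (Sum.inl t)) := by
  classical
  let F : Finset (Om Ω) := (finite_lev_lt' n).toFinset.image (fun s => Sum.inr (Sum.inr s)) ∪
    (finite_lev n).toFinset.image (fun s => Sum.inr (Sum.inl s))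
  have h1 : clK D κ ⊓ noS κ ≤ ⨆ s : T, agree F κ (wB D s) := inf_le_left.trans (iInf_le _ F)
  refine le_iSup_cases' h1 fun s => ?_
  by_cases hs : lev s < n
  · have ho : (Sum.inr (Sum.inr s) : Om Ω) ∈ F := by
      refine Finset.mem_union_left _ (Finset.mem_image.2 ⟨s, ?_, rfl⟩)
      exact (Set.Finite.mem_toFinset _).2 hs
    have h2 : agree F κ (wB D s) ≤ κ (Sum.inr (Sum.inr s)) := by
      refine le_trans (le_inf le_rfl ?_) (agree_inf_le' κ (wB D s) ho)
      change _ ≤ tv (s = s)
      rw [tv_pos rfl]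
      exact le_top
    have h3 : noS κ ≤ (κ (Sum.inr (Sum.inr s)))ᶜ := iInf_le _ s
    calc clK D κ ⊓ noS κ ⊓ agree F κ (wB D s)
        ≤ (κ (Sum.inr (Sum.inr s)))ᶜ ⊓ κ (Sum.inr (Sum.inr s)) :=
          inf_le_inf (inf_le_right.trans h3) h2
      _ ≤ _ := by rw [compl_inf_eq_bot]; exact bot_le
  · obtain ⟨t, ht1, ht2⟩ := exists_suffix s n (not_lt.1 hs)
    have ho : (Sum.inr (Sum.inl t) : Om Ω) ∈ F := by
      refine Finset.mem_union_right _ (Finset.mem_image.2 ⟨t, ?_, rfl⟩)
      exact (Set.Finite.mem_toFinset _).2 ht1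
    have h2 : agree F κ (wB D s) ≤ κ (Sum.inr (Sum.inl t)) := by
      refine le_trans (le_inf le_rfl ?_) (agree_inf_le' κ (wB D s) ho)
      simp only [wB]
      rw [tv_pos ht2]
      exact le_top
    refine le_trans ?_ (le_iSup _ t)
    rw [tv_pos ht1, top_inf_eq]
    exact inf_le_right.trans h2

/-- Two nodes in a point are comparable. -/
theorem comparable (κ : Pt Ω B) (t t' : T) (h : lev t ≤ lev t') (h' : ¬ t.1 <:+ t'.1) :
    clK D κ ⊓ κ (Sum.inr (Sum.inl t)) ⊓ κ (Sum.inr (Sum.inl t')) ≤ ⊥ := by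
  classical
  let F : Finset (Om Ω) := {Sum.inr (Sum.inl t), Sum.inr (Sum.inl t')}
  have h1 : clK D κ ⊓ κ (Sum.inr (Sum.inl t)) ⊓ κ (Sum.inr (Sum.inl t')) ≤
      ⨆ s : T, agree F κ (wB D s) := inf_le_left.trans (inf_le_left.trans (iInf_le _ F))
  refine le_iSup_cases' h1 fun s => ?_
  have h2 : agree F κ (wB D s) ⊓ κ (Sum.inr (Sum.inl t)) ≤ tv (t.1 <:+ s.1) :=
    agree_inf_le κ (wB D s) (by simp [F])
  have h3 : agree F κ (wB D s) ⊓ κ (Sum.inr (Sum.inl t')) ≤ tv (t'.1 <:+ s.1) :=
    agree_inf_le κ (wB D s) (by simp [F])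
  calc clK D κ ⊓ κ (Sum.inr (Sum.inl t)) ⊓ κ (Sum.inr (Sum.inl t')) ⊓ agree F κ (wB D s)
      ≤ tv (t.1 <:+ s.1) ⊓ tv (t'.1 <:+ s.1) := by
        refine le_inf (le_trans ?_ h2) (le_trans ?_ h3)
        · exact le_inf inf_le_right (inf_le_left.trans (inf_le_left.trans inf_le_right))
        · exact le_inf inf_le_right (inf_le_left.trans inf_le_right)
    _ = tv (t.1 <:+ s.1 ∧ t'.1 <:+ s.1) := tv_and.symm
    _ ≤ ⊥ := by
        rw [tv_neg]
        rintro ⟨h4, h5⟩
        exact h' (List.suffix_of_suffix_length_le h4 h5 h)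

end Pool.Agent.Lib.MP_9ea9ae_an.V.BRA

namespace Pool.Agent.Lib.MP_9ea9ae_an.V

open Pool.Agent.Lib.MP_9ea9ae_an

/-- BRA: a point of the remainder contains a branch of cones. -/
theorem bra : BraStatement := by
  intro B Ω _ D hB κ
  set Γ := clK D κ ⊓ noS κ with hΓ
  let a : ℕ → T → B := fun n t => tv (lev t = n) ⊓ κ (Sum.inr (Sum.inl t))
  have h1 : Γ ≤ ⨆ h : ℕ → T, ⨅ n, a n (h n) :=
    (le_iInf fun n => BRA.level_le κ n).trans (hB T a)
  refine le_iSup_cases' h1 fun h => ?_
  by_cases hl : ∀ n, lev (h n) = n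
  · by_cases hs : ∀ n, (h n).1 <:+ (h (n + 1)).1
    · obtain ⟨z, hz⟩ := BRA.exists_branch h hl hs
      refine le_trans ?_ (le_iSup _ z)
      refine le_iInf fun n => ?_
      rw [hz n]
      exact inf_le_right.trans ((iInf_le _ n).trans inf_le_right)
    · push Not at hs
      obtain ⟨n, hn⟩ := hs
      refine le_trans ?_ ((BRA.comparable (D := D) κ (h n) (h (n + 1))
        (by rw [hl, hl]; omega) hn).trans bot_le)
      refine le_inf (le_inf (inf_le_left.trans (by rw [hΓ]; exact inf_le_left)) ?_) ?_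
      · exact inf_le_right.trans ((iInf_le _ n).trans inf_le_right)
      · exact inf_le_right.trans ((iInf_le _ (n + 1)).trans inf_le_right)
  · push Not at hl
    obtain ⟨n, hn⟩ := hl
    refine (inf_le_right.trans ((iInf_le _ n).trans inf_le_left)).trans ?_
    rw [tv_neg hn]
    exact bot_le

end Pool.Agent.Lib.MP_9ea9ae_an.V
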