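import Pool.Agent.Lib.MP_9ea9ae_an.V.Base

/-!
# Module C1: from continuous functions to typed functions
-/

open scoped symmDiff

namespace Pool.Agent.Lib.MP_9ea9ae_an.V.C1

open Pool.Agent.Lib.MP_9ea9ae_an Pool.Agent.Lib.MP_9ea9ae_an.V
open Pool.Agent.Lib.MP_100a6c_lc Pool.Agent.Lib.MP_c5d73d_lc.F BName
open Pool.Agent.Lib.MP_6d445e_gt (op isTopo isHaus isFin fsub)

variable {B : Type} [CompleteBooleanAlgebra B] {Ω : Type} {c : Pt Ω B → B}

/-- Elements of a function from `Cn c` to the reals. -/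
theorem isFun_elt (hHT : HTStatement) (hSB : SBStatement) {f : BName B} {Γ : B}
    (hΓ : Γ ≤ (VB B).isFun f (Cn c) (Xn B ℝ)) (z : BName B) :
    Γ ⊓ bmem z f ≤ ⨆ κ : Pt Ω B, ⨆ x : ℝ, c κ ⊓ beq z (opr (sb κ) (hat x)) := by
  have h1 : Γ ⊓ bmem z f ≤ ⨆ x, ⨆ y, (VB B).mem x (Cn c) ⊓ (VB B).mem y (Xn B ℝ) ⊓
      (VB B).isPair z x y :=
    iInf_himp_apply (Γ := Γ) (hΓ.trans (inf_le_left.trans inf_le_left)) z inf_le_left inf_le_right
  refine h1.trans (iSup_le fun x => iSup_le fun y => ?_)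
  rw [isPair_eq]
  change bmem x (Cn c) ⊓ bmem y (Xn B ℝ) ⊓ beq z (opr x y) ≤ _
  rw [(hSB B Ω).2.2.2 c x, (hHT B ℝ).2.1 y]
  refine le_iSup_cases' (inf_le_left.trans inf_le_left) fun κ => ?_
  refine le_iSup_cases' (inf_le_left.trans (inf_le_left.trans inf_le_right)) fun r => ?_
  refine le_trans ?_ (le_iSup _ κ)
  refine le_trans ?_ (le_iSup _ r)
  refine le_inf (inf_le_left.trans (inf_le_right.trans inf_le_left)) ?_
  refine (ext_eq_right z).of_le (x := opr x y) ?_ (inf_le_left.trans (inf_le_left.trans inf_le_right))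
  rw [beq_opr]
  exact le_inf (inf_le_left.trans (inf_le_right.trans inf_le_right)) inf_le_right

theorem rel_real (hHT : HTStatement) (hSB : SBStatement) {f : BName B} {Γ : B}
    (hΓ : Γ ≤ (VB B).isFun f (Cn c) (Xn B ℝ)) (z y : BName B) :
    Γ ⊓ (VB B).rel f z y ≤ ⨆ x : ℝ, beq y (hat x) := by
  rw [rel_eq]
  refine (isFun_elt hHT hSB hΓ _).trans (iSup_le fun κ => iSup_le fun x => ?_)
  rw [beq_opr]
  exact (inf_le_right.trans inf_le_right).trans (le_iSup (fun x : ℝ => beq y (hat x)) x)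

theorem exU (hSB : SBStatement) (f : BName B) : ExU (ft f : Pt Ω B → ℝ → B) := by
  intro κ κ' x
  have h1 := ext_rel_snd f (hat x) (sb κ) (sb κ')
  rw [(hSB B Ω).2.1] at h1
  exact h1

theorem c1 (hHT : HTStatement) (hSB : SBStatement) (hTA : TAStatement) (_hRO : ROStatement)
    (hRP : RPStatement) : C1Statement := by
  intro B Ω _ c hc f
  refine ⟨exU hSB f, ?_⟩
  set Γ := isCont (VB B) (Xn B ℝ) (rA B) (rO B) (Cn c) (tau c) f with hΓ
  have hfun : Γ ≤ (VB B).isFun f (Cn c) (Xn B ℝ) := inf_le_left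
  have hmem : ∀ κ, bmem (sb κ) (Cn c) = c κ := fun κ => (hSB B Ω).2.2.1 c κ hc
  refine le_inf (le_inf (le_inf ?_ ?_) ?_) ?_
  · -- total
    refine le_iInf fun κ => ?_
    rw [le_himp_iff]
    have h1 : Γ ⊓ c κ ≤ ⨆ y, (VB B).rel f (sb κ) y :=
      iInf_himp_apply (Γ := Γ) (hfun.trans (inf_le_left.trans inf_le_right)) (sb κ) inf_le_left
        (by change _ ≤ bmem (sb κ) (Cn c); rw [hmem]; exact inf_le_right)
    refine le_iSup_cases' h1 fun y => ?_
    refine le_iSup_cases' ((le_inf (inf_le_left.trans inf_le_left) inf_le_right).trans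
      (rel_real hHT hSB hfun (sb κ) y)) fun x => ?_
    refine le_trans ?_ (le_iSup _ x)
    exact (ext_rel_trd f (sb κ)).of_le inf_le_right (inf_le_left.trans inf_le_right)
  · -- unique
    refine le_iInf fun κ => le_iInf fun x => le_iInf fun x' => ?_
    rw [le_himp_iff, ← (hHT B ℝ).1]
    have h1 : Γ ≤ ⨅ x, ⨅ y, ⨅ y', (VB B).rel f x y ⊓ (VB B).rel f x y' ⇨ (VB B).eq y y' :=
      hfun.trans inf_le_right
    have h2 : Γ ≤ (VB B).rel f (sb κ) (hat x) ⊓ (VB B).rel f (sb κ) (hat x') ⇨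
        (VB B).eq (hat x) (hat x') :=
      h1.trans ((iInf_le _ (sb κ)).trans ((iInf_le _ (hat x)).trans (iInf_le _ (hat x'))))
    rw [le_himp_iff] at h2
    refine le_trans (inf_le_inf_left Γ ?_) h2
    exact le_inf (inf_le_left.trans inf_le_right) inf_le_right
  · -- continuous
    refine le_iInf fun κ => le_iInf fun x => le_iInf fun e => ?_
    rw [le_himp_iff]
    have h1 : Γ ≤ ⨅ x, ⨅ r, ⨅ e, (VB B).mem x (Cn c) ⊓ (VB B).rel f x r ⊓
        pos (VB B) (Xn B ℝ) (rA B) (rO B) e ⇨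
      ⨆ A, (VB B).mem A (tau c) ⊓ (VB B).mem x A ⊓ ⨅ y, ⨅ s, (VB B).mem y A ⊓ (VB B).rel f y s ⇨
        near (VB B) (rA B) (rO B) s r e := inf_le_right
    have h2 := h1.trans ((iInf_le _ (sb κ)).trans ((iInf_le _ (hat x)).trans
      (iInf_le _ (hat e.1))))
    rw [le_himp_iff] at h2
    have h3 : Γ ⊓ (c κ ⊓ ft f κ x) ≤ Γ ⊓ ((VB B).mem (sb κ) (Cn c) ⊓
        (VB B).rel f (sb κ) (hat x) ⊓ pos (VB B) (Xn B ℝ) (rA B) (rO B) (hat e.1)) := by
      rw [(hRP B).2.2.2.1, tv_pos e.2, inf_top_eq]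
      change _ ≤ Γ ⊓ (bmem (sb κ) (Cn c) ⊓ _)
      rw [hmem]
      rfl
    refine le_iSup_cases' (h3.trans h2) fun A => ?_
    set Δ := Γ ⊓ (c κ ⊓ ft f κ x) ⊓ ((VB B).mem A (tau c) ⊓ (VB B).mem (sb κ) A ⊓
      ⨅ y, ⨅ s, (VB B).mem y A ⊓ (VB B).rel f y s ⇨ near (VB B) (rA B) (rO B) s (hat x)
        (hat e.1)) with hΔ
    have hA1 : Δ ≤ opn c A := by
      have h4 : Δ ≤ bmem A (tau c) := inf_le_right.trans (inf_le_left.trans inf_le_left)
      rw [(hTA B Ω c hc).1 A] at h4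
      exact h4.trans inf_le_right
    have hA2 : Δ ≤ bmem (sb κ) A := inf_le_right.trans (inf_le_left.trans inf_le_right)
    have hA3 : Δ ≤ ⨅ y, ⨅ s, (VB B).mem y A ⊓ (VB B).rel f y s ⇨
        near (VB B) (rA B) (rO B) s (hat x) (hat e.1) := inf_le_right.trans inf_le_right
    have h5 : Δ ≤ ⨆ F : Finset (Om Ω), ⨅ κ' : Pt Ω B, c κ' ⊓ agree F κ κ' ⇨ bmem (sb κ') A :=
      iInf_himp_apply (Γ := Δ) hA1 κ le_rfl hA2
    refine le_iSup_cases' h5 fun F => ?_
    refine le_trans ?_ (le_iSup _ F)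
    refine le_iInf fun κ' => le_iInf fun x' => ?_
    rw [le_himp_iff, ← (hRP B).2.2.2.2.1]
    have h6 : Δ ⊓ (⨅ κ' : Pt Ω B, c κ' ⊓ agree F κ κ' ⇨ bmem (sb κ') A) ⊓
        (c κ' ⊓ agree F κ κ' ⊓ ft f κ' x') ≤ bmem (sb κ') A :=
      iInf_himp_apply (Γ := Δ ⊓ (⨅ κ' : Pt Ω B, c κ' ⊓ agree F κ κ' ⇨ bmem (sb κ') A))
        inf_le_right κ' inf_le_left (inf_le_right.trans inf_le_left)
    have h7 : Δ ≤ (VB B).mem (sb κ') A ⊓ (VB B).rel f (sb κ') (hat x') ⇨
        near (VB B) (rA B) (rO B) (hat x') (hat x) (hat e.1) :=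
      hA3.trans ((iInf_le _ (sb κ')).trans (iInf_le _ (hat x')))
    rw [le_himp_iff] at h7
    exact (le_inf (inf_le_left.trans inf_le_left) (le_inf h6 (inf_le_right.trans
      inf_le_right))).trans h7
  · -- the name
    rw [le_beq_iff]
    intro z
    refine le_antisymm (le_inf inf_le_left ?_) (le_inf inf_le_left ?_)
    · refine le_iSup_cases' (isFun_elt hHT hSB hfun z) fun κ => ?_
      refine le_iSup_cases' inf_le_right fun x => ?_
      unfold fnn
      rw [mem_mk]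
      refine le_trans ?_ (le_iSup _ ((κ, x) : Pt Ω B × ℝ))
      have h1 : Γ ⊓ bmem z f ⊓ (⨆ x : ℝ, c κ ⊓ beq z (opr (sb κ) (hat x))) ⊓
          (c κ ⊓ beq z (opr (sb κ) (hat x))) ≤ ft f κ x := by
        unfold ft
        rw [rel_eq]
        exact (ext_mem_left f).of_le (inf_le_right.trans inf_le_right)
          (inf_le_left.trans (inf_le_left.trans inf_le_right))
      exact le_inf (le_inf (inf_le_right.trans inf_le_left) h1) (inf_le_right.trans inf_le_right)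
    · unfold fnn
      rw [mem_mk, inf_iSup_eq]
      refine iSup_le fun q => ?_
      have h1 : Γ ⊓ (c q.1 ⊓ ft f q.1 q.2 ⊓ beq z (opr (sb q.1) (hat q.2))) ≤
          bmem (opr (sb q.1) (hat q.2)) f := by
        rw [← rel_eq]
        exact inf_le_right.trans (inf_le_left.trans inf_le_right)
      exact (ext_mem_left f).of_le' (inf_le_right.trans inf_le_right) h1

end Pool.Agent.Lib.MP_9ea9ae_an.V.C1
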