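import Pool.Agent.Lib.MP_9ea9ae_an.V.Base

/-!
# C2: from typed functions to continuous functions
-/

set_option autoImplicit false

open scoped symmDiff

namespace Pool.Agent.Lib.MP_9ea9ae_an.V.C2

open Pool.Agent.Lib.MP_9ea9ae_an Pool.Agent.Lib.MP_9ea9ae_an.V
open Pool.Agent.Lib.MP_100a6c_lc Pool.Agent.Lib.MP_c5d73d_lc.F BName
open Pool.Agent.Lib.MP_6d445e_gt (op isTopo isHaus isFin fsub)

variable {B : Type} [CompleteBooleanAlgebra B] {Ω : Type} {c : Pt Ω B → B}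
  {u : Pt Ω B → ℝ → B}

theorem ext_op_fst (m y z : BName B) : Ext (fun x => op (VB B) m x y z) :=
  Ext.iSup fun p => (ext_isPair_snd p y).inf (Ext.const _)

theorem ext_op_snd (m x z : BName B) : Ext (fun y => op (VB B) m x y z) :=
  Ext.iSup fun p => (ext_isPair_trd p x).inf (Ext.const _)

theorem ext_near1 (a o y e : BName B) : Ext (fun x => near (VB B) a o x y e) :=
  Ext.iSup fun p => Ext.iSup fun q => ((((((Ext.const _).inf (ext_op_fst a e q)).inf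
    (ext_rel_snd o p)).inf (ext_VBeq_left p).compl).inf (Ext.const _)).inf (Ext.const _))

theorem ext_near2 (a o x e : BName B) : Ext (fun y => near (VB B) a o x y e) :=
  Ext.iSup fun p => Ext.iSup fun q => ((((((ext_op_fst a e p).inf (Ext.const _)).inf
    (Ext.const _)).inf (Ext.const _)).inf (ext_rel_snd o q)).inf (ext_VBeq_left q).compl)

theorem ext_near3 (a o x y : BName B) : Ext (fun e => near (VB B) a o x y e) :=
  Ext.iSup fun p => Ext.iSup fun q => ((((((ext_op_snd a y p).inf (ext_op_snd a x q)).inf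
    (Ext.const _)).inf (Ext.const _)).inf (Ext.const _)).inf (Ext.const _))

theorem rel_gen (x y : BName B) : (VB B).rel (fnn c u) x y =
    ⨆ q : Pt Ω B × ℝ, (c q.1 ⊓ u q.1 q.2) ⊓ (beq x (sb q.1) ⊓ beq y (hat q.2)) := by
  rw [rel_eq, fnn, mem_mk]
  simp only [beq_opr]

theorem rel_sb (hHT : HTStatement) (hSB : SBStatement) (hc : ∀ κ κ', eqP κ κ' ⊓ c κ ≤ c κ')
    (hu : ExU u) (κ : Pt Ω B) (x : ℝ) :
    (VB B).rel (fnn c u) (sb κ) (hat x) = c κ ⊓ u κ x := by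
  rw [rel_gen]
  refine le_antisymm (iSup_le fun q => ?_) (le_trans ?_ (le_iSup _ ((κ, x) : Pt Ω B × ℝ)))
  · rw [(hSB B Ω).2.1, (hHT B ℝ).1, ← inf_assoc, inf_tv_le_iff]
    rintro rfl
    rw [eqP_comm]
    refine le_inf (le_trans (le_inf inf_le_right (inf_le_left.trans inf_le_left)) (hc q.1 κ)) ?_
    exact le_trans (le_inf inf_le_right (inf_le_left.trans inf_le_right)) (hu q.1 κ q.2)
  · rw [beq_refl, beq_refl, inf_top_eq, inf_top_eq]

/-- The basic open set. -/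
noncomputable def nb (c : Pt Ω B → B) (F : Finset (Om Ω)) (κ : Pt Ω B) (κ' : Pt Ω B) : B :=
  c κ' ⊓ agree F κ κ'

theorem nb_ext (hc : ∀ κ κ', eqP κ κ' ⊓ c κ ≤ c κ') (F : Finset (Om Ω)) (κ : Pt Ω B) :
    ∀ κ1 κ2, eqP κ1 κ2 ⊓ nb c F κ κ1 ≤ nb c F κ κ2 := by
  intro κ1 κ2
  refine le_inf ((inf_le_inf_left _ inf_le_left).trans (hc κ1 κ2)) ?_
  refine le_trans (le_inf (inf_le_right.trans inf_le_right)
    (inf_le_left.trans (eqP_le_agree F κ1 κ2))) (agree_trans F κ κ1 κ2)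

theorem nb_open (hSB : SBStatement) (hTA : TAStatement) (hc : ∀ κ κ', eqP κ κ' ⊓ c κ ≤ c κ')
    (F : Finset (Om Ω)) (κ : Pt Ω B) : bmem (Cn (nb c F κ)) (tau c) = ⊤ := by
  have hm : ∀ κ', bmem (sb κ') (Cn (nb c F κ)) = nb c F κ κ' := fun κ' =>
    (hSB B Ω).2.2.1 _ κ' (nb_ext hc F κ)
  rw [(hTA B Ω c hc).1, eq_top_iff]
  refine le_inf (le_iInf fun z => ?_) (le_iInf fun κ1 => ?_)
  · rw [le_himp_iff, top_inf_eq, VB_mem, VB_mem, (hSB B Ω).2.2.2, (hSB B Ω).2.2.2]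
    exact iSup_mono fun κ' => inf_le_inf_right _ inf_le_left
  · rw [le_himp_iff, top_inf_eq, hm]
    refine le_trans ?_ (le_iSup _ F)
    refine le_iInf fun κ' => ?_
    rw [le_himp_iff, hm]
    refine le_inf (inf_le_right.trans inf_le_left) ?_
    exact le_trans (le_inf (inf_le_left.trans inf_le_right) (inf_le_right.trans inf_le_right))
      (agree_trans F κ κ1 κ')

theorem isFun_fnn (hHT : HTStatement) (hSB : SBStatement) (hc : ∀ κ κ', eqP κ κ' ⊓ c κ ≤ c κ')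
    (hu : ExU u) : fnT c u ≤ (VB B).isFun (fnn c u) (Cn c) (Xn B ℝ) := by
  have hmem : ∀ κ, bmem (sb κ) (Cn c) = c κ := fun κ => (hSB B Ω).2.2.1 c κ hc
  refine le_inf (le_inf (le_iInf fun p => ?_) (le_iInf fun x => ?_))
    (le_iInf fun x => le_iInf fun y => le_iInf fun y' => ?_)
  · rw [le_himp_iff, VB_mem, fnn, mem_mk, inf_iSup_eq]
    refine iSup_le fun q => ?_
    refine le_trans ?_ (le_iSup _ (sb q.1))
    refine le_trans ?_ (le_iSup _ (hat q.2))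
    rw [VB_mem, VB_mem, hmem, (hHT B ℝ).2.2, isPair_eq, inf_top_eq]
    exact le_inf (inf_le_right.trans (inf_le_left.trans inf_le_left))
      (inf_le_right.trans inf_le_right)
  · rw [le_himp_iff, VB_mem, (hSB B Ω).2.2.2]
    refine le_iSup_cases' inf_le_right fun κ => ?_
    obtain ⟨Γ, hΓ⟩ : ∃ Γ, Γ = fnT c u ⊓ (⨆ κ, c κ ⊓ beq x (sb κ)) ⊓ (c κ ⊓ beq x (sb κ)) :=
      ⟨_, rfl⟩
    rw [← hΓ]
    have g1 : Γ ≤ fnT c u := by rw [hΓ]; exact inf_le_left.trans inf_le_left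
    have g2 : Γ ≤ c κ := by rw [hΓ]; exact inf_le_right.trans inf_le_left
    have g3 : Γ ≤ beq x (sb κ) := by rw [hΓ]; exact inf_le_right.trans inf_le_right
    refine le_iSup_cases' ((le_inf g1 g2).trans (fnT_tot κ)) fun r => ?_
    refine le_trans ?_ (le_iSup _ (hat r))
    refine (ext_rel_snd (fnn c u) (hat r)).of_le' (x := sb κ) (inf_le_left.trans g3) ?_
    rw [rel_sb hHT hSB hc hu]
    exact le_inf (inf_le_left.trans g2) inf_le_right
  · rw [le_himp_iff]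
    refine le_iSup_cases' (ι := Pt Ω B × ℝ)
      (c := fun q => (c q.1 ⊓ u q.1 q.2) ⊓ (beq x (sb q.1) ⊓ beq y (hat q.2)))
      (by rw [← rel_gen]; exact inf_le_right.trans inf_le_left) fun q => ?_
    refine le_iSup_cases' (ι := Pt Ω B × ℝ)
      (c := fun q => (c q.1 ⊓ u q.1 q.2) ⊓ (beq x (sb q.1) ⊓ beq y' (hat q.2)))
      (by rw [← rel_gen]; exact inf_le_left.trans (inf_le_right.trans inf_le_right)) fun q' => ?_
    obtain ⟨Γ, hΓ⟩ : ∃ Γ, Γ = fnT c u ⊓ ((VB B).rel (fnn c u) x y ⊓ (VB B).rel (fnn c u) x y') ⊓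
        (c q.1 ⊓ u q.1 q.2 ⊓ (beq x (sb q.1) ⊓ beq y (hat q.2))) ⊓
        (c q'.1 ⊓ u q'.1 q'.2 ⊓ (beq x (sb q'.1) ⊓ beq y' (hat q'.2))) := ⟨_, rfl⟩
    rw [← hΓ]
    have g0 : Γ ≤ fnT c u := by
      rw [hΓ]; exact inf_le_left.trans (inf_le_left.trans inf_le_left)
    have g1 : Γ ≤ c q.1 := by
      rw [hΓ]; exact inf_le_left.trans (inf_le_right.trans (inf_le_left.trans inf_le_left))
    have g2 : Γ ≤ u q.1 q.2 := by
      rw [hΓ]; exact inf_le_left.trans (inf_le_right.trans (inf_le_left.trans inf_le_right))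
    have g3 : Γ ≤ beq x (sb q.1) := by
      rw [hΓ]; exact inf_le_left.trans (inf_le_right.trans (inf_le_right.trans inf_le_left))
    have g4 : Γ ≤ beq y (hat q.2) := by
      rw [hΓ]; exact inf_le_left.trans (inf_le_right.trans (inf_le_right.trans inf_le_right))
    have g5 : Γ ≤ u q'.1 q'.2 := by
      rw [hΓ]; exact inf_le_right.trans (inf_le_left.trans inf_le_right)
    have g6 : Γ ≤ beq x (sb q'.1) := by
      rw [hΓ]; exact inf_le_right.trans (inf_le_right.trans inf_le_left)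
    have g7 : Γ ≤ beq y' (hat q'.2) := by
      rw [hΓ]; exact inf_le_right.trans (inf_le_right.trans inf_le_right)
    have g8 : Γ ≤ eqP q'.1 q.1 := by
      rw [← (hSB B Ω).2.1, beq_symm]
      exact (ext_eq_left (sb q'.1)).of_le g3 g6
    have g9 : Γ ≤ u q.1 q'.2 := (le_inf g8 g5).trans (hu q'.1 q.1 q'.2)
    have g10 : Γ ≤ beq (hat q.2) (hat q'.2) := by
      rw [(hHT B ℝ).1]
      exact (le_inf g0 (le_inf (le_inf g1 g2) g9)).trans (fnT_unq q.1 q.2 q'.2)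
    exact (ext_eq_right y).of_le' g7 ((ext_eq_right y).of_le g10 g4)

theorem cont_fnn (hHT : HTStatement) (hSB : SBStatement) (hTA : TAStatement)
    (hRP : RPStatement) (hc : ∀ κ κ', eqP κ κ' ⊓ c κ ≤ c κ') :
    fnT c u ≤ ⨅ x, ⨅ r, ⨅ e, (VB B).mem x (Cn c) ⊓ (VB B).rel (fnn c u) x r ⊓
        pos (VB B) (Xn B ℝ) (rA B) (rO B) e ⇨
      ⨆ A, (VB B).mem A (tau c) ⊓ (VB B).mem x A ⊓ ⨅ y, ⨅ s, (VB B).mem y A ⊓
        (VB B).rel (fnn c u) y s ⇨ near (VB B) (rA B) (rO B) s r e := by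
  refine le_iInf fun x => le_iInf fun r => le_iInf fun e => ?_
  rw [le_himp_iff]
  refine le_iSup_cases' (ι := Pt Ω B × ℝ)
      (c := fun q => (c q.1 ⊓ u q.1 q.2) ⊓ (beq x (sb q.1) ⊓ beq r (hat q.2)))
      (by rw [← rel_gen]; exact inf_le_right.trans (inf_le_left.trans inf_le_right)) fun q => ?_
  refine le_iSup_cases' (ι := ℝ) (c := fun ε => tv (0 < ε) ⊓ beq e (hat ε))
      (by rw [← (hRP B).2.2.1]; exact inf_le_left.trans (inf_le_right.trans inf_le_right))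
      fun ε => ?_
  obtain ⟨Γ0, hΓ0⟩ : ∃ Γ, Γ = fnT c u ⊓ ((VB B).mem x (Cn c) ⊓ (VB B).rel (fnn c u) x r ⊓
        pos (VB B) (Xn B ℝ) (rA B) (rO B) e) ⊓
        (c q.1 ⊓ u q.1 q.2 ⊓ (beq x (sb q.1) ⊓ beq r (hat q.2))) := ⟨_, rfl⟩
  rw [← hΓ0, ← inf_assoc, inf_right_comm, inf_tv_le_iff]
  intro hε
  have g0 : Γ0 ≤ fnT c u := by rw [hΓ0]; exact inf_le_left.trans inf_le_left
  have g1 : Γ0 ≤ c q.1 ⊓ u q.1 q.2 := by rw [hΓ0]; exact inf_le_right.trans inf_le_left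
  have g2 : Γ0 ≤ beq x (sb q.1) := by
    rw [hΓ0]; exact inf_le_right.trans (inf_le_right.trans inf_le_left)
  have g3 : Γ0 ≤ beq r (hat q.2) := by
    rw [hΓ0]; exact inf_le_right.trans (inf_le_right.trans inf_le_right)
  refine le_iSup_cases' (inf_le_left.trans ((le_inf g0 g1).trans (fnT_cn q.1 q.2 hε))) fun F => ?_
  obtain ⟨W, hW⟩ : ∃ W : B, W = ⨅ κ', ⨅ x', c κ' ⊓ agree F q.1 κ' ⊓ u κ' x' ⇨
    tv (|x' - q.2| < ε) := ⟨_, rfl⟩
  rw [← hW]
  have hm : ∀ κ', bmem (sb κ') (Cn (nb c F q.1)) = nb c F q.1 κ' := fun κ' =>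
    (hSB B Ω).2.2.1 _ κ' (nb_ext hc F q.1)
  refine le_trans ?_ (le_iSup _ (Cn (nb c F q.1)))
  refine le_inf (le_inf ?_ ?_) (le_iInf fun y => le_iInf fun s => ?_)
  · rw [VB_mem, nb_open hSB hTA hc]
    exact le_top
  · refine (ext_mem_left (Cn (nb c F q.1))).of_le' (x := sb q.1)
      (inf_le_left.trans (inf_le_left.trans g2)) ?_
    rw [hm, nb, agree_refl, inf_top_eq]
    exact inf_le_left.trans (inf_le_left.trans (g1.trans inf_le_left))
  · rw [le_himp_iff]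
    refine le_iSup_cases' (ι := Pt Ω B × ℝ)
      (c := fun q => (c q.1 ⊓ u q.1 q.2) ⊓ (beq y (sb q.1) ⊓ beq s (hat q.2)))
      (by rw [← rel_gen]; exact inf_le_right.trans inf_le_right) fun q' => ?_
    obtain ⟨Γ, hΓ⟩ : ∃ Γ, Γ = Γ0 ⊓ beq e (hat ε) ⊓ W ⊓
        ((VB B).mem y (Cn (nb c F q.1)) ⊓ (VB B).rel (fnn c u) y s) ⊓
        (c q'.1 ⊓ u q'.1 q'.2 ⊓ (beq y (sb q'.1) ⊓ beq s (hat q'.2))) := ⟨_, rfl⟩
    rw [← hΓ]
    have k0 : Γ ≤ Γ0 := by
      rw [hΓ]; exact inf_le_left.trans (inf_le_left.trans (inf_le_left.trans inf_le_left))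
    have k1 : Γ ≤ beq e (hat ε) := by
      rw [hΓ]; exact inf_le_left.trans (inf_le_left.trans (inf_le_left.trans inf_le_right))
    have k2 : Γ ≤ W := by
      rw [hΓ]; exact inf_le_left.trans (inf_le_left.trans inf_le_right)
    have k3 : Γ ≤ bmem y (Cn (nb c F q.1)) := by
      rw [hΓ]; exact inf_le_left.trans (inf_le_right.trans inf_le_left)
    have k4 : Γ ≤ u q'.1 q'.2 := by
      rw [hΓ]; exact inf_le_right.trans (inf_le_left.trans inf_le_right)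
    have k5 : Γ ≤ beq y (sb q'.1) := by
      rw [hΓ]; exact inf_le_right.trans (inf_le_right.trans inf_le_left)
    have k6 : Γ ≤ beq s (hat q'.2) := by
      rw [hΓ]; exact inf_le_right.trans (inf_le_right.trans inf_le_right)
    have k7 : Γ ≤ nb c F q.1 q'.1 := by
      rw [← hm]
      exact (ext_mem_left (Cn (nb c F q.1))).of_le k5 k3
    have k8 : Γ ≤ tv (|q'.2 - q.2| < ε) := by
      have k9 : W ≤ c q'.1 ⊓ agree F q.1 q'.1 ⊓ u q'.1 q'.2 ⇨ tv (|q'.2 - q.2| < ε) := by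
        rw [hW]; exact (iInf_le _ q'.1).trans (iInf_le _ q'.2)
      rw [le_himp_iff] at k9
      exact (le_inf k2 (le_inf k7 k4)).trans k9
    rw [← (hRP B).2.2.2.2.1] at k8
    exact (ext_near3 (rA B) (rO B) s r).of_le' k1 ((ext_near2 (rA B) (rO B) s (hat ε)).of_le'
      (k0.trans g3) ((ext_near1 (rA B) (rO B) (hat q.2) (hat ε)).of_le' k6 k8))

theorem c2 (hHT : HTStatement) (hSB : SBStatement) (hTA : TAStatement) (_hRO : ROStatement)
    (hRP : RPStatement) : C2Statement := by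
  intro B Ω _ c hc u hu
  exact ⟨rel_sb hHT hSB hc hu, le_inf (isFun_fnn hHT hSB hc hu) (cont_fnn hHT hSB hTA hRP hc)⟩

end Pool.Agent.Lib.MP_9ea9ae_an.V.C2
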