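import Pool.Agent.Lib.MP_9ea9ae_an.V.Base

/-!
# Module C3: equality, norm, sum and multiples of named real functions
-/

open scoped symmDiff

namespace Pool.Agent.Lib.MP_9ea9ae_an.V.C3

open Pool.Agent.Lib.MP_9ea9ae_an Pool.Agent.Lib.MP_9ea9ae_an.V
open Pool.Agent.Lib.MP_100a6c_lc Pool.Agent.Lib.MP_c5d73d_lc.F BName
open Pool.Agent.Lib.MP_6d445e_gt (op isTopo isHaus isFin fsub)

variable {B : Type} [CompleteBooleanAlgebra B] {Ω : Type} {c : Pt Ω B → B}
  {u v w : Pt Ω B → ℝ → B}

theorem ext_op2 (f x z : BName B) : Ext (fun y => op (VB B) f x y z) :=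
  Ext.iSup fun p => (ext_isPair_trd p x).inf (Ext.const _)

theorem ext_op3 (f x y : BName B) : Ext (fun z => op (VB B) f x y z) :=
  Ext.iSup fun p => (Ext.const _).inf (ext_rel_trd f p)

theorem ext_op1 (f y z : BName B) : Ext (fun x => op (VB B) f x y z) :=
  Ext.iSup fun p => (ext_isPair_snd p y).inf (Ext.const _)

theorem ext_absb (R a o e : BName B) : Ext (fun x => absb (VB B) R a o x e) :=
  (ext_rel_snd o e).inf (Ext.iSup fun _ => Ext.iSup fun p =>
    ((Ext.const _).inf (ext_op1 a e p)).inf (Ext.const _))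

/-- The graph of a named function. -/
theorem rel_fnn (c : Pt Ω B → B) (u : Pt Ω B → ℝ → B) (z r : BName B) :
    (VB B).rel (fnn c u) z r =
      ⨆ p : Pt Ω B × ℝ, (c p.1 ⊓ u p.1 p.2) ⊓ (beq z (sb p.1) ⊓ beq r (hat p.2)) :=
  rel_relFam (fun p : Pt Ω B × ℝ => sb p.1) (fun p => hat p.2) (fun p => c p.1 ⊓ u p.1 p.2) z r

/-- The values of a named function. -/
theorem rel_fnn_sb (hHT : HTStatement) (hSB : SBStatement) (hc : ∀ κ κ', eqP κ κ' ⊓ c κ ≤ c κ')
    (hu : ExU u) (κ : Pt Ω B) (x : ℝ) :
    (VB B).rel (fnn c u) (sb κ) (hat x) = c κ ⊓ u κ x := by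
  rw [rel_fnn]
  refine le_antisymm (iSup_le fun p => ?_) ?_
  · rw [(hSB B Ω).2.1, (hHT B ℝ).1, ← inf_assoc, inf_tv_le_iff]
    intro hx
    subst hx
    rw [eqP_comm]
    exact le_inf ((le_inf inf_le_right (inf_le_left.trans inf_le_left)).trans (hc _ _))
      ((le_inf inf_le_right (inf_le_left.trans inf_le_right)).trans (hu _ _ _))
  · refine le_trans ?_ (le_iSup _ ((κ, x) : Pt Ω B × ℝ))
    rw [beq_refl, beq_refl, inf_top_eq, inf_top_eq]

/-- Locating a pair of the graph at a given point. -/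
theorem rel_at (hSB : SBStatement) (hc : ∀ κ κ', eqP κ κ' ⊓ c κ ≤ c κ') (hu : ExU u)
    (κ : Pt Ω B) (z r : BName B) {Γ : B} (h1 : Γ ≤ beq z (sb κ))
    (h2 : Γ ≤ (VB B).rel (fnn c u) z r) : Γ ≤ ⨆ x : ℝ, (c κ ⊓ u κ x) ⊓ beq r (hat x) := by
  rw [rel_fnn] at h2
  refine le_iSup_cases' h2 fun p => ?_
  refine le_trans ?_ (le_iSup _ p.2)
  have h3 : Γ ⊓ ((c p.1 ⊓ u p.1 p.2) ⊓ (beq z (sb p.1) ⊓ beq r (hat p.2))) ≤ eqP p.1 κ := by
    rw [← (hSB B Ω).2.1]
    refine le_trans (le_inf ?_ (inf_le_left.trans h1)) (beq_trans (sb p.1) z (sb κ))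
    rw [beq_symm]
    exact inf_le_right.trans (inf_le_right.trans inf_le_left)
  refine le_inf (le_inf ?_ ?_) (inf_le_right.trans (inf_le_right.trans inf_le_right))
  · exact (le_inf h3 (inf_le_right.trans (inf_le_left.trans inf_le_left))).trans (hc _ _)
  · exact (le_inf h3 (inf_le_right.trans (inf_le_left.trans inf_le_right))).trans (hu _ _ _)

theorem eqU_half (c : Pt Ω B → B) (u v : Pt Ω B → ℝ → B) (z : BName B) :
    eqU c u v ⊓ bmem z (fnn c u) ≤ bmem z (fnn c v) := by
  unfold fnn
  rw [mem_mk, mem_mk, inf_iSup_eq]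
  refine iSup_mono fun p => ?_
  have h1 : eqU c u v ⊓ (c p.1 ⊓ u p.1 p.2) ≤ v p.1 p.2 := by
    have h2 : eqU c u v ⊓ c p.1 ≤ (u p.1 p.2 ⇔ v p.1 p.2) := by
      rw [← le_himp_iff]
      exact (iInf_le _ p.1).trans (iInf_le _ p.2)
    rw [← inf_assoc]
    exact (inf_le_inf_right _ h2).trans bihimp_inf_le
  refine le_inf (le_inf (inf_le_right.trans (inf_le_left.trans inf_le_left)) ?_)
    (inf_le_right.trans inf_le_right)
  exact (inf_le_inf_left _ inf_le_left).trans h1

theorem eqU_comm (c : Pt Ω B → B) (u v : Pt Ω B → ℝ → B) : eqU c u v = eqU c v u := by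
  simp only [eqU, bihimp_comm]

theorem beq_half (hHT : HTStatement) (hSB : SBStatement) (hc : ∀ κ κ', eqP κ κ' ⊓ c κ ≤ c κ')
    (hu : ExU u) (hv : ExU v) (κ : Pt Ω B) (x : ℝ) :
    beq (fnn c u) (fnn c v) ⊓ (c κ ⊓ u κ x) ≤ v κ x := by
  rw [← rel_fnn_sb hHT hSB hc hu]
  refine (ext_rel_fst (sb κ) (hat x) (fnn c u) (fnn c v)).trans ?_
  change (VB B).rel (fnn c v) (sb κ) (hat x) ≤ _
  rw [rel_fnn_sb hHT hSB hc hv]
  exact inf_le_right

theorem beq_fnn (hHT : HTStatement) (hSB : SBStatement) (hc : ∀ κ κ', eqP κ κ' ⊓ c κ ≤ c κ')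
    (hu : ExU u) (hv : ExU v) : beq (fnn c u) (fnn c v) = eqU c u v := by
  refine le_antisymm (le_iInf fun κ => le_iInf fun x => ?_) ?_
  · rw [le_himp_iff]
    refine le_bihimp' ?_ ?_
    · rw [inf_assoc]
      exact beq_half hHT hSB hc hu hv κ x
    · rw [inf_assoc, beq_symm]
      exact beq_half hHT hSB hc hv hu κ x
  · rw [le_beq_iff]
    intro z
    refine le_antisymm (le_inf inf_le_left (eqU_half c u v z)) (le_inf inf_le_left ?_)
    rw [eqU_comm]
    exact eqU_half c v u z

theorem c3 (hHT : HTStatement) (hSB : SBStatement) (hRO : ROStatement) (hRP : RPStatement) :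
    C3Statement := by
  intro B Ω _ c hc u v w hu hv hw
  obtain ⟨-, -, rA0, rM0, -, -⟩ := hRO B
  obtain ⟨-, -, -, -, -, abs0⟩ := hRP B
  have hmem : ∀ κ, (VB B).mem (sb κ) (Cn c) = c κ := fun κ => (hSB B Ω).2.2.1 c κ hc
  have hmem' : ∀ z, (VB B).mem z (Cn c) = ⨆ κ, c κ ⊓ beq z (sb κ) := (hSB B Ω).2.2.2 c
  have hru := rel_fnn_sb hHT hSB hc hu
  have hrv := rel_fnn_sb hHT hSB hc hv
  have hrw := rel_fnn_sb hHT hSB hc hw
  refine ⟨beq_fnn hHT hSB hc hu hv, fun e => ?_, ?_, fun r => ?_⟩
  · refine le_antisymm (le_iInf fun κ => le_iInf fun x => ?_) (le_iInf fun z => le_iInf fun r => ?_)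
    · rw [← abs0 x e]
      refine (iInf_le _ (sb κ)).trans ((iInf_le _ (hat x)).trans ?_)
      rw [hmem, hru]
      exact himp_le_himp_right (le_inf inf_le_left le_rfl)
    · rw [le_himp_iff, hmem']
      refine le_iSup_cases' (inf_le_right.trans inf_le_left) fun κ => ?_
      refine le_iSup_cases' (rel_at hSB hc hu κ z r (inf_le_right.trans inf_le_right)
        (inf_le_left.trans (inf_le_right.trans inf_le_right))) fun x => ?_
      refine (ext_absb (Xn B ℝ) (rA B) (rO B) (hat e)).of_le' (inf_le_right.trans inf_le_right) ?_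
      rw [abs0 x e]
      have h1 : bdT c u e ⊓ (c κ ⊓ u κ x) ≤ tv (|x| ≤ e) := by
        rw [← le_himp_iff]
        exact (iInf_le _ κ).trans (iInf_le _ x)
      refine le_trans (le_inf ?_ (inf_le_right.trans inf_le_left)) h1
      exact inf_le_left.trans (inf_le_left.trans inf_le_left)
  · refine le_antisymm (le_iInf fun κ => le_iInf fun x => le_iInf fun y => le_iInf fun t => ?_)
      (le_iInf fun z => le_iInf fun r => le_iInf fun s => le_iInf fun q => ?_)
    · refine (iInf_le _ (sb κ)).trans ((iInf_le _ (hat x)).trans ((iInf_le _ (hat y)).trans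
        ((iInf_le _ (hat t)).trans ?_)))
      rw [hmem, hru, hrv, hrw, rA0, (hHT B ℝ).1, tv_congr (eq_comm : t = x + y ↔ x + y = t)]
      refine himp_le_himp_right (le_inf (le_inf (le_inf ?_ ?_) ?_) ?_)
      · exact inf_le_left.trans (inf_le_left.trans inf_le_left)
      · exact inf_le_left.trans inf_le_left
      · exact le_inf (inf_le_left.trans (inf_le_left.trans inf_le_left))
          (inf_le_left.trans inf_le_right)
      · exact le_inf (inf_le_left.trans (inf_le_left.trans inf_le_left)) inf_le_right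
    · rw [le_himp_iff, hmem']
      refine le_iSup_cases' (inf_le_right.trans (inf_le_left.trans (inf_le_left.trans
        inf_le_left))) fun κ => ?_
      refine le_iSup_cases' (rel_at hSB hc hu κ z r (inf_le_right.trans inf_le_right)
        (inf_le_left.trans (inf_le_right.trans (inf_le_left.trans (inf_le_left.trans
          inf_le_right))))) fun x => ?_
      refine le_iSup_cases' (rel_at hSB hc hv κ z s (inf_le_left.trans (inf_le_right.trans
        inf_le_right)) (inf_le_left.trans (inf_le_left.trans (inf_le_right.trans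
          (inf_le_left.trans inf_le_right))))) fun y => ?_
      refine le_iSup_cases' (rel_at hSB hc hw κ z q (inf_le_left.trans (inf_le_left.trans
        (inf_le_right.trans inf_le_right))) (inf_le_left.trans (inf_le_left.trans
          (inf_le_left.trans (inf_le_right.trans inf_le_right))))) fun t => ?_
      refine (ext_op1 (rA B) s q).of_le' (x := hat x)
        (inf_le_left.trans (inf_le_left.trans (inf_le_right.trans inf_le_right))) ?_
      refine (ext_op2 (rA B) (hat x) q).of_le' (x := hat y)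
        (inf_le_left.trans (inf_le_right.trans inf_le_right)) ?_
      refine (ext_op3 (rA B) (hat x) (hat y)).of_le' (x := hat t)
        (inf_le_right.trans inf_le_right) ?_
      rw [rA0, (hHT B ℝ).1, tv_congr (eq_comm : t = x + y ↔ x + y = t)]
      have h1 : sumT c u v w ⊓ (c κ ⊓ u κ x ⊓ v κ y ⊓ w κ t) ≤ tv (x + y = t) := by
        rw [← le_himp_iff]
        exact (iInf_le _ κ).trans ((iInf_le _ x).trans ((iInf_le _ y).trans (iInf_le _ t)))
      refine le_trans (le_inf ?_ (le_inf (le_inf ?_ ?_) ?_)) h1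
      · exact inf_le_left.trans (inf_le_left.trans (inf_le_left.trans (inf_le_left.trans
          inf_le_left)))
      · exact inf_le_left.trans (inf_le_left.trans (inf_le_right.trans inf_le_left))
      · exact inf_le_left.trans (inf_le_right.trans (inf_le_left.trans inf_le_right))
      · exact inf_le_right.trans (inf_le_left.trans inf_le_right)
  · refine le_antisymm (le_iInf fun κ => le_iInf fun x => le_iInf fun t => ?_)
      (le_iInf fun z => le_iInf fun s => le_iInf fun q => ?_)
    · refine (iInf_le _ (sb κ)).trans ((iInf_le _ (hat x)).trans ((iInf_le _ (hat t)).trans ?_))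
      rw [hmem, hru, hrw, rM0, (hHT B ℝ).1, tv_congr (eq_comm : t = r * x ↔ r * x = t)]
      refine himp_le_himp_right (le_inf (le_inf ?_ ?_) ?_)
      · exact inf_le_left.trans inf_le_left
      · exact inf_le_left
      · exact le_inf (inf_le_left.trans inf_le_left) inf_le_right
    · rw [le_himp_iff, hmem']
      refine le_iSup_cases' (inf_le_right.trans (inf_le_left.trans inf_le_left)) fun κ => ?_
      refine le_iSup_cases' (rel_at hSB hc hu κ z s (inf_le_right.trans inf_le_right)
        (inf_le_left.trans (inf_le_right.trans (inf_le_left.trans inf_le_right)))) fun x => ?_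
      refine le_iSup_cases' (rel_at hSB hc hw κ z q (inf_le_left.trans (inf_le_right.trans
        inf_le_right)) (inf_le_left.trans (inf_le_left.trans (inf_le_right.trans
          inf_le_right)))) fun t => ?_
      refine (ext_op2 (rM B) (hat r) q).of_le' (x := hat x)
        (inf_le_left.trans (inf_le_right.trans inf_le_right)) ?_
      refine (ext_op3 (rM B) (hat r) (hat x)).of_le' (x := hat t)
        (inf_le_right.trans inf_le_right) ?_
      rw [rM0, (hHT B ℝ).1, tv_congr (eq_comm : t = r * x ↔ r * x = t)]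
      have h1 : mulT c r u w ⊓ (c κ ⊓ u κ x ⊓ w κ t) ≤ tv (r * x = t) := by
        rw [← le_himp_iff]
        exact (iInf_le _ κ).trans ((iInf_le _ x).trans (iInf_le _ t))
      refine le_trans (le_inf ?_ (le_inf ?_ ?_)) h1
      · exact inf_le_left.trans (inf_le_left.trans (inf_le_left.trans inf_le_left))
      · exact inf_le_left.trans (inf_le_right.trans inf_le_left)
      · exact inf_le_right.trans (inf_le_left.trans inf_le_right)

end Pool.Agent.Lib.MP_9ea9ae_an.V.C3
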