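import Pool.Agent.Lib.MP_9ea9ae_an.V.Base

/-!
# CK: `K` is not Corson
-/

open scoped symmDiff

namespace Pool.Agent.Lib.MP_9ea9ae_an.V

open Pool.Agent.Lib.MP_9ea9ae_an
open Pool.Agent.Lib.MP_100a6c_lc Pool.Agent.Lib.MP_c5d73d_lc.F BName
open Pool.Agent.Lib.MP_6d445e_gt (op isTopo isHaus isFin fsub)

namespace CK

variable {B : Type} [CompleteBooleanAlgebra B] {Ω : Type}

theorem ext_op_snd (m x z : BName B) : Ext (fun y => op (VB B) m x y z) := by
  unfold op
  exact Ext.iSup fun p => (ext_isPair_trd p x).inf (Ext.const _)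

theorem beq_uu (φ γ γ' : BName B) (κ : Pt Ω B) (x : ℝ) :
    beq γ γ' ≤ (uu φ γ κ x ⇔ uu φ γ' κ x) := by
  have h : Ext (fun y => uu φ y κ x) := ext_op_snd φ (sb κ) (hat x)
  refine le_bihimp' (h γ γ') ?_
  have h1 := h γ' γ
  rwa [beq_symm γ' γ] at h1

end CK

open CK in
theorem ck (hCLK : CLKStatement) (_hSB : SBStatement) (hN1 : N1Statement) (hN2 : N2Statement)
    (hN3 : N3Statement) (hNC : NCStatement) : CKStatement := by
  intro B Ω _ D hB hD
  obtain ⟨hClo, hw, -⟩ := hCLK B Ω D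
  have hc := hClo.ext
  refine le_bot_iff.1 (iSup_le fun G => iSup_le fun φ => ?_)
  set Γ : B := isMap (VB B) (Xn B ℝ) (Cn (clK D)) G φ ⊓
    isSig (VB B) (check H36.om) (Xn B ℝ) (rA B) (Cn (clK D)) G φ ⊓
    isInj (VB B) (Cn (clK D)) G φ ⊓
    isInd (VB B) (check H36.om) (Xn B ℝ) (rA B) (rO B) (Cn (clK D)) (tau (clK D)) G φ with hΓ
  have g1 : Γ ≤ isMap (VB B) (Xn B ℝ) (Cn (clK D)) G φ :=
    inf_le_left.trans (inf_le_left.trans inf_le_left)
  have g2 : Γ ≤ isSig (VB B) (check H36.om) (Xn B ℝ) (rA B) (Cn (clK D)) G φ :=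
    inf_le_left.trans (inf_le_left.trans inf_le_right)
  have g3 : Γ ≤ isInj (VB B) (Cn (clK D)) G φ := inf_le_left.trans inf_le_right
  have g4 : Γ ≤ isInd (VB B) (check H36.om) (Xn B ℝ) (rA B) (rO B) (Cn (clK D)) (tau (clK D))
    G φ := inf_le_right
  -- the countably many coordinates
  have h1 : ∀ s : T, ∃ γ : ℕ → BName B, ∀ γ', Γ ⊓ bmem γ' G ⊓ (uu φ γ' (wB D s) 0)ᶜ ≤
      ⨆ n, beq γ' (γ n) := fun s =>
    hN2 B Ω (clK D) hc G φ (wB D s) Γ g2 (by rw [hw s]; exact le_top)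
  choose γ₀ hγ₀ using h1
  have hT : Nonempty T := ⟨⟨[], trivial⟩⟩
  obtain ⟨e, he⟩ := exists_surjective_nat T
  let γ : ℕ → BName B := fun m => γ₀ (e m.unpair.1) m.unpair.2
  refine (hNC B Ω D hB hD (BName B) (fun j => bmem j G) (fun j => uu φ j) Γ γ
    (fun j => (hN1 B Ω (clK D) hc G φ j).1) (fun j => ?_) (fun j => ?_) (fun κ κ' => ?_)).le
  · exact le_trans (le_inf (le_inf (inf_le_left.trans g1) (inf_le_left.trans g4)) inf_le_right)
      (hN1 B Ω (clK D) hc G φ j).2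
  · refine le_cases (⨅ s : T, uu φ j (wB D s) 0) (inf_le_right.trans le_sup_right) ?_
    refine le_trans ?_ le_sup_left
    rw [compl_iInf]
    refine le_iSup_cases' inf_le_right fun s => ?_
    have h2 : Γ ⊓ bmem j G ⊓ (⨆ s : T, (uu φ j (wB D s) 0)ᶜ) ⊓ (uu φ j (wB D s) 0)ᶜ ≤
        ⨆ n, beq j (γ₀ s n) :=
      (inf_le_inf_right _ inf_le_left).trans (hγ₀ s j)
    refine le_iSup_cases' h2 fun n => ?_
    obtain ⟨k, hk⟩ := he s
    refine le_trans ?_ (le_iSup _ (Nat.pair k n))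
    have h3 : γ (Nat.pair k n) = γ₀ s n := by simp only [γ, Nat.unpair_pair, hk]
    rw [h3]
    refine le_inf ?_ (inf_le_right.trans ?_)
    · refine le_trans (le_inf inf_le_right ?_) (bmem_congr_left j (γ₀ s n) G)
      exact inf_le_left.trans (inf_le_left.trans (inf_le_left.trans inf_le_right))
    · refine le_iInf fun κ => le_iInf fun x => le_himp_iff.2 (inf_le_left.trans ?_)
      exact beq_uu φ j (γ₀ s n) κ x
  · refine le_trans ?_ (hN3 B Ω (clK D) hc G φ κ κ')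
    refine le_inf (le_inf (le_inf (le_inf ?_ ?_) ?_) ?_) inf_le_right
    · exact inf_le_left.trans (inf_le_left.trans (inf_le_left.trans g1))
    · exact inf_le_left.trans (inf_le_left.trans (inf_le_left.trans g3))
    · exact inf_le_left.trans (inf_le_left.trans inf_le_right)
    · exact inf_le_left.trans inf_le_right

end Pool.Agent.Lib.MP_9ea9ae_an.V
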