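import Pool.Agent.Lib.MP_9ea9ae_an.V.Base

/-!
# Module CL: `L` is Corson
-/

open scoped symmDiff

namespace Pool.Agent.Lib.MP_9ea9ae_an.V.CL

open Pool.Agent.Lib.MP_9ea9ae_an Pool.Agent.Lib.MP_9ea9ae_an.V
open Pool.Agent.Lib.MP_100a6c_lc Pool.Agent.Lib.MP_c5d73d_lc.F BName
open Pool.Agent.Lib.MP_6d445e_gt (op isTopo isHaus isFin fsub)

variable {B : Type} [CompleteBooleanAlgebra B] {Ω : Type} {c : Pt Ω B → B}

theorem op_eq (m x y z : BName B) : op (VB B) m x y z = bmem (opr (opr x y) z) m := by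
  unfold op
  simp only [isPair_eq, rel_eq]
  refine le_antisymm (iSup_le fun p => ?_) ?_
  · exact (ext_opr_left z (ext_mem_left m)).of_le (x := p) inf_le_left inf_le_right
  · refine le_iSup_of_le (opr x y) ?_
    rw [beq_refl, top_inf_eq]

theorem ext_op_fst (m y z : BName B) : Ext (fun x => op (VB B) m x y z) :=
  Ext.iSup fun p => (ext_isPair_snd p y).inf (Ext.const _)

theorem ext_op_snd (m x z : BName B) : Ext (fun y => op (VB B) m x y z) :=
  Ext.iSup fun p => (ext_isPair_trd p x).inf (Ext.const _)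

theorem ext_op_trd (m x y : BName B) : Ext (fun z => op (VB B) m x y z) :=
  Ext.iSup fun p => (Ext.const _).inf (ext_rel_trd m p)

theorem ext_near1 (a o y e : BName B) : Ext (fun x => near (VB B) a o x y e) :=
  Ext.iSup fun p => Ext.iSup fun q => ((((((Ext.const _).inf (ext_op_fst a e q)).inf
    (ext_rel_snd o p)).inf (ext_VBeq_left p).compl).inf (Ext.const _)).inf (Ext.const _))

theorem ext_near2 (a o x e : BName B) : Ext (fun y => near (VB B) a o x y e) :=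
  Ext.iSup fun p => Ext.iSup fun q => ((((((ext_op_fst a e p).inf (Ext.const _)).inf
    (Ext.const _)).inf (Ext.const _)).inf (ext_rel_snd o q)).inf (ext_VBeq_left q).compl)

theorem ext_near3 (a o x y : BName B) : Ext (fun e => near (VB B) a o x y e) :=
  Ext.iSup fun p => Ext.iSup fun q => ((((((ext_op_snd a y p).inf (ext_op_snd a x q)).inf
    (Ext.const _)).inf (Ext.const _)).inf (Ext.const _)).inf (Ext.const _))

/-- The value `φ(κ, o)`. -/
noncomputable def val (κ : Pt Ω B) (o : Om Ω) (r : BName B) : B :=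
  (κ o ⊓ beq r (hat (1 : ℝ))) ⊔ ((κ o)ᶜ ⊓ beq r (hat (0 : ℝ)))

theorem val_one (κ : Pt Ω B) (o : Om Ω) : κ o ≤ val κ o (hat (1 : ℝ)) := by
  unfold val
  rw [beq_refl, inf_top_eq]
  exact le_sup_left

theorem val_zero (κ : Pt Ω B) (o : Om Ω) : (κ o)ᶜ ≤ val κ o (hat (0 : ℝ)) := by
  unfold val
  rw [beq_refl, inf_top_eq]
  exact le_sup_right

theorem val_tot (κ : Pt Ω B) (o : Om Ω) : val κ o (hat (1 : ℝ)) ⊔ val κ o (hat (0 : ℝ)) = ⊤ :=
  top_le_iff.1 ((sup_compl_eq_top (x := κ o)).ge.trans (sup_le_sup (val_one κ o) (val_zero κ o)))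

theorem opv (hHT : HTStatement) (hSB : SBStatement) (hc : ∀ κ κ', eqP κ κ' ⊓ c κ ≤ c κ')
    (κ : Pt Ω B) (o : Om Ω) (r : BName B) :
    op (VB B) (phn c) (sb κ) (hat o) r = c κ ⊓ val κ o r := by
  rw [op_eq, phn, mem_mk]
  refine le_antisymm (iSup_le fun p => ?_) ?_
  · rw [beq_opr, beq_opr, (hSB B Ω).2.1, (hHT B (Om Ω)).1]
    obtain ⟨κ', o', b⟩ := p
    simp only
    rw [inf_right_comm (eqP κ κ'), ← inf_assoc, ← inf_assoc, inf_tv_le_iff]
    rintro rfl
    have main : ∀ (Γ W w : B) (v : BName B), Γ = (c κ' ⊓ W) ⊓ eqP κ κ' ⊓ beq r v →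
        (Γ ≤ eqP κ κ' → Γ ≤ W → Γ ≤ beq r v → Γ ≤ w) → Γ ≤ c κ ⊓ w := by
      intro Γ W w v hΓ h
      have g1 : Γ ≤ eqP κ κ' := by rw [hΓ]; exact inf_le_left.trans inf_le_right
      have g2 : Γ ≤ c κ' := by rw [hΓ]; exact inf_le_left.trans (inf_le_left.trans inf_le_left)
      have g4 : Γ ≤ W := by rw [hΓ]; exact inf_le_left.trans (inf_le_left.trans inf_le_right)
      have g5 : Γ ≤ beq r v := by rw [hΓ]; exact inf_le_right
      refine le_inf ?_ (h g1 g4 g5)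
      rw [eqP_comm] at g1
      exact (le_inf g1 g2).trans (hc κ' κ)
    cases b
    · refine main _ (κ' o)ᶜ _ (hat 0) rfl fun g1 g4 g5 => ?_
      refine le_sup_of_le_right (le_inf ?_ g5)
      rw [le_compl_iff_disjoint_right, disjoint_iff, ← le_bot_iff]
      exact le_trans (le_inf ((inf_le_inf_right _ g1).trans (eqP_inf_le κ κ' o))
          (inf_le_left.trans g4)) (inf_compl_self _).le
    · refine main _ (κ' o) _ (hat 1) rfl fun g1 g4 g5 => ?_
      exact le_sup_of_le_left (le_inf ((le_inf g1 g4).trans (eqP_inf_le' κ κ' o)) g5)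
  · unfold val
    rw [inf_sup_left]
    refine sup_le ?_ ?_
    · refine le_trans ?_ (le_iSup _ ((κ, o, true) : Pt Ω B × Om Ω × Bool))
      simp only [if_true, beq_opr, beq_refl, top_inf_eq, ← inf_assoc]
      exact le_rfl
    · refine le_trans ?_ (le_iSup _ ((κ, o, false) : Pt Ω B × Om Ω × Bool))
      simp only [Bool.false_eq_true, if_false, beq_opr, beq_refl, top_inf_eq, ← inf_assoc]
      exact le_rfl

/-- Elements of the graph of `φ`. -/
theorem op_dom (x y r : BName B) :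
    op (VB B) (phn c) x y r ≤ ⨆ q : Pt Ω B × Om Ω, c q.1 ⊓ (beq x (sb q.1) ⊓ beq y (hat q.2)) := by
  rw [op_eq, phn, mem_mk]
  refine iSup_le fun p => ?_
  rw [beq_opr, beq_opr]
  refine le_trans ?_ (le_iSup _ ((p.1, p.2.1) : Pt Ω B × Om Ω))
  exact le_inf (inf_le_left.trans inf_le_left) (inf_le_right.trans inf_le_left)

theorem val_unq (κ : Pt Ω B) (o : Om Ω) (r s : BName B) : val κ o r ⊓ val κ o s ≤ beq r s := by
  refine le_cases (κ o) ?_ ?_
  · have h : ∀ t, val κ o t ⊓ κ o ≤ beq t (hat (1 : ℝ)) := by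
      intro t
      unfold val
      rw [inf_sup_right]
      refine sup_le (inf_le_left.trans inf_le_right) ?_
      refine (le_inf (inf_le_left.trans inf_le_left) inf_le_right).trans ?_
      rw [compl_inf_self]
      exact bot_le
    refine (ext_eq_right r).of_le' (x := hat (1 : ℝ)) ?_ ?_
    · exact (le_inf (inf_le_left.trans inf_le_right) inf_le_right).trans (h s)
    · exact (le_inf (inf_le_left.trans inf_le_left) inf_le_right).trans (h r)
  · have h : ∀ t, val κ o t ⊓ (κ o)ᶜ ≤ beq t (hat (0 : ℝ)) := by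
      intro t
      unfold val
      rw [inf_sup_right]
      refine sup_le ?_ (inf_le_left.trans inf_le_right)
      refine (le_inf (inf_le_left.trans inf_le_left) inf_le_right).trans ?_
      rw [inf_compl_self]
      exact bot_le
    refine (ext_eq_right r).of_le' (x := hat (0 : ℝ)) ?_ ?_
    · exact (le_inf (inf_le_left.trans inf_le_right) inf_le_right).trans (h s)
    · exact (le_inf (inf_le_left.trans inf_le_left) inf_le_right).trans (h r)

theorem isMap_top (hHT : HTStatement) (hSB : SBStatement) (hc : ∀ κ κ', eqP κ κ' ⊓ c κ ≤ c κ') :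
    isMap (VB B) (Xn B ℝ) (Cn c) (Xn B (Om Ω)) (phn c) = ⊤ := by
  refine top_le_iff.1 (le_inf (le_iInf fun x => le_iInf fun y => ?_) (le_iInf fun x =>
    le_iInf fun y => le_iInf fun r => le_iInf fun s => ?_))
  · rw [le_himp_iff, top_inf_eq, VB_mem, VB_mem, (hSB B Ω).2.2.2, (hHT B (Om Ω)).2.1]
    refine le_iSup_cases' inf_le_left fun κ => le_iSup_cases' (inf_le_left.trans inf_le_right)
      fun o => ?_
    obtain ⟨Γ, hΓ⟩ : ∃ Γ, Γ = (⨆ κ, c κ ⊓ beq x (sb κ)) ⊓ (⨆ o : Om Ω, beq y (hat o)) ⊓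
      (c κ ⊓ beq x (sb κ)) ⊓ beq y (hat o) := ⟨_, rfl⟩
    rw [← hΓ]
    have g1 : Γ ≤ c κ := by rw [hΓ]; exact inf_le_left.trans (inf_le_right.trans inf_le_left)
    have g2 : Γ ≤ beq x (sb κ) := by
      rw [hΓ]; exact inf_le_left.trans (inf_le_right.trans inf_le_right)
    have g3 : Γ ≤ beq y (hat o) := by rw [hΓ]; exact inf_le_right
    have key : ∀ v : ℝ, Γ ⊓ val κ o (hat v) ≤
        ⨆ r, (VB B).mem r (Xn B ℝ) ⊓ op (VB B) (phn c) x y r := by
      intro v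
      refine le_trans (le_inf ?_ ?_) (le_iSup (fun r => (VB B).mem r (Xn B ℝ) ⊓
        op (VB B) (phn c) x y r) (hat v))
      · rw [VB_mem, (hHT B ℝ).2.2]; exact le_top
      · refine (ext_op_fst (phn c) y (hat v)).of_le' (inf_le_left.trans g2) ?_
        refine (ext_op_snd (phn c) (sb κ) (hat v)).of_le' (inf_le_left.trans g3) ?_
        rw [opv hHT hSB hc]
        exact inf_le_inf_right _ g1
    calc Γ = Γ ⊓ (val κ o (hat (1 : ℝ)) ⊔ val κ o (hat (0 : ℝ))) := by rw [val_tot, inf_top_eq]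
      _ ≤ _ := by
        rw [inf_sup_left]
        exact sup_le (key 1) (key 0)
  · rw [le_himp_iff, top_inf_eq]
    refine le_iSup_cases' (inf_le_left.trans (op_dom x y r)) fun q => ?_
    obtain ⟨Γ, hΓ⟩ : ∃ Γ, Γ = op (VB B) (phn c) x y r ⊓ op (VB B) (phn c) x y s ⊓
      (c q.1 ⊓ (beq x (sb q.1) ⊓ beq y (hat q.2))) := ⟨_, rfl⟩
    rw [← hΓ]
    have g1 : Γ ≤ op (VB B) (phn c) x y r := by rw [hΓ]; exact inf_le_left.trans inf_le_left
    have g2 : Γ ≤ op (VB B) (phn c) x y s := by rw [hΓ]; exact inf_le_left.trans inf_le_right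
    have g3 : Γ ≤ beq x (sb q.1) := by
      rw [hΓ]; exact inf_le_right.trans (inf_le_right.trans inf_le_left)
    have g4 : Γ ≤ beq y (hat q.2) := by
      rw [hΓ]; exact inf_le_right.trans (inf_le_right.trans inf_le_right)
    have k : ∀ t, Γ ≤ op (VB B) (phn c) x y t → Γ ≤ val q.1 q.2 t := by
      intro t ht
      have h1 := (ext_op_fst (phn c) y t).of_le g3 ht
      have h2 := (ext_op_snd (phn c) (sb q.1) t).of_le g4 h1
      rw [opv hHT hSB hc] at h2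
      exact h2.trans inf_le_right
    exact (le_inf (k r g1) (k s g2)).trans (val_unq q.1 q.2 r s)

theorem isSig_top (hHT : HTStatement) (hSB : SBStatement) (hRP : RPStatement)
    (hc : ∀ κ κ', eqP κ κ' ⊓ c κ ≤ c κ')
    (hs : ∀ κ, c κ ≤ ⨆ C : {C : Set (Om Ω) // C.Countable}, ⨅ o : {o // o ∉ C.1}, (κ o.1)ᶜ) :
    isSig (VB B) (check H36.om) (Xn B ℝ) (rA B) (Cn c) (Xn B (Om Ω)) (phn c) = ⊤ := by
  refine top_le_iff.1 (le_iInf fun x => le_iInf fun E => ?_)
  rw [le_himp_iff, top_inf_eq, VB_mem, (hSB B Ω).2.2.2]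
  refine le_iSup_cases' inf_le_left fun κ => ?_
  refine le_iSup_cases' (inf_le_right.trans (inf_le_left.trans (hs κ))) fun C => ?_
  obtain ⟨Γ, hΓ⟩ : ∃ Γ, Γ = (⨆ κ, c κ ⊓ beq x (sb κ)) ⊓ (⨅ γ, (VB B).mem γ E ⇨
      (VB B).mem γ (Xn B (Om Ω)) ⊓ ⨅ z, isId (VB B) (Xn B ℝ) (rA B) z ⇨
        (op (VB B) (phn c) x γ z)ᶜ) ⊓ (c κ ⊓ beq x (sb κ)) ⊓
          ⨅ o : {o // o ∉ C.1}, (κ o.1)ᶜ := ⟨_, rfl⟩
  rw [← hΓ]
  have g1 : Γ ≤ ⨅ γ, (VB B).mem γ E ⇨ (VB B).mem γ (Xn B (Om Ω)) ⊓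
      ⨅ z, isId (VB B) (Xn B ℝ) (rA B) z ⇨ (op (VB B) (phn c) x γ z)ᶜ := by
    rw [hΓ]; exact inf_le_left.trans (inf_le_left.trans inf_le_right)
  have g2 : Γ ≤ c κ := by rw [hΓ]; exact inf_le_left.trans (inf_le_right.trans inf_le_left)
  have g3 : Γ ≤ beq x (sb κ) := by
    rw [hΓ]; exact inf_le_left.trans (inf_le_right.trans inf_le_right)
  have g4 : Γ ≤ ⨅ o : {o // o ∉ C.1}, (κ o.1)ᶜ := by rw [hΓ]; exact inf_le_right
  have h3 : (check H36.om : BName B) = check (Cardinal.aleph0.{0}.ord.toZFSet) := by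
    rw [Cardinal.ord_aleph0]; rfl
  rw [h3]
  refine le_leCard_of_enum (Y := C.1) (t := fun o => hat o.1) Cardinal.aleph0
    (Cardinal.mk_le_aleph0_iff.2 C.2) fun z => ?_
  have h4 : Γ ⊓ bmem z E ≤ bmem z (Xn B (Om Ω)) ⊓ ⨅ r, isId (VB B) (Xn B ℝ) (rA B) r ⇨
      (op (VB B) (phn c) x z r)ᶜ := iInf_himp_apply g1 z inf_le_left inf_le_right
  rw [(hHT B (Om Ω)).2.1] at h4
  refine le_iSup_cases' (h4.trans inf_le_left) fun o => ?_
  by_cases ho : o ∈ C.1
  · exact le_trans inf_le_right (le_iSup (fun o : C.1 => beq z (hat o.1)) ⟨o, ho⟩)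
  · refine le_trans ?_ bot_le
    obtain ⟨Δ, hΔ⟩ : ∃ Δ, Δ = Γ ⊓ bmem z E ⊓ beq z (hat o) := ⟨_, rfl⟩
    rw [← hΔ]
    have d1 : Δ ≤ Γ := by rw [hΔ]; exact inf_le_left.trans inf_le_left
    have d2 : Δ ≤ beq z (hat o) := by rw [hΔ]; exact inf_le_right
    have d3 : Δ ≤ (op (VB B) (phn c) x z (hat (0 : ℝ)))ᶜ := by
      have h5 : Δ ≤ ⨅ r, isId (VB B) (Xn B ℝ) (rA B) r ⇨ (op (VB B) (phn c) x z r)ᶜ := by
        rw [hΔ]; exact inf_le_left.trans (h4.trans inf_le_right)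
      have h6 := h5.trans (iInf_le _ (hat (0 : ℝ)))
      rwa [(hRP B).1, beq_refl, top_himp] at h6
    have d4 : Δ ≤ op (VB B) (phn c) x z (hat (0 : ℝ)) := by
      refine (ext_op_fst (phn c) z (hat (0 : ℝ))).of_le' (d1.trans g3) ?_
      refine (ext_op_snd (phn c) (sb κ) (hat (0 : ℝ))).of_le' d2 ?_
      rw [opv hHT hSB hc]
      refine le_inf (d1.trans g2) (le_trans ?_ (val_zero κ o))
      exact d1.trans (g4.trans (iInf_le (fun o : {o // o ∉ C.1} => (κ o.1)ᶜ) ⟨o, ho⟩))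
    exact (le_inf d4 d3).trans (inf_compl_self _).le

/-- Comparison of two values. -/
theorem bihimp_of_val (hHT : HTStatement) (κ κ' : Pt Ω B) (o : Om Ω) {Γ : B}
    (h : ∀ v : ℝ, Γ ⊓ val κ o (hat v) ≤ val κ' o (hat v)) : Γ ≤ (κ o ⇔ κ' o) := by
  have h01 : (beq (hat (1 : ℝ)) (hat (0 : ℝ)) : B) = ⊥ := by
    rw [(hHT B ℝ).1, tv_neg one_ne_zero]
  have h10 : (beq (hat (0 : ℝ)) (hat (1 : ℝ)) : B) = ⊥ := by
    rw [(hHT B ℝ).1, tv_neg zero_ne_one]
  refine le_bihimp' ?_ ?_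
  · refine (inf_le_inf_left _ (val_one κ o)).trans ((h 1).trans ?_)
    unfold val
    rw [h01, beq_refl, inf_bot_eq, sup_bot_eq, inf_top_eq]
  · refine le_contra ?_
    have h1 : Γ ⊓ κ' o ⊓ (κ o)ᶜ ≤ val κ' o (hat (0 : ℝ)) :=
      (le_inf (inf_le_left.trans inf_le_left) (inf_le_right.trans (val_zero κ o))).trans (h 0)
    unfold val at h1
    rw [h10, beq_refl, inf_bot_eq, bot_sup_eq, inf_top_eq] at h1
    exact (le_inf (inf_le_left.trans inf_le_right) h1).trans (inf_compl_self _).le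

theorem isInj_top (hHT : HTStatement) (hSB : SBStatement) (hc : ∀ κ κ', eqP κ κ' ⊓ c κ ≤ c κ') :
    isInj (VB B) (Cn c) (Xn B (Om Ω)) (phn c) = ⊤ := by
  refine top_le_iff.1 (le_iInf fun x => le_iInf fun y => ?_)
  rw [le_himp_iff, top_inf_eq, VB_mem, VB_mem, (hSB B Ω).2.2.2, (hSB B Ω).2.2.2]
  refine le_iSup_cases' (inf_le_left.trans inf_le_left) fun κ =>
    le_iSup_cases' (inf_le_left.trans (inf_le_left.trans inf_le_right)) fun κ' => ?_
  obtain ⟨Γ, hΓ⟩ : ∃ Γ, Γ = (⨆ κ, c κ ⊓ beq x (sb κ)) ⊓ (⨆ κ, c κ ⊓ beq y (sb κ)) ⊓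
    (⨅ γ, ⨅ r, (VB B).mem γ (Xn B (Om Ω)) ⊓ op (VB B) (phn c) x γ r ⇨ op (VB B) (phn c) y γ r) ⊓
    (c κ ⊓ beq x (sb κ)) ⊓ (c κ' ⊓ beq y (sb κ')) := ⟨_, rfl⟩
  rw [← hΓ]
  have g1 : Γ ≤ ⨅ γ, ⨅ r, (VB B).mem γ (Xn B (Om Ω)) ⊓ op (VB B) (phn c) x γ r ⇨
      op (VB B) (phn c) y γ r := by
    rw [hΓ]; exact inf_le_left.trans (inf_le_left.trans inf_le_right)
  have g2 : Γ ≤ c κ := by
    rw [hΓ]; exact inf_le_left.trans (inf_le_right.trans inf_le_left)
  have g3 : Γ ≤ beq x (sb κ) := by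
    rw [hΓ]; exact inf_le_left.trans (inf_le_right.trans inf_le_right)
  have g5 : Γ ≤ beq y (sb κ') := by rw [hΓ]; exact inf_le_right.trans inf_le_right
  have h1 : Γ ≤ beq (sb κ) (sb κ') := by
    rw [(hSB B Ω).2.1]
    refine le_eqP fun o => bihimp_of_val hHT κ κ' o fun v => ?_
    have h2 := g1.trans ((iInf_le _ (hat o)).trans (iInf_le _ (hat v)))
    have h3 : Γ ⊓ val κ o (hat v) ≤ op (VB B) (phn c) y (hat o) (hat v) := by
      refine (le_inf (inf_le_left.trans h2) (le_inf ?_ ?_)).trans himp_inf_le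
      · rw [VB_mem, (hHT B (Om Ω)).2.2]; exact le_top
      · refine (ext_op_fst (phn c) (hat o) (hat v)).of_le' (inf_le_left.trans g3) ?_
        rw [opv hHT hSB hc]
        exact inf_le_inf_right _ g2
    have h4 := (ext_op_fst (phn c) (hat o) (hat v)).of_le (inf_le_left.trans g5) h3
    rw [opv hHT hSB hc] at h4
    exact h4.trans inf_le_right
  exact (ext_eq_right x).of_le' g5 ((ext_eq_right x).of_le h1 g3)

/-- The name of a finite set of coordinates. -/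
noncomputable def fsn (F : Finset (Om Ω)) : BName B :=
  mk (Fin F.card) (fun i => hat (F.equivFin.symm i).1) fun _ => ⊤

theorem mem_fsn (F : Finset (Om Ω)) {o : Om Ω} (ho : o ∈ F) :
    bmem (hat o) (fsn F : BName B) = ⊤ := by
  rw [fsn, mem_mk]
  refine top_le_iff.1 (le_trans ?_ (le_iSup _ (F.equivFin ⟨o, ho⟩)))
  rw [Equiv.symm_apply_apply, beq_refl, inf_top_eq]

theorem sub_fsn (hHT : HTStatement) (F : Finset (Om Ω)) :
    (VB B).sub (fsn F) (Xn B (Om Ω)) = ⊤ := by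
  refine top_le_iff.1 (le_iInf fun z => ?_)
  rw [le_himp_iff, top_inf_eq, VB_mem, VB_mem, fsn, mem_mk, (hHT B (Om Ω)).2.1]
  exact iSup_le fun i => inf_le_right.trans
    (le_iSup (fun o : Om Ω => beq z (hat o)) (F.equivFin.symm i).1)

theorem open_ball (hHT : HTStatement) (hSB : SBStatement) (hTA : TAStatement) (hFI : FIStatement)
    (hRP : RPStatement) (hc : ∀ κ κ', eqP κ κ' ⊓ c κ ≤ c κ') (A : BName B) :
    (VB B).sub A (Cn c) ⊓ bmem A (tau c) ≤ ⨅ x, (VB B).mem x A ⇨ ⨆ F, ⨆ e,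
      fsub (VB B) (check H36.om) F (Xn B (Om Ω)) ⊓ pos (VB B) (Xn B ℝ) (rA B) (rO B) e ⊓
        ⨅ y, isBall (VB B) (rA B) (rO B) (Cn c) (phn c) x F e y ⇨ (VB B).mem y A := by
  refine le_iInf fun x => ?_
  rw [le_himp_iff, (hTA B Ω c hc).1]
  have h1 : (VB B).sub A (Cn c) ⊓ ((VB B).sub A (Cn c) ⊓ opn c A) ⊓ (VB B).mem x A ≤
      bmem x (Cn c) := sub_apply (inf_le_left.trans inf_le_left) x le_rfl inf_le_right
  rw [(hSB B Ω).2.2.2] at h1
  refine le_iSup_cases' h1 fun κ => ?_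
  obtain ⟨Γ, hΓ⟩ : ∃ Γ, Γ = (VB B).sub A (Cn c) ⊓ ((VB B).sub A (Cn c) ⊓ opn c A) ⊓
    (VB B).mem x A ⊓ (c κ ⊓ beq x (sb κ)) := ⟨_, rfl⟩
  rw [← hΓ]
  have g1 : Γ ≤ opn c A := by
    rw [hΓ]; exact inf_le_left.trans (inf_le_left.trans (inf_le_right.trans inf_le_right))
  have g2 : Γ ≤ bmem x A := by rw [hΓ]; exact inf_le_left.trans inf_le_right
  have g3 : Γ ≤ c κ := by rw [hΓ]; exact inf_le_right.trans inf_le_left
  have g4 : Γ ≤ beq x (sb κ) := by rw [hΓ]; exact inf_le_right.trans inf_le_right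
  have g5 : Γ ≤ bmem (sb κ) A := (ext_mem_left A).of_le g4 g2
  have g6 := (le_inf (g1.trans (iInf_le _ κ)) g5).trans himp_inf_le
  refine le_iSup_cases' g6 fun F => ?_
  refine le_trans ?_ (le_iSup _ (fsn F))
  refine le_trans ?_ (le_iSup _ (hat (1 : ℝ)))
  refine le_inf (le_inf (le_inf ?_ ?_) ?_) (le_iInf fun y => ?_)
  · rw [sub_fsn hHT]; exact le_top
  · rw [fsn, (hFI B).1]; exact le_top
  · rw [(hRP B).2.2.2.1, tv_pos one_pos]; exact le_top
  · rw [le_himp_iff]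
    obtain ⟨Γ', hΓ'⟩ : ∃ Γ', Γ' = Γ ⊓ (⨅ κ' : Pt Ω B, c κ' ⊓ agree F κ κ' ⇨ bmem (sb κ') A) ⊓
      isBall (VB B) (rA B) (rO B) (Cn c) (phn c) x (fsn F) (hat (1 : ℝ)) y := ⟨_, rfl⟩
    rw [← hΓ']
    have a1 : Γ' ≤ Γ := by rw [hΓ']; exact inf_le_left.trans inf_le_left
    have a2 : Γ' ≤ ⨅ κ' : Pt Ω B, c κ' ⊓ agree F κ κ' ⇨ bmem (sb κ') A := by
      rw [hΓ']; exact inf_le_left.trans inf_le_right
    have a3 : Γ' ≤ bmem y (Cn c) := by rw [hΓ']; exact inf_le_right.trans inf_le_left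
    have a4 : Γ' ≤ ⨅ γ, ⨅ r, ⨅ s, (VB B).mem γ (fsn F) ⊓ op (VB B) (phn c) x γ r ⊓
        op (VB B) (phn c) y γ s ⇨ near (VB B) (rA B) (rO B) r s (hat (1 : ℝ)) := by
      rw [hΓ']; exact inf_le_right.trans inf_le_right
    rw [(hSB B Ω).2.2.2] at a3
    refine le_iSup_cases' a3 fun κ' => ?_
    obtain ⟨Δ, hΔ⟩ : ∃ Δ, Δ = Γ' ⊓ (c κ' ⊓ beq y (sb κ')) := ⟨_, rfl⟩
    rw [← hΔ]
    have b1 : Δ ≤ Γ' := by rw [hΔ]; exact inf_le_left
    have b2 : Δ ≤ c κ' := by rw [hΔ]; exact inf_le_right.trans inf_le_left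
    have b3 : Δ ≤ beq y (sb κ') := by rw [hΔ]; exact inf_le_right.trans inf_le_right
    have key : ∀ o ∈ F, ∀ v v' : ℝ, Δ ⊓ (val κ o (hat v) ⊓ val κ' o (hat v')) ≤
        tv (|v - v'| < 1) := by
      intro o ho v v'
      have h2 : Δ ≤ bmem (hat o) (fsn F) ⊓ op (VB B) (phn c) x (hat o) (hat v) ⊓
          op (VB B) (phn c) y (hat o) (hat v') ⇨ near (VB B) (rA B) (rO B) (hat v) (hat v')
            (hat (1 : ℝ)) :=
        b1.trans (a4.trans ((iInf_le _ (hat o)).trans ((iInf_le _ (hat v)).trans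
          (iInf_le _ (hat v')))))
      rw [mem_fsn F ho, top_inf_eq, (hRP B).2.2.2.2.1] at h2
      refine (le_inf (inf_le_left.trans h2) (le_inf ?_ ?_)).trans himp_inf_le
      · refine (ext_op_fst (phn c) (hat o) (hat v)).of_le'
          (inf_le_left.trans (b1.trans (a1.trans g4))) ?_
        rw [opv hHT hSB hc]
        exact le_inf (inf_le_left.trans (b1.trans (a1.trans g3)))
          (inf_le_right.trans inf_le_left)
      · refine (ext_op_fst (phn c) (hat o) (hat v')).of_le' (inf_le_left.trans b3) ?_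
        rw [opv hHT hSB hc]
        exact le_inf (inf_le_left.trans b2) (inf_le_right.trans inf_le_right)
    have hag : Δ ≤ agree F κ κ' := by
      refine le_agree fun o ho => le_bihimp' (le_contra ?_) (le_contra ?_)
      · refine le_trans (le_inf (inf_le_left.trans inf_le_left) (le_inf
          (inf_le_left.trans (inf_le_right.trans (val_one κ o)))
          (inf_le_right.trans (val_zero κ' o)))) ((key o ho 1 0).trans ?_)
        rw [tv_neg (by norm_num)]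
      · refine le_trans (le_inf (inf_le_left.trans inf_le_left) (le_inf
          (inf_le_right.trans (val_zero κ o))
          (inf_le_left.trans (inf_le_right.trans (val_one κ' o))))) ((key o ho 0 1).trans ?_)
        rw [tv_neg (by norm_num)]
    refine (ext_mem_left A).of_le' b3 ?_
    exact (le_inf (b1.trans (a2.trans (iInf_le _ κ'))) (le_inf b2 hag)).trans himp_inf_le

theorem ball_open (hHT : HTStatement) (hSB : SBStatement) (hTA : TAStatement) (hFI : FIStatement)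
    (hRP : RPStatement) (hc : ∀ κ κ', eqP κ κ' ⊓ c κ ≤ c κ') (A : BName B) :
    (VB B).sub A (Cn c) ⊓ (⨅ x, (VB B).mem x A ⇨ ⨆ F, ⨆ e,
      fsub (VB B) (check H36.om) F (Xn B (Om Ω)) ⊓ pos (VB B) (Xn B ℝ) (rA B) (rO B) e ⊓
        ⨅ y, isBall (VB B) (rA B) (rO B) (Cn c) (phn c) x F e y ⇨ (VB B).mem y A) ≤
      bmem A (tau c) := by
  rw [(hTA B Ω c hc).1]
  refine le_inf inf_le_left (le_iInf fun κ => ?_)
  rw [le_himp_iff]
  obtain ⟨Γ, hΓ⟩ : ∃ Γ, Γ = (VB B).sub A (Cn c) ⊓ (⨅ x, (VB B).mem x A ⇨ ⨆ F, ⨆ e,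
      fsub (VB B) (check H36.om) F (Xn B (Om Ω)) ⊓ pos (VB B) (Xn B ℝ) (rA B) (rO B) e ⊓
        ⨅ y, isBall (VB B) (rA B) (rO B) (Cn c) (phn c) x F e y ⇨ (VB B).mem y A) ⊓
          bmem (sb κ) A := ⟨_, rfl⟩
  rw [← hΓ]
  have g1 : Γ ≤ ⨅ x, (VB B).mem x A ⇨ ⨆ F, ⨆ e,
      fsub (VB B) (check H36.om) F (Xn B (Om Ω)) ⊓ pos (VB B) (Xn B ℝ) (rA B) (rO B) e ⊓
        ⨅ y, isBall (VB B) (rA B) (rO B) (Cn c) (phn c) x F e y ⇨ (VB B).mem y A := by
    rw [hΓ]; exact inf_le_left.trans inf_le_right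
  have g2 : Γ ≤ bmem (sb κ) A := by rw [hΓ]; exact inf_le_right
  have g3 : Γ ≤ c κ := by
    rw [← (hSB B Ω).2.2.1 c κ hc]
    exact sub_apply (by rw [hΓ]; exact inf_le_left.trans inf_le_left) (sb κ) le_rfl g2
  refine le_iSup_cases' (iInf_himp_apply g1 (sb κ) le_rfl g2) fun F => ?_
  refine le_iSup_cases' inf_le_right fun e => ?_
  obtain ⟨Γ1, hΓ1⟩ : ∃ Γ1, Γ1 = Γ ⊓ (⨆ e,
      fsub (VB B) (check H36.om) F (Xn B (Om Ω)) ⊓ pos (VB B) (Xn B ℝ) (rA B) (rO B) e ⊓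
        ⨅ y, isBall (VB B) (rA B) (rO B) (Cn c) (phn c) (sb κ) F e y ⇨ (VB B).mem y A) ⊓
      (fsub (VB B) (check H36.om) F (Xn B (Om Ω)) ⊓ pos (VB B) (Xn B ℝ) (rA B) (rO B) e ⊓
        ⨅ y, isBall (VB B) (rA B) (rO B) (Cn c) (phn c) (sb κ) F e y ⇨ (VB B).mem y A) :=
    ⟨_, rfl⟩
  rw [← hΓ1]
  have a1 : Γ1 ≤ Γ := by rw [hΓ1]; exact inf_le_left.trans inf_le_left
  have a2 : Γ1 ≤ (VB B).sub F (Xn B (Om Ω)) := by
    rw [hΓ1]; exact inf_le_right.trans (inf_le_left.trans (inf_le_left.trans inf_le_left))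
  have a3 : Γ1 ≤ isFin (VB B) (check H36.om) F := by
    rw [hΓ1]; exact inf_le_right.trans (inf_le_left.trans (inf_le_left.trans inf_le_right))
  have a4 : Γ1 ≤ pos (VB B) (Xn B ℝ) (rA B) (rO B) e := by
    rw [hΓ1]; exact inf_le_right.trans (inf_le_left.trans inf_le_right)
  have a5 : Γ1 ≤ ⨅ y, isBall (VB B) (rA B) (rO B) (Cn c) (phn c) (sb κ) F e y ⇨
      (VB B).mem y A := by
    rw [hΓ1]; exact inf_le_right.trans inf_le_right
  rw [(hRP B).2.2.1] at a4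
  refine le_iSup_cases' a4 fun ε => ?_
  rw [← inf_assoc, inf_right_comm, inf_tv_le_iff]
  intro hε
  refine le_iSup_cases' (inf_le_left.trans ((le_inf a3 a2).trans ((hFI B).2 (Om Ω) F)))
    fun F' => ?_
  refine le_trans ?_ (le_iSup _ F')
  refine le_iInf fun κ' => ?_
  rw [le_himp_iff]
  obtain ⟨Γ2, hΓ2⟩ : ∃ Γ2, Γ2 = Γ1 ⊓ beq e (hat ε) ⊓ (⨅ o : Om Ω, bmem (hat o) F ⇨ tv (o ∈ F')) ⊓
      (c κ' ⊓ agree F' κ κ') := ⟨_, rfl⟩
  rw [← hΓ2]
  have b1 : Γ2 ≤ Γ1 := by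
    rw [hΓ2]; exact inf_le_left.trans (inf_le_left.trans inf_le_left)
  have b2 : Γ2 ≤ beq e (hat ε) := by
    rw [hΓ2]; exact inf_le_left.trans (inf_le_left.trans inf_le_right)
  have b3 : Γ2 ≤ ⨅ o : Om Ω, bmem (hat o) F ⇨ tv (o ∈ F') := by
    rw [hΓ2]; exact inf_le_left.trans inf_le_right
  have b4 : Γ2 ≤ c κ' := by rw [hΓ2]; exact inf_le_right.trans inf_le_left
  have b5 : Γ2 ≤ agree F' κ κ' := by rw [hΓ2]; exact inf_le_right.trans inf_le_right
  refine (le_inf (b1.trans (a5.trans (iInf_le _ (sb κ')))) ?_).trans himp_inf_le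
  refine le_inf ?_ (le_iInf fun γ => le_iInf fun r => le_iInf fun s => ?_)
  · rw [VB_mem, (hSB B Ω).2.2.1 c κ' hc]
    exact b4
  · rw [le_himp_iff, VB_mem]
    obtain ⟨Γ3, hΓ3⟩ : ∃ Γ3, Γ3 = Γ2 ⊓ (bmem γ F ⊓ op (VB B) (phn c) (sb κ) γ r ⊓
      op (VB B) (phn c) (sb κ') γ s) := ⟨_, rfl⟩
    rw [← hΓ3]
    have d1 : Γ3 ≤ Γ2 := by rw [hΓ3]; exact inf_le_left
    have d2 : Γ3 ≤ bmem γ F := by
      rw [hΓ3]; exact inf_le_right.trans (inf_le_left.trans inf_le_left)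
    have d3 : Γ3 ≤ op (VB B) (phn c) (sb κ) γ r := by
      rw [hΓ3]; exact inf_le_right.trans (inf_le_left.trans inf_le_right)
    have d4 : Γ3 ≤ op (VB B) (phn c) (sb κ') γ s := by
      rw [hΓ3]; exact inf_le_right.trans inf_le_right
    have d5 : Γ3 ≤ bmem γ (Xn B (Om Ω)) := sub_apply (d1.trans (b1.trans a2)) γ le_rfl d2
    rw [(hHT B (Om Ω)).2.1] at d5
    refine le_iSup_cases' d5 fun o => ?_
    obtain ⟨Δ, hΔ⟩ : ∃ Δ, Δ = Γ3 ⊓ beq γ (hat o) := ⟨_, rfl⟩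
    rw [← hΔ]
    have e1 : Δ ≤ Γ3 := by rw [hΔ]; exact inf_le_left
    have e2 : Δ ≤ beq γ (hat o) := by rw [hΔ]; exact inf_le_right
    have e3 : Δ ≤ tv (o ∈ F') :=
      (le_inf (e1.trans (d1.trans (b3.trans (iInf_le _ o))))
        ((ext_mem_left F).of_le e2 (e1.trans d2))).trans himp_inf_le
    have e4 : Δ ≤ val κ o r := by
      have := (ext_op_snd (phn c) (sb κ) r).of_le e2 (e1.trans d3)
      rw [opv hHT hSB hc] at this
      exact this.trans inf_le_right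
    have e5 : Δ ≤ val κ' o s := by
      have := (ext_op_snd (phn c) (sb κ') s).of_le e2 (e1.trans d4)
      rw [opv hHT hSB hc] at this
      exact this.trans inf_le_right
    by_cases ho : o ∈ F'
    swap
    · exact (e3.trans (by rw [tv_neg ho])).trans bot_le
    have e6 : Δ ≤ (κ o ⇔ κ' o) := e1.trans (d1.trans (b5.trans (agree_le κ κ' ho)))
    have hnear : ∀ v : ℝ, Δ ⊓ (beq r (hat v) ⊓ beq s (hat v)) ≤
        near (VB B) (rA B) (rO B) r s e := by
      intro v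
      refine (ext_near3 (rA B) (rO B) r s).of_le' (inf_le_left.trans
        (e1.trans (d1.trans b2))) ?_
      refine (ext_near2 (rA B) (rO B) r (hat ε)).of_le' (inf_le_right.trans inf_le_right) ?_
      refine (ext_near1 (rA B) (rO B) (hat v) (hat ε)).of_le' (inf_le_right.trans inf_le_left) ?_
      rw [(hRP B).2.2.2.2.1, tv_pos (by rw [sub_self, abs_zero]; exact hε)]
      exact le_top
    refine le_cases (κ o) ?_ ?_
    · refine le_trans (le_inf inf_le_left (le_inf ?_ ?_)) (hnear 1)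
      · refine (le_inf (inf_le_left.trans e4) inf_le_right).trans ?_
        unfold val
        rw [inf_sup_right]
        refine sup_le (inf_le_left.trans inf_le_right) ?_
        refine (le_inf (inf_le_left.trans inf_le_left) inf_le_right).trans ?_
        rw [compl_inf_self]; exact bot_le
      · refine (le_inf (inf_le_left.trans e5) ((inf_le_inf_right _ e6).trans
          bihimp_inf_le)).trans ?_
        unfold val
        rw [inf_sup_right]
        refine sup_le (inf_le_left.trans inf_le_right) ?_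
        refine (le_inf (inf_le_left.trans inf_le_left) inf_le_right).trans ?_
        rw [compl_inf_self]; exact bot_le
    · have e7 : Δ ⊓ (κ o)ᶜ ≤ (κ' o)ᶜ := by
        rw [le_compl_iff_disjoint_right, disjoint_iff, ← le_bot_iff]
        refine (le_inf ((le_inf (inf_le_left.trans (inf_le_left.trans e6)) inf_le_right).trans
          bihimp_inf_le') (inf_le_left.trans inf_le_right)).trans (inf_compl_self _).le
      refine le_trans (le_inf inf_le_left (le_inf ?_ ?_)) (hnear 0)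
      · refine (le_inf (inf_le_left.trans e4) inf_le_right).trans ?_
        unfold val
        rw [inf_sup_right]
        refine sup_le ?_ (inf_le_left.trans inf_le_right)
        refine (le_inf (inf_le_left.trans inf_le_left) inf_le_right).trans ?_
        rw [inf_compl_self]; exact bot_le
      · refine (le_inf (inf_le_left.trans e5) e7).trans ?_
        unfold val
        rw [inf_sup_right]
        refine sup_le ?_ (inf_le_left.trans inf_le_right)
        refine (le_inf (inf_le_left.trans inf_le_left) inf_le_right).trans ?_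
        rw [inf_compl_self]; exact bot_le

/-- Module CL. -/
theorem cl (hHT : HTStatement) (hSB : SBStatement) (hTA : TAStatement) (hFI : FIStatement)
    (_hRO : ROStatement) (hRP : RPStatement) : CLStatement := by
  intro B Ω _ c hc hs
  refine top_le_iff.1 (le_trans ?_ (le_iSup _ (Xn B (Om Ω))))
  refine le_trans ?_ (le_iSup _ (phn c))
  refine le_inf (le_inf (le_inf ?_ ?_) ?_) (le_iInf fun A => ?_)
  · rw [isMap_top hHT hSB hc]
  · rw [isSig_top hHT hSB hRP hc hs]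
  · rw [isInj_top hHT hSB hc]
  · rw [le_himp_iff, top_inf_eq]
    exact le_bihimp' (open_ball hHT hSB hTA hFI hRP hc A) (ball_open hHT hSB hTA hFI hRP hc A)

end Pool.Agent.Lib.MP_9ea9ae_an.V.CL
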