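import Pool.Agent.Lib.MP_9ea9ae_an.V.Base

/-!
# CLK: the compact set `K`
-/

open scoped symmDiff

namespace Pool.Agent.Lib.MP_9ea9ae_an.V

open Pool.Agent.Lib.MP_9ea9ae_an

namespace CLK

variable {B : Type} [CompleteBooleanAlgebra B] {Ω : Type}

/-- Agreement transports the closure at stage `F`. -/
theorem step (D : Ω → Br → B) (F : Finset (Om Ω)) (κ κ' : Pt Ω B) :
    agree F κ κ' ⊓ (⨆ s : T, agree F κ' (wB D s)) ≤ ⨆ s : T, agree F κ (wB D s) := by
  rw [inf_iSup_eq]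
  exact iSup_mono fun s => agree_trans F κ κ' (wB D s)

theorem ext (D : Ω → Br → B) (κ κ' : Pt Ω B) : eqP κ κ' ⊓ clK D κ ≤ clK D κ' := by
  refine le_iInf fun F => ?_
  refine le_trans (inf_le_inf ?_ (iInf_le _ F)) (step D F κ' κ)
  rw [eqP_comm]
  exact eqP_le_agree F κ' κ

theorem clo (D : Ω → Br → B) (κ : Pt Ω B) :
    (clK D κ)ᶜ ≤ ⨆ F : Finset (Om Ω), ⨅ κ', agree F κ κ' ⇨ (clK D κ')ᶜ := by
  unfold clK
  rw [compl_iInf]
  refine iSup_mono fun F => le_iInf fun κ' => ?_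
  rw [le_himp_iff]
  rw [le_compl_iff_disjoint_right, disjoint_iff_inf_le, inf_assoc]
  refine le_trans (inf_le_inf_left _ ((inf_le_inf_left _ (iInf_le _ F)).trans
    (step D F κ κ'))) ?_
  exact compl_inf_self _ |>.le

theorem o0_le (D : Ω → Br → B) (κ : Pt Ω B) : clK D κ ≤ κ o0 := by
  refine (iInf_le _ ({o0} : Finset (Om Ω))).trans (iSup_le fun s => ?_)
  have h : wB D s o0 = ⊤ := tv_pos List.nil_suffix
  calc agree {o0} κ (wB D s) = agree {o0} κ (wB D s) ⊓ wB D s o0 := by rw [h, inf_top_eq]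
    _ ≤ κ o0 := agree_inf_le' κ (wB D s) (Finset.mem_singleton_self o0)

end CLK

/-- CLK. -/
theorem clk' : CLKStatement := fun _ _ _ D =>
  ⟨⟨CLK.ext D, CLK.clo D⟩, fun s => top_le_iff.1 (le_iInf fun F =>
    le_trans (agree_refl F (wB D s)).ge (le_iSup (fun t => agree F (wB D s) (wB D t)) s)),
    CLK.o0_le D⟩

end Pool.Agent.Lib.MP_9ea9ae_an.V
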