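import Pool.Agent.Lib.MP_9ea9ae_an.V.Base

/-!
# Module CLL: the set `clL` is closed
-/

open scoped symmDiff

namespace Pool.Agent.Lib.MP_9ea9ae_an.V

open Pool.Agent.Lib.MP_9ea9ae_an

namespace CLL

variable {B Ω : Type} [CompleteBooleanAlgebra B] (D : Ω → Br → B)

theorem sg_o0 (s : T) : (sg s (o0 : Om Ω) : B) = ⊥ := rfl

theorem em_ap (o : Om Ω) : (em o : B) = ⊥ := rfl

theorem sg_self (s : T) : (sg s (Sum.inr (Sum.inr s) : Om Ω) : B) = ⊤ := tv_pos rfl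

theorem eqP_sg_o0 (κ : Pt Ω B) (s : T) : eqP κ (sg s) ⊓ κ o0 = ⊥ :=
  le_bot_iff.1 ((eqP_inf_le κ (sg s) o0).trans (by rw [sg_o0]))

theorem eqP_em_ap (κ : Pt Ω B) (o : Om Ω) : eqP κ em ⊓ κ o = ⊥ :=
  le_bot_iff.1 ((eqP_inf_le κ em o).trans (by rw [em_ap]))

theorem clL_o0 (κ : Pt Ω B) : clL D κ ⊓ κ o0 ≤ clK D κ ⊓ noS κ := by
  unfold clL
  rw [inf_sup_right, inf_sup_right, iSup_inf_eq]
  refine sup_le (sup_le inf_le_left (iSup_le fun s => ?_)) ?_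
  · rw [eqP_sg_o0]; exact bot_le
  · rw [eqP_em_ap]; exact bot_le

theorem noS_ext (κ κ' : Pt Ω B) : eqP κ κ' ⊓ noS κ ≤ noS κ' := by
  refine le_iInf fun t => ?_
  rw [le_compl_iff_disjoint_right, disjoint_iff, ← le_bot_iff]
  calc eqP κ κ' ⊓ noS κ ⊓ κ' (Sum.inr (Sum.inr t))
      ≤ noS κ ⊓ (eqP κ κ' ⊓ κ' (Sum.inr (Sum.inr t))) :=
        le_inf (inf_le_left.trans inf_le_right) (inf_le_inf_right _ inf_le_left)
    _ ≤ (κ (Sum.inr (Sum.inr t)))ᶜ ⊓ κ (Sum.inr (Sum.inr t)) :=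
        inf_le_inf (iInf_le _ t) (eqP_inf_le' _ _ _)
    _ = ⊥ := compl_inf_eq_bot
    _ ≤ ⊥ := le_rfl

theorem clL_ext (hK : Clo (clK D)) (κ κ' : Pt Ω B) : eqP κ κ' ⊓ clL D κ ≤ clL D κ' := by
  unfold clL
  rw [inf_sup_left, inf_sup_left, inf_iSup_eq]
  refine sup_le (sup_le ?_ ?_) ?_
  · refine le_sup_of_le_left (le_sup_of_le_left (le_inf ?_ ?_))
    · exact (inf_le_inf_left _ inf_le_left).trans (hK.ext κ κ')
    · exact (inf_le_inf_left _ inf_le_right).trans (noS_ext κ κ')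
  · refine le_sup_of_le_left (le_sup_of_le_right (iSup_mono fun s => ?_))
    rw [eqP_comm κ κ']
    exact eqP_trans κ' κ (sg s)
  · refine le_sup_of_le_right ?_
    rw [eqP_comm κ κ']
    exact eqP_trans κ' κ em

/-- The open neighbourhood of the complement. -/
noncomputable def opL (κ : Pt Ω B) : B := ⨆ F : Finset (Om Ω), ⨅ κ', agree F κ κ' ⇨ (clL D κ')ᶜ

theorem le_opL {κ : Pt Ω B} {Γ : B} (F : Finset (Om Ω))
    (h : ∀ κ', Γ ⊓ agree F κ κ' ⊓ clL D κ' ≤ ⊥) : Γ ≤ opL D κ := by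
  refine le_trans ?_ (le_iSup _ F)
  refine le_iInf fun κ' => ?_
  rw [le_himp_iff, le_compl_iff_disjoint_right, disjoint_iff, ← le_bot_iff]
  exact h κ'

open Classical in
theorem clo1 (hK : Clo (clK D)) (κ : Pt Ω B) : (clL D κ)ᶜ ⊓ κ o0 ≤ opL D κ := by
  have h0 : (clL D κ)ᶜ ≤ (clK D κ)ᶜ ⊔ (noS κ)ᶜ := by
    rw [← compl_inf]
    exact compl_le_compl (le_sup_of_le_left le_sup_left)
  have hlem : ∀ κ' : Pt Ω B, ∀ F : Finset (Om Ω), o0 ∈ F →
      κ o0 ⊓ agree F κ κ' ⊓ clL D κ' ≤ clK D κ' ⊓ noS κ' := by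
    intro κ' F hF
    calc κ o0 ⊓ agree F κ κ' ⊓ clL D κ' ≤ clL D κ' ⊓ κ' o0 := by
          refine le_inf inf_le_right (inf_le_left.trans ?_)
          rw [inf_comm]
          exact agree_inf_le κ κ' hF
      _ ≤ clK D κ' ⊓ noS κ' := clL_o0 D κ'
  calc (clL D κ)ᶜ ⊓ κ o0 ≤ ((clK D κ)ᶜ ⊔ (noS κ)ᶜ) ⊓ κ o0 := inf_le_inf_right _ h0
    _ = (clK D κ)ᶜ ⊓ κ o0 ⊔ (noS κ)ᶜ ⊓ κ o0 := inf_sup_right _ _ _
    _ ≤ opL D κ := ?_
  refine sup_le ?_ ?_
  · refine le_iSup_cases' (inf_le_left.trans (hK.clo κ)) fun F => ?_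
    refine le_opL D (insert o0 F) fun κ' => ?_
    have h1 : (clK D κ)ᶜ ⊓ κ o0 ⊓ (⨅ κ', agree F κ κ' ⇨ (clK D κ')ᶜ) ⊓ agree (insert o0 F) κ κ' ⊓
        clL D κ' ≤ clK D κ' := by
      refine le_trans ?_ ((hlem κ' (insert o0 F) (Finset.mem_insert_self _ _)).trans inf_le_left)
      refine inf_le_inf_right _ (inf_le_inf_right _ ?_)
      exact inf_le_left.trans inf_le_right
    have h2 : (clK D κ)ᶜ ⊓ κ o0 ⊓ (⨅ κ', agree F κ κ' ⇨ (clK D κ')ᶜ) ⊓ agree (insert o0 F) κ κ' ⊓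
        clL D κ' ≤ (clK D κ')ᶜ := by
      refine inf_le_left.trans ?_
      refine (inf_le_inf (inf_le_right.trans (iInf_le _ κ'))
        (agree_mono (Finset.subset_insert _ _) κ κ')).trans himp_inf_le
    exact (le_inf h1 h2).trans (inf_compl_self _).le
  · have h3 : (noS κ)ᶜ = ⨆ t : T, κ (Sum.inr (Sum.inr t)) := by
      unfold noS
      rw [compl_iInf]
      simp only [compl_compl]
    rw [h3, iSup_inf_eq]
    refine iSup_le fun t => le_opL D {o0, Sum.inr (Sum.inr t)} fun κ' => ?_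
    have h1 : κ (Sum.inr (Sum.inr t)) ⊓ κ o0 ⊓ agree {o0, Sum.inr (Sum.inr t)} κ κ' ⊓ clL D κ' ≤
        (κ' (Sum.inr (Sum.inr t)))ᶜ := by
      refine le_trans ?_ ((hlem κ' {o0, Sum.inr (Sum.inr t)} (by simp)).trans
        (inf_le_right.trans (iInf_le _ t)))
      exact inf_le_inf_right _ (inf_le_inf_right _ inf_le_right)
    have h2 : κ (Sum.inr (Sum.inr t)) ⊓ κ o0 ⊓ agree {o0, Sum.inr (Sum.inr t)} κ κ' ⊓ clL D κ' ≤
        κ' (Sum.inr (Sum.inr t)) := by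
      refine inf_le_left.trans ?_
      refine le_trans (le_inf inf_le_right (inf_le_left.trans inf_le_left)) ?_
      exact agree_inf_le κ κ' (by simp)
    exact (le_inf h2 h1).trans (inf_compl_self _).le

/-- Points of `L` outside of `K`. -/
theorem clL_not_o0 (hK : ∀ κ, clK D κ ≤ κ o0) (κ : Pt Ω B) :
    clL D κ ⊓ (κ o0)ᶜ ≤ (⨆ s : T, eqP κ (sg s)) ⊔ eqP κ em := by
  unfold clL
  rw [sup_assoc, inf_sup_right]
  refine sup_le ?_ inf_le_left
  refine (inf_le_inf_right _ (inf_le_left.trans (hK κ))).trans ?_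
  rw [inf_compl_self]
  exact bot_le

theorem sg_ap_le (s : T) (o : Om Ω) : (sg s o : B) ≤ tv (o = Sum.inr (Sum.inr s)) := by
  rcases o with i | t | t
  · exact bot_le
  · exact bot_le
  · exact tv_mono fun h => by rw [h]

open Classical in
theorem clo2 (hK : ∀ κ, clK D κ ≤ κ o0) (κ : Pt Ω B) : (clL D κ)ᶜ ⊓ (κ o0)ᶜ ≤ opL D κ := by
  have hlem : ∀ κ' : Pt Ω B, ∀ F : Finset (Om Ω), o0 ∈ F →
      (κ o0)ᶜ ⊓ agree F κ κ' ⊓ clL D κ' ≤ (⨆ s : T, eqP κ' (sg s)) ⊔ eqP κ' em := by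
    intro κ' F hF
    refine le_trans (le_inf inf_le_right ?_) (clL_not_o0 D hK κ')
    refine inf_le_left.trans ?_
    rw [le_compl_iff_disjoint_right, disjoint_iff, ← le_bot_iff, inf_assoc]
    exact (inf_le_inf_left _ (agree_inf_le' κ κ' hF)).trans (compl_inf_self _).le
  -- a coordinate of `κ`
  have h1 : (clL D κ)ᶜ ≤ ⨆ o : Om Ω, κ o := by
    rw [compl_le_iff_compl_le]
    refine le_trans ?_ (le_sup_right : eqP κ em ≤ clL D κ)
    refine le_eqP fun o => ?_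
    rw [em_ap, bihimp_bot]
    exact compl_le_compl (le_iSup _ o)
  refine le_iSup_cases' (inf_le_left.trans h1) fun o => ?_
  by_cases ho : ∃ s : T, o = Sum.inr (Sum.inr s)
  · obtain ⟨s, rfl⟩ := ho
    -- another coordinate
    have h2 : (clL D κ)ᶜ ⊓ (κ o0)ᶜ ⊓ κ (Sum.inr (Sum.inr s)) ≤
        ⨆ o' : {o' : Om Ω // o' ≠ Sum.inr (Sum.inr s)}, κ o'.1 := by
      refine le_contra ?_
      have h3 : (clL D κ)ᶜ ⊓ (κ o0)ᶜ ⊓ κ (Sum.inr (Sum.inr s)) ⊓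
          (⨆ o' : {o' : Om Ω // o' ≠ Sum.inr (Sum.inr s)}, κ o'.1)ᶜ ≤ eqP κ (sg s) := by
        refine le_eqP fun o' => ?_
        by_cases ho' : o' = Sum.inr (Sum.inr s)
        · subst ho'
          rw [sg_self, bihimp_top]
          exact inf_le_left.trans inf_le_right
        · have : (sg s o' : B) = ⊥ := le_bot_iff.1 ((sg_ap_le s o').trans (by rw [tv_neg ho']))
          rw [this, bihimp_bot]
          refine inf_le_right.trans (compl_le_compl ?_)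
          exact le_iSup (fun o' : {o' : Om Ω // o' ≠ Sum.inr (Sum.inr s)} => κ o'.1) ⟨o', ho'⟩
      have h4 : (clL D κ)ᶜ ⊓ (κ o0)ᶜ ⊓ κ (Sum.inr (Sum.inr s)) ⊓
          (⨆ o' : {o' : Om Ω // o' ≠ Sum.inr (Sum.inr s)}, κ o'.1)ᶜ ≤ (clL D κ)ᶜ :=
        inf_le_left.trans (inf_le_left.trans inf_le_left)
      refine (le_inf (h3.trans ?_) h4).trans (inf_compl_self _).le
      exact le_sup_of_le_left (le_sup_of_le_right (le_iSup (fun s => eqP κ (sg s)) s))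
    refine le_iSup_cases' h2 fun o' => ?_
    refine le_opL D {o0, Sum.inr (Sum.inr s), o'.1} fun κ' => ?_
    set Δ := (clL D κ)ᶜ ⊓ (κ o0)ᶜ ⊓ κ (Sum.inr (Sum.inr s)) ⊓ κ o'.1 ⊓
      agree {o0, Sum.inr (Sum.inr s), o'.1} κ κ' ⊓ clL D κ' with hΔ
    have a1 : Δ ≤ (⨆ s : T, eqP κ' (sg s)) ⊔ eqP κ' em := by
      refine le_trans ?_ (hlem κ' {o0, Sum.inr (Sum.inr s), o'.1} (by simp))
      refine inf_le_inf_right _ (inf_le_inf_right _ ?_)
      exact inf_le_left.trans (inf_le_left.trans inf_le_right)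
    have a2 : Δ ≤ κ' (Sum.inr (Sum.inr s)) := by
      refine le_trans (le_inf (inf_le_left.trans inf_le_right)
        (inf_le_left.trans (inf_le_left.trans (inf_le_left.trans inf_le_right)))) ?_
      exact agree_inf_le κ κ' (by simp)
    have a3 : Δ ≤ κ' o'.1 := by
      refine le_trans (le_inf (inf_le_left.trans inf_le_right)
        (inf_le_left.trans (inf_le_left.trans inf_le_right))) ?_
      exact agree_inf_le κ κ' (by simp)
    calc Δ ≤ ((⨆ s : T, eqP κ' (sg s)) ⊔ eqP κ' em) ⊓ (κ' (Sum.inr (Sum.inr s)) ⊓ κ' o'.1) :=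
          le_inf a1 (le_inf a2 a3)
      _ ≤ ⊥ := ?_
    rw [inf_sup_right, iSup_inf_eq]
    refine sup_le (iSup_le fun s' => ?_) ?_
    · have b1 : eqP κ' (sg s') ⊓ (κ' (Sum.inr (Sum.inr s)) ⊓ κ' o'.1) ≤ tv (s' = s) :=
        le_trans (le_inf inf_le_left (inf_le_right.trans inf_le_left))
          (eqP_inf_le κ' (sg s') (Sum.inr (Sum.inr s)))
      have b2 : eqP κ' (sg s') ⊓ (κ' (Sum.inr (Sum.inr s)) ⊓ κ' o'.1) ≤
          tv (o'.1 = Sum.inr (Sum.inr s')) :=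
        (le_trans (le_inf inf_le_left (inf_le_right.trans inf_le_right))
          (eqP_inf_le κ' (sg s') o'.1)).trans (sg_ap_le s' o'.1)
      refine (le_inf b1 b2).trans ?_
      rw [← tv_and, tv_neg]
      rintro ⟨rfl, h⟩
      exact o'.2 h
    · refine le_trans (le_inf inf_le_left (inf_le_right.trans inf_le_left)) ?_
      rw [eqP_em_ap]
  · refine le_opL D {o0, o} fun κ' => ?_
    set Δ := (clL D κ)ᶜ ⊓ (κ o0)ᶜ ⊓ κ o ⊓ agree {o0, o} κ κ' ⊓ clL D κ' with hΔ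
    have a1 : Δ ≤ (⨆ s : T, eqP κ' (sg s)) ⊔ eqP κ' em := by
      refine le_trans ?_ (hlem κ' {o0, o} (by simp))
      refine inf_le_inf_right _ (inf_le_inf_right _ ?_)
      exact inf_le_left.trans inf_le_right
    have a2 : Δ ≤ κ' o := by
      refine le_trans (le_inf (inf_le_left.trans inf_le_right)
        (inf_le_left.trans (inf_le_left.trans inf_le_right))) ?_
      exact agree_inf_le κ κ' (by simp)
    calc Δ ≤ ((⨆ s : T, eqP κ' (sg s)) ⊔ eqP κ' em) ⊓ κ' o := le_inf a1 a2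
      _ ≤ ⊥ := ?_
    rw [inf_sup_right, iSup_inf_eq]
    refine sup_le (iSup_le fun s' => ?_) ?_
    · refine (eqP_inf_le κ' (sg s') o).trans ((sg_ap_le s' o).trans ?_)
      rw [tv_neg fun h => ho ⟨s', h⟩]
    · rw [eqP_em_ap]

end CLL

/-- Module CLL. -/
theorem cll (hCLK : CLKStatement) : CLLStatement := by
  intro B Ω _ D
  obtain ⟨h1, -, h3⟩ := hCLK B Ω D
  exact ⟨⟨CLL.clL_ext D h1, fun κ => le_cases (κ o0) (CLL.clo1 D h1 κ) (CLL.clo2 D h3 κ)⟩,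
    CLL.clL_o0 D⟩

end Pool.Agent.Lib.MP_9ea9ae_an.V
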