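import Pool.Agent.Lib.MP_9ea9ae_an.V.Base

/-!
# CM: compactness
-/

open scoped symmDiff

namespace Pool.Agent.Lib.MP_9ea9ae_an.V.CM

open Pool.Agent.Lib.MP_9ea9ae_an Pool.Agent.Lib.MP_9ea9ae_an.V
open Pool.Agent.Lib.MP_100a6c_lc Pool.Agent.Lib.MP_c5d73d_lc.F BName
open Pool.Agent.Lib.MP_6d445e_gt (op isTopo isHaus isFin fsub)

variable {B : Type} [CompleteBooleanAlgebra B] {Ω : Type}

/-- The finite family `f` covers the points of `c` which agree with `κ` on `F`. -/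
noncomputable def cov (c : Pt Ω B → B) (F : Finset (Om Ω)) (κ : Pt Ω B) (n : ℕ)
    (f : Fin n → BName B) : B :=
  ⨅ κ' : Pt Ω B, c κ' ⊓ agree F κ κ' ⇨ ⨆ i, bmem (sb κ') (f i)

/-- Finitely many members of `D` cover the points of `c` which agree with `κ` on `F`. -/
noncomputable def PP (c : Pt Ω B → B) (D : BName B) (F : Finset (Om Ω)) (κ : Pt Ω B) : B :=
  ⨆ n : ℕ, ⨆ f : Fin n → BName B, (⨅ i, bmem (f i) D) ⊓ cov c F κ n f

theorem le_PP {c : Pt Ω B → B} {D : BName B} {F : Finset (Om Ω)} {κ : Pt Ω B} {Γ : B} (n : ℕ)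
    (f : Fin n → BName B) (h : Γ ≤ (⨅ i, bmem (f i) D) ⊓ cov c F κ n f) : Γ ≤ PP c D F κ :=
  h.trans (le_iSup_of_le n (le_iSup_of_le f le_rfl))

theorem PP_le {c : Pt Ω B → B} {D : BName B} {F : Finset (Om Ω)} {κ : Pt Ω B} {Γ x : B}
    (h : ∀ (n : ℕ) (f : Fin n → BName B), Γ ⊓ ((⨅ i, bmem (f i) D) ⊓ cov c F κ n f) ≤ x) :
    Γ ⊓ PP c D F κ ≤ x := by
  rw [PP, inf_iSup_eq]
  refine iSup_le fun n => ?_
  rw [inf_iSup_eq]
  exact iSup_le fun f => h n f

theorem cov_apply {c : Pt Ω B → B} {F : Finset (Om Ω)} {κ : Pt Ω B} {n : ℕ}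
    {f : Fin n → BName B} {Γ : B} (κ' : Pt Ω B) (h : Γ ≤ cov c F κ n f)
    (h1 : Γ ≤ c κ') (h2 : Γ ≤ agree F κ κ') : Γ ≤ ⨆ i, bmem (sb κ') (f i) :=
  (le_inf (h.trans (iInf_le _ κ')) (le_inf h1 h2)).trans himp_inf_le

theorem PP_ext (c : Pt Ω B → B) (D : BName B) (F : Finset (Om Ω)) (κ κ' : Pt Ω B) :
    agree F κ κ' ⊓ PP c D F κ ≤ PP c D F κ' := by
  refine PP_le fun n f => le_PP n f (le_inf (inf_le_right.trans inf_le_left) ?_)
  refine le_iInf fun κ'' => ?_
  rw [le_himp_iff]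
  refine cov_apply κ'' (inf_le_left.trans (inf_le_right.trans inf_le_right))
    (inf_le_right.trans inf_le_left) ?_
  exact (le_inf (inf_le_left.trans inf_le_left) (inf_le_right.trans inf_le_right)).trans
    (agree_trans F κ κ' κ'')

theorem PP_mono (c : Pt Ω B → B) (D : BName B) (F F' : Finset (Om Ω)) (κ : Pt Ω B)
    (h : F ⊆ F') : PP c D F κ ≤ PP c D F' κ := by
  refine iSup_mono fun n => iSup_mono fun f => inf_le_inf_left _ (iInf_mono fun κ' => ?_)
  exact himp_le_himp_right (inf_le_inf_left _ (agree_mono h κ κ'))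

theorem agree_update [DecidableEq (Om Ω)] (F : Finset (Om Ω)) (κ κ' : Pt Ω B) (o : Om Ω)
    (ho : o ∉ F) (b : B) : agree F (Function.update κ o b) κ' = agree F κ κ' := by
  refine iInf_congr fun o' => iInf_congr fun ho' => ?_
  rw [Function.update_of_ne]
  rintro rfl
  exact ho ho'

theorem PP_split [DecidableEq (Om Ω)] (c : Pt Ω B → B) (D : BName B) (F : Finset (Om Ω))
    (κ : Pt Ω B) (o : Om Ω) (ho : o ∉ F) :
    PP c D (insert o F) (Function.update κ o ⊤) ⊓ PP c D (insert o F) (Function.update κ o ⊥) ≤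
      PP c D F κ := by
  refine PP_le fun m g => ?_
  rw [inf_comm]
  refine PP_le fun n f => ?_
  refine le_PP (n + m) (Fin.append f g) (le_inf ?_ ?_)
  · refine le_iInf fun i => ?_
    refine Fin.addCases (fun j => ?_) (fun j => ?_) i
    · rw [Fin.append_left]
      exact inf_le_right.trans (inf_le_left.trans (iInf_le _ j))
    · rw [Fin.append_right]
      exact inf_le_left.trans (inf_le_left.trans (iInf_le _ j))
  · refine le_iInf fun κ' => ?_
    rw [le_himp_iff]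
    refine le_cases (κ' o) ?_ ?_
    · have h1 : ∀ Γ : B, Γ ≤ cov c (insert o F) (Function.update κ o ⊤) n f → Γ ≤ c κ' →
          Γ ≤ agree F κ κ' → Γ ≤ κ' o → Γ ≤ ⨆ i, bmem (sb κ') (Fin.append f g i) := by
        intro Γ h1 h2 h3 h4
        refine (cov_apply κ' h1 h2 ?_).trans ?_
        · rw [agree_insert, agree_update F κ κ' o ho, Function.update_self]
          refine le_inf ?_ h3
          exact le_bihimp' (inf_le_left.trans h4) le_top
        · refine iSup_le fun j => le_iSup_of_le (Fin.castAdd m j) ?_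
          rw [Fin.append_left]
      exact h1 _ (inf_le_left.trans (inf_le_left.trans (inf_le_right.trans inf_le_right)))
        (inf_le_left.trans (inf_le_right.trans inf_le_left))
        (inf_le_left.trans (inf_le_right.trans inf_le_right)) inf_le_right
    · have h1 : ∀ Γ : B, Γ ≤ cov c (insert o F) (Function.update κ o ⊥) m g → Γ ≤ c κ' →
          Γ ≤ agree F κ κ' → Γ ≤ (κ' o)ᶜ → Γ ≤ ⨆ i, bmem (sb κ') (Fin.append f g i) := by
        intro Γ h1 h2 h3 h4
        refine (cov_apply κ' h1 h2 ?_).trans ?_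
        · rw [agree_insert, agree_update F κ κ' o ho, Function.update_self]
          refine le_inf ?_ h3
          refine le_bihimp' (inf_le_right.trans bot_le) ?_
          exact (inf_le_inf_right _ h4).trans (by rw [compl_inf_self])
        · refine iSup_le fun j => le_iSup_of_le (Fin.natAdd n j) ?_
          rw [Fin.append_right]
      exact h1 _ (inf_le_left.trans (inf_le_left.trans (inf_le_left.trans inf_le_right)))
        (inf_le_left.trans (inf_le_right.trans inf_le_left))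
        (inf_le_left.trans (inf_le_right.trans inf_le_right)) inf_le_right

theorem PP_nhd (h2 : SBStatement) (h3 : TAStatement) (c : Pt Ω B → B) (hc : Clo c)
    (D : BName B) (κ : Pt Ω B) :
    (VB B).sub D (tau c) ⊓ (⨅ x, (VB B).mem x (Cn c) ⇨ ⨆ A, (VB B).mem A D ⊓ (VB B).mem x A) ≤
      ⨆ F, PP c D F κ := by
  refine le_cases (c κ) ?_ ?_
  · -- `κ ∈ c`
    have hA : ((VB B).sub D (tau c) ⊓
        (⨅ x, (VB B).mem x (Cn c) ⇨ ⨆ A, (VB B).mem A D ⊓ (VB B).mem x A)) ⊓ c κ ≤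
        ⨆ A, bmem A D ⊓ bmem (sb κ) A := by
      have h := (h2 B Ω).2.2.1 c κ hc.ext
      refine (le_inf (inf_le_left.trans (inf_le_right.trans (iInf_le _ (sb κ)))) ?_).trans
        himp_inf_le
      change _ ≤ bmem (sb κ) (Cn c)
      rw [h]
      exact inf_le_right
    refine le_iSup_cases' hA fun A => ?_
    have hT : ∀ Γ : B, Γ ≤ (VB B).sub D (tau c) → Γ ≤ bmem A D → Γ ≤ bmem (sb κ) A →
        Γ ≤ ⨆ F : Finset (Om Ω), ⨅ κ' : Pt Ω B, c κ' ⊓ agree F κ κ' ⇨ bmem (sb κ') A := by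
      intro Γ g1 g2 g3
      have g4 : Γ ≤ bmem A (tau c) := sub_apply g1 A le_rfl g2
      rw [(h3 B Ω c hc.ext).1 A] at g4
      exact (le_inf ((g4.trans inf_le_right).trans (iInf_le _ κ)) g3).trans himp_inf_le
    refine le_iSup_cases' (hT _ (inf_le_left.trans (inf_le_left.trans inf_le_left))
      (inf_le_right.trans inf_le_left) (inf_le_right.trans inf_le_right)) fun F => ?_
    refine le_iSup_of_le F (le_PP 1 (fun _ => A) (le_inf (le_iInf fun _ => ?_) ?_))
    · exact inf_le_left.trans (inf_le_right.trans inf_le_left)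
    · refine inf_le_right.trans (iInf_mono fun κ' => himp_le_himp_left ?_)
      exact le_iSup_of_le (0 : Fin 1) le_rfl
  · -- `κ ∉ c`
    refine (inf_le_right.trans (hc.clo κ)).trans (iSup_mono fun F => ?_)
    refine le_PP 0 (fun i => i.elim0) (le_inf (le_iInf fun i => i.elim0) ?_)
    refine iInf_mono fun κ' => ?_
    rw [le_himp_iff]
    have h1 : ∀ Γ : B, Γ ≤ (agree F κ κ' ⇨ (c κ')ᶜ) → Γ ≤ c κ' → Γ ≤ agree F κ κ' → Γ ≤ ⊥ := by
      intro Γ g1 g2 g3
      have g4 : Γ ≤ (c κ')ᶜ := (le_inf g1 g3).trans himp_inf_le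
      exact (le_inf g2 g4).trans (by rw [inf_compl_self])
    exact (h1 _ inf_le_left (inf_le_right.trans inf_le_left)
      (inf_le_right.trans inf_le_right)).trans bot_le

end Pool.Agent.Lib.MP_9ea9ae_an.V.CM

namespace Pool.Agent.Lib.MP_9ea9ae_an.V

open Pool.Agent.Lib.MP_9ea9ae_an
open Pool.Agent.Lib.MP_100a6c_lc Pool.Agent.Lib.MP_c5d73d_lc.F BName
open Pool.Agent.Lib.MP_6d445e_gt (op isTopo isHaus isFin fsub)

theorem cm (h1 : ACStatement) (h2 : SBStatement) (h3 : TAStatement) (h4 : FIStatement) :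
    CMStatement := by
  classical
  intro B Ω _ c hc
  rw [isCH, (h3 B Ω c hc.ext).2.1, (h3 B Ω c hc.ext).2.2, top_inf_eq, top_inf_eq]
  refine top_le_iff.1 (le_iInf fun D => ?_)
  rw [le_himp_iff, top_inf_eq]
  obtain ⟨Γ, hΓ⟩ : ∃ Γ : B, Γ = (VB B).sub D (tau c) ⊓
    (⨅ x, (VB B).mem x (Cn c) ⇨ ⨆ A, (VB B).mem A D ⊓ (VB B).mem x A) := ⟨_, rfl⟩
  have hP : Γ ≤ CM.PP c D ∅ (fun _ => ⊥) := by
    refine h1 B Ω (CM.PP c D) Γ (CM.PP_ext c D) (fun F F' κ h => CM.PP_mono c D F F' κ h)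
      (fun F κ o ho => CM.PP_split c D F κ o ho) (fun κ => ?_) _
    rw [hΓ]
    exact CM.PP_nhd h2 h3 c hc D κ
  rw [← hΓ]
  refine (le_inf le_rfl hP).trans (CM.PP_le fun n f => ?_)
  refine le_iSup_of_le (mk (Fin n) f fun _ => ⊤) (le_inf (le_inf ?_ ?_) ?_)
  · rw [le_sub_iff]
    intro i
    exact inf_le_left.trans (inf_le_right.trans (inf_le_left.trans (iInf_le _ i)))
  · rw [(h4 B).1 n f]
    exact le_top
  · have hE : Ext (fun x : BName B => ⨆ A, bmem A (mk (Fin n) f fun _ => ⊤) ⊓ bmem x A) :=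
      Ext.iSup fun A => (Ext.const _).inf (ext_mem_left A)
    change _ ≤ ⨅ x, bmem x (Cn c) ⇨ ⨆ A, bmem A (mk (Fin n) f fun _ => ⊤) ⊓ bmem x A
    rw [le_iInf_mem hE]
    intro κ'
    change _ ⊓ c κ' ≤ ⨆ A, bmem A (mk (Fin n) f fun _ => ⊤) ⊓ bmem (sb κ') A
    refine (CM.cov_apply (Γ := Γ ⊓ ((⨅ i, bmem (f i) D) ⊓ CM.cov c ∅ (fun _ => ⊥) n f) ⊓ c κ') κ'
      (inf_le_left.trans (inf_le_right.trans inf_le_right)) inf_le_right ?_).trans ?_
    · rw [agree_empty]
      exact le_top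
    · refine iSup_le fun i => le_iSup_of_le (f i) (le_inf ?_ le_rfl)
      exact le_top.trans (vl_le_bmem (mk (Fin n) f fun _ => (⊤ : B)) i)

end Pool.Agent.Lib.MP_9ea9ae_an.V
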