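import Pool.Agent.Lib.MP_9ea9ae_an.V.Base

/-!
# CS: the points of `L` have countable supports
-/

open scoped symmDiff

namespace Pool.Agent.Lib.MP_9ea9ae_an.V

open Pool.Agent.Lib.MP_9ea9ae_an

namespace CS

variable {B Ω : Type} [CompleteBooleanAlgebra B] {D : Ω → Br → B}

lemma not_avoids (δ : Br) (z : Br) (n : ℕ) (h : δ.1 n = z.1 n) :
    ¬ Avoids δ.1 (nd z (n + 1)).1 := by
  intro hA
  have h1 : z.1 n ≠ δ.1 (ndl z.1 n).length := hA.1
  rw [length_ndl] at h1
  exact h1 h.symm

/-- A branch which hits `z` and avoids all nodes of `z` is impossible. -/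
lemma hit_inf_Wv (hD : Gen D) (i : Ω) (z : Br) :
    hit D i z ⊓ (⨅ n, Wv D i (nd z n)) ≤ ⊥ := by
  rw [hit, iSup_inf_eq]
  refine iSup_le ?_
  rintro ⟨δ, n, hn⟩
  refine (inf_le_inf_left _ (iInf_le _ (n + 1))).trans ?_
  rw [Wv, inf_iSup_eq]
  refine iSup_le ?_
  rintro ⟨δ', hδ'⟩
  have hne : δ ≠ δ' := by
    rintro rfl
    exact not_avoids δ z n hn hδ'
  exact (hD.dis i δ δ' hne).le

/-- The coordinates of the second and third kind. -/
def R2 (Ω : Type) : Set (Om Ω) := Set.range Sum.inr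

lemma R2_countable : (R2 Ω).Countable := by
  have : Countable T := inferInstanceAs (Countable {s : List ℕ // Legal s})
  exact Set.countable_range _

end CS

open CS in
theorem cs (_hK : CLKStatement) (hB : BraStatement) (hC : ConeStatement) : CSStatement := by
  intro B Ω _ D hdis hD κ
  rw [clL]
  refine sup_le (sup_le ?_ (iSup_le fun s => ?_)) ?_
  · refine le_iSup_cases' (hB B Ω D hdis κ) fun z => ?_
    refine le_iSup_cases (hD.luz z) ?_
    rintro ⟨C, hCc⟩
    refine le_trans ?_ (le_iSup _ ⟨Sum.inl '' C ∪ R2 Ω, (hCc.image _).union R2_countable⟩)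
    refine le_iInf ?_
    rintro ⟨o, ho⟩
    rcases o with i | o
    · have hi : i ∉ C := fun h => ho (Or.inl ⟨i, h, rfl⟩)
      rw [le_compl_iff_disjoint_right, disjoint_iff_inf_le]
      refine le_trans ?_ (hit_inf_Wv hD i z)
      refine le_inf ?_ (le_iInf fun n => ?_)
      · exact inf_le_left.trans (inf_le_right.trans
          (iInf_le (fun i : {i // i ∉ C} => hit D i.1 z) ⟨i, hi⟩))
      · refine le_trans ?_ (hC B Ω D hD κ i (nd z n))
        refine le_inf (le_inf ?_ inf_le_right) ?_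
        · exact inf_le_left.trans (inf_le_left.trans (inf_le_left.trans inf_le_left))
        · exact inf_le_left.trans (inf_le_left.trans (inf_le_right.trans (iInf_le _ n)))
    · exact absurd (Or.inr ⟨o, rfl⟩) ho
  · refine le_trans ?_ (le_iSup _ ⟨R2 Ω, R2_countable⟩)
    refine le_iInf ?_
    rintro ⟨o, ho⟩
    rcases o with i | o
    · rw [le_compl_iff_disjoint_right, disjoint_iff_inf_le]
      exact eqP_inf_le κ (sg s) (Sum.inl i)
    · exact absurd ⟨o, rfl⟩ ho
  · refine le_trans ?_ (le_iSup _ ⟨R2 Ω, R2_countable⟩)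
    refine le_iInf ?_
    rintro ⟨o, ho⟩
    rw [le_compl_iff_disjoint_right, disjoint_iff_inf_le]
    exact eqP_inf_le κ em o

end Pool.Agent.Lib.MP_9ea9ae_an.V
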