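import Pool.Agent.Lib.MP_9ea9ae_an.V.Base

/-!
# Module E0: extensionality of the operator
-/

open scoped symmDiff

namespace Pool.Agent.Lib.MP_9ea9ae_an.V.E0

open Pool.Agent.Lib.MP_9ea9ae_an Pool.Agent.Lib.MP_9ea9ae_an.V

variable {B : Type} [CompleteBooleanAlgebra B] {Ω : Type} {D : Ω → Br → B}

theorem clK_wB (D : Ω → Br → B) (s : T) : clK D (wB D s) = ⊤ := by
  refine top_le_iff.1 (le_iInf fun F => ?_)
  rw [← agree_refl F (wB D s)]
  exact le_iSup (fun s' => agree F (wB D s) (wB D s')) s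

theorem exU {u : Pt Ω B → ℝ → B} (hu : ExU u) : ExU (TT D u) := by
  intro κ κ' x
  unfold TT
  rw [inf_sup_left, inf_sup_left]
  refine sup_le (sup_le ?_ ?_) ?_
  · refine le_sup_of_le_left (le_sup_of_le_left (le_inf ?_ ?_))
    · exact (inf_le_inf_left _ inf_le_left).trans (eqP_inf_le κ κ' o0)
    · exact (inf_le_inf_left _ inf_le_right).trans (hu κ κ' x)
  · refine le_sup_of_le_left (le_sup_of_le_right ?_)
    rw [inf_iSup_eq]
    refine iSup_mono fun s => ?_
    refine le_inf ?_ (inf_le_right.trans inf_le_right)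
    refine le_trans (le_inf ?_ (inf_le_right.trans inf_le_left)) (eqP_trans κ' κ (sg s))
    rw [eqP_comm]
    exact inf_le_left
  · refine le_sup_of_le_right (le_inf ?_ (inf_le_right.trans inf_le_right))
    refine le_trans (le_inf ?_ (inf_le_right.trans inf_le_left)) (eqP_trans κ' κ em)
    rw [eqP_comm]
    exact inf_le_left

theorem eqU_le {c : Pt Ω B → B} {u v : Pt Ω B → ℝ → B} (κ : Pt Ω B) (x : ℝ) :
    eqU c u v ⊓ (c κ ⊓ u κ x) ≤ v κ x := by
  have h1 : eqU c u v ⊓ c κ ≤ (u κ x ⇔ v κ x) := by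
    rw [← le_himp_iff]
    exact (iInf_le _ κ).trans (iInf_le _ x)
  rw [← inf_assoc]
  exact (inf_le_inf_right _ h1).trans bihimp_inf_le

theorem half (hCLL : CLLStatement) (u v : Pt Ω B → ℝ → B) (κ : Pt Ω B) (x : ℝ) :
    eqU (clK D) u v ⊓ clL D κ ⊓ TT D u κ x ≤ TT D v κ x := by
  unfold TT
  rw [inf_sup_left, inf_sup_left]
  refine sup_le (sup_le ?_ ?_) ?_
  · refine le_sup_of_le_left (le_sup_of_le_left (le_inf (inf_le_right.trans inf_le_left) ?_))
    have h1 : eqU (clK D) u v ⊓ clL D κ ⊓ (κ o0 ⊓ u κ x) ≤ clK D κ :=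
      (le_inf (inf_le_left.trans inf_le_right) (inf_le_right.trans inf_le_left)).trans
        (((hCLL B Ω D).2 κ).trans inf_le_left)
    exact (le_inf (inf_le_left.trans inf_le_left) (le_inf h1 (inf_le_right.trans
      inf_le_right))).trans (eqU_le κ x)
  · refine le_sup_of_le_left (le_sup_of_le_right ?_)
    rw [inf_iSup_eq]
    refine iSup_mono fun s => le_inf (inf_le_right.trans inf_le_left) ?_
    have h1 : eqU (clK D) u v ⊓ clL D κ ⊓ (eqP κ (sg s) ⊓ ⨆ g : T → ℝ, gr D u g ⊓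
        tv (x = g s - nuG s g)) ≤ eqU (clK D) u v ⊓ ⨆ g : T → ℝ, gr D u g ⊓
        tv (x = g s - nuG s g) :=
      le_inf (inf_le_left.trans inf_le_left) (inf_le_right.trans inf_le_right)
    refine h1.trans ?_
    rw [inf_iSup_eq]
    refine iSup_mono fun g => le_inf ?_ (inf_le_right.trans inf_le_right)
    refine le_iInf fun t => ?_
    have h2 : gr D u g ≤ u (wB D t) (g t) := iInf_le _ t
    have h3 : eqU (clK D) u v ⊓ (clK D (wB D t) ⊓ u (wB D t) (g t)) ≤ v (wB D t) (g t) :=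
      eqU_le _ _
    rw [clK_wB, top_inf_eq] at h3
    exact (inf_le_inf_left _ (inf_le_left.trans h2)).trans h3
  · exact le_sup_of_le_right inf_le_right

theorem e0 (hCLL : CLLStatement) : E0Statement := by
  intro B Ω _ D
  refine ⟨fun u hu => exU hu, fun u v _ _ => ?_⟩
  have hsymm : eqU (clK D) u v = eqU (clK D) v u := by
    unfold eqU
    simp only [bihimp_comm]
  refine le_iInf fun κ => le_iInf fun x => ?_
  rw [le_himp_iff]
  refine le_bihimp' (half hCLL u v κ x) ?_
  rw [hsymm]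
  exact half hCLL v u κ x

end Pool.Agent.Lib.MP_9ea9ae_an.V.E0
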