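import Pool.Agent.Lib.MP_9ea9ae_an.V.Base

/-!
# E1: the values of the operator are functions
-/

open scoped symmDiff

namespace Pool.Agent.Lib.MP_9ea9ae_an.V

open Pool.Agent.Lib.MP_9ea9ae_an

namespace E1

variable {B Ω : Type} [CompleteBooleanAlgebra B]

theorem o0_sg (κ : Pt Ω B) (s : T) : κ o0 ⊓ eqP κ (sg s) ≤ ⊥ := by
  rw [inf_comm]
  exact eqP_inf_le κ (sg s) o0

theorem o0_em (κ : Pt Ω B) : κ o0 ⊓ eqP κ em ≤ ⊥ := by
  rw [inf_comm]
  exact eqP_inf_le κ em o0

theorem sg_coord (κ : Pt Ω B) (s : T) : eqP κ (sg s) ≤ κ (Sum.inr (Sum.inr s)) := by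
  have h := eqP_inf_le' κ (sg s) (Sum.inr (Sum.inr s))
  have h1 : (sg s (Sum.inr (Sum.inr s) : Om Ω) : B) = ⊤ := tv_pos rfl
  rw [h1, inf_top_eq] at h
  exact h

theorem sg_em (κ : Pt Ω B) (s : T) : eqP κ (sg s) ⊓ eqP κ em ≤ ⊥ := by
  refine (le_inf inf_le_right (inf_le_left.trans (sg_coord κ s))).trans ?_
  exact eqP_inf_le κ em (Sum.inr (Sum.inr s))

theorem sg_sg (κ : Pt Ω B) {s s' : T} (h : s ≠ s') : eqP κ (sg s) ⊓ eqP κ (sg s') ≤ ⊥ := by
  refine (le_inf inf_le_right (inf_le_left.trans (sg_coord κ s))).trans ?_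
  refine (eqP_inf_le κ (sg s') (Sum.inr (Sum.inr s))).trans ?_
  have h1 : (sg s' (Sum.inr (Sum.inr s) : Om Ω) : B) = ⊥ := tv_neg h.symm
  rw [h1]

/-- Two families of values at the nodes coincide. -/
theorem gr_unq (hCLK : CLKStatement) (D : Ω → Br → B) (u : Pt Ω B → ℝ → B) (g g' : T → ℝ) :
    fnT (clK D) u ⊓ (gr D u g ⊓ gr D u g') ≤ tv (g = g') := by
  obtain ⟨-, hnode, -⟩ := hCLK B Ω D
  rw [tv_congr (funext_iff (f := g) (g := g')), tv_forall]
  refine le_iInf fun t => ?_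
  refine le_trans ?_ (fnT_unq (c := clK D) (u := u) (wB D t) (g t) (g' t))
  refine inf_le_inf_left _ (le_inf (le_inf ?_ ?_) ?_)
  · rw [hnode]
    exact le_top
  · exact inf_le_left.trans (iInf_le _ t)
  · exact inf_le_right.trans (iInf_le _ t)

/-- The value of the operator at a node. -/
noncomputable def tn (D : Ω → Br → B) (u : Pt Ω B → ℝ → B) (s : T) (x : ℝ) : B :=
  ⨆ g : T → ℝ, gr D u g ⊓ tv (x = g s - nuG s g)

theorem tn_unq (hCLK : CLKStatement) (D : Ω → Br → B) (u : Pt Ω B → ℝ → B) (s : T) (x x' : ℝ) :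
    fnT (clK D) u ⊓ (tn D u s x ⊓ tn D u s x') ≤ tv (x = x') := by
  unfold tn
  rw [iSup_inf_iSup, inf_iSup_eq]
  refine iSup_le fun p => ?_
  obtain ⟨g, g'⟩ := p
  show fnT (clK D) u ⊓ ((gr D u g ⊓ tv (x = g s - nuG s g)) ⊓
    (gr D u g' ⊓ tv (x' = g' s - nuG s g'))) ≤ tv (x = x')
  by_cases h3 : g = g'
  · subst h3
    by_cases h1 : x = g s - nuG s g
    · by_cases h2 : x' = g s - nuG s g
      · rw [tv_pos (h1.trans h2.symm)]
        exact le_top
      · refine le_trans (inf_le_right.trans (inf_le_right.trans inf_le_right)) ?_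
        rw [tv_neg h2]
        exact bot_le
    · refine le_trans (inf_le_right.trans (inf_le_left.trans inf_le_right)) ?_
      rw [tv_neg h1]
      exact bot_le
  · have h := gr_unq hCLK D u g g'
    rw [tv_neg h3] at h
    exact ((inf_le_inf_left _ (inf_le_inf inf_le_left inf_le_left)).trans h).trans bot_le

end E1

theorem e1 (hCLK : CLKStatement) (hCLL : CLLStatement) (hGR : GRStatement) : E1Statement := by
  intro B Ω _ D hB hD u hu
  obtain ⟨-, -, hK⟩ := hCLK B Ω D
  obtain ⟨-, hL⟩ := hCLL B Ω D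
  have hG : fnT (clK D) u ≤ ⨆ g : T → ℝ, gr D u g := inf_le_left.trans (hGR B Ω D hB u)
  refine le_inf (le_iInf fun κ => ?_) (le_iInf fun κ => le_iInf fun x => le_iInf fun x' => ?_)
  · rw [le_himp_iff]
    have h1 : fnT (clK D) u ⊓ (clK D κ ⊓ noS κ) ≤ ⨆ x, TT D u κ x := by
      refine le_iSup_cases' ((inf_le_inf_left _ inf_le_left).trans
        (fnT_tot (c := clK D) (u := u) κ)) fun x => ?_
      refine le_trans ?_ (le_iSup _ x)
      refine le_sup_of_le_left (le_sup_of_le_left (le_inf ?_ inf_le_right))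
      exact inf_le_left.trans (inf_le_right.trans (inf_le_left.trans (hK κ)))
    have h2 : ∀ s : T, fnT (clK D) u ⊓ eqP κ (sg s) ≤ ⨆ x, TT D u κ x := by
      intro s
      refine le_iSup_cases' (inf_le_left.trans hG) fun g => ?_
      refine le_trans ?_ (le_iSup _ (g s - nuG s g))
      refine le_sup_of_le_left (le_sup_of_le_right ?_)
      refine le_trans ?_ (le_iSup (fun s' : T => eqP κ (sg s') ⊓ ⨆ g' : T → ℝ,
        gr D u g' ⊓ tv (g s - nuG s g = g' s' - nuG s' g')) s)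
      refine le_inf (inf_le_left.trans inf_le_right) ?_
      refine le_trans ?_ (le_iSup _ g)
      exact le_inf inf_le_right (le_top.trans (tv_pos rfl).ge)
    have h3 : fnT (clK D) u ⊓ eqP κ em ≤ ⨆ x, TT D u κ x := by
      refine le_trans ?_ (le_iSup _ 0)
      refine le_sup_of_le_right (le_inf inf_le_right (le_top.trans (tv_pos rfl).ge))
    unfold clL
    rw [inf_sup_left, inf_sup_left, inf_iSup_eq]
    exact sup_le (sup_le h1 (iSup_le h2)) h3
  · rw [le_himp_iff]
    have hTT : ∀ y, TT D u κ y ≤ (κ o0 ⊔ (⨆ s : T, eqP κ (sg s)) ⊔ eqP κ em) := by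
      intro y
      exact sup_le_sup (sup_le_sup inf_le_left (iSup_mono fun s => inf_le_left)) inf_le_left
    -- case `κ o0`
    have r1 : ∀ y, TT D u κ y ⊓ κ o0 ≤ u κ y := by
      intro y
      have : TT D u κ y = (κ o0 ⊓ u κ y) ⊔ (⨆ s : T, eqP κ (sg s) ⊓ E1.tn D u s y) ⊔
        (eqP κ em ⊓ tv (y = 0)) := rfl
      rw [this, inf_sup_right, inf_sup_right, iSup_inf_eq]
      refine sup_le (sup_le (inf_le_left.trans inf_le_right) (iSup_le fun s => ?_)) ?_
      · refine (le_inf inf_le_right (inf_le_left.trans inf_le_left)).trans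
          ((E1.o0_sg κ s).trans bot_le)
      · refine (le_inf inf_le_right (inf_le_left.trans inf_le_left)).trans
          ((E1.o0_em κ).trans bot_le)
    have r2 : ∀ y, ∀ s : T, TT D u κ y ⊓ eqP κ (sg s) ≤ E1.tn D u s y := by
      intro y s
      have : TT D u κ y = (κ o0 ⊓ u κ y) ⊔ (⨆ s : T, eqP κ (sg s) ⊓ E1.tn D u s y) ⊔
        (eqP κ em ⊓ tv (y = 0)) := rfl
      rw [this, inf_sup_right, inf_sup_right, iSup_inf_eq]
      refine sup_le (sup_le ?_ (iSup_le fun s' => ?_)) ?_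
      · exact (inf_le_inf_right _ inf_le_left).trans ((E1.o0_sg κ s).trans bot_le)
      · by_cases h : s' = s
        · rw [h]
          exact inf_le_left.trans inf_le_right
        · exact (inf_le_inf_right _ inf_le_left).trans ((E1.sg_sg κ h).trans bot_le)
      · refine (le_inf inf_le_right (inf_le_left.trans inf_le_left)).trans
          ((E1.sg_em κ s).trans bot_le)
    have r3 : ∀ y, TT D u κ y ⊓ eqP κ em ≤ tv (y = 0) := by
      intro y
      have : TT D u κ y = (κ o0 ⊓ u κ y) ⊔ (⨆ s : T, eqP κ (sg s) ⊓ E1.tn D u s y) ⊔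
        (eqP κ em ⊓ tv (y = 0)) := rfl
      rw [this, inf_sup_right, inf_sup_right, iSup_inf_eq]
      refine sup_le (sup_le ?_ (iSup_le fun s' => ?_)) ?_
      · exact (inf_le_inf_right _ inf_le_left).trans ((E1.o0_em κ).trans bot_le)
      · exact (inf_le_inf_right _ inf_le_left).trans ((E1.sg_em κ s').trans bot_le)
      · exact inf_le_left.trans inf_le_right
    set Γ : B := fnT (clK D) u ⊓ (clL D κ ⊓ TT D u κ x ⊓ TT D u κ x') with hΓ
    have g0 : Γ ≤ fnT (clK D) u := inf_le_left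
    have g1 : Γ ≤ clL D κ := inf_le_right.trans (inf_le_left.trans inf_le_left)
    have g2 : Γ ≤ TT D u κ x := inf_le_right.trans (inf_le_left.trans inf_le_right)
    have g3 : Γ ≤ TT D u κ x' := inf_le_right.trans inf_le_right
    have g4 : Γ ≤ κ o0 ⊔ (⨆ s : T, eqP κ (sg s)) ⊔ eqP κ em := g2.trans (hTT x)
    have c1 : Γ ⊓ κ o0 ≤ tv (x = x') := by
      refine le_trans ?_ (fnT_unq (c := clK D) (u := u) κ x x')
      refine le_inf (inf_le_left.trans g0) (le_inf (le_inf ?_ ?_) ?_)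
      · exact (inf_le_inf_right _ g1).trans ((hL κ).trans inf_le_left)
      · exact (inf_le_inf_right _ g2).trans (r1 x)
      · exact (inf_le_inf_right _ g3).trans (r1 x')
    have c2 : ∀ s : T, Γ ⊓ eqP κ (sg s) ≤ tv (x = x') := by
      intro s
      refine le_trans ?_ (E1.tn_unq hCLK D u s x x')
      refine le_inf (inf_le_left.trans g0) (le_inf ?_ ?_)
      · exact (inf_le_inf_right _ g2).trans (r2 x s)
      · exact (inf_le_inf_right _ g3).trans (r2 x' s)
    have c3 : Γ ⊓ eqP κ em ≤ tv (x = x') := by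
      refine le_trans (le_inf ((inf_le_inf_right _ g2).trans (r3 x))
        ((inf_le_inf_right _ g3).trans (r3 x'))) ?_
      rw [← tv_and]
      exact tv_mono fun h => h.1.trans h.2.symm
    calc Γ ≤ Γ ⊓ (κ o0 ⊔ (⨆ s : T, eqP κ (sg s)) ⊔ eqP κ em) := le_inf le_rfl g4
      _ ≤ tv (x = x') := by
        rw [inf_sup_left, inf_sup_left, inf_iSup_eq]
        exact sup_le (sup_le c1 (iSup_le c2)) c3

end Pool.Agent.Lib.MP_9ea9ae_an.V
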