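import Pool.Agent.Lib.MP_9ea9ae_an.V.Base

/-!
# Module E2: the values of the operator are continuous
-/

open scoped symmDiff

namespace Pool.Agent.Lib.MP_9ea9ae_an.V.E2h15

open Pool.Agent.Lib.MP_9ea9ae_an Pool.Agent.Lib.MP_9ea9ae_an.V

variable {B Ω : Type} [CompleteBooleanAlgebra B] (D : Ω → Br → B)

theorem sg_o0 (s : T) : (sg s (o0 : Om Ω) : B) = ⊥ := rfl

theorem sg_self (s : T) : (sg s (Sum.inr (Sum.inr s) : Om Ω) : B) = ⊤ := tv_pos rfl

theorem eqP_sg_o0 (κ : Pt Ω B) (s : T) : eqP κ (sg s) ⊓ κ o0 ≤ ⊥ :=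
  (eqP_inf_le κ (sg s) o0).trans (by rw [sg_o0])

theorem eqP_em_ap (κ : Pt Ω B) (o : Om Ω) : eqP κ em ⊓ κ o ≤ ⊥ :=
  eqP_inf_le κ em o

theorem TT_ext {u : Pt Ω B → ℝ → B} (hu : ExU u) : ExU (TT D u) := by
  intro κ κ' x
  unfold TT
  rw [inf_sup_left, inf_sup_left, inf_iSup_eq]
  refine sup_le (sup_le ?_ ?_) ?_
  · refine le_sup_of_le_left (le_sup_of_le_left (le_inf ?_ ?_))
    · exact (inf_le_inf_left _ inf_le_left).trans (eqP_inf_le κ κ' o0)
    · exact (inf_le_inf_left _ inf_le_right).trans (hu κ κ' x)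
  · refine le_sup_of_le_left (le_sup_of_le_right (iSup_mono fun s => ?_))
    rw [eqP_comm κ κ', ← inf_assoc]
    exact inf_le_inf_right _ (eqP_trans κ' κ (sg s))
  · refine le_sup_of_le_right ?_
    rw [eqP_comm κ κ', ← inf_assoc]
    exact inf_le_inf_right _ (eqP_trans κ' κ em)

theorem TT_o0 (u : Pt Ω B → ℝ → B) (κ : Pt Ω B) (x : ℝ) : TT D u κ x ⊓ κ o0 ≤ u κ x := by
  unfold TT
  rw [inf_sup_right, inf_sup_right, iSup_inf_eq]
  refine sup_le (sup_le (inf_le_left.trans inf_le_right) (iSup_le fun s => ?_)) ?_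
  · exact (le_inf (inf_le_left.trans inf_le_left) inf_le_right).trans
      ((eqP_sg_o0 κ s).trans bot_le)
  · exact (le_inf (inf_le_left.trans inf_le_left) inf_le_right).trans
      ((eqP_em_ap κ o0).trans bot_le)

/-- The three cases. -/
theorem TT_cases (u : Pt Ω B → ℝ → B) (κ : Pt Ω B) (x : ℝ) {Γ b : B} (h : Γ ≤ TT D u κ x)
    (h1 : Γ ⊓ (κ o0 ⊓ u κ x) ≤ b)
    (h2 : ∀ (s : T) (g : T → ℝ), x = g s - nuG s g → Γ ⊓ (eqP κ (sg s) ⊓ gr D u g) ≤ b)
    (h3 : x = 0 → Γ ⊓ eqP κ em ≤ b) : Γ ≤ b := by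
  have h4 : Γ ≤ Γ ⊓ TT D u κ x := le_inf le_rfl h
  refine h4.trans ?_
  unfold TT
  rw [inf_sup_left, inf_sup_left, inf_iSup_eq]
  refine sup_le (sup_le h1 (iSup_le fun s => ?_)) ?_
  · rw [inf_iSup_eq, inf_iSup_eq]
    refine iSup_le fun g => ?_
    rw [← inf_assoc, ← inf_assoc, inf_tv_le_iff]
    intro hx
    rw [inf_assoc]
    exact h2 s g hx
  · rw [← inf_assoc, inf_tv_le_iff]
    exact h3

open Classical in
/-- Module E2. -/
theorem e2 (_hCLK : CLKStatement) (hCLL : CLLStatement) (hGR : GRStatement) (hQG : QGStatement)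
    (hGN : GNStatement) (hGQ : GQStatement) (hE1 : E1Statement) : E2Statement := by
  intro B Ω _ D hB hD u hu
  obtain ⟨-, hwK, -⟩ := _hCLK B Ω D
  have hL := (hCLL B Ω D).2
  refine le_iInf fun κ => le_iInf fun x => le_iInf fun e => ?_
  rw [le_himp_iff]
  obtain ⟨Γ, hΓ⟩ : ∃ Γ, Γ = fnT (clK D) u ⊓ (clL D κ ⊓ TT D u κ x) := ⟨_, rfl⟩
  rw [← hΓ]
  have g1 : Γ ≤ fnT (clK D) u := by rw [hΓ]; exact inf_le_left
  have g2 : Γ ≤ clL D κ := by rw [hΓ]; exact inf_le_right.trans inf_le_left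
  have g3 : Γ ≤ TT D u κ x := by rw [hΓ]; exact inf_le_right.trans inf_le_right
  refine TT_cases D u κ x g3 ?_ ?_ ?_
  · -- points of `K`
    obtain ⟨Δ, hΔ⟩ : ∃ Δ, Δ = Γ ⊓ (κ o0 ⊓ u κ x) := ⟨_, rfl⟩
    rw [← hΔ]
    have d0 : Δ ≤ Γ := by rw [hΔ]; exact inf_le_left
    have d1 : Δ ≤ κ o0 := by rw [hΔ]; exact inf_le_right.trans inf_le_left
    have d2 : Δ ≤ u κ x := by rw [hΔ]; exact inf_le_right.trans inf_le_right
    have d3 : Δ ≤ clK D κ := (le_inf (d0.trans g2) d1).trans ((hL κ).trans inf_le_left)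
    refine le_iSup_cases' ((le_inf (d0.trans g1) (le_inf d3 d2)).trans (fnT_cn κ x e.2))
      fun F => ?_
    refine le_trans ?_ (le_iSup _ (insert o0 F))
    refine le_iInf fun κ' => le_iInf fun x' => ?_
    rw [le_himp_iff]
    obtain ⟨Λ, hΛ⟩ : ∃ Λ, Λ = Δ ⊓ (⨅ κ', ⨅ x', clK D κ' ⊓ agree F κ κ' ⊓ u κ' x' ⇨
      tv (|x' - x| < e.1)) ⊓ (clL D κ' ⊓ agree (insert o0 F) κ κ' ⊓ TT D u κ' x') := ⟨_, rfl⟩
    rw [← hΛ]
    have k0 : Λ ≤ Δ := by rw [hΛ]; exact inf_le_left.trans inf_le_left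
    have k1 : Λ ≤ ⨅ κ', ⨅ x', clK D κ' ⊓ agree F κ κ' ⊓ u κ' x' ⇨ tv (|x' - x| < e.1) := by
      rw [hΛ]; exact inf_le_left.trans inf_le_right
    have k2 : Λ ≤ clL D κ' := by
      rw [hΛ]; exact inf_le_right.trans (inf_le_left.trans inf_le_left)
    have k3 : Λ ≤ agree (insert o0 F) κ κ' := by
      rw [hΛ]; exact inf_le_right.trans (inf_le_left.trans inf_le_right)
    have k4 : Λ ≤ TT D u κ' x' := by rw [hΛ]; exact inf_le_right.trans inf_le_right
    have k5 : Λ ≤ κ' o0 :=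
      (le_inf k3 (k0.trans d1)).trans (agree_inf_le κ κ' (Finset.mem_insert_self o0 F))
    have k6 : Λ ≤ clK D κ' := (le_inf k2 k5).trans ((hL κ').trans inf_le_left)
    have k7 : Λ ≤ u κ' x' := (le_inf k4 k5).trans (TT_o0 D u κ' x')
    exact (le_inf (k1.trans ((iInf_le _ κ').trans (iInf_le _ x'))) (le_inf (le_inf k6
      (k3.trans (agree_mono (Finset.subset_insert _ _) κ κ'))) k7)).trans himp_inf_le
  · -- the points of the nodes
    intro s g hx
    obtain ⟨Δ, hΔ⟩ : ∃ Δ, Δ = Γ ⊓ (eqP κ (sg s) ⊓ gr D u g) := ⟨_, rfl⟩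
    rw [← hΔ]
    have d0 : Δ ≤ Γ := by rw [hΔ]; exact inf_le_left
    have d1 : Δ ≤ eqP κ (sg s) := by rw [hΔ]; exact inf_le_right.trans inf_le_left
    refine le_trans ?_ (le_iSup _ {Sum.inr (Sum.inr s)})
    refine le_iInf fun κ' => le_iInf fun x' => ?_
    rw [le_himp_iff]
    obtain ⟨Λ, hΛ⟩ : ∃ Λ, Λ = Δ ⊓ (clL D κ' ⊓ agree {Sum.inr (Sum.inr s)} κ κ' ⊓
      TT D u κ' x') := ⟨_, rfl⟩
    rw [← hΛ]
    have k0 : Λ ≤ Δ := by rw [hΛ]; exact inf_le_left
    have k2 : Λ ≤ clL D κ' := by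
      rw [hΛ]; exact inf_le_right.trans (inf_le_left.trans inf_le_left)
    have k3 : Λ ≤ agree {Sum.inr (Sum.inr s)} κ κ' := by
      rw [hΛ]; exact inf_le_right.trans (inf_le_left.trans inf_le_right)
    have k4 : Λ ≤ TT D u κ' x' := by rw [hΛ]; exact inf_le_right.trans inf_le_right
    have k5 : Λ ≤ κ (Sum.inr (Sum.inr s)) := by
      refine le_trans (le_inf (k0.trans d1) ?_) (eqP_inf_le' κ (sg s) (Sum.inr (Sum.inr s)))
      rw [sg_self]; exact le_top
    have k6 : Λ ≤ κ' (Sum.inr (Sum.inr s)) :=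
      (le_inf k3 k5).trans (agree_inf_le κ κ' (Finset.mem_singleton_self _))
    have k7 : Λ ≤ eqP κ' (sg s) := by
      refine TT_cases D u κ' x' k4 ?_ ?_ ?_
      · refine le_trans ?_ bot_le
        have m1 : Λ ⊓ (κ' o0 ⊓ u κ' x') ≤ (κ' (Sum.inr (Sum.inr s)))ᶜ :=
          (le_inf (inf_le_left.trans k2) (inf_le_right.trans inf_le_left)).trans
            ((hL κ').trans (inf_le_right.trans (iInf_le _ s)))
        exact (le_inf (inf_le_left.trans k6) m1).trans (inf_compl_self _).le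
      · intro s' g' _
        by_cases hs : s' = s
        · rw [hs]; exact inf_le_right.trans inf_le_left
        · refine le_trans ?_ bot_le
          refine (le_inf (inf_le_right.trans inf_le_left) (inf_le_left.trans k6)).trans
            ((eqP_inf_le κ' (sg s') (Sum.inr (Sum.inr s))).trans ?_)
          change (tv (s' = s) : B) ≤ ⊥
          rw [tv_neg hs]
      · intro _
        exact (le_inf inf_le_right (inf_le_left.trans k6)).trans
          ((eqP_em_ap κ' (Sum.inr (Sum.inr s))).trans bot_le)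
    have k8 : Λ ≤ eqP κ κ' := by
      rw [eqP_comm κ' (sg s)] at k7
      exact (le_inf (k0.trans d1) k7).trans (eqP_trans κ (sg s) κ')
    have k9 : Λ ≤ TT D u κ' x :=
      (le_inf k8 (k0.trans (d0.trans g3))).trans (TT_ext D hu κ κ' x)
    have k10 : Λ ≤ tv (x = x') := by
      have m2 := (k0.trans (d0.trans g1)).trans (hE1 B Ω D hB hD u hu)
      exact (le_inf (m2.trans (inf_le_right.trans ((iInf_le _ κ').trans ((iInf_le _ x).trans
        (iInf_le _ x'))))) (le_inf (le_inf k2 k9) k4)).trans himp_inf_le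
    refine k10.trans (tv_mono ?_)
    rintro rfl
    rw [sub_self, abs_zero]
    exact e.2
  · -- the empty point
    intro hx
    subst hx
    refine le_iSup_cases' ((inf_le_left.trans (g1.trans inf_le_left)).trans (hGR B Ω D hB u))
      fun g => ?_
    by_cases hN : Nice g
    swap
    · refine (le_inf (inf_le_left.trans (inf_le_left.trans g1)) inf_le_right).trans
        ((hQG B Ω D hD u hu g).trans ?_)
      rw [tv_neg hN]
      exact bot_le
    obtain ⟨N, hNg⟩ := hGQ.2.2.2 g (hGN g hN) (e.1 / 2) (half_pos e.2)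
    obtain ⟨Δ, hΔ⟩ : ∃ Δ, Δ = Γ ⊓ eqP κ em ⊓ gr D u g := ⟨_, rfl⟩
    rw [← hΔ]
    have d0 : Δ ≤ Γ := by rw [hΔ]; exact inf_le_left.trans inf_le_left
    have d1 : Δ ≤ eqP κ em := by rw [hΔ]; exact inf_le_left.trans inf_le_right
    have d2 : Δ ≤ gr D u g := by rw [hΔ]; exact inf_le_right
    have hfin : {s : T | lev s < N}.Finite := finite_lev_lt N
    refine le_trans ?_ (le_iSup _ (insert o0 (hfin.toFinset.image fun s => Sum.inr (Sum.inr s))))
    refine le_iInf fun κ' => le_iInf fun x' => ?_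
    rw [le_himp_iff]
    obtain ⟨F, hF⟩ : ∃ F : Finset (Om Ω), F = insert o0 (hfin.toFinset.image fun s =>
      Sum.inr (Sum.inr s)) := ⟨_, rfl⟩
    rw [← hF]
    obtain ⟨Λ, hΛ⟩ : ∃ Λ, Λ = Δ ⊓ (clL D κ' ⊓ agree F κ κ' ⊓ TT D u κ' x') := ⟨_, rfl⟩
    rw [← hΛ]
    have k0 : Λ ≤ Δ := by rw [hΛ]; exact inf_le_left
    have k3 : Λ ≤ agree F κ κ' := by
      rw [hΛ]; exact inf_le_right.trans (inf_le_left.trans inf_le_right)
    have k4 : Λ ≤ TT D u κ' x' := by rw [hΛ]; exact inf_le_right.trans inf_le_right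
    have hno : ∀ o ∈ F, Λ ⊓ κ' o ≤ ⊥ := by
      intro o ho
      have m1 : Λ ⊓ κ' o ≤ κ o :=
        (le_inf (inf_le_left.trans k3) inf_le_right).trans (agree_inf_le' κ κ' ho)
      exact (le_inf (inf_le_left.trans (k0.trans d1)) m1).trans (eqP_em_ap κ o)
    refine TT_cases D u κ' x' k4 ?_ ?_ ?_
    · refine (inf_le_inf_left _ inf_le_left).trans ((hno o0 ?_).trans bot_le)
      rw [hF]; exact Finset.mem_insert_self _ _
    · intro s' g' hx'
      have m1 : Λ ⊓ (eqP κ' (sg s') ⊓ gr D u g') ≤ κ' (Sum.inr (Sum.inr s')) := by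
        refine le_trans (le_inf (inf_le_right.trans inf_le_left) ?_)
          (eqP_inf_le' κ' (sg s') (Sum.inr (Sum.inr s')))
        rw [sg_self]; exact le_top
      by_cases hs : lev s' < N
      · refine (le_inf inf_le_left m1).trans ((hno _ ?_).trans bot_le)
        rw [hF]
        refine Finset.mem_insert_of_mem (Finset.mem_image_of_mem _ ?_)
        rw [Set.Finite.mem_toFinset]
        exact hs
      · have m2 : Λ ⊓ (eqP κ' (sg s') ⊓ gr D u g') ≤ tv (∀ t, g t = g' t) := by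
          rw [tv_forall]
          refine le_iInf fun t => ?_
          refine le_trans (le_inf (inf_le_left.trans (k0.trans (d0.trans g1)))
            (le_inf (le_inf ?_ ?_) ?_)) (fnT_unq (wB D t) (g t) (g' t))
          · rw [hwK]; exact le_top
          · exact inf_le_left.trans (k0.trans (d2.trans (iInf_le _ t)))
          · exact inf_le_right.trans (inf_le_right.trans (iInf_le _ t))
        refine m2.trans (tv_mono fun h => ?_)
        have hgg : g' = g := (funext h).symm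
        rw [hx', hgg, sub_zero]
        have := hNg s' (not_lt.1 hs)
        have he := e.2
        linarith
    · intro hx'
      rw [hx', sub_self, abs_zero, tv_pos e.2]
      exact le_top

end Pool.Agent.Lib.MP_9ea9ae_an.V.E2h15
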