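import Pool.Agent.Lib.MP_9ea9ae_an.V.Base

/-!
# E3: additivity of the operator
-/

open scoped symmDiff

namespace Pool.Agent.Lib.MP_9ea9ae_an.V

open Pool.Agent.Lib.MP_9ea9ae_an

namespace E3

variable {B : Type} [CompleteBooleanAlgebra B] {Ω : Type} {D : Ω → Br → B}

theorem sg_o0 (s : T) : (sg s : Pt Ω B) o0 = ⊥ := rfl

theorem em_o0 : (em : Pt Ω B) o0 = ⊥ := rfl

theorem eqP_sg_o0 (κ : Pt Ω B) (s : T) : eqP κ (sg s) ⊓ κ o0 ≤ ⊥ := by
  have h := eqP_inf_le κ (sg s) o0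
  rwa [sg_o0] at h

theorem eqP_em_o0 (κ : Pt Ω B) : eqP κ em ⊓ κ o0 ≤ ⊥ := by
  have h := eqP_inf_le κ em o0
  rwa [em_o0] at h

theorem eqP_sg_em (κ : Pt Ω B) (s : T) : eqP κ (sg s) ⊓ eqP κ em ≤ ⊥ := by
  have h1 := eqP_inf_le' κ (sg s) (Sum.inr (Sum.inr s))
  have h2 := eqP_inf_le κ em (Sum.inr (Sum.inr s))
  have h3 : (sg s : Pt Ω B) (Sum.inr (Sum.inr s)) = ⊤ := tv_pos rfl
  have h4 : (em : Pt Ω B) (Sum.inr (Sum.inr s)) = ⊥ := rfl
  rw [h3, inf_top_eq] at h1
  rw [h4] at h2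
  calc eqP κ (sg s) ⊓ eqP κ em ≤ eqP κ em ⊓ κ (Sum.inr (Sum.inr s)) :=
        le_inf inf_le_right (inf_le_left.trans h1)
    _ ≤ ⊥ := h2

theorem eqP_sg_sg (κ : Pt Ω B) {s s' : T} (h : s' ≠ s) : eqP κ (sg s) ⊓ eqP κ (sg s') ≤ ⊥ := by
  have h1 := eqP_inf_le' κ (sg s) (Sum.inr (Sum.inr s))
  have h2 := eqP_inf_le κ (sg s') (Sum.inr (Sum.inr s))
  have h3 : (sg s : Pt Ω B) (Sum.inr (Sum.inr s)) = ⊤ := tv_pos rfl
  have h4 : (sg s' : Pt Ω B) (Sum.inr (Sum.inr s)) = ⊥ := tv_neg h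
  rw [h3, inf_top_eq] at h1
  rw [h4] at h2
  calc eqP κ (sg s) ⊓ eqP κ (sg s') ≤ eqP κ (sg s') ⊓ κ (Sum.inr (Sum.inr s)) :=
        le_inf inf_le_right (inf_le_left.trans h1)
    _ ≤ ⊥ := h2

/-- The operator at points which contain the root. -/
theorem TT_a (u : Pt Ω B → ℝ → B) (κ : Pt Ω B) (x : ℝ) : κ o0 ⊓ TT D u κ x ≤ u κ x := by
  rw [TT, inf_sup_left, inf_sup_left]
  refine sup_le (sup_le (inf_le_right.trans inf_le_right) ?_) ?_
  · rw [inf_iSup_eq]
    refine iSup_le fun s => ?_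
    refine le_trans ?_ ((eqP_sg_o0 κ s).trans bot_le)
    exact le_inf (inf_le_right.trans inf_le_left) inf_le_left
  · refine le_trans ?_ ((eqP_em_o0 κ).trans bot_le)
    exact le_inf (inf_le_right.trans inf_le_left) inf_le_left

/-- The operator at the points `{s}`. -/
theorem TT_b (u : Pt Ω B → ℝ → B) (κ : Pt Ω B) (x : ℝ) (s : T) :
    eqP κ (sg s) ⊓ TT D u κ x ≤ ⨆ g : T → ℝ, gr D u g ⊓ tv (x = g s - nuG s g) := by
  rw [TT, inf_sup_left, inf_sup_left]
  refine sup_le (sup_le ?_ ?_) ?_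
  · refine le_trans ?_ ((eqP_sg_o0 κ s).trans bot_le)
    exact le_inf inf_le_left (inf_le_right.trans inf_le_left)
  · rw [inf_iSup_eq]
    refine iSup_le fun s' => ?_
    by_cases h : s' = s
    · subst h
      exact inf_le_right.trans inf_le_right
    · refine le_trans ?_ ((eqP_sg_sg κ h).trans bot_le)
      exact le_inf inf_le_left (inf_le_right.trans inf_le_left)
  · refine le_trans ?_ ((eqP_sg_em κ s).trans bot_le)
    exact le_inf inf_le_left (inf_le_right.trans inf_le_left)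

/-- The operator at the empty point. -/
theorem TT_c (u : Pt Ω B → ℝ → B) (κ : Pt Ω B) (x : ℝ) : eqP κ em ⊓ TT D u κ x ≤ tv (x = 0) := by
  rw [TT, inf_sup_left, inf_sup_left]
  refine sup_le (sup_le ?_ ?_) (inf_le_right.trans inf_le_right)
  · refine le_trans ?_ ((eqP_em_o0 κ).trans bot_le)
    exact le_inf inf_le_left (inf_le_right.trans inf_le_left)
  · rw [inf_iSup_eq]
    refine iSup_le fun s => ?_
    refine le_trans ?_ ((eqP_sg_em κ s).trans bot_le)
    exact le_inf (inf_le_right.trans inf_le_left) inf_le_left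

theorem gr_le (u : Pt Ω B → ℝ → B) (g : T → ℝ) (t : T) : gr D u g ≤ u (wB D t) (g t) := iInf_le _ t

theorem tv_inf {p q : Prop} {a : B} (h : a ≤ tv p) (h' : a ≤ tv q) : a ≤ tv (p ∧ q) := by
  rw [tv_and]
  exact le_inf h h'

/-- Cases for a point of `clL`. -/
theorem clL_cases {Γ b : B} (κ : Pt Ω B) (h1 : Γ ⊓ clK D κ ≤ b)
    (h2 : ∀ s : T, Γ ⊓ eqP κ (sg s) ≤ b) (h3 : Γ ⊓ eqP κ em ≤ b) : Γ ⊓ clL D κ ≤ b := by
  rw [clL, inf_sup_left, inf_sup_left]
  refine sup_le (sup_le ((inf_le_inf_left _ inf_le_left).trans h1) ?_) h3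
  rw [inf_iSup_eq]
  exact iSup_le h2

end E3

open E3 in
theorem e3 (hCLK : CLKStatement) (_hCLL : CLLStatement) (_hGR : GRStatement) (hQG : QGStatement)
    (hGN : GNStatement) (hGQ : GQStatement) (_hE1 : E1Statement) : E3Statement := by
  intro B Ω _ D hB hD u v w hu hv hw'
  obtain ⟨-, hw, hk⟩ := hCLK B Ω D
  set Γ : B := fnT (clK D) u ⊓ fnT (clK D) v ⊓ fnT (clK D) w ⊓ sumT (clK D) u v w with hΓ
  have hb : ∀ κ x y z, Γ ⊓ (clK D κ ⊓ u κ x ⊓ v κ y ⊓ w κ z) ≤ tv (x + y = z) := by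
    intro κ x y z
    rw [← le_himp_iff]
    exact inf_le_right.trans ((iInf_le _ κ).trans ((iInf_le _ x).trans ((iInf_le _ y).trans
      (iInf_le _ z))))
  have hgr : ∀ g h k : T → ℝ, Γ ⊓ gr D u g ⊓ gr D v h ⊓ gr D w k ≤
      tv (∀ t, g t + h t = k t) := by
    intro g h k
    rw [tv_forall]
    refine le_iInf fun t => ?_
    refine le_trans ?_ (hb (wB D t) (g t) (h t) (k t))
    rw [hw t, top_inf_eq]
    exact le_inf (inf_le_left.trans (inf_le_left.trans inf_le_left))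
      (le_inf (le_inf (inf_le_left.trans (inf_le_left.trans (inf_le_right.trans (gr_le u g t))))
        (inf_le_left.trans (inf_le_right.trans (gr_le v h t))))
        (inf_le_right.trans (gr_le w k t)))
  have hQ : ∀ g : T → ℝ, Γ ⊓ gr D u g ≤ tv (Q g) := fun g =>
    ((inf_le_inf_right _ (inf_le_left.trans (inf_le_left.trans inf_le_left))).trans
      (hQG B Ω D hD u hu g)).trans (tv_mono (hGN g))
  have hQ' : ∀ g : T → ℝ, Γ ⊓ gr D v g ≤ tv (Q g) := fun g =>
    ((inf_le_inf_right _ (inf_le_left.trans (inf_le_left.trans inf_le_right))).trans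
      (hQG B Ω D hD v hv g)).trans (tv_mono (hGN g))
  refine le_iInf fun κ => le_iInf fun x => le_iInf fun y => le_iInf fun z => ?_
  rw [le_himp_iff, inf_assoc (clL D κ ⊓ TT D u κ x), inf_assoc (clL D κ), inf_comm (clL D κ),
    ← inf_assoc Γ]
  refine clL_cases κ ?_ (fun s => ?_) ?_
  · refine le_trans ?_ (hb κ x y z)
    refine le_inf (inf_le_left.trans inf_le_left)
      (le_inf (le_inf (le_inf inf_le_right ?_) ?_) ?_)
    · refine le_trans ?_ (TT_a (D := D) u κ x)
      exact le_inf (inf_le_right.trans (hk κ))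
        (inf_le_left.trans (inf_le_right.trans inf_le_left))
    · refine le_trans ?_ (TT_a (D := D) v κ y)
      exact le_inf (inf_le_right.trans (hk κ))
        (inf_le_left.trans (inf_le_right.trans (inf_le_right.trans inf_le_left)))
    · refine le_trans ?_ (TT_a (D := D) w κ z)
      exact le_inf (inf_le_right.trans (hk κ))
        (inf_le_left.trans (inf_le_right.trans (inf_le_right.trans inf_le_right)))
  · set Δ : B := Γ ⊓ (TT D u κ x ⊓ (TT D v κ y ⊓ TT D w κ z)) ⊓ eqP κ (sg s) with hΔ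
    have h1 : Δ ≤ ⨆ g : T → ℝ, gr D u g ⊓ tv (x = g s - nuG s g) := by
      refine le_trans ?_ (TT_b (D := D) u κ x s)
      exact le_inf inf_le_right (inf_le_left.trans (inf_le_right.trans inf_le_left))
    have h1' : Δ ≤ ⨆ g : T → ℝ, gr D v g ⊓ tv (y = g s - nuG s g) := by
      refine le_trans ?_ (TT_b (D := D) v κ y s)
      exact le_inf inf_le_right
        (inf_le_left.trans (inf_le_right.trans (inf_le_right.trans inf_le_left)))
    have h2 : Δ ≤ ⨆ g : T → ℝ, gr D w g ⊓ tv (z = g s - nuG s g) := by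
      refine le_trans ?_ (TT_b (D := D) w κ z s)
      exact le_inf inf_le_right
        (inf_le_left.trans (inf_le_right.trans (inf_le_right.trans inf_le_right)))
    refine le_iSup_cases' h1 fun g => ?_
    refine le_iSup_cases' (inf_le_left.trans h1') fun h => ?_
    refine le_iSup_cases' (inf_le_left.trans (inf_le_left.trans h2)) fun k => ?_
    set Θ : B := Δ ⊓ (gr D u g ⊓ tv (x = g s - nuG s g)) ⊓ (gr D v h ⊓ tv (y = h s - nuG s h)) ⊓
      (gr D w k ⊓ tv (z = k s - nuG s k)) with hΘ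
    have a1 : Θ ≤ Γ := inf_le_left.trans (inf_le_left.trans (inf_le_left.trans
      (inf_le_left.trans inf_le_left)))
    have a2 : Θ ≤ gr D u g := inf_le_left.trans (inf_le_left.trans (inf_le_right.trans inf_le_left))
    have a3 : Θ ≤ gr D v h := inf_le_left.trans (inf_le_right.trans inf_le_left)
    have a4 : Θ ≤ gr D w k := inf_le_right.trans inf_le_left
    have h3 : Θ ≤ tv ((∀ t, g t + h t = k t) ∧ Q g ∧ Q h ∧ x = g s - nuG s g ∧
        y = h s - nuG s h ∧ z = k s - nuG s k) := by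
      refine tv_inf ((le_inf (le_inf (le_inf a1 a2) a3) a4).trans (hgr g h k))
        (tv_inf ((le_inf a1 a2).trans (hQ g)) (tv_inf ((le_inf a1 a3).trans (hQ' h))
          (tv_inf ?_ (tv_inf ?_ (inf_le_right.trans inf_le_right)))))
      · exact inf_le_left.trans (inf_le_left.trans (inf_le_right.trans inf_le_right))
      · exact inf_le_left.trans (inf_le_right.trans inf_le_right)
    refine h3.trans (tv_mono fun H => ?_)
    obtain ⟨ha, hQg, hQh, hx, hy, hz⟩ := H
    have h4 := hGQ.1 s g h hQg hQh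
    have h5 : (fun t => g t + h t) = k := funext ha
    rw [h5] at h4
    rw [hx, hy, hz, h4, ← ha s]
    ring
  · have h1 : Γ ⊓ (TT D u κ x ⊓ (TT D v κ y ⊓ TT D w κ z)) ⊓ eqP κ em ≤
        tv (x = 0 ∧ y = 0 ∧ z = 0) := by
      refine tv_inf (le_trans ?_ (TT_c (D := D) u κ x)) (tv_inf
        (le_trans ?_ (TT_c (D := D) v κ y)) (le_trans ?_ (TT_c (D := D) w κ z)))
      · exact le_inf inf_le_right (inf_le_left.trans (inf_le_right.trans inf_le_left))
      · exact le_inf inf_le_right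
          (inf_le_left.trans (inf_le_right.trans (inf_le_right.trans inf_le_left)))
      · exact le_inf inf_le_right
          (inf_le_left.trans (inf_le_right.trans (inf_le_right.trans inf_le_right)))
    refine h1.trans (tv_mono fun h => ?_)
    rw [h.1, h.2.1, h.2.2, add_zero]

end Pool.Agent.Lib.MP_9ea9ae_an.V
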