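import Pool.Agent.Lib.MP_9ea9ae_an.V.Base

/-!
# Module E5: the operator is bounded
-/

open scoped symmDiff

namespace Pool.Agent.Lib.MP_9ea9ae_an.V

open Pool.Agent.Lib.MP_9ea9ae_an

/-- Module E5. -/
theorem e5 (hCLK : CLKStatement) (hCLL : CLLStatement) (_hGR : GRStatement) (hQG : QGStatement)
    (hGN : GNStatement) (hGQ : GQStatement) (_hE1 : E1Statement) : E5Statement := by
  intro B Ω _ D _ hD u e hu
  obtain ⟨-, hwK, -⟩ := hCLK B Ω D
  have hL := (hCLL B Ω D).2
  obtain ⟨-, -, hnu, -⟩ := hGQ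
  set Γ := fnT (clK D) u ⊓ bdT (clK D) u e with hΓ
  have hbd : ∀ (κ : Pt Ω B) (x : ℝ), Γ ⊓ (clK D κ ⊓ u κ x) ≤ tv (|x| ≤ e) := by
    intro κ x
    rw [← le_himp_iff]
    exact inf_le_right.trans ((iInf_le _ κ).trans (iInf_le _ x))
  have he : Γ ≤ tv (0 ≤ e) := by
    have h1 : Γ ≤ ⨆ x, u (wB D ⟨[], trivial⟩) x := by
      refine le_trans (le_inf inf_le_left ?_) (fnT_tot (c := clK D) (wB D ⟨[], trivial⟩))
      rw [hwK]
      exact le_top
    refine le_iSup_cases' h1 fun x => ?_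
    refine le_trans (le_inf inf_le_left (le_inf ?_ inf_le_right))
      ((hbd (wB D ⟨[], trivial⟩) x).trans (tv_mono fun h => (abs_nonneg x).trans h))
    rw [hwK]
    exact le_top
  by_cases he0 : 0 ≤ e
  swap
  · exact (he.trans (by rw [tv_neg he0])).trans bot_le
  refine le_iInf fun κ => le_iInf fun x => ?_
  rw [le_himp_iff]
  have h2 : clL D κ ⊓ TT D u κ x ≤ ((clL D κ ⊓ (κ o0 ⊓ u κ x)) ⊔
      (⨆ s : T, ⨆ g : T → ℝ, gr D u g ⊓ tv (x = g s - nuG s g))) ⊔ tv (x = 0) := by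
    unfold TT
    rw [inf_sup_left, inf_sup_left]
    refine sup_le_sup (sup_le_sup le_rfl ?_) ?_
    · exact inf_le_right.trans (iSup_mono fun s => inf_le_right)
    · exact inf_le_right.trans inf_le_right
  refine (inf_le_inf_left _ h2).trans ?_
  rw [inf_sup_left, inf_sup_left]
  refine sup_le (sup_le ?_ ?_) ?_
  · have h3 : Γ ⊓ (clL D κ ⊓ (κ o0 ⊓ u κ x)) ≤ tv (|x| ≤ e) := by
      refine le_trans (le_inf inf_le_left (le_inf ?_ ?_)) (hbd κ x)
      · refine le_trans ?_ ((hL κ).trans inf_le_left)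
        exact inf_le_right.trans (inf_le_inf_left _ inf_le_left)
      · exact inf_le_right.trans (inf_le_right.trans inf_le_right)
    exact h3.trans (tv_mono fun h => h.trans (by linarith))
  · rw [inf_iSup_eq]
    refine iSup_le fun s => ?_
    rw [inf_iSup_eq]
    refine iSup_le fun g => ?_
    have h4 : Γ ⊓ (gr D u g ⊓ tv (x = g s - nuG s g)) ≤ tv (Nice g) :=
      le_trans (le_inf (inf_le_left.trans inf_le_left) (inf_le_right.trans inf_le_left))
        (hQG B Ω D hD u hu g)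
    have h5 : Γ ⊓ (gr D u g ⊓ tv (x = g s - nuG s g)) ≤ tv (∀ t, |g t| ≤ e) := by
      rw [tv_forall]
      refine le_iInf fun t => ?_
      refine le_trans (le_inf inf_le_left (le_inf ?_ ?_)) (hbd (wB D t) (g t))
      · rw [hwK]
        exact le_top
      · exact inf_le_right.trans (inf_le_left.trans (iInf_le _ t))
    have h6 : Γ ⊓ (gr D u g ⊓ tv (x = g s - nuG s g)) ≤ tv (x = g s - nuG s g) :=
      inf_le_right.trans inf_le_right
    refine (le_inf (le_inf h4 h5) h6).trans ?_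
    rw [← tv_and, ← tv_and]
    refine tv_mono ?_
    rintro ⟨⟨hN, hb⟩, hx⟩
    have h7 := hnu s g e 0 (hGN g hN) fun t _ => hb t
    rw [hx]
    have h8 := abs_sub (g s) (nuG s g)
    have h9 := hb s
    linarith
  · refine inf_le_right.trans (tv_mono fun h => ?_)
    rw [h, abs_zero]
    linarith

end Pool.Agent.Lib.MP_9ea9ae_an.V
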