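import Pool.Agent.Lib.MP_9ea9ae_an.V.Base

/-!
# Module E6: the operator is bounded below
-/

open scoped symmDiff

namespace Pool.Agent.Lib.MP_9ea9ae_an.V.E6

open Pool.Agent.Lib.MP_9ea9ae_an Pool.Agent.Lib.MP_9ea9ae_an.V

variable {B Ω : Type} [CompleteBooleanAlgebra B]

/-- The real number argument. -/
theorem real_arg (hGQ : GQStatement) {g : T → ℝ} {e : ℝ} (hQ : Q g)
    (h1 : ∀ s, |g s - nuG s g| ≤ e)
    (h2 : ∀ ε : ℝ, 0 < ε → ∃ N, ∀ t : T, N ≤ lev t → |g t| ≤ e + ε) (s : T) :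
    |g s| ≤ 2 * e := by
  have h3 : |nuG s g| ≤ e := by
    refine le_of_forall_pos_le_add fun ε hε => ?_
    obtain ⟨N, hN⟩ := h2 ε hε
    exact hGQ.2.2.1 s g (e + ε) N hQ hN
  have h4 : |g s| ≤ |g s - nuG s g| + |nuG s g| := by
    have : g s = (g s - nuG s g) + nuG s g := by ring
    conv_lhs => rw [this]
    exact abs_add_le _ _
  have := h1 s
  linarith

/-- Module E6. -/
theorem e6 (hCLK : CLKStatement) (_hCLL : CLLStatement) (hGR : GRStatement) (hQG : QGStatement)
    (hGN : GNStatement) (hGQ : GQStatement) (hUC : UCStatement) (hKB : KBStatement)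
    (hNL : NLStatement) (_hE1 : E1Statement) : E6Statement := by
  intro B Ω _ D hB hD u e hu
  obtain ⟨hclo, hwK, -⟩ := hCLK B Ω D
  obtain ⟨Γ, hΓ⟩ : ∃ Γ, Γ = fnT (clK D) u ⊓ bdT (clL D) (TT D u) e := ⟨_, rfl⟩
  rw [← hΓ]
  have gf : Γ ≤ fnT (clK D) u := by rw [hΓ]; exact inf_le_left
  have gb : ∀ (κ : Pt Ω B) (x : ℝ), Γ ⊓ (clL D κ ⊓ TT D u κ x) ≤ tv (|x| ≤ e) := by
    intro κ x
    rw [← le_himp_iff, hΓ]
    exact inf_le_right.trans ((iInf_le _ κ).trans (iInf_le _ x))
  -- the values at the nodes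
  refine le_iSup_cases' ((gf.trans inf_le_left).trans (hGR B Ω D hB u)) fun g => ?_
  by_cases hN : Nice g
  swap
  · refine (le_inf (inf_le_left.trans gf) inf_le_right).trans ((hQG B Ω D hD u hu g).trans ?_)
    rw [tv_neg hN]
    exact bot_le
  have hQ := hGN g hN
  obtain ⟨Δ, hΔ⟩ : ∃ Δ, Δ = Γ ⊓ gr D u g := ⟨_, rfl⟩
  rw [← hΔ]
  have d1 : Δ ≤ Γ := by rw [hΔ]; exact inf_le_left
  have d2 : Δ ≤ gr D u g := by rw [hΔ]; exact inf_le_right
  have d3 : Δ ≤ tv (∀ s, |g s - nuG s g| ≤ e) := by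
    rw [tv_forall]
    refine le_iInf fun s => ?_
    refine le_trans (le_inf d1 (le_inf ?_ ?_)) (gb (sg s) (g s - nuG s g))
    · refine le_trans ?_ (le_sup_of_le_left (le_sup_of_le_right
        (le_iSup (fun s' => eqP (sg s) (sg s')) s)))
      rw [eqP_refl]
      exact le_top
    · refine le_sup_of_le_left (le_sup_of_le_right ?_)
      refine le_trans ?_ (le_iSup _ s)
      rw [eqP_refl, top_inf_eq]
      refine le_trans ?_ (le_iSup _ g)
      rw [tv_pos rfl, inf_top_eq]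
      exact d2
  have d4 : Δ ≤ tv (∀ ε : ℝ, 0 < ε → ∃ N, ∀ t : T, N ≤ lev t → |g t| ≤ e + ε) := by
    rw [tv_forall]
    refine le_iInf fun ε => ?_
    by_cases hε : 0 < ε
    swap
    · rw [tv_pos fun h => absurd h hε]
      exact le_top
    refine le_iSup_cases' ((d1.trans gf).trans (hUC B Ω (clK D) hclo u hu ε hε)) fun F => ?_
    obtain ⟨N, hNF⟩ := hNL B Ω D hD F
    have key : Δ ⊓ uc (clK D) u F ε ≤ tv (∀ t : T, N ≤ lev t → |g t| ≤ e + ε) := by
      rw [tv_forall]
      refine le_iInf fun t => ?_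
      by_cases ht : N ≤ lev t
      swap
      · rw [tv_pos fun h => absurd h ht]
        exact le_top
      refine le_iSup_cases (hNF t ht) fun z => ?_
      obtain ⟨k1, -, k3, k4⟩ := hKB B Ω D hD z
      refine le_iSup_cases' ((le_inf (inf_le_left.trans (inf_le_left.trans (d1.trans gf)))
        (by rw [k1]; exact le_top)).trans (fnT_tot (kb D z))) fun x => ?_
      have a1 : Δ ⊓ uc (clK D) u F ε ⊓ agree F (kb D z) (wB D t) ⊓ u (kb D z) x ≤
          tv (|x| ≤ e) := by
        refine le_trans (le_inf (inf_le_left.trans (inf_le_left.trans (inf_le_left.trans d1)))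
          (le_inf ?_ ?_)) (gb (kb D z) x)
        · rw [k4]; exact le_top
        · refine le_sup_of_le_left (le_sup_of_le_left ?_)
          rw [k3, top_inf_eq]
          exact inf_le_right
      have a2 : Δ ⊓ uc (clK D) u F ε ⊓ agree F (kb D z) (wB D t) ⊓ u (kb D z) x ≤
          tv (|x - g t| < ε) := by
        refine le_trans (le_inf (inf_le_left.trans (inf_le_left.trans inf_le_right))
          (le_inf (le_inf (le_inf (le_inf ?_ ?_) ?_) inf_le_right) ?_))
          (uc_le F ε (kb D z) (wB D t) x (g t))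
        · rw [k1]; exact le_top
        · rw [hwK]; exact le_top
        · exact inf_le_left.trans inf_le_right
        · exact inf_le_left.trans (inf_le_left.trans (inf_le_left.trans
            (d2.trans (iInf_le _ t))))
      refine (le_inf a1 a2).trans ?_
      rw [← tv_and]
      refine tv_mono fun ⟨b1, b2⟩ _ => ?_
      have b3 : |g t| ≤ |x - g t| + |x| := by
        have : g t = -(x - g t) + x := by ring
        conv_lhs => rw [this]
        refine (abs_add_le _ _).trans ?_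
        rw [abs_neg]
      linarith
    exact key.trans (tv_mono fun h _ => ⟨N, h⟩)
  by_cases h3 : ∀ s, |g s - nuG s g| ≤ e
  swap
  · exact (d3.trans (by rw [tv_neg h3])).trans bot_le
  by_cases h4 : ∀ ε : ℝ, 0 < ε → ∃ N, ∀ t : T, N ≤ lev t → |g t| ≤ e + ε
  swap
  · exact (d4.trans (by rw [tv_neg h4])).trans bot_le
  have h5 := real_arg hGQ hQ h3 h4
  -- density
  refine le_iInf fun κ => le_iInf fun x => ?_
  rw [le_himp_iff]
  by_cases hx : |x| ≤ 2 * e
  · rw [tv_pos hx]; exact le_top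
  refine le_trans ?_ bot_le
  have hpos : 0 < |x| - 2 * e := by linarith [not_le.1 hx]
  refine le_iSup_cases' ((le_inf (inf_le_left.trans (d1.trans gf)) inf_le_right).trans
    (fnT_cn κ x hpos)) fun F => ?_
  have e1 : Δ ⊓ (clK D κ ⊓ u κ x) ⊓ (⨅ κ', ⨅ x', clK D κ' ⊓ agree F κ κ' ⊓ u κ' x' ⇨
      tv (|x' - x| < |x| - 2 * e)) ≤ ⨆ s : T, agree F κ (wB D s) :=
    inf_le_left.trans (inf_le_right.trans (inf_le_left.trans (iInf_le _ F)))
  refine le_iSup_cases' e1 fun s => ?_
  have e2 : Δ ⊓ (clK D κ ⊓ u κ x) ⊓ (⨅ κ', ⨅ x', clK D κ' ⊓ agree F κ κ' ⊓ u κ' x' ⇨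
      tv (|x' - x| < |x| - 2 * e)) ⊓ agree F κ (wB D s) ≤ tv (|g s - x| < |x| - 2 * e) := by
    refine le_trans (le_inf (inf_le_left.trans (inf_le_right.trans ((iInf_le _ (wB D s)).trans
      (iInf_le _ (g s))))) ?_) himp_inf_le
    refine le_inf (le_inf ?_ inf_le_right) ?_
    · rw [hwK]; exact le_top
    · exact inf_le_left.trans (inf_le_left.trans (inf_le_left.trans (d2.trans (iInf_le _ s))))
  refine e2.trans ?_
  rw [tv_neg]
  intro h
  have h6 : |x| ≤ |g s - x| + |g s| := by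
    have : x = -(g s - x) + g s := by ring
    conv_lhs => rw [this]
    refine (abs_add_le _ _).trans ?_
    rw [abs_neg]
  have := h5 s
  linarith

end Pool.Agent.Lib.MP_9ea9ae_an.V.E6
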