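import Pool.Agent.Lib.MP_9ea9ae_an.V.Base

/-!
# Module EM: `C(K)` is isomorphic to a subspace of `C(L)`
-/

open scoped symmDiff

namespace Pool.Agent.Lib.MP_9ea9ae_an.V.EM

open Pool.Agent.Lib.MP_9ea9ae_an Pool.Agent.Lib.MP_9ea9ae_an.V
open Pool.Agent.Lib.MP_100a6c_lc Pool.Agent.Lib.MP_c5d73d_lc.F BName
open Pool.Agent.Lib.MP_6d445e_gt (op isTopo isHaus isFin fsub)

variable {B : Type} [CompleteBooleanAlgebra B] {Ω : Type}

theorem ext_op_fst (m y z : BName B) : Ext (fun x => op (VB B) m x y z) :=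
  Ext.iSup fun p => (ext_isPair_snd p y).inf (Ext.const _)

theorem ext_op_snd (m x z : BName B) : Ext (fun y => op (VB B) m x y z) :=
  Ext.iSup fun p => (ext_isPair_trd p x).inf (Ext.const _)

theorem ext_absb (R a o x : BName B) : Ext (fun e => absb (VB B) R a o x e) :=
  (ext_rel_trd o x).inf (Ext.iSup fun z => Ext.iSup fun p =>
    (((Ext.const _).inf (ext_op_snd a x p)).inf (Ext.const _)))

theorem ext_bdd1 (R a o X e : BName B) : Ext (fun f => bdd (VB B) R a o X f e) :=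
  Ext.iInf fun x => Ext.iInf fun r => ((Ext.const _).inf (ext_rel_fst x r)).himp (Ext.const _)

theorem ext_bdd2 (R a o X f : BName B) : Ext (fun e => bdd (VB B) R a o X f e) :=
  Ext.iInf fun x => Ext.iInf fun r => (Ext.const _).himp (ext_absb R a o r)

theorem ext_sum1 (a X g h : BName B) : Ext (fun f => isSum (VB B) a X f g h) :=
  Ext.iInf fun x => Ext.iInf fun r => Ext.iInf fun s => Ext.iInf fun q =>
    ((((Ext.const _).inf (ext_rel_fst x r)).inf (Ext.const _)).inf (Ext.const _)).himp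
      (Ext.const _)

theorem ext_sum2 (a X f h : BName B) : Ext (fun g => isSum (VB B) a X f g h) :=
  Ext.iInf fun x => Ext.iInf fun r => Ext.iInf fun s => Ext.iInf fun q =>
    (((Ext.const _).inf (ext_rel_fst x s)).inf (Ext.const _)).himp (Ext.const _)

theorem ext_sum3 (a X f g : BName B) : Ext (fun h => isSum (VB B) a X f g h) :=
  Ext.iInf fun x => Ext.iInf fun r => Ext.iInf fun s => Ext.iInf fun q =>
    ((Ext.const _).inf (ext_rel_fst x q)).himp (Ext.const _)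

theorem ext_mul1 (m X f h : BName B) : Ext (fun c => isMul (VB B) m X c f h) :=
  Ext.iInf fun x => Ext.iInf fun r => Ext.iInf fun q => (Ext.const _).himp (ext_op_fst m r q)

theorem ext_mul2 (m X c h : BName B) : Ext (fun f => isMul (VB B) m X c f h) :=
  Ext.iInf fun x => Ext.iInf fun r => Ext.iInf fun q =>
    (((Ext.const _).inf (ext_rel_fst x r)).inf (Ext.const _)).himp (Ext.const _)

theorem ext_mul3 (m X c f : BName B) : Ext (fun h => isMul (VB B) m X c f h) :=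
  Ext.iInf fun x => Ext.iInf fun r => Ext.iInf fun q =>
    ((Ext.const _).inf (ext_rel_fst x q)).himp (Ext.const _)

theorem rel_Tn (D : Ω → Br → B) (f g : BName B) : (VB B).rel (Tn D) f g =
    ⨆ u : {u : Pt Ω B → ℝ → B // ExU u}, fnT (clK D) u.1 ⊓ (beq f (fnn (clK D) u.1) ⊓
      beq g (fnn (clL D) (TT D u.1))) := by
  rw [rel_eq, Tn, mem_mk]
  simp only [beq_opr]

section

variable (D : Ω → Br → B) (hB : Distr B) (hD : Gen D) (hCLK : CLKStatement)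
  (hCLL : CLLStatement) (hHT : HTStatement) (hRO : ROStatement) (hC1 : C1Statement)
  (hC2 : C2Statement) (hC3 : C3Statement) (hE0 : E0Statement) (hE1 : E1Statement)
  (hE2 : E2Statement) (hE3 : E3Statement) (hE4 : E4Statement) (hE5 : E5Statement)
  (hE6 : E6Statement)

include hB hD hCLK hCLL hC1 hC2 hC3 hE0 hE1 hE2

theorem isOp_top : isOp (VB B) (Xn B ℝ) (rA B) (rO B) (Cn (clK D)) (tau (clK D)) (Cn (clL D))
    (tau (clL D)) (Tn D) = ⊤ := by
  have hcK := (hCLK B Ω D).1.ext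
  have hcL := (hCLL B Ω D).1.ext
  refine top_le_iff.1 (le_inf (le_iInf fun f => ?_) (le_iInf fun f => le_iInf fun g =>
    le_iInf fun g' => ?_))
  · rw [le_himp_iff, top_inf_eq]
    obtain ⟨hu, h1⟩ := hC1 B Ω (clK D) hcK f
    have hTu := (hE0 B Ω D).1 _ hu
    refine le_trans ?_ (le_iSup _ (fnn (clL D) (TT D (ft f))))
    refine le_inf ?_ ?_
    · refine le_trans ?_ (hC2 B Ω (clL D) hcL _ hTu).2
      refine (h1.trans inf_le_left).trans (le_inf ?_ ?_)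
      · exact hE1 B Ω D hB hD _ hu
      · exact hE2 B Ω D hB hD _ hu
    · rw [rel_Tn]
      refine le_trans ?_ (le_iSup _ (⟨ft f, hu⟩ : {u : Pt Ω B → ℝ → B // ExU u}))
      simp only [beq_refl, inf_top_eq]
      exact h1
  · rw [le_himp_iff, top_inf_eq, rel_Tn, rel_Tn]
    refine le_iSup_cases' inf_le_left fun u => le_iSup_cases' (inf_le_left.trans inf_le_right)
      fun v => ?_
    obtain ⟨Γ, hΓ⟩ : ∃ Γ, Γ = (⨆ u : {u : Pt Ω B → ℝ → B // ExU u}, fnT (clK D) u.1 ⊓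
        (beq f (fnn (clK D) u.1) ⊓ beq g (fnn (clL D) (TT D u.1)))) ⊓
        (⨆ u : {u : Pt Ω B → ℝ → B // ExU u}, fnT (clK D) u.1 ⊓
        (beq f (fnn (clK D) u.1) ⊓ beq g' (fnn (clL D) (TT D u.1)))) ⊓
        (fnT (clK D) u.1 ⊓ (beq f (fnn (clK D) u.1) ⊓ beq g (fnn (clL D) (TT D u.1)))) ⊓
        (fnT (clK D) v.1 ⊓ (beq f (fnn (clK D) v.1) ⊓ beq g' (fnn (clL D) (TT D v.1)))) :=
      ⟨_, rfl⟩
    rw [← hΓ]
    have g1 : Γ ≤ beq f (fnn (clK D) u.1) := by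
      rw [hΓ]; exact inf_le_left.trans (inf_le_right.trans (inf_le_right.trans inf_le_left))
    have g2 : Γ ≤ beq g (fnn (clL D) (TT D u.1)) := by
      rw [hΓ]; exact inf_le_left.trans (inf_le_right.trans (inf_le_right.trans inf_le_right))
    have g3 : Γ ≤ beq f (fnn (clK D) v.1) := by
      rw [hΓ]; exact inf_le_right.trans (inf_le_right.trans inf_le_left)
    have g4 : Γ ≤ beq g' (fnn (clL D) (TT D v.1)) := by
      rw [hΓ]; exact inf_le_right.trans (inf_le_right.trans inf_le_right)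
    have g5 : Γ ≤ beq (fnn (clK D) u.1) (fnn (clK D) v.1) :=
      (ext_eq_left _).of_le g1 g3
    rw [(hC3 B Ω (clK D) hcK u.1 v.1 v.1 u.2 v.2 v.2).1] at g5
    have g6 := g5.trans ((hE0 B Ω D).2 u.1 v.1 u.2 v.2)
    rw [← (hC3 B Ω (clL D) hcL _ _ _ ((hE0 B Ω D).1 _ u.2) ((hE0 B Ω D).1 _ v.2)
      ((hE0 B Ω D).1 _ v.2)).1] at g6
    exact (ext_eq_right g).of_le' g4 ((ext_eq_right g).of_le g6 g2)

omit hC1 hC2 hE1 hE2
include hE3 hE4 hHT

theorem isLinear_top : isLinear (VB B) (Xn B ℝ) (rA B) (rM B) (rO B) (Cn (clK D)) (tau (clK D))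
    (Cn (clL D)) (Tn D) = ⊤ := by
  have hcK := (hCLK B Ω D).1.ext
  have hcL := (hCLL B Ω D).1.ext
  have hT : ∀ u : {u : Pt Ω B → ℝ → B // ExU u}, ExU (TT D u.1) := fun u =>
    (hE0 B Ω D).1 _ u.2
  refine top_le_iff.1 (le_inf ?_ ?_)
  · refine le_iInf fun f => le_iInf fun f' => le_iInf fun f'' => le_iInf fun g =>
      le_iInf fun g' => le_iInf fun g'' => ?_
    rw [le_himp_iff, top_inf_eq]
    obtain ⟨Γ, hΓ⟩ : ∃ Γ, Γ =
      isCont (VB B) (Xn B ℝ) (rA B) (rO B) (Cn (clK D)) (tau (clK D)) f ⊓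
      isCont (VB B) (Xn B ℝ) (rA B) (rO B) (Cn (clK D)) (tau (clK D)) f' ⊓
      isCont (VB B) (Xn B ℝ) (rA B) (rO B) (Cn (clK D)) (tau (clK D)) f'' ⊓
      (VB B).rel (Tn D) f g ⊓ (VB B).rel (Tn D) f' g' ⊓ (VB B).rel (Tn D) f'' g'' ⊓
      isSum (VB B) (rA B) (Cn (clK D)) f f' f'' := ⟨_, rfl⟩
    rw [← hΓ]
    have g1 : Γ ≤ (VB B).rel (Tn D) f g := by
      rw [hΓ]; exact inf_le_left.trans (inf_le_left.trans (inf_le_left.trans inf_le_right))
    have g2 : Γ ≤ (VB B).rel (Tn D) f' g' := by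
      rw [hΓ]; exact inf_le_left.trans (inf_le_left.trans inf_le_right)
    have g3 : Γ ≤ (VB B).rel (Tn D) f'' g'' := by
      rw [hΓ]; exact inf_le_left.trans inf_le_right
    have g4 : Γ ≤ isSum (VB B) (rA B) (Cn (clK D)) f f' f'' := by rw [hΓ]; exact inf_le_right
    rw [rel_Tn] at g1 g2 g3
    refine le_iSup_cases' g1 fun u => le_iSup_cases' (inf_le_left.trans g2) fun v =>
      le_iSup_cases' (inf_le_left.trans (inf_le_left.trans g3)) fun w => ?_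
    obtain ⟨Δ, hΔ⟩ : ∃ Δ, Δ = Γ ⊓
      (fnT (clK D) u.1 ⊓ (beq f (fnn (clK D) u.1) ⊓ beq g (fnn (clL D) (TT D u.1)))) ⊓
      (fnT (clK D) v.1 ⊓ (beq f' (fnn (clK D) v.1) ⊓ beq g' (fnn (clL D) (TT D v.1)))) ⊓
      (fnT (clK D) w.1 ⊓ (beq f'' (fnn (clK D) w.1) ⊓ beq g'' (fnn (clL D) (TT D w.1)))) :=
        ⟨_, rfl⟩
    rw [← hΔ]
    have d0 : Δ ≤ Γ := by
      rw [hΔ]; exact inf_le_left.trans (inf_le_left.trans inf_le_left)
    have d1 : Δ ≤ fnT (clK D) u.1 ⊓ (beq f (fnn (clK D) u.1) ⊓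
        beq g (fnn (clL D) (TT D u.1))) := by
      rw [hΔ]; exact inf_le_left.trans (inf_le_left.trans inf_le_right)
    have d2 : Δ ≤ fnT (clK D) v.1 ⊓ (beq f' (fnn (clK D) v.1) ⊓
        beq g' (fnn (clL D) (TT D v.1))) := by
      rw [hΔ]; exact inf_le_left.trans inf_le_right
    have d3 : Δ ≤ fnT (clK D) w.1 ⊓ (beq f'' (fnn (clK D) w.1) ⊓
        beq g'' (fnn (clL D) (TT D w.1))) := by
      rw [hΔ]; exact inf_le_right
    have k1 : Δ ≤ isSum (VB B) (rA B) (Cn (clK D)) (fnn (clK D) u.1) (fnn (clK D) v.1)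
        (fnn (clK D) w.1) := by
      refine (ext_sum3 _ _ _ _).of_le (d3.trans (inf_le_right.trans inf_le_left)) ?_
      refine (ext_sum2 _ _ _ _).of_le (d2.trans (inf_le_right.trans inf_le_left)) ?_
      exact (ext_sum1 _ _ _ _).of_le (d1.trans (inf_le_right.trans inf_le_left)) (d0.trans g4)
    rw [(hC3 B Ω (clK D) hcK u.1 v.1 w.1 u.2 v.2 w.2).2.2.1] at k1
    have k2 := (le_inf (le_inf (le_inf (d1.trans inf_le_left) (d2.trans inf_le_left))
      (d3.trans inf_le_left)) k1).trans (hE3 B Ω D hB hD u.1 v.1 w.1 u.2 v.2 w.2)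
    rw [← (hC3 B Ω (clL D) hcL _ _ _ (hT u) (hT v) (hT w)).2.2.1] at k2
    refine (ext_sum3 _ _ _ _).of_le' (d3.trans (inf_le_right.trans inf_le_right)) ?_
    refine (ext_sum2 _ _ _ _).of_le' (d2.trans (inf_le_right.trans inf_le_right)) ?_
    exact (ext_sum1 _ _ _ _).of_le' (d1.trans (inf_le_right.trans inf_le_right)) k2
  · refine le_iInf fun c => le_iInf fun f => le_iInf fun f' => le_iInf fun g =>
      le_iInf fun g' => ?_
    rw [le_himp_iff, top_inf_eq]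
    obtain ⟨Γ, hΓ⟩ : ∃ Γ, Γ = (VB B).mem c (Xn B ℝ) ⊓
      isCont (VB B) (Xn B ℝ) (rA B) (rO B) (Cn (clK D)) (tau (clK D)) f ⊓
      isCont (VB B) (Xn B ℝ) (rA B) (rO B) (Cn (clK D)) (tau (clK D)) f' ⊓
      (VB B).rel (Tn D) f g ⊓ (VB B).rel (Tn D) f' g' ⊓
      isMul (VB B) (rM B) (Cn (clK D)) c f f' := ⟨_, rfl⟩
    rw [← hΓ]
    have g0 : Γ ≤ bmem c (Xn B ℝ) := by
      rw [hΓ]; exact inf_le_left.trans (inf_le_left.trans (inf_le_left.trans
        (inf_le_left.trans inf_le_left)))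
    have g1 : Γ ≤ (VB B).rel (Tn D) f g := by
      rw [hΓ]; exact inf_le_left.trans (inf_le_left.trans inf_le_right)
    have g2 : Γ ≤ (VB B).rel (Tn D) f' g' := by
      rw [hΓ]; exact inf_le_left.trans inf_le_right
    have g4 : Γ ≤ isMul (VB B) (rM B) (Cn (clK D)) c f f' := by rw [hΓ]; exact inf_le_right
    rw [rel_Tn] at g1 g2
    rw [(hHT B ℝ).2.1] at g0
    refine le_iSup_cases' g0 fun r => le_iSup_cases' (inf_le_left.trans g1) fun u =>
      le_iSup_cases' (inf_le_left.trans (inf_le_left.trans g2)) fun v => ?_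
    obtain ⟨Δ, hΔ⟩ : ∃ Δ, Δ = Γ ⊓ beq c (hat r) ⊓
      (fnT (clK D) u.1 ⊓ (beq f (fnn (clK D) u.1) ⊓ beq g (fnn (clL D) (TT D u.1)))) ⊓
      (fnT (clK D) v.1 ⊓ (beq f' (fnn (clK D) v.1) ⊓ beq g' (fnn (clL D) (TT D v.1)))) :=
        ⟨_, rfl⟩
    rw [← hΔ]
    have d0 : Δ ≤ Γ := by
      rw [hΔ]; exact inf_le_left.trans (inf_le_left.trans inf_le_left)
    have dr : Δ ≤ beq c (hat r) := by
      rw [hΔ]; exact inf_le_left.trans (inf_le_left.trans inf_le_right)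
    have d1 : Δ ≤ fnT (clK D) u.1 ⊓ (beq f (fnn (clK D) u.1) ⊓
        beq g (fnn (clL D) (TT D u.1))) := by
      rw [hΔ]; exact inf_le_left.trans inf_le_right
    have d2 : Δ ≤ fnT (clK D) v.1 ⊓ (beq f' (fnn (clK D) v.1) ⊓
        beq g' (fnn (clL D) (TT D v.1))) := by
      rw [hΔ]; exact inf_le_right
    have k1 : Δ ≤ isMul (VB B) (rM B) (Cn (clK D)) (hat r) (fnn (clK D) u.1)
        (fnn (clK D) v.1) := by
      refine (ext_mul3 _ _ _ _).of_le (d2.trans (inf_le_right.trans inf_le_left)) ?_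
      refine (ext_mul2 _ _ _ _).of_le (d1.trans (inf_le_right.trans inf_le_left)) ?_
      exact (ext_mul1 _ _ _ _).of_le dr (d0.trans g4)
    rw [(hC3 B Ω (clK D) hcK u.1 v.1 v.1 u.2 v.2 v.2).2.2.2 r] at k1
    have k2 := (le_inf (le_inf (d1.trans inf_le_left) (d2.trans inf_le_left)) k1).trans
      (hE4 B Ω D hB hD r u.1 v.1 u.2 v.2)
    rw [← (hC3 B Ω (clL D) hcL _ _ _ (hT u) (hT v) (hT v)).2.2.2 r] at k2
    refine (ext_mul3 _ _ _ _).of_le' (d2.trans (inf_le_right.trans inf_le_right)) ?_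
    refine (ext_mul2 _ _ _ _).of_le' (d1.trans (inf_le_right.trans inf_le_right)) ?_
    exact (ext_mul1 _ _ _ _).of_le' dr k2

omit hE3 hE4
include hE5 hE6 hRO

theorem isIso_top : isIso (VB B) (Xn B ℝ) (rA B) (rM B) (rO B) (Cn (clK D)) (tau (clK D))
    (Cn (clL D)) (Tn D) (hat (2 : ℝ)) = ⊤ := by
  have hcK := (hCLK B Ω D).1.ext
  have hcL := (hCLL B Ω D).1.ext
  have hT : ∀ u : {u : Pt Ω B → ℝ → B // ExU u}, ExU (TT D u.1) := fun u =>
    (hE0 B Ω D).1 _ u.2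
  refine top_le_iff.1 (le_iInf fun f => le_iInf fun g => le_iInf fun e => le_iInf fun e' => ?_)
  rw [le_himp_iff, top_inf_eq]
  obtain ⟨Γ, hΓ⟩ : ∃ Γ, Γ =
      isCont (VB B) (Xn B ℝ) (rA B) (rO B) (Cn (clK D)) (tau (clK D)) f ⊓
      (VB B).rel (Tn D) f g ⊓ (VB B).mem e (Xn B ℝ) ⊓ op (VB B) (rM B) (hat (2 : ℝ)) e e' :=
    ⟨_, rfl⟩
  rw [← hΓ]
  have g1 : Γ ≤ (VB B).rel (Tn D) f g := by
    rw [hΓ]; exact inf_le_left.trans (inf_le_left.trans inf_le_right)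
  have g2 : Γ ≤ bmem e (Xn B ℝ) := by rw [hΓ]; exact inf_le_left.trans inf_le_right
  have g3 : Γ ≤ op (VB B) (rM B) (hat (2 : ℝ)) e e' := by rw [hΓ]; exact inf_le_right
  rw [rel_Tn] at g1
  rw [(hHT B ℝ).2.1] at g2
  refine le_iSup_cases' g1 fun u => le_iSup_cases' (inf_le_left.trans g2) fun ε => ?_
  obtain ⟨Δ, hΔ⟩ : ∃ Δ, Δ = Γ ⊓ (fnT (clK D) u.1 ⊓ (beq f (fnn (clK D) u.1) ⊓
    beq g (fnn (clL D) (TT D u.1)))) ⊓ beq e (hat ε) := ⟨_, rfl⟩
  rw [← hΔ]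
  have d0 : Δ ≤ Γ := by rw [hΔ]; exact inf_le_left.trans inf_le_left
  have d1 : Δ ≤ fnT (clK D) u.1 := by
    rw [hΔ]; exact inf_le_left.trans (inf_le_right.trans inf_le_left)
  have d2 : Δ ≤ beq f (fnn (clK D) u.1) := by
    rw [hΔ]; exact inf_le_left.trans (inf_le_right.trans (inf_le_right.trans inf_le_left))
  have d3 : Δ ≤ beq g (fnn (clL D) (TT D u.1)) := by
    rw [hΔ]; exact inf_le_left.trans (inf_le_right.trans (inf_le_right.trans inf_le_right))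
  have d4 : Δ ≤ beq e (hat ε) := by rw [hΔ]; exact inf_le_right
  have d5 : Δ ≤ beq e' (hat (2 * ε)) := by
    rw [← (hRO B).2.2.2.1]
    exact (ext_op_snd (rM B) (hat (2 : ℝ)) e').of_le d4 (d0.trans g3)
  have cK := fun ε : ℝ => (hC3 B Ω (clK D) hcK u.1 u.1 u.1 u.2 u.2 u.2).2.1 ε
  have cL := fun ε : ℝ => (hC3 B Ω (clL D) hcL _ _ _ (hT u) (hT u) (hT u)).2.1 ε
  refine le_inf ?_ ?_
  · rw [le_himp_iff]
    have k1 : Δ ⊓ bdd (VB B) (Xn B ℝ) (rA B) (rO B) (Cn (clK D)) f e ≤ bdT (clK D) u.1 ε := by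
      rw [← cK]
      refine (ext_bdd2 _ _ _ _ _).of_le (inf_le_left.trans d4) ?_
      exact (ext_bdd1 _ _ _ _ _).of_le (inf_le_left.trans d2) inf_le_right
    have k2 := (le_inf (inf_le_left.trans d1) k1).trans (hE5 B Ω D hB hD u.1 ε u.2)
    rw [← cL] at k2
    refine (ext_bdd2 _ _ _ _ _).of_le' (inf_le_left.trans d5) ?_
    exact (ext_bdd1 _ _ _ _ _).of_le' (inf_le_left.trans d3) k2
  · rw [le_himp_iff]
    have k1 : Δ ⊓ bdd (VB B) (Xn B ℝ) (rA B) (rO B) (Cn (clL D)) g e ≤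
        bdT (clL D) (TT D u.1) ε := by
      rw [← cL]
      refine (ext_bdd2 _ _ _ _ _).of_le (inf_le_left.trans d4) ?_
      exact (ext_bdd1 _ _ _ _ _).of_le (inf_le_left.trans d3) inf_le_right
    have k2 := (le_inf (inf_le_left.trans d1) k1).trans (hE6 B Ω D hB hD u.1 ε u.2)
    rw [← cK] at k2
    refine (ext_bdd2 _ _ _ _ _).of_le' (inf_le_left.trans d5) ?_
    exact (ext_bdd1 _ _ _ _ _).of_le' (inf_le_left.trans d2) k2

end

/-- Module EM. -/
theorem em (hCLK : CLKStatement) (hCLL : CLLStatement) (hHT : HTStatement) (_hSB : SBStatement)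
    (hRO : ROStatement) (_hRP : RPStatement) (hC1 : C1Statement) (hC2 : C2Statement)
    (hC3 : C3Statement) (hE0 : E0Statement) (hE1 : E1Statement) (hE2 : E2Statement)
    (hE3 : E3Statement) (hE4 : E4Statement) (hE5 : E5Statement) (hE6 : E6Statement) :
    EMStatement := by
  intro B Ω _ D hB hD
  refine top_le_iff.1 (le_trans ?_ (le_iSup _ (Tn D)))
  refine le_trans ?_ (le_iSup _ (hat (2 : ℝ)))
  refine le_inf (le_inf (le_inf ?_ ?_) ?_) ?_
  · rw [VB_mem, (hHT B ℝ).2.2]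
  · rw [isOp_top D hB hD hCLK hCLL hC1 hC2 hC3 hE0 hE1 hE2]
  · rw [isLinear_top D hB hD hCLK hCLL hHT hC3 hE0 hE3 hE4]
  · rw [isIso_top D hB hD hCLK hCLL hHT hRO hC3 hE0 hE5 hE6]

end Pool.Agent.Lib.MP_9ea9ae_an.V.EM
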