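import Pool.Agent.Lib.MP_9ea9ae_an.V.Base

/-!
# Module F1: the real numbers of the Boolean-valued universe form a field
-/

open scoped symmDiff

namespace Pool.Agent.Lib.MP_9ea9ae_an.V.F1

open Pool.Agent.Lib.MP_9ea9ae_an Pool.Agent.Lib.MP_9ea9ae_an.V
open Pool.Agent.Lib.MP_100a6c_lc Pool.Agent.Lib.MP_c5d73d_lc.F BName
open Pool.Agent.Lib.MP_6d445e_gt (op isTopo isHaus isFin fsub)

variable {B : Type} [CompleteBooleanAlgebra B]

theorem cases2 {ι κ : Type} {c : ι → κ → B} {Γ b : B} (hc : Γ ≤ ⨆ i, ⨆ j, c i j)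
    (h : ∀ i j Γ', Γ' ≤ Γ → Γ' ≤ c i j → Γ' ≤ b) : Γ ≤ b :=
  le_iSup_cases' hc fun i => le_iSup_cases' inf_le_right fun j =>
    h i j _ (inf_le_left.trans inf_le_left) inf_le_right

theorem uniq (hHT : HTStatement) {Γ : B} {x : BName B} {a a' : ℝ} (h : Γ ≤ beq x (hat a))
    (h' : Γ ≤ beq x (hat a')) : Γ ≤ tv (a = a') := by
  rw [← (hHT B ℝ).1 a a']
  refine le_trans (le_inf ?_ h') (beq_trans _ x _)
  rw [beq_symm]
  exact h

theorem eq_of {Γ : B} {x y : BName B} {a a' : ℝ} (h : Γ ≤ beq x (hat a))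
    (h' : Γ ≤ beq y (hat a')) (ha : a = a') : Γ ≤ beq x y := by
  subst ha
  refine le_trans (le_inf h ?_) (beq_trans _ (hat a) _)
  rw [beq_symm]
  exact h'

/-- A member of the set of real numbers is decided. -/
theorem mem_cases (hHT : HTStatement) {Γ b : B} {x : BName B} (hx : Γ ≤ (VB B).mem x (Xn B ℝ))
    (h : ∀ (a : ℝ) Γ', Γ' ≤ Γ → Γ' ≤ beq x (hat a) → Γ' ≤ b) : Γ ≤ b := by
  change Γ ≤ bmem x (Xn B ℝ) at hx
  rw [(hHT B ℝ).2.1 x] at hx
  exact le_iSup_cases' hx fun a => h a _ inf_le_left inf_le_right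

/-- `f` is the name of the operation `g`. -/
def Opr (f : BName B) (g : ℝ → ℝ → ℝ) : Prop := ∀ a b c : BName B, op (VB B) f a b c =
    ⨆ x : ℝ, ⨆ y : ℝ, beq a (hat x) ⊓ beq b (hat y) ⊓ beq c (hat (g x y))

theorem mk_op {f : BName B} {g : ℝ → ℝ → ℝ} (hf : Opr f g) {Γ : B} {x y z : BName B} {a b c : ℝ}
    (hx : Γ ≤ beq x (hat a)) (hy : Γ ≤ beq y (hat b)) (hz : Γ ≤ beq z (hat c))
    (hc : g a b = c) : Γ ≤ op (VB B) f x y z := by
  subst hc
  rw [hf x y z]
  exact (le_inf (le_inf hx hy) hz).trans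
    ((le_iSup (fun b' => beq x (hat a) ⊓ beq y (hat b') ⊓ beq z (hat (g a b'))) b).trans
      (le_iSup (fun a' => ⨆ b', beq x (hat a') ⊓ beq y (hat b') ⊓ beq z (hat (g a' b'))) a))

theorem val (hHT : HTStatement) {f : BName B} {g : ℝ → ℝ → ℝ} (hf : Opr f g) {Γ : B}
    {x y z : BName B} {a b : ℝ} (h : Γ ≤ op (VB B) f x y z) (hx : Γ ≤ beq x (hat a))
    (hy : Γ ≤ beq y (hat b)) : Γ ≤ beq z (hat (g a b)) := by
  rw [hf x y z] at h
  refine cases2 h fun a' b' Δ hΔ h' => ?_
  have e1 : Δ ≤ tv (a = a') := uniq hHT (hΔ.trans hx) (h'.trans (inf_le_left.trans inf_le_left))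
  have e2 : Δ ≤ tv (b = b') := uniq hHT (hΔ.trans hy) (h'.trans (inf_le_left.trans inf_le_right))
  refine (le_inf (le_inf e1 e2) (h'.trans inf_le_right)).trans ?_
  rw [← tv_and, tv_inf_le_iff]
  rintro ⟨rfl, rfl⟩
  exact le_rfl

theorem mem_top (hHT : HTStatement) (a : ℝ) {Γ : B} : Γ ≤ (VB B).mem (hat a) (Xn B ℝ) := by
  change Γ ≤ bmem (hat a) (Xn B ℝ)
  rw [(hHT B ℝ).2.2 a]
  exact le_top

theorem refl_top (x : BName B) {Γ : B} : Γ ≤ beq x x := by
  rw [beq_refl]
  exact le_top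

theorem bin (hHT : HTStatement) {f : BName B} {g : ℝ → ℝ → ℝ} (hf : Opr f g) :
    isBin (VB B) (Xn B ℝ) f = ⊤ := by
  rw [isBin, eq_top_iff]
  refine le_inf ?_ ?_
  · refine le_iInf fun x => le_iInf fun y => ?_
    rw [le_himp_iff, top_inf_eq]
    refine mem_cases hHT inf_le_left fun a Γ hΓ hx => ?_
    refine mem_cases hHT (hΓ.trans inf_le_right) fun b Δ hΔ hy => ?_
    refine le_trans ?_ (le_iSup _ (hat (g a b)))
    exact le_inf (mem_top hHT _) (mk_op hf (hΔ.trans hx) hy (refl_top _) rfl)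
  · refine le_iInf fun x => le_iInf fun y => le_iInf fun z => le_iInf fun z' => ?_
    rw [le_himp_iff, top_inf_eq]
    have h0 : op (VB B) f x y z ⊓ op (VB B) f x y z' ≤ op (VB B) f x y z := inf_le_left
    nth_rw 2 [hf x y z] at h0
    refine cases2 h0 fun a b Γ hΓ h => ?_
    refine eq_of (h.trans inf_le_right) (val hHT hf (hΓ.trans inf_le_right)
      (h.trans (inf_le_left.trans inf_le_left)) (h.trans (inf_le_left.trans inf_le_right))) rfl

theorem ca (hHT : HTStatement) {f : BName B} {g : ℝ → ℝ → ℝ} (hf : Opr f g)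
    (hc : ∀ a b, g a b = g b a) (ha : ∀ a b c, g (g a b) c = g a (g b c)) :
    isCA (VB B) (Xn B ℝ) f = ⊤ := by
  rw [isCA, eq_top_iff]
  refine le_inf ?_ ?_
  · refine le_iInf fun x => le_iInf fun y => le_iInf fun z => ?_
    rw [le_himp_iff, top_inf_eq]
    refine mem_cases hHT (inf_le_left.trans inf_le_left) fun a Γ hΓ hx => ?_
    refine mem_cases hHT (hΓ.trans (inf_le_left.trans inf_le_right)) fun b Δ hΔ hy => ?_
    have hx' := hΔ.trans hx
    exact mk_op hf hy hx' (val hHT hf (hΔ.trans (hΓ.trans inf_le_right)) hx' hy) (hc b a)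
  · refine le_iInf fun x => le_iInf fun y => le_iInf fun z => le_iInf fun p => le_iInf fun q =>
      le_iInf fun r => le_iInf fun s => ?_
    rw [le_himp_iff, top_inf_eq]
    refine mem_cases hHT (inf_le_left.trans (inf_le_left.trans (inf_le_left.trans
      (inf_le_left.trans (inf_le_left.trans inf_le_left))))) fun a Γ hΓ hx => ?_
    refine mem_cases hHT (hΓ.trans (inf_le_left.trans (inf_le_left.trans (inf_le_left.trans
      (inf_le_left.trans (inf_le_left.trans inf_le_right)))))) fun b Δ hΔ hy => ?_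
    refine mem_cases hHT (hΔ.trans (hΓ.trans (inf_le_left.trans (inf_le_left.trans
      (inf_le_left.trans (inf_le_left.trans inf_le_right)))))) fun c E hE hz => ?_
    have hE' := hE.trans (hΔ.trans hΓ)
    have hx' := hE.trans (hΔ.trans hx)
    have hy' := hE.trans hy
    have hp := val hHT hf (hE'.trans (inf_le_left.trans (inf_le_left.trans
      (inf_le_left.trans inf_le_right)))) hx' hy'
    have hr := val hHT hf (hE'.trans (inf_le_left.trans (inf_le_left.trans inf_le_right))) hp hz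
    have hq := val hHT hf (hE'.trans (inf_le_left.trans inf_le_right)) hy' hz
    have hs := val hHT hf (hE'.trans inf_le_right) hx' hq
    exact eq_of hr hs (ha a b c)

theorem f1 (hHT : HTStatement) (hRO : ROStatement) (hRP : RPStatement) : F1Statement := by
  intro B _
  obtain ⟨rA0, rM0, -⟩ := hRO B
  obtain ⟨idA, idM, -⟩ := hRP B
  have hA : Opr (rA B) (fun x y => x + y) := rA0
  have hM : Opr (rM B) (fun x y => x * y) := rM0
  rw [isField, bin hHT hA, bin hHT hM, ca hHT hA add_comm add_assoc, ca hHT hM mul_comm mul_assoc,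
    eq_top_iff]
  refine le_inf (le_inf (by simp) ?_) ?_
  · refine le_trans ?_ (le_iSup _ (hat (0 : ℝ)))
    refine le_trans ?_ (le_iSup _ (hat (1 : ℝ)))
    refine le_inf (le_inf (le_inf (le_inf ?_ ?_) ?_) ?_) ?_
    · rw [idA, beq_refl]
    · rw [idM, beq_refl]
    · change ⊤ ≤ (beq (hat (0 : ℝ)) (hat (1 : ℝ)))ᶜ
      rw [(hHT B ℝ).1, tv_neg zero_ne_one, compl_bot]
    · refine le_iInf fun x => ?_
      rw [le_himp_iff, top_inf_eq]
      refine mem_cases hHT le_rfl fun a Γ hΓ hx => ?_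
      refine le_trans ?_ (le_iSup _ (hat (-a)))
      exact le_inf (mem_top hHT _) (mk_op hA hx (refl_top _) (refl_top _) (add_neg_cancel a))
    · refine le_iInf fun x => ?_
      rw [le_himp_iff, top_inf_eq]
      refine mem_cases hHT inf_le_left fun a Γ hΓ hx => ?_
      by_cases ha : a = 0
      · subst ha
        refine le_trans (le_inf hx (hΓ.trans inf_le_right)) ?_
        refine le_trans ?_ bot_le
        exact (inf_compl_self _).le
      · refine le_trans ?_ (le_iSup _ (hat a⁻¹))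
        exact le_inf (mem_top hHT _)
          (mk_op hM hx (refl_top _) (refl_top _) (mul_inv_cancel₀ ha))
  · refine le_iInf fun x => le_iInf fun y => le_iInf fun z => le_iInf fun p => le_iInf fun q =>
      le_iInf fun r => le_iInf fun s => ?_
    rw [le_himp_iff, top_inf_eq]
    refine mem_cases hHT (inf_le_left.trans (inf_le_left.trans (inf_le_left.trans
      (inf_le_left.trans (inf_le_left.trans inf_le_left))))) fun a Γ hΓ hx => ?_
    refine mem_cases hHT (hΓ.trans (inf_le_left.trans (inf_le_left.trans (inf_le_left.trans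
      (inf_le_left.trans (inf_le_left.trans inf_le_right)))))) fun b Δ hΔ hy => ?_
    refine mem_cases hHT (hΔ.trans (hΓ.trans (inf_le_left.trans (inf_le_left.trans
      (inf_le_left.trans (inf_le_left.trans inf_le_right)))))) fun c E hE hz => ?_
    have hE' := hE.trans (hΔ.trans hΓ)
    have hx' := hE.trans (hΔ.trans hx)
    have hy' := hE.trans hy
    have hp := val hHT hA (hE'.trans (inf_le_left.trans (inf_le_left.trans
      (inf_le_left.trans inf_le_right)))) hy' hz
    have hq := val hHT hM (hE'.trans (inf_le_left.trans (inf_le_left.trans inf_le_right))) hx' hp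
    have hr := val hHT hM (hE'.trans (inf_le_left.trans inf_le_right)) hx' hy'
    have hs := val hHT hM (hE'.trans inf_le_right) hx' hz
    exact mk_op hA hr hs hq (by ring)

end Pool.Agent.Lib.MP_9ea9ae_an.V.F1
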