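import Pool.Agent.Lib.MP_9ea9ae_an.V.Base

/-!
# Module F3: the real numbers of the Boolean-valued universe form an ordered field
-/

open scoped symmDiff

namespace Pool.Agent.Lib.MP_9ea9ae_an.V.F3

open Pool.Agent.Lib.MP_9ea9ae_an Pool.Agent.Lib.MP_9ea9ae_an.V
open Pool.Agent.Lib.MP_100a6c_lc Pool.Agent.Lib.MP_c5d73d_lc.F BName
open Pool.Agent.Lib.MP_6d445e_gt (op isTopo isHaus isFin fsub)

variable {B : Type} [CompleteBooleanAlgebra B]

theorem cases2 {ι κ : Type} {c : ι → κ → B} {Γ b : B} (hc : Γ ≤ ⨆ i, ⨆ j, c i j)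
    (h : ∀ i j Γ', Γ' ≤ Γ → Γ' ≤ c i j → Γ' ≤ b) : Γ ≤ b :=
  le_iSup_cases' hc fun i => le_iSup_cases' inf_le_right fun j =>
    h i j _ (inf_le_left.trans inf_le_left) inf_le_right

theorem uniq (hHT : HTStatement) {Γ : B} {x : BName B} {a a' : ℝ} (h : Γ ≤ beq x (hat a))
    (h' : Γ ≤ beq x (hat a')) : Γ ≤ tv (a = a') := by
  rw [← (hHT B ℝ).1 a a']
  refine le_trans (le_inf ?_ h') (beq_trans _ x _)
  rw [beq_symm]
  exact h

theorem le_tv_and {p q : Prop} {Γ : B} (h : Γ ≤ tv p) (h' : Γ ≤ tv q) : Γ ≤ tv (p ∧ q) := by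
  rw [tv_and]
  exact le_inf h h'

theorem f3 (hHT : HTStatement) (hRO : ROStatement) (hRP : RPStatement) : F3Statement := by
  intro B _
  obtain ⟨rA0, rM0, -, -, rO0, -⟩ := hRO B
  obtain ⟨id0, -⟩ := hRP B
  rw [isOF, eq_top_iff]
  refine le_inf ?_ ?_
  · refine le_iInf fun x => le_iInf fun y => le_iInf fun z => le_iInf fun p => le_iInf fun q => ?_
    rw [le_himp_iff, top_inf_eq, rO0, rO0, rA0, rA0]
    refine cases2 (inf_le_left.trans (inf_le_left.trans inf_le_right)) fun a b Γ h hab => ?_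
    refine cases2 (h.trans (inf_le_left.trans inf_le_right)) fun a' c Δ hΔ hac => ?_
    refine cases2 (hΔ.trans (h.trans inf_le_right)) fun b' c' E hE hbc => ?_
    have hab' := hE.trans (hΔ.trans hab)
    have hac' := hE.trans hac
    have e1 : E ≤ tv (a = a') := uniq hHT (hab'.trans (inf_le_left.trans inf_le_left))
      (hac'.trans (inf_le_left.trans inf_le_left))
    have e2 : E ≤ tv (b = b') := uniq hHT (hab'.trans (inf_le_left.trans inf_le_right))
      (hbc.trans (inf_le_left.trans inf_le_left))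
    have e3 : E ≤ tv (c = c') := uniq hHT (hac'.trans (inf_le_left.trans inf_le_right))
      (hbc.trans (inf_le_left.trans inf_le_right))
    have e4 : E ≤ tv (a ≤ b) := hab'.trans inf_le_right
    refine le_trans ?_ (le_iSup _ (a' + c))
    refine le_trans ?_ (le_iSup _ (b' + c'))
    refine le_inf (le_inf (hac'.trans inf_le_right) (hbc.trans inf_le_right)) ?_
    refine (le_tv_and (le_tv_and e1 e2) (le_tv_and e3 e4)).trans (tv_mono ?_)
    rintro ⟨⟨rfl, rfl⟩, rfl, h4⟩
    linarith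
  · refine le_iInf fun z => le_iInf fun x => le_iInf fun y => le_iInf fun p => ?_
    rw [le_himp_iff, top_inf_eq, rO0, rO0, rO0, rM0, id0]
    refine cases2 (inf_le_left.trans (inf_le_left.trans inf_le_right)) fun a b Γ h hab => ?_
    refine cases2 (h.trans (inf_le_left.trans inf_le_right)) fun a' b' Δ hΔ hac => ?_
    refine cases2 (hΔ.trans (h.trans inf_le_right)) fun s t E hE hst => ?_
    have hz : E ≤ beq z (hat (0 : ℝ)) := hE.trans (hΔ.trans (h.trans (inf_le_left.trans
      (inf_le_left.trans (inf_le_left.trans (inf_le_left.trans inf_le_left))))))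
    have hab' := hE.trans (hΔ.trans hab)
    have hac' := hE.trans hac
    have e1 : E ≤ tv (0 = a) := uniq hHT hz (hab'.trans (inf_le_left.trans inf_le_left))
    have e2 : E ≤ tv (0 = a') := uniq hHT hz (hac'.trans (inf_le_left.trans inf_le_left))
    have e3 : E ≤ tv (b = s) := uniq hHT (hab'.trans (inf_le_left.trans inf_le_right))
      (hst.trans (inf_le_left.trans inf_le_left))
    have e4 : E ≤ tv (b' = t) := uniq hHT (hac'.trans (inf_le_left.trans inf_le_right))
      (hst.trans (inf_le_left.trans inf_le_right))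
    have e5 : E ≤ tv (a ≤ b) := hab'.trans inf_le_right
    have e6 : E ≤ tv (a' ≤ b') := hac'.trans inf_le_right
    refine le_trans ?_ (le_iSup _ (0 : ℝ))
    refine le_trans ?_ (le_iSup _ (s * t))
    refine le_inf (le_inf hz (hst.trans inf_le_right)) ?_
    refine (le_tv_and (le_tv_and (le_tv_and e1 e2) (le_tv_and e3 e4))
      (le_tv_and e5 e6)).trans (tv_mono ?_)
    rintro ⟨⟨⟨rfl, rfl⟩, rfl, rfl⟩, h5, h6⟩
    exact mul_nonneg h5 h6

end Pool.Agent.Lib.MP_9ea9ae_an.V.F3
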