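import Pool.Agent.Lib.MP_9ea9ae_an.V.Base

/-!
# F4: the field of real numbers of the universe is complete
-/

open scoped symmDiff

namespace Pool.Agent.Lib.MP_9ea9ae_an.V

open Pool.Agent.Lib.MP_9ea9ae_an
open Pool.Agent.Lib.MP_100a6c_lc Pool.Agent.Lib.MP_c5d73d_lc.F BName

namespace F4

variable {B : Type} [CompleteBooleanAlgebra B]

/-- The value of: some element of `A` is greater than `q`. -/
noncomputable def aq (A : BName B) (q : ℚ) : B := ⨆ x : ℝ, tv ((q : ℝ) < x) ⊓ bmem (hat x) A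

/-- The values of all `aq A q` are decided by `h`. -/
noncomputable def dec (A : BName B) (h : ℚ → Bool) : B :=
  ⨅ q : ℚ, if h q = true then aq A q else (aq A q)ᶜ

theorem dec_true {A : BName B} {h : ℚ → Bool} {q : ℚ} (hq : h q = true) :
    dec A h ≤ aq A q := by
  refine (iInf_le _ q).trans ?_
  rw [if_pos hq]

theorem dec_false {A : BName B} {h : ℚ → Bool} {q : ℚ} (hq : ¬ h q = true) :
    dec A h ≤ (aq A q)ᶜ := by
  refine (iInf_le _ q).trans ?_
  rw [if_neg hq]

theorem mem_le_aq {A : BName B} {q : ℚ} {x : ℝ} (h : (q : ℝ) < x) :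
    bmem (hat x) A ≤ aq A q := by
  refine le_trans ?_ (le_iSup _ x)
  rw [tv_pos h, top_inf_eq]

theorem le_iSup_dec (hB : Distr B) (A : BName B) (Γ : B) : Γ ≤ ⨆ h : ℚ → Bool, dec A h := by
  refine distr_countable hB (fun (q : ℚ) (y : Bool) => if y = true then aq A q else (aq A q)ᶜ) Γ
    fun q => ?_
  refine le_cases (aq A q) ?_ ?_
  · refine inf_le_right.trans (le_trans (le_of_eq ?_) (le_iSup _ true))
    rw [if_pos rfl]
  · refine inf_le_right.trans (le_trans (le_of_eq ?_) (le_iSup _ false))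
    rw [if_neg (by simp)]

/-- The relation between a real number and an element which is a given real number. -/
theorem rel_left (hRO : ROStatement) (x b0 : ℝ) (b : BName B) :
    (VB B).rel (rO B) (hat x) b ⊓ beq b (hat b0) ≤ tv (x ≤ b0) := by
  rw [← (hRO B).2.2.2.2.2 x b0, inf_comm]
  exact ext_rel_trd (rO B) (hat x) b (hat b0)

theorem le_rel_left (hRO : ROStatement) {x b0 : ℝ} (h : x ≤ b0) (b : BName B) :
    beq b (hat b0) ≤ (VB B).rel (rO B) (hat x) b := by
  refine (ext_rel_trd (rO B) (hat x)).of_le' (x := hat b0) (y := b) le_rfl ?_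
  rw [(hRO B).2.2.2.2.2 x b0, tv_pos h]
  exact le_top

theorem le_rel_right (hRO : ROStatement) {x b0 : ℝ} (h : x ≤ b0) (a : BName B) :
    beq a (hat x) ≤ (VB B).rel (rO B) a (hat b0) := by
  refine (ext_rel_snd (rO B) (hat b0)).of_le' (x := hat x) (y := a) le_rfl ?_
  rw [(hRO B).2.2.2.2.2 x b0, tv_pos h]
  exact le_top

/-- An upper bound of `A` is `≥ x` if `x ∈ A`. -/
theorem isUB_le (R A b x : BName B) :
    isUB (VB B) R (rO B) A b ⊓ bmem x A ≤ (VB B).rel (rO B) x b := by
  rw [← le_himp_iff]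
  exact inf_le_right.trans (iInf_le _ x)

/-- If `b0` is an upper bound and some element of `A` is `> q`, then `q < b0`. -/
theorem isUB_aq (hRO : ROStatement) (A b : BName B) (b0 : ℝ) (q : ℚ) (h : b0 ≤ q) :
    isUB (VB B) (Xn B ℝ) (rO B) A b ⊓ beq b (hat b0) ⊓ aq A q ≤ ⊥ := by
  rw [aq, inf_iSup_eq]
  refine iSup_le fun x => ?_
  by_cases hx : (q : ℝ) < x
  · have h1 : isUB (VB B) (Xn B ℝ) (rO B) A b ⊓ beq b (hat b0) ⊓
        (tv ((q : ℝ) < x) ⊓ bmem (hat x) A) ≤ (VB B).rel (rO B) (hat x) b ⊓ beq b (hat b0) :=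
      le_inf ((inf_le_inf inf_le_left inf_le_right).trans (isUB_le _ _ _ _))
        (inf_le_left.trans inf_le_right)
    refine h1.trans ((rel_left hRO x b0 b).trans ?_)
    rw [tv_neg (by linarith)]
  · rw [tv_neg hx]
    simp

end F4

open F4 in
/-- F4. -/
theorem f4 (hHT : HTStatement) (hRO : ROStatement) (_hRP : RPStatement) : F4Statement := by
  intro B _ hB
  rw [isCpl, iInf_eq_top]
  intro A
  rw [himp_eq_top_iff]
  set Γ : B := (VB B).sub A (Xn B ℝ) ⊓ (⨆ x, (VB B).mem x A) ⊓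
    (⨆ b, isUB (VB B) (Xn B ℝ) (rO B) A b) with hΓ
  have hsub : Γ ≤ (VB B).sub A (Xn B ℝ) := inf_le_left.trans inf_le_left
  have hmemR : ∀ z : BName B, bmem z (Xn B ℝ) = ⨆ x : ℝ, beq z (hat x) := (hHT B ℝ).2.1
  -- elements of `A` are real numbers
  have hA : ∀ z : BName B, Γ ⊓ bmem z A ≤ ⨆ x : ℝ, beq z (hat x) := fun z => by
    rw [← hmemR z]
    exact sub_apply hsub z inf_le_left inf_le_right
  have hne : Γ ≤ ⨆ x : ℝ, bmem (hat x) A := by
    have h1 : Γ ≤ ⨆ z, bmem z A := inf_le_left.trans inf_le_right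
    refine le_iSup_cases' h1 fun z => ?_
    refine le_iSup_cases' (hA z) fun x => ?_
    refine le_trans ?_ (le_iSup _ x)
    exact (le_inf inf_le_right (inf_le_left.trans inf_le_right)).trans
      (bmem_congr_left z (hat x) A)
  have hbd : Γ ≤ ⨆ b, isUB (VB B) (Xn B ℝ) (rO B) A b := inf_le_right
  have hUBR : ∀ b : BName B, isUB (VB B) (Xn B ℝ) (rO B) A b ≤ ⨆ x : ℝ, beq b (hat x) :=
    fun b => by
      rw [← hmemR b]
      exact inf_le_left
  refine le_iSup_cases' (le_iSup_dec hB A Γ) fun h => ?_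
  -- the set of all rational numbers which are not upper bounds
  let S : Set ℝ := {x | ∃ q : ℚ, h q = true ∧ (q : ℝ) = x}
  by_cases hS0 : S.Nonempty
  swap
  · have hno : ∀ q : ℚ, ¬ h q = true := fun q hq => hS0 ⟨q, q, hq, rfl⟩
    refine le_trans ?_ bot_le
    refine le_iSup_cases' (inf_le_left.trans hne) fun x => ?_
    obtain ⟨q, hq⟩ := exists_rat_lt x
    have h1 : Γ ⊓ dec A h ⊓ bmem (hat x) A ≤ (aq A q)ᶜ ⊓ aq A q :=
      le_inf (inf_le_left.trans (inf_le_right.trans (dec_false (hno q))))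
        (inf_le_right.trans (mem_le_aq hq))
    exact h1.trans (by simp)
  by_cases hS1 : BddAbove S
  swap
  · refine le_trans ?_ bot_le
    refine le_iSup_cases' (inf_le_left.trans hbd) fun b => ?_
    refine le_iSup_cases' (inf_le_right.trans (hUBR b)) fun b0 => ?_
    rw [not_bddAbove_iff] at hS1
    obtain ⟨_, ⟨q, hq, rfl⟩, hlt⟩ := hS1 b0
    refine le_trans ?_ (isUB_aq hRO A b b0 q hlt.le)
    exact le_inf (inf_le_inf_right _ inf_le_right)
      (inf_le_left.trans (inf_le_left.trans (inf_le_right.trans (dec_true hq))))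
  -- the supremum
  refine le_trans ?_ (le_iSup _ (hat (sSup S)))
  refine le_inf (le_inf ?_ ?_) ?_
  · change _ ≤ bmem (hat (sSup S)) (Xn B ℝ)
    rw [(hHT B ℝ).2.2]
    exact le_top
  · refine le_iInf fun z => ?_
    rw [le_himp_iff]
    change Γ ⊓ dec A h ⊓ bmem z A ≤ _
    refine le_iSup_cases' ((inf_le_inf_right _ inf_le_left).trans (hA z)) fun x => ?_
    by_cases hx : x ≤ sSup S
    · exact inf_le_right.trans (le_rel_right hRO hx z)
    · push Not at hx
      obtain ⟨q, hq1, hq2⟩ := exists_rat_btwn hx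
      have hq : ¬ h q = true := fun hq => by
        have h1 : (q : ℝ) ≤ sSup S := le_csSup hS1 ⟨q, hq, rfl⟩
        linarith
      refine le_trans ?_ bot_le
      have h1 : Γ ⊓ dec A h ⊓ bmem z A ⊓ beq z (hat x) ≤ (aq A q)ᶜ ⊓ aq A q := by
        refine le_inf (inf_le_left.trans (inf_le_left.trans (inf_le_right.trans (dec_false hq)))) ?_
        refine le_trans ?_ (mem_le_aq hq2)
        exact (le_inf inf_le_right (inf_le_left.trans inf_le_right)).trans
          (bmem_congr_left z (hat x) A)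
      exact h1.trans (by simp)
  · refine le_iInf fun b => ?_
    rw [le_himp_iff]
    refine le_iSup_cases' (inf_le_right.trans (hUBR b)) fun b0 => ?_
    by_cases hb : sSup S ≤ b0
    · exact inf_le_right.trans (le_rel_left hRO hb b)
    · push Not at hb
      obtain ⟨_, ⟨q, hq, rfl⟩, hlt⟩ := exists_lt_of_lt_csSup hS0 hb
      refine le_trans ?_ bot_le
      refine le_trans ?_ (isUB_aq hRO A b b0 q hlt.le)
      exact le_inf (inf_le_inf_right _ inf_le_right)
        (inf_le_left.trans (inf_le_left.trans (inf_le_right.trans (dec_true hq))))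

end Pool.Agent.Lib.MP_9ea9ae_an.V
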