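import Pool.Agent.Lib.MP_9ea9ae_an.V.Base

/-!
# Module FI: finite sets
-/

open scoped symmDiff

namespace Pool.Agent.Lib.MP_9ea9ae_an.V.FI

open Pool.Agent.Lib.MP_9ea9ae_an Pool.Agent.Lib.MP_9ea9ae_an.V
open Pool.Agent.Lib.MP_100a6c_lc Pool.Agent.Lib.MP_c5d73d_lc.F BName
open Pool.Agent.Lib.MP_6d445e_gt (op isTopo isHaus isFin fsub)

variable {B : Type} [CompleteBooleanAlgebra B]

theorem isFin_mk (n : ℕ) (f : Fin n → BName B) (v : Fin n → B) :
    isFin (VB B) (check H36.om) (mk (Fin n) f v) = ⊤ := by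
  refine top_le_iff.1 (le_trans ?_ (le_iSup _ (check (H36.nn n))))
  refine le_inf ?_ ?_
  · rw [VB_mem, mem_check_of_mem (H36.nn_mem_om n)]
  · refine le_leCard (Y := Fin n) (fun k => check (H36.nn k)) (fun k z => beq z (f k))
      ?_ ?_ ?_ ?_ ?_
    · intro k k' hne
      exact beq_check_of_ne fun h => hne (Fin.ext (H36.nn_inj h))
    · intro k
      rw [mem_check_of_mem (H36.nn_mem_nn k.2)]
      exact le_top
    · intro k
      exact ext_eq_left _
    · intro k z z'
      exact (ext_eq_right z).of_le' (x := f k) (inf_le_right.trans inf_le_right)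
        (inf_le_right.trans inf_le_left)
    · intro z
      rw [mem_mk]
      exact inf_le_right.trans (iSup_mono fun k => inf_le_right)

open Classical in
theorem isFin_le (hHT : HTStatement) (X : Type) (E : BName B) :
    isFin (VB B) (check H36.om) E ⊓ (VB B).sub E (Xn B X) ≤
      ⨆ F : Finset X, ⨅ x : X, bmem (hat x) E ⇨ tv (x ∈ F) := by
  refine inf_le_left.trans ?_
  unfold isFin
  refine iSup_le fun z => ?_
  rw [VB_mem, H36.mem_check_om, iSup_inf_eq]
  refine iSup_le fun m => ?_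
  obtain ⟨Γ, hΓ⟩ : ∃ Γ, Γ = beq z (check (H36.nn m)) ⊓ (VB B).leCard E z := ⟨_, rfl⟩
  rw [← hΓ]
  have h1 : Γ ≤ (VB B).leCard E (check ((m : Ordinal.{0}).toZFSet)) := by
    refine (ext_leCard_right E).of_le (x := z) ?_ ?_
    · rw [hΓ]; exact inf_le_left
    · rw [hΓ]; exact inf_le_right
  obtain ⟨t, ht⟩ := exists_enum_of_le_leCard _ h1
  have : Finite (m : Ordinal.{0}).ToType := by
    rw [← Cardinal.lt_aleph0_iff_finite]
    simp
  have := Fintype.ofFinite (m : Ordinal.{0}).ToType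
  obtain ⟨a, ha⟩ : ∃ a : (m : Ordinal.{0}).ToType → Option X → B,
      a = fun y o => o.elim (⨆ x : X, beq (t y) (hat x))ᶜ fun x => beq (t y) (hat x) := ⟨_, rfl⟩
  have h2 : ∀ y ∈ (Finset.univ : Finset (m : Ordinal.{0}).ToType), Γ ≤ ⨆ o, a y o := by
    intro y _
    rw [iSup_option, ha]
    simp only [Option.elim_none, Option.elim_some]
    rw [compl_sup_eq_top]
    exact le_top
  refine le_iSup_cases' (fin_distr Finset.univ a Γ h2) fun f => ?_
  refine le_trans ?_ (le_iSup _ (Finset.univ.biUnion fun y => (f y).toFinset))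
  refine le_iInf fun x => ?_
  rw [le_himp_iff]
  have h3 : Γ ⊓ (⨅ i, ⨅ _ : i ∈ (Finset.univ : Finset (m : Ordinal.{0}).ToType), a i (f i)) ⊓
      bmem (hat x) E ≤ ⨆ y, beq (hat x) (t y) :=
    (inf_le_inf_right _ inf_le_left).trans (ht (hat x))
  refine le_iSup_cases' h3 fun y => ?_
  have h4 : Γ ⊓ (⨅ i, ⨅ _ : i ∈ (Finset.univ : Finset (m : Ordinal.{0}).ToType), a i (f i)) ⊓
      bmem (hat x) E ⊓ beq (hat x) (t y) ≤ a y (f y) :=
    inf_le_left.trans (inf_le_left.trans (inf_le_right.trans ((iInf_le _ y).trans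
      (iInf_le _ (Finset.mem_univ y)))))
  rcases hf : f y with _ | x'
  · have hay : a y (f y) = (⨆ x : X, beq (t y) (hat x))ᶜ := by rw [hf, ha]; rfl
    rw [hay] at h4
    refine le_trans ?_ bot_le
    refine (le_inf h4 ?_).trans (compl_inf_self (⨆ x : X, beq (t y) (hat x))).le
    refine le_trans ?_ (le_iSup _ x)
    rw [beq_symm (t y)]
    exact inf_le_right
  · have hay : a y (f y) = beq (t y) (hat x') := by rw [hf, ha]; rfl
    rw [hay] at h4
    have h5 : Γ ⊓ (⨅ i, ⨅ _ : i ∈ (Finset.univ : Finset (m : Ordinal.{0}).ToType), a i (f i)) ⊓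
        bmem (hat x) E ⊓ beq (hat x) (t y) ≤ beq (hat x) (hat x') := by
      refine (ext_eq_right (hat x)).of_le h4 inf_le_right
    rw [(hHT B X).1] at h5
    refine h5.trans (tv_mono ?_)
    rintro rfl
    rw [Finset.mem_biUnion]
    exact ⟨y, Finset.mem_univ y, by rw [hf]; simp⟩

/-- Module FI. -/
theorem fi (hHT : HTStatement) : FIStatement := by
  intro B _
  exact ⟨isFin_mk, isFin_le hHT⟩

end Pool.Agent.Lib.MP_9ea9ae_an.V.FI
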