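import Pool.Agent.Lib.MP_9ea9ae_an.V.Base
import Pool.Agent.Lib.MP_c5d73d_lc.F.H36.Reals

/-!
# A model of ZFC in which (*) fails
-/

open scoped symmDiff

namespace Pool.Agent.Lib.MP_9ea9ae_an.V

open Pool.Agent.Lib.MP_9ea9ae_an
open Pool.Agent.Lib.MP_100a6c_lc Pool.Agent.Lib.MP_c5d73d_lc.F BName
open Pool.Agent.Lib.MP_6b029b_lc.H57

theorem AMN_eq_bot {B Ω : Type} [CompleteBooleanAlgebra B] {D : Ω → Br → B} (hB : Distr B)
    (hD : Gen D) (hCLK : CLKStatement) (hCLL : CLLStatement) (hCS : CSStatement)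
    (hCM : CMStatement) (hEM : EMStatement) (hCL : CLStatement) (hF1 : F1Statement)
    (hF2 : F2Statement) (hF3 : F3Statement) (hF4 : F4Statement) (hCK : CKStatement) :
    AMN (VB B) = ⊥ := by
  have hcof : isCOF (VB B) (Xn B ℝ) (rA B) (rM B) (rO B) = ⊤ := by
    unfold isCOF
    rw [hF1 B, hF2 B, hF3 B, hF4 B hB]
    simp
  have h1 : isOm (VB B) (check H36.om) ⊓ isCOF (VB B) (Xn B ℝ) (rA B) (rM B) (rO B) = ⊤ := by
    rw [hcof, inf_top_eq]
    exact H36.isOm_om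
  have h2 : isCH (VB B) (check H36.om) (Cn (clK D)) (tau (clK D)) = ⊤ :=
    hCM B Ω (clK D) (hCLK B Ω D).1
  have h3 : isCH (VB B) (check H36.om) (Cn (clL D)) (tau (clL D)) = ⊤ :=
    hCM B Ω (clL D) (hCLL B Ω D).1
  have h4 : isCorson (VB B) (check H36.om) (Xn B ℝ) (rA B) (rO B) (Cn (clL D)) (tau (clL D)) = ⊤ :=
    hCL B Ω (clL D) (hCLL B Ω D).1.ext (hCS B Ω D hB hD)
  have h5 := hEM B Ω D hB hD
  refine le_bot_iff.1 ?_
  unfold AMN
  refine (iInf_le _ (check H36.om)).trans ((iInf_le _ (Xn B ℝ)).trans ((iInf_le _ (rA B)).trans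
    ((iInf_le _ (rM B)).trans ((iInf_le _ (rO B)).trans ?_))))
  rw [h1, top_himp]
  refine (iInf_le _ (Cn (clK D))).trans ((iInf_le _ (tau (clK D))).trans
    ((iInf_le _ (Cn (clL D))).trans ((iInf_le _ (tau (clL D))).trans ?_)))
  rw [h2, h3, h4, h5, hCK B Ω D hB hD]
  simp

/-- There is a model of ZFC in which (*) fails. -/
theorem fin (hP5 : P5Statement) (hCLK : CLKStatement) (hCLL : CLLStatement) (hCS : CSStatement)
    (hCM : CMStatement) (hEM : EMStatement) (hCL : CLStatement) (hF1 : F1Statement)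
    (hF2 : F2Statement) (hF3 : F3Statement) (hF4 : F4Statement) (hCK : CKStatement)
    (hTR : TRStatement) : FinStatement := by
  obtain ⟨B, Ω, inst, D, hne, hB, hD⟩ := hP5
  have hU := AMN_eq_bot hB hD hCLK hCLL hCS hCM hEM hCL hF1 hF2 hF3 hF4 hCK
  obtain ⟨G, hG, -⟩ := H1.exists_ult (B := B) {⊤} rfl (fun h => hne h)
    (fun a ha b hb => by
      rw [Set.mem_singleton_iff] at ha hb ⊢
      rw [ha, hb, inf_top_eq])
    (fun a ha b hab => by
      rw [Set.mem_singleton_iff] at ha ⊢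
      rw [ha] at hab
      exact top_le_iff.1 hab)
  have : Fact (IsUlt G) := ⟨hG⟩
  refine ⟨Ml G, MlE G, zfc_QS (zfc_VB B), fun h => hG.bot ?_⟩
  have h1 := (hTR B G hG).2 h
  rwa [hU] at h1

end Pool.Agent.Lib.MP_9ea9ae_an.V
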