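import Pool.Agent.Lib.MP_9ea9ae_an.V.Base

/-!
# GN: functions determined by finitely many conditions, up to small errors, have property `Q`
-/

namespace Pool.Agent.Lib.MP_9ea9ae_an.V.GN

open Pool.Agent.Lib.MP_9ea9ae_an Pool.Agent.Lib.MP_9ea9ae_an.V

open Classical in
/-- A function of finitely many conditions has property `Q`, if their indicator functions have it. -/
theorem Q_pattern {ι : Type} [Fintype ι] (c : ι → T → Prop)
    (hc : ∀ i, Q (fun s => if c i s then (1 : ℝ) else 0)) (G : (ι → Prop) → ℝ) :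
    Q (fun s => G (fun i => c i s)) := by
  obtain ⟨K, hK⟩ : ∃ K : ℝ, ∀ f, |G f| ≤ K := by
    obtain ⟨K, hK⟩ := (Set.finite_range (fun f => |G f|)).bddAbove
    exact ⟨K, fun f => hK ⟨f, rfl⟩⟩
  have hK0 : 0 ≤ K := (abs_nonneg _).trans (hK fun _ => True)
  intro ε hε
  have hC : 0 < 2 * K * Fintype.card ι + 1 := by positivity
  have hδ : 0 < ε / (2 * K * Fintype.card ι + 1) := by positivity
  choose N hN using fun i => hc i _ hδ
  refine ⟨Finset.univ.sup N, fun s hs m => ?_⟩
  let U : ι → T → ℝ := fun i t =>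
    |(if c i t then (1 : ℝ) else 0) - (if c i s then 1 else 0)|
  have h1 : ∀ i, (A ^ m) (U i) s ≤ ε / (2 * K * Fintype.card ι + 1) :=
    fun i => hN i s (le_trans (Finset.le_sup (Finset.mem_univ i)) hs) m
  have h2 : (A ^ m) (fun t => |G (fun i => c i t) - G (fun i => c i s)|) s ≤
      (A ^ m) (∑ i, (2 * K) • U i) s := by
    refine A_pow_mono (fun t => ?_) m s
    simp only [Finset.sum_apply, Pi.smul_apply, smul_eq_mul]
    have hnn : ∀ i ∈ Finset.univ, 0 ≤ 2 * K * U i t := fun i _ =>
      mul_nonneg (by positivity) (abs_nonneg _)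
    by_cases hp : (fun i => c i t) = fun i => c i s
    · rw [hp, sub_self, abs_zero]
      exact Finset.sum_nonneg hnn
    · obtain ⟨i, hi⟩ := Function.ne_iff.1 hp
      refine le_trans ?_ (Finset.single_le_sum hnn (Finset.mem_univ i))
      have hU : U i t = 1 := by
        by_cases h3 : c i t <;> by_cases h4 : c i s
        · exact absurd (by simp [h3, h4]) hi
        · simp [U, h3, h4]
        · simp [U, h3, h4]
        · exact absurd (by simp [h3, h4]) hi
      rw [hU, mul_one]
      have h5 := hK fun i => c i t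
      have h6 := hK fun i => c i s
      have h7 := abs_sub (G fun i => c i t) (G fun i => c i s)
      linarith
  have h3 : (A ^ m) (∑ i, (2 * K) • U i) s = ∑ i, 2 * K * (A ^ m) (U i) s := by
    rw [map_sum, Finset.sum_apply]
    refine Finset.sum_congr rfl fun i _ => ?_
    rw [map_smul]
    rfl
  refine h2.trans ?_
  rw [h3]
  calc ∑ i, 2 * K * (A ^ m) (U i) s
      ≤ ∑ _i : ι, 2 * K * (ε / (2 * K * Fintype.card ι + 1)) :=
        Finset.sum_le_sum fun i _ => mul_le_mul_of_nonneg_left (h1 i) (by positivity)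
    _ = (2 * K * Fintype.card ι) * (ε / (2 * K * Fintype.card ι + 1)) := by
        rw [Finset.sum_const, Finset.card_univ, nsmul_eq_mul]
        ring
    _ ≤ (2 * K * Fintype.card ι + 1) * (ε / (2 * K * Fintype.card ι + 1)) :=
        mul_le_mul_of_nonneg_right (by linarith) hδ.le
    _ = ε := mul_div_cancel₀ _ hC.ne'

open Classical in
theorem Q_cone (t : T) : Q (fun s => if t.1 <:+ s.1 then (1 : ℝ) else 0) := by
  refine Q_of_eventually_const ⟨lev t, fun s hs j => ?_⟩
  have h0 : (t.1 <:+ (child s j).1) ↔ t.1 <:+ s.1 := by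
    simp only [child, List.suffix_cons_iff]
    constructor
    · rintro (h | h)
      · exfalso
        have h1 : t.1.length = s.1.length + 1 := by rw [h]; rfl
        have h2 : t.1.length ≤ s.1.length := hs
        omega
      · exact h
    · exact Or.inr
  exact if_congr h0 rfl rfl

open Classical in
theorem Q_point (t : T) : Q (fun s => if s = t then (1 : ℝ) else 0) := by
  refine Q_of_tendsto fun ε hε => ⟨lev t + 1, fun s hs => ?_⟩
  have : s ≠ t := by rintro rfl; omega
  simp only [if_neg this, abs_zero]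
  exact hε.le

open Classical in
/-- GN. -/
theorem gn : GNStatement := by
  intro g hg
  refine Q_of_approx fun ε hε => ?_
  obtain ⟨E, F, h⟩ := hg ε hε
  let c : ({e // e ∈ E} ⊕ {t // t ∈ F} ⊕ {t // t ∈ F}) → T → Prop := fun i s =>
    match i with
    | Sum.inl e => Avoids e.1.1 s.1
    | Sum.inr (Sum.inl t) => t.1.1 <:+ s.1
    | Sum.inr (Sum.inr t) => s = t.1
  have hc : ∀ i, Q (fun s => if c i s then (1 : ℝ) else 0) := by
    intro i
    rcases i with e | t | t
    · exact Q_avoids e.1.1
    · have h1 := Q_cone t.1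
      refine (congrArg Q (funext fun s => ?_)).mp h1
      by_cases hs : t.1.1 <:+ s.1
      · rw [if_pos hs, if_pos (show c (Sum.inr (Sum.inl t)) s from hs)]
      · rw [if_neg hs, if_neg (show ¬ c (Sum.inr (Sum.inl t)) s from hs)]
    · have h1 := Q_point t.1
      refine (congrArg Q (funext fun s => ?_)).mp h1
      by_cases hs : s = t.1
      · rw [if_pos hs, if_pos (show c (Sum.inr (Sum.inr t)) s from hs)]
      · rw [if_neg hs, if_neg (show ¬ c (Sum.inr (Sum.inr t)) s from hs)]
  let G : (({e // e ∈ E} ⊕ {t // t ∈ F} ⊕ {t // t ∈ F}) → Prop) → ℝ := fun p =>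
    if h : ∃ s, (fun i => c i s) = p then g h.choose else 0
  refine ⟨_, Q_pattern c hc G, fun t => ?_⟩
  have hex : ∃ s, (fun i => c i s) = fun i => c i t := ⟨t, rfl⟩
  have hG : G (fun i => c i t) = g hex.choose := dif_pos hex
  have hs := hex.choose_spec
  rw [hG]
  refine h t hex.choose (fun e he => ?_) fun u hu => ⟨?_, ?_⟩
  · exact (Eq.to_iff (congrFun hs (Sum.inl ⟨e, he⟩))).symm
  · exact (Eq.to_iff (congrFun hs (Sum.inr (Sum.inl ⟨u, hu⟩)))).symm
  · exact (Eq.to_iff (congrFun hs (Sum.inr (Sum.inr ⟨u, hu⟩)))).symm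

end Pool.Agent.Lib.MP_9ea9ae_an.V.GN
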