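import Pool.Agent.Lib.MP_9ea9ae_an.V.Base
import Pool.Agent.Lib.MP_9ea9ae_an.Operator

/-!
# Module GQ: the functional `nuG`
-/

open Filter Topology

namespace Pool.Agent.Lib.MP_9ea9ae_an.V

open Pool.Agent.Lib.MP_9ea9ae_an

namespace GQ

theorem tendsto_nuG {g : T → ℝ} (hg : Q g) (s : T) :
    Tendsto (fun m => (A ^ m) g s) atTop (𝓝 (nuG s g)) := by
  have h := exists_lim hg s
  have h1 : nuG s g = h.choose := by
    unfold nuG
    rw [dif_pos h]
  rw [h1]
  exact h.choose_spec

theorem nuG_eq {g : T → ℝ} {s : T} {v : ℝ} (hv : Tendsto (fun m => (A ^ m) g s) atTop (𝓝 v)) :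
    nuG s g = v := by
  have h : ∃ v, Tendsto (fun m => (A ^ m) g s) atTop (𝓝 v) := ⟨v, hv⟩
  have h1 : nuG s g = h.choose := by
    unfold nuG
    rw [dif_pos h]
  rw [h1]
  exact tendsto_nhds_unique h.choose_spec hv

end GQ

theorem gq : GQStatement := by
  refine ⟨fun s g h hg hh => ?_, fun s r g hg => ?_, fun s g c n hg H => ?_, fun g hg ε hε => ?_⟩
  · refine GQ.nuG_eq ?_
    refine ((GQ.tendsto_nuG hg s).add (GQ.tendsto_nuG hh s)).congr fun m => ?_
    have h1 : (fun t => g t + h t) = g + h := rfl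
    rw [h1, map_add]
    rfl
  · refine GQ.nuG_eq ?_
    refine ((GQ.tendsto_nuG hg s).const_mul r).congr fun m => ?_
    have h1 : (fun t => r * g t) = r • g := rfl
    rw [h1, map_smul]
    rfl
  · refine le_of_tendsto (GQ.tendsto_nuG hg s).abs ?_
    filter_upwards [eventually_ge_atTop n] with m hm
    refine (abs_A_pow_le _ m s).trans ?_
    exact A_pow_le (n := n) H m s (by omega)
  · obtain ⟨N, hN⟩ := hg ε hε
    refine ⟨N, fun s hs => ?_⟩
    have h1 : Tendsto (fun m => |g s - (A ^ m) g s|) atTop (𝓝 |g s - nuG s g|) :=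
      (tendsto_const_nhds.sub (GQ.tendsto_nuG hg s)).abs
    refine le_of_tendsto h1 (Eventually.of_forall fun m => ?_)
    rw [abs_sub_comm]
    exact (abs_A_pow_sub_le _ m s).trans (hN s hs m)

end Pool.Agent.Lib.MP_9ea9ae_an.V
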