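import Pool.Agent.Lib.MP_9ea9ae_an.V.Base

/-!
# Module GR: the values at the nodes are a ground model function
-/

open scoped symmDiff

namespace Pool.Agent.Lib.MP_9ea9ae_an.V.GR

open Pool.Agent.Lib.MP_9ea9ae_an Pool.Agent.Lib.MP_9ea9ae_an.V

theorem gr' (hCLK : CLKStatement) : GRStatement := by
  intro B Ω _ D hB u
  obtain ⟨-, hw, -⟩ := hCLK B Ω D
  refine distr_countable hB (fun t x => u (wB D t) x) _ fun t => ?_
  have h := (inf_le_left : fn0 (clK D) u ≤ _).trans (iInf_le _ (wB D t))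
  rwa [hw, top_himp] at h

end Pool.Agent.Lib.MP_9ea9ae_an.V.GR
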