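import Pool.Agent.Lib.MP_9ea9ae_an.V.Base

/-!
# HT: names of elements of types
-/

open scoped symmDiff

namespace Pool.Agent.Lib.MP_9ea9ae_an.V

open Pool.Agent.Lib.MP_9ea9ae_an
open Pool.Agent.Lib.MP_100a6c_lc Pool.Agent.Lib.MP_c5d73d_lc.F BName

namespace HT

theorem hat_beq {B : Type} [CompleteBooleanAlgebra B] {X : Type} (x y : X) :
    beq (hat x) (hat y : BName B) = tv (x = y) := by
  by_cases h : x = y
  · subst h
    rw [beq_refl, tv_pos rfl]
  · rw [tv_neg h]
    refine beq_check_of_ne fun he => h ?_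
    exact (Ordinal.typein_inj (α := X) WellOrderingRel).1 (Ordinal.toZFSet_injective he)

theorem mem_Xn {B : Type} [CompleteBooleanAlgebra B] {X : Type} (z : BName B) :
    bmem z (Xn B X) = ⨆ x : X, beq z (hat x) := by
  rw [Xn, mem_mk]
  simp

end HT

theorem ht : HTStatement := by
  intro B _ X
  refine ⟨HT.hat_beq, HT.mem_Xn, fun x => ?_⟩
  rw [HT.mem_Xn]
  refine top_le_iff.1 (le_trans ?_ (le_iSup _ x))
  rw [beq_refl]

end Pool.Agent.Lib.MP_9ea9ae_an.V
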