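import Pool.Agent.Lib.MP_9ea9ae_an.V.Base

/-!
# KB: the points `kb z` are in `K` and in `L`
-/

open scoped symmDiff

namespace Pool.Agent.Lib.MP_9ea9ae_an.V

open Pool.Agent.Lib.MP_9ea9ae_an

namespace KB

theorem avoids_ndl (d z : ℕ → ℕ) (n : ℕ) : Avoids d (ndl z n) ↔ ∀ m < n, z m ≠ d m := by
  induction n with
  | zero => simp [ndl, Avoids]
  | succ n ih =>
    rw [ndl, Avoids, length_ndl, ih]
    constructor
    · rintro ⟨h1, h2⟩ m hm
      rcases Nat.lt_succ_iff_lt_or_eq.1 hm with h | h
      · exact h2 m h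
      · rw [h]; exact h1
    · intro h
      exact ⟨h n (Nat.lt_succ_self n), fun m hm => h m (hm.trans (Nat.lt_succ_self n))⟩

theorem suffix_ndl (z : ℕ → ℕ) (t : List ℕ) (n : ℕ) :
    t <:+ ndl z n ↔ ∃ m ≤ n, t = ndl z m := by
  induction n with
  | zero =>
    rw [ndl, List.suffix_nil]
    constructor
    · intro h; exact ⟨0, le_rfl, h⟩
    · rintro ⟨m, hm, h⟩
      obtain rfl : m = 0 := Nat.le_zero.1 hm
      exact h
  | succ n ih =>
    rw [ndl, List.suffix_cons_iff, ih]
    constructor
    · rintro (h | ⟨m, hm, h⟩)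
      · exact ⟨n + 1, le_rfl, h⟩
      · exact ⟨m, hm.trans (Nat.le_succ n), h⟩
    · rintro ⟨m, hm, h⟩
      rcases Nat.le_succ_iff.1 hm with h' | h'
      · exact Or.inr ⟨m, h', h⟩
      · rw [h'] at h
        exact Or.inl h

variable {B : Type} [CompleteBooleanAlgebra B] {Ω : Type} {D : Ω → Br → B}

theorem compl_bihimp {a b : B} (p q : Prop) (h : (¬ p) ↔ q) {Γ : B}
    (ha : Γ ≤ (a ⇔ tv p)) (hb : Γ ≤ (b ⇔ tv q)) : Γ ≤ (aᶜ ⇔ b) := by
  by_cases hp : p
  · have hq : ¬ q := fun hq => h.2 hq hp
    rw [tv_pos hp, bihimp_top] at ha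
    rw [tv_neg hq, bihimp_bot] at hb
    refine le_bihimp' ?_ ?_
    · exact (inf_le_inf_right _ ha).trans (by simp)
    · exact (inf_le_inf_right _ hb).trans (by simp)
  · have hq : q := h.1 hp
    rw [tv_neg hp, bihimp_bot] at ha
    rw [tv_pos hq, bihimp_top] at hb
    refine le_bihimp' ?_ ?_
    · exact inf_le_left.trans hb
    · exact inf_le_left.trans ha

end KB

open KB in
theorem kb' : KBStatement := by
  classical
  intro B Ω _ D hD z
  have h0 : noS (kb D z) = ⊤ := by
    refine top_le_iff.1 (le_iInf fun t => ?_)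
    simp [kb]
  have h1 : kb D z o0 = ⊤ := tv_pos ⟨0, rfl⟩
  have h2 : clK D (kb D z) = ⊤ := by
    refine top_le_iff.1 (le_iInf fun F => ?_)
    -- the coordinates of the first kind in `F`
    let E : Finset Ω := F.filterMap (fun o => match o with
      | Sum.inl i => some i
      | Sum.inr _ => none) (by
        intro a a' b hb hb'
        rcases a with a | a <;> rcases a' with a' | a' <;> simp_all)
    have hE : ∀ i, Sum.inl i ∈ F → i ∈ E := by
      intro i hi
      rw [Finset.mem_filterMap]
      exact ⟨Sum.inl i, hi, rfl⟩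
    refine le_iSup_cases (iSup_dcd hD E) fun h => ?_
    rw [top_inf_eq]
    -- a bound for the levels and the agreements
    let lv : Om Ω → ℕ := fun o => match o with
      | Sum.inl i => if hi : ∃ m, (h i).1 m = z.1 m then hi.choose + 1 else 0
      | Sum.inr (Sum.inl t) => lev t + 1
      | Sum.inr (Sum.inr t) => lev t + 1
    obtain ⟨n, hn⟩ : ∃ n, ∀ o ∈ F, lv o ≤ n := ⟨F.sup lv, fun o ho => Finset.le_sup ho⟩
    refine le_trans ?_ (le_iSup _ (nd z n))
    refine le_agree fun o ho => ?_
    rcases o with i | t | t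
    · change dcd D E h ≤ ((hit D i z)ᶜ ⇔ Wv D i (nd z n))
      refine compl_bihimp _ _ ?_ (dcd_hit hD E h (hE i ho) z)
        (dcd_Wv hD E h (hE i ho) (nd z n))
      rw [nd, avoids_ndl]
      constructor
      · intro h3 m _ h4
        exact h3 ⟨m, h4.symm⟩
      · intro h3 h4
        have h5 := hn _ ho
        simp only [lv, dif_pos h4] at h5
        exact h3 h4.choose (by omega) h4.choose_spec.symm
    · change dcd D E h ≤ (tv (∃ n, t = nd z n) ⇔ tv (t.1 <:+ (nd z n).1))
      have h5 := hn _ ho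
      simp only [lv] at h5
      have h6 : (∃ n, t = nd z n) ↔ t.1 <:+ (nd z n).1 := by
        rw [nd, suffix_ndl]
        constructor
        · rintro ⟨m, hm⟩
          refine ⟨m, ?_, congrArg Subtype.val hm⟩
          have h7 : lev t = m := by rw [hm, lev, nd, length_ndl]
          omega
        · rintro ⟨m, -, hm⟩
          exact ⟨m, Subtype.ext hm⟩
      rw [tv_congr h6, bihimp_self]
      exact le_top
    · change dcd D E h ≤ (⊥ ⇔ tv (nd z n = t))
      have h5 := hn _ ho
      simp only [lv] at h5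
      have h6 : ¬ nd z n = t := by
        intro h7
        have h8 : lev t = n := by rw [← h7, lev, nd, length_ndl]
        omega
      rw [tv_neg h6, bihimp_self]
      exact le_top
  refine ⟨h2, h0, h1, ?_⟩
  rw [clL, h2, h0]
  simp

end Pool.Agent.Lib.MP_9ea9ae_an.V
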