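import Pool.Agent.Lib.MP_9ea9ae_an.V.Base

/-!
# KC: the point `kc y` is in `K` if `y` hits every `d_l` except `d_i`
-/

open scoped symmDiff

namespace Pool.Agent.Lib.MP_9ea9ae_an.V

open Pool.Agent.Lib.MP_9ea9ae_an

namespace KC

theorem ndl_suffix (z : ℕ → ℕ) {m n : ℕ} (h : m ≤ n) : ndl z m <:+ ndl z n := by
  induction n with
  | zero =>
    obtain rfl : m = 0 := by omega
    exact List.suffix_rfl
  | succ n ih =>
    rcases Nat.lt_or_ge n m with hm | hm
    · obtain rfl : m = n + 1 := by omega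
      exact List.suffix_rfl
    · exact (ih hm).trans (List.suffix_cons _ _)

theorem suffix_ndl (z : ℕ → ℕ) {n : ℕ} {t : List ℕ} (h : t <:+ ndl z n) :
    t = ndl z t.length := by
  have h1 : t.length ≤ n := by
    have := h.length_le
    rwa [length_ndl] at this
  have h2 : ndl z t.length <:+ ndl z n := ndl_suffix z h1
  have h3 : t <:+ ndl z t.length :=
    List.suffix_of_suffix_length_le h h2 (by rw [length_ndl])
  exact h3.eq_of_length (by rw [length_ndl])

/-- A node of `y` above a place where `y` agrees with `d` does not avoid `d`. -/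
theorem not_avoids_ndl {d y : ℕ → ℕ} {m n : ℕ} (h : d m = y m) (hm : m < n) :
    ¬ Avoids d (ndl y n) := by
  intro ha
  have h1 : Avoids d (ndl y (m + 1)) := ha.of_suffix (ndl_suffix y hm)
  have h2 : y m ≠ d (ndl y m).length := h1.1
  rw [length_ndl] at h2
  exact h2 h.symm

/-- The node `y|n ⌢ d(n)`. -/
def nod (y d : Br) (n : ℕ) : T :=
  ⟨d.1 n :: ndl y.1 n, by rw [length_ndl]; exact d.2 n, legal_ndl y n⟩

theorem not_avoids_nod (y d : Br) (n : ℕ) : ¬ Avoids d.1 (nod y d n).1 := by
  intro ha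
  have h2 : d.1 n ≠ d.1 (ndl y.1 n).length := ha.1
  rw [length_ndl] at h2
  exact h2 rfl

theorem lev_nod (y d : Br) (n : ℕ) : lev (nod y d n) = n + 1 := by
  simp [nod, lev, length_ndl]

/-- The level of the node of a coordinate. -/
def lv {Ω : Type} : Om Ω → ℕ
  | Sum.inl _ => 0
  | Sum.inr (Sum.inl t) => lev t
  | Sum.inr (Sum.inr t) => lev t

theorem cone_iff (y d : Br) {n : ℕ} {t : T} (ht : lev t ≤ n) :
    (∃ m, t = nd y m) ↔ t.1 <:+ (nod y d n).1 := by
  constructor
  · rintro ⟨m, rfl⟩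
    have hm : m ≤ n := by
      have : lev (nd y m) = m := by simp [lev, nd, length_ndl]
      omega
    exact (ndl_suffix y.1 hm).trans (List.suffix_cons _ _)
  · intro h
    have h1 : t.1 <:+ d.1 n :: ndl y.1 n := h
    rw [List.suffix_cons_iff] at h1
    rcases h1 with h1 | h1
    · exfalso
      have h2 := congrArg List.length h1
      rw [List.length_cons, length_ndl] at h2
      have h3 : lev t = t.1.length := rfl
      omega
    · exact ⟨t.1.length, Subtype.ext (suffix_ndl y.1 h1)⟩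

end KC

open KC in
theorem kc' : KCStatement := by
  intro B Ω _ D hD i y
  classical
  refine le_iInf fun F => ?_
  set J : Finset Ω := insert i (F.preimage Sum.inl Sum.inl_injective.injOn) with hJ
  refine le_iSup_cases (iSup_dcd hD J) fun h => ?_
  have hiJ : i ∈ J := Finset.mem_insert_self _ _
  by_cases h1 : ∃ n, (h i).1 n = y.1 n
  · -- the first factor is zero
    have h2 : dcd D J h ≤ hit D i y := by
      have h3 : dcd D J h ≤ (hit D i y ⇔ tv (∃ n, (h i).1 n = y.1 n)) := dcd_hit hD J h hiJ y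
      rw [tv_pos h1] at h3
      calc dcd D J h ≤ (hit D i y ⇔ ⊤) ⊓ ⊤ := le_inf h3 le_top
        _ ≤ hit D i y := bihimp_inf_le'
    calc (hit D i y)ᶜ ⊓ (⨅ l : {l // l ≠ i}, hit D l.1 y) ⊓ dcd D J h
        ≤ (hit D i y)ᶜ ⊓ hit D i y := inf_le_inf inf_le_left h2
      _ = ⊥ := compl_inf_eq_bot
      _ ≤ _ := bot_le
  by_cases h2 : ∀ l, l ∈ J → l ≠ i → ∃ n, (h l).1 n = y.1 n
  · have h3 : ∀ l, ∃ n, l ∈ J → l ≠ i → (h l).1 n = y.1 n := by
      intro l
      by_cases hl : l ∈ J
      · by_cases hli : l = i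
        · exact ⟨0, fun _ hh => absurd hli hh⟩
        · obtain ⟨n, hn⟩ := h2 l hl hli
          exact ⟨n, fun _ _ => hn⟩
      · exact ⟨0, fun hh => absurd hh hl⟩
    choose m hm using h3
    set N : ℕ := max (F.sup lv) (J.sup m) + 1 with hN
    have hlv : ∀ o ∈ F, lv o < N := fun o ho =>
      Nat.lt_succ_of_le ((Finset.le_sup (f := lv) ho).trans (le_max_left _ _))
    have hmN : ∀ l ∈ J, m l < N := fun l hl =>
      Nat.lt_succ_of_le ((Finset.le_sup (f := m) hl).trans (le_max_right _ _))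
    refine le_trans inf_le_right (le_trans ?_ (le_iSup _ (nod y (h i) N)))
    refine le_agree fun o ho => ?_
    rcases o with l | t | t
    · -- coordinates of the first kind
      have hl : l ∈ J := Finset.mem_insert_of_mem (Finset.mem_preimage.2 ho)
      have h4 : dcd D J h ≤ (Wv D l (nod y (h i) N) ⇔ tv (Avoids (h l).1 (nod y (h i) N).1)) :=
        dcd_Wv hD J h hl _
      have h5 : ¬ Avoids (h l).1 (nod y (h i) N).1 := by
        by_cases hli : l = i
        · rw [hli]
          exact not_avoids_nod y (h i) N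
        · intro ha
          exact not_avoids_ndl (hm l hl hli) (hmN l hl) (ha.of_suffix (List.suffix_cons _ _))
      rw [tv_neg h5] at h4
      change dcd D J h ≤ (⊥ ⇔ Wv D l (nod y (h i) N))
      rw [bihimp_comm]
      exact h4
    · have h4 := cone_iff y (h i) (hlv _ ho).le
      change dcd D J h ≤ (tv (∃ n, t = nd y n) ⇔ tv (t.1 <:+ (nod y (h i) N).1))
      rw [tv_congr h4, bihimp_self]
      exact le_top
    · have h4 : ¬ nod y (h i) N = t := by
        rintro rfl
        have h5 : lev (nod y (h i) N) < N := hlv _ ho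
        rw [lev_nod] at h5
        omega
      change dcd D J h ≤ (⊥ ⇔ tv (nod y (h i) N = t))
      rw [tv_neg h4, bihimp_self]
      exact le_top
  · push Not at h2
    obtain ⟨l, hl, hli, hn⟩ := h2
    have h3 : dcd D J h ≤ (hit D l y ⇔ tv (∃ n, (h l).1 n = y.1 n)) := dcd_hit hD J h hl y
    have h4 : ¬ ∃ n, (h l).1 n = y.1 n := fun ⟨n, hh⟩ => hn n hh
    rw [tv_neg h4] at h3
    calc (hit D i y)ᶜ ⊓ (⨅ l : {l // l ≠ i}, hit D l.1 y) ⊓ dcd D J h
        ≤ hit D l y ⊓ (hit D l y ⇔ ⊥) :=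
          inf_le_inf (inf_le_right.trans (iInf_le _ (⟨l, hli⟩ : {l // l ≠ i}))) h3
      _ ≤ ⊥ := by rw [inf_comm]; exact bihimp_inf_le
      _ ≤ _ := bot_le

end Pool.Agent.Lib.MP_9ea9ae_an.V
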