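import Pool.Agent.Lib.MP_9ea9ae_an.V.Base

/-!
# Module N2: countable supports at a point
-/

open scoped symmDiff

namespace Pool.Agent.Lib.MP_9ea9ae_an.V.N2

open Pool.Agent.Lib.MP_9ea9ae_an Pool.Agent.Lib.MP_9ea9ae_an.V
open Pool.Agent.Lib.MP_100a6c_lc Pool.Agent.Lib.MP_c5d73d_lc.F BName
open Pool.Agent.Lib.MP_6d445e_gt (op isTopo isHaus isFin fsub)

variable {B : Type} [CompleteBooleanAlgebra B] {Ω : Type}

theorem ext_op_snd (m x z : BName B) : Ext (fun y => op (VB B) m x y z) :=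
  Ext.iSup fun p => (ext_isPair_trd p x).inf (Ext.const _)

theorem ext_op_trd (m x y : BName B) : Ext (fun z => op (VB B) m x y z) :=
  Ext.iSup fun p => (Ext.const _).inf (ext_rel_trd m p)

/-- Module N2. -/
theorem n2 (_hHT : HTStatement) (hSB : SBStatement) (_hRO : ROStatement) (hRP : RPStatement) :
    N2Statement := by
  intro B Ω _ c hc G φ κ Γ hS hκ
  obtain ⟨E, hE⟩ : ∃ E : BName B, E = sepn G fun γ' => (uu φ γ' κ 0)ᶜ := ⟨_, rfl⟩
  have hmE : ∀ z, bmem z E = bmem z G ⊓ (uu φ z κ 0)ᶜ := fun z => by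
    rw [hE]
    exact mem_sepn (φ := fun γ' => (uu φ γ' κ 0)ᶜ)
      (ext_op_snd φ (sb κ) (hat (0 : ℝ))).compl G z
  have h1 : Γ ≤ (VB B).leCard E (check H36.om) := by
    have h2 : Γ ≤ (VB B).mem (sb κ) (Cn c) ⊓ (⨅ γ, (VB B).mem γ E ⇨ (VB B).mem γ G ⊓
        ⨅ z, isId (VB B) (Xn B ℝ) (rA B) z ⇨ (op (VB B) φ (sb κ) γ z)ᶜ) ⇨
          (VB B).leCard E (check H36.om) := hS.trans ((iInf_le _ (sb κ)).trans (iInf_le _ E))
    refine (le_inf h2 (le_inf ?_ (le_iInf fun γ => ?_))).trans himp_inf_le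
    · rw [VB_mem, (hSB B Ω).2.2.1 c κ hc]
      exact hκ
    · rw [le_himp_iff, VB_mem, VB_mem, hmE]
      refine le_inf (inf_le_right.trans inf_le_left) (le_iInf fun z => ?_)
      rw [le_himp_iff, (hRP B).1]
      refine ((ext_op_trd φ (sb κ) γ).compl).of_le' (x := hat (0 : ℝ)) inf_le_right ?_
      exact inf_le_left.trans (inf_le_right.trans inf_le_right)
  have h3 : (check H36.om : BName B) = check (Cardinal.aleph0.{0}.ord.toZFSet) := by
    rw [Cardinal.ord_aleph0]; rfl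
  rw [h3] at h1
  obtain ⟨t, ht⟩ := exists_enum_type (K := ℕ) Cardinal.mk_nat h1
  refine ⟨t, fun γ' => ?_⟩
  have h4 := ht γ'
  rw [hmE, ← inf_assoc] at h4
  exact h4

end Pool.Agent.Lib.MP_9ea9ae_an.V.N2
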