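import Pool.Agent.Lib.MP_9ea9ae_an.V.Base

/-!
# N3: injectivity
-/

open scoped symmDiff

namespace Pool.Agent.Lib.MP_9ea9ae_an.V

open Pool.Agent.Lib.MP_9ea9ae_an
open Pool.Agent.Lib.MP_100a6c_lc Pool.Agent.Lib.MP_c5d73d_lc.F BName
open Pool.Agent.Lib.MP_6d445e_gt (op isTopo isHaus isFin fsub)

namespace N3

variable {B : Type} [CompleteBooleanAlgebra B]

theorem ext_op (m x y : BName B) : Ext (fun z => op (VB B) m x y z) := by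
  unfold op
  exact Ext.iSup fun p => (Ext.const _).inf (ext_rel_trd m p)

end N3

theorem n3 (hHT : HTStatement) (hSB : SBStatement) (_hRO : ROStatement) (_hRP : RPStatement) :
    N3Statement := by
  intro B Ω _ c hc G φ κ κ'
  obtain ⟨-, hsb2, hsb3, -⟩ := hSB B Ω
  obtain ⟨-, hX, -⟩ := hHT B ℝ
  set Γ : B := isMap (VB B) (Xn B ℝ) (Cn c) G φ ⊓ isInj (VB B) (Cn c) G φ ⊓ c κ ⊓ c κ' ⊓
      (⨅ γ, bmem γ G ⇨ ⨅ x, (uu φ γ κ x ⇔ uu φ γ κ' x)) with hΓ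
  have h1 : Γ ≤ isMap (VB B) (Xn B ℝ) (Cn c) G φ :=
    inf_le_left.trans (inf_le_left.trans (inf_le_left.trans inf_le_left))
  have h2 : Γ ≤ isInj (VB B) (Cn c) G φ :=
    inf_le_left.trans (inf_le_left.trans (inf_le_left.trans inf_le_right))
  have h3 : Γ ≤ c κ := inf_le_left.trans (inf_le_left.trans inf_le_right)
  have h4 : Γ ≤ c κ' := inf_le_left.trans inf_le_right
  have h5 : Γ ≤ ⨅ γ, bmem γ G ⇨ ⨅ x, (uu φ γ κ x ⇔ uu φ γ κ' x) := inf_le_right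
  have h6 : isInj (VB B) (Cn c) G φ ≤ (VB B).mem (sb κ) (Cn c) ⊓ (VB B).mem (sb κ') (Cn c) ⊓
    (⨅ γ, ⨅ r, (VB B).mem γ G ⊓ op (VB B) φ (sb κ) γ r ⇨ op (VB B) φ (sb κ') γ r) ⇨
      (VB B).eq (sb κ) (sb κ') := (iInf_le _ (sb κ)).trans (iInf_le _ (sb κ'))
  simp only [VB_mem, VB_eq] at h6
  rw [hsb3 c κ hc, hsb3 c κ' hc, hsb2] at h6
  refine (le_inf (h2.trans h6) (le_inf (le_inf h3 h4) ?_)).trans himp_inf_le
  refine le_iInf fun γ => le_iInf fun r => ?_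
  rw [le_himp_iff]
  -- the value at `κ` is a real number
  have h7 : Γ ⊓ (bmem γ G ⊓ op (VB B) φ (sb κ) γ r) ≤
      ⨆ s, bmem s (Xn B ℝ) ⊓ op (VB B) φ (sb κ) γ s := by
    have h8 : isMap (VB B) (Xn B ℝ) (Cn c) G φ ≤ (VB B).mem (sb κ) (Cn c) ⊓ (VB B).mem γ G ⇨
        ⨆ s, (VB B).mem s (Xn B ℝ) ⊓ op (VB B) φ (sb κ) γ s :=
      inf_le_left.trans ((iInf_le _ (sb κ)).trans (iInf_le _ γ))
    simp only [VB_mem] at h8
    rw [hsb3 c κ hc] at h8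
    refine (le_inf (inf_le_left.trans (h1.trans h8)) (le_inf (inf_le_left.trans h3)
      (inf_le_right.trans inf_le_left))).trans himp_inf_le
  refine le_iSup_cases' h7 fun s => ?_
  have h9 : Γ ⊓ (bmem γ G ⊓ op (VB B) φ (sb κ) γ r) ⊓
      (bmem s (Xn B ℝ) ⊓ op (VB B) φ (sb κ) γ s) ≤ beq r s := by
    have h8 : isMap (VB B) (Xn B ℝ) (Cn c) G φ ≤
        op (VB B) φ (sb κ) γ r ⊓ op (VB B) φ (sb κ) γ s ⇨ (VB B).eq r s :=
      inf_le_right.trans ((iInf_le _ (sb κ)).trans ((iInf_le _ γ).trans ((iInf_le _ r).trans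
        (iInf_le _ s))))
    refine (le_inf (inf_le_left.trans (inf_le_left.trans (h1.trans h8))) (le_inf
      (inf_le_left.trans (inf_le_right.trans inf_le_right))
      (inf_le_right.trans inf_le_right))).trans himp_inf_le
  have h10 : Γ ⊓ (bmem γ G ⊓ op (VB B) φ (sb κ) γ r) ⊓
      (bmem s (Xn B ℝ) ⊓ op (VB B) φ (sb κ) γ s) ≤ ⨆ x : ℝ, beq s (hat x) := by
    rw [← hX s]
    exact inf_le_right.trans inf_le_left
  refine le_iSup_cases' h10 fun x => ?_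
  set Δ : B := Γ ⊓ (bmem γ G ⊓ op (VB B) φ (sb κ) γ r) ⊓
      (bmem s (Xn B ℝ) ⊓ op (VB B) φ (sb κ) γ s) ⊓ beq s (hat x) with hΔ
  have k1 : Δ ≤ beq s (hat x) := inf_le_right
  have k2 : Δ ≤ beq r s := inf_le_left.trans h9
  have k3 : Δ ≤ op (VB B) φ (sb κ) γ s := inf_le_left.trans (inf_le_right.trans inf_le_right)
  have k4 : Δ ≤ uu φ γ κ x := (N3.ext_op φ (sb κ) γ).of_le k1 k3
  have k5 : Δ ≤ (uu φ γ κ x ⇔ uu φ γ κ' x) := by
    have h8 : (⨅ γ, bmem γ G ⇨ ⨅ x, (uu φ γ κ x ⇔ uu φ γ κ' x)) ⊓ bmem γ G ≤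
        (uu φ γ κ x ⇔ uu φ γ κ' x) := by
      have h11 : (⨅ γ, bmem γ G ⇨ ⨅ x, (uu φ γ κ x ⇔ uu φ γ κ' x)) ⊓ bmem γ G ≤
          ⨅ x, (uu φ γ κ x ⇔ uu φ γ κ' x) := le_himp_iff.1 (iInf_le _ γ)
      exact h11.trans (iInf_le _ x)
    refine (le_inf ?_ ?_).trans h8
    · exact inf_le_left.trans (inf_le_left.trans (inf_le_left.trans h5))
    · exact inf_le_left.trans (inf_le_left.trans (inf_le_right.trans inf_le_left))
  have k6 : Δ ≤ op (VB B) φ (sb κ') γ (hat x) := (le_inf k5 k4).trans bihimp_inf_le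
  have k7 : Δ ≤ op (VB B) φ (sb κ') γ s := (N3.ext_op φ (sb κ') γ).of_le' k1 k6
  exact (N3.ext_op φ (sb κ') γ).of_le' k2 k7

end Pool.Agent.Lib.MP_9ea9ae_an.V
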