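import Pool.Agent.Lib.MP_9ea9ae_an.V.Base

/-!
# Module NC: `K` is not Corson, typed form
-/

open scoped symmDiff

namespace Pool.Agent.Lib.MP_9ea9ae_an.V.NC

open Pool.Agent.Lib.MP_9ea9ae_an Pool.Agent.Lib.MP_9ea9ae_an.V

variable {B : Type} [CompleteBooleanAlgebra B] {Ω : Type} {D : Ω → Br → B}

/-- The value of: `d_i` does not meet `y` and all the other functions meet `y`. -/
def ev (D : Ω → Br → B) (i : Ω) (y : Br) : B :=
  (hit D i y)ᶜ ⊓ ⨅ l : {l // l ≠ i}, hit D l.1 y

theorem ev_le (i : Ω) (y : Br) : ev D i y ≤ (hit D i y)ᶜ := inf_le_left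

theorem ev_le_hit (i l : Ω) (y : Br) (h : l ≠ i) : ev D i y ≤ hit D l y :=
  inf_le_right.trans (iInf_le (fun l : {l // l ≠ i} => hit D l.1 y) ⟨l, h⟩)

/-- The two points agree at all coordinates but `inl i`. -/
theorem ev_agree (i : Ω) (y : Br) (o : Om Ω) (h : o ≠ Sum.inl i) :
    ev D i y ≤ (kb D y o ⇔ kc y o) := by
  rcases o with l | t | t
  · have hl : l ≠ i := fun e => h (by rw [e])
    refine le_bihimp' ?_ ?_
    · change ev D i y ⊓ (hit D l y)ᶜ ≤ ⊥
      refine (inf_le_inf_right _ (ev_le_hit i l y hl)).trans ?_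
      rw [inf_compl_eq_bot]
    · change ev D i y ⊓ ⊥ ≤ _
      rw [inf_bot_eq]
      exact bot_le
  · change ev D i y ≤ (tv _ ⇔ tv _)
    rw [bihimp_self]
    exact le_top
  · change ev D i y ≤ (⊥ ⇔ ⊥)
    rw [bihimp_self]
    exact le_top

/-- The two points are different. -/
theorem ev_ne (i : Ω) (y : Br) : ev D i y ⊓ eqP (kb D y) (kc y) ≤ ⊥ := by
  refine (le_inf ?_ inf_le_right : _ ≤ kb D y (Sum.inl i) ⊓ eqP (kb D y) (kc y)).trans ?_
  · exact inf_le_left.trans (ev_le i y)
  · rw [inf_comm]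
    exact eqP_inf_le _ _ (Sum.inl i)

end Pool.Agent.Lib.MP_9ea9ae_an.V.NC

namespace Pool.Agent.Lib.MP_9ea9ae_an.V

open Pool.Agent.Lib.MP_9ea9ae_an NC

/-- NC: `K` is not Corson. -/
theorem nc (hUC : UCStatement) (hCLK : CLKStatement) (hKB : KBStatement) (hKC : KCStatement)
    (hZR : ZRStatement) : NCStatement := by
  intro B Ω _ D hB hD J M u Γ γ hu hf hc hi
  classical
  have hclo : Clo (clK D) := (hCLK B Ω D).1
  -- uniform continuity with countably many finite sets
  have h1 : Γ ≤ ⨆ h : ℕ × ℕ → Finset (Om Ω), ⨅ p : ℕ × ℕ,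
      (M (γ p.1) ⇨ uc (clK D) (u (γ p.1)) (h p) (1 / ((p.2 : ℝ) + 1))) := by
    refine distr_countable hB
      (fun (p : ℕ × ℕ) F => (M (γ p.1) ⇨ uc (clK D) (u (γ p.1)) F (1 / ((p.2 : ℝ) + 1)))) Γ ?_
    intro p
    refine le_cases (M (γ p.1)) ?_ ?_
    · have h2 := (hf (γ p.1)).trans (hUC B Ω (clK D) hclo (u (γ p.1)) (hu _)
        (1 / ((p.2 : ℝ) + 1)) (by positivity))
      refine h2.trans (iSup_mono fun F => ?_)
      exact le_himp_iff.2 inf_le_left
    · refine le_trans ?_ (le_iSup _ (∅ : Finset (Om Ω)))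
      rw [le_himp_iff, inf_assoc, compl_inf_eq_bot, inf_bot_eq]
      exact bot_le
  refine le_bot_iff.1 (le_iSup_cases' h1 fun h => ?_)
  set Φ := ⨅ p : ℕ × ℕ,
      (M (γ p.1) ⇨ uc (clK D) (u (γ p.1)) (h p) (1 / ((p.2 : ℝ) + 1))) with hΦ
  -- the countable set of coordinates
  let C : Set Ω := ⋃ p : ℕ × ℕ, {i | (Sum.inl i : Om Ω) ∈ h p}
  have hC : C.Countable := by
    refine Set.countable_iUnion fun p => ?_
    exact ((h p).finite_toSet.preimage Sum.inl_injective.injOn).countable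
  have h3 := hD.gen C hC
  refine le_iSup_cases h3 fun i => ?_
  rw [inf_iSup_eq]
  refine iSup_le fun y => ?_
  change Γ ⊓ Φ ⊓ ev D i.1 y ≤ ⊥
  set E := Γ ⊓ Φ ⊓ ev D i.1 y with hE
  have EΓ : E ≤ Γ := inf_le_left.trans inf_le_left
  have EΦ : E ≤ Φ := inf_le_left.trans inf_le_right
  have Ee : E ≤ ev D i.1 y := inf_le_right
  have hkb : clK D (kb D y) = ⊤ := (hKB B Ω D hD y).1
  have hkc : E ≤ clK D (kc y) := Ee.trans (hKC B Ω D hD i.1 y)
  have hag : ∀ p, E ≤ agree (h p) (kb D y) (kc y) := by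
    intro p
    refine le_agree fun o ho => Ee.trans (ev_agree i.1 y o ?_)
    rintro rfl
    exact i.2 (Set.mem_iUnion.2 ⟨p, ho⟩)
  -- the two values are equal for the countably many functions
  have hA : ∀ (m : ℕ) (x x' : ℝ), E ⊓ M (γ m) ⊓ u (γ m) (kb D y) x ⊓ u (γ m) (kc y) x' ≤
      tv (x = x') := by
    intro m x x'
    refine le_tv_of fun hne => ?_
    have hpos : 0 < |x - x'| := abs_pos.2 (sub_ne_zero.2 hne)
    obtain ⟨k, hk⟩ := exists_nat_one_div_lt hpos
    have h4 := uc_le (c := clK D) (u := u (γ m)) (h (m, k)) (1 / ((k : ℝ) + 1)) (kb D y) (kc y)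
      x x'
    rw [tv_neg (not_lt.2 hk.le)] at h4
    refine le_trans ?_ h4
    have h5 : E ⊓ M (γ m) ≤ uc (clK D) (u (γ m)) (h (m, k)) (1 / ((k : ℝ) + 1)) := by
      rw [← le_himp_iff]
      exact EΦ.trans (iInf_le _ (m, k))
    refine le_inf (inf_le_left.trans (inf_le_left.trans h5)) ?_
    refine le_inf (le_inf (le_inf (le_inf ?_ ?_) ?_) ?_) inf_le_right
    · rw [hkb]
      exact le_top
    · exact inf_le_left.trans (inf_le_left.trans (inf_le_left.trans hkc))
    · exact inf_le_left.trans (inf_le_left.trans (inf_le_left.trans (hag (m, k))))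
    · exact inf_le_left.trans inf_le_right
  have hA1 : ∀ (m : ℕ) (x : ℝ), E ⊓ M (γ m) ⊓ u (γ m) (kb D y) x ≤ u (γ m) (kc y) x := by
    intro m x
    have h6 : E ⊓ M (γ m) ⊓ u (γ m) (kb D y) x ≤ ⨆ x', u (γ m) (kc y) x' := by
      refine le_trans ?_ (fnT_tot (c := clK D) (kc y))
      exact le_inf (inf_le_left.trans ((inf_le_inf_right _ EΓ).trans (hf _)))
        (inf_le_left.trans (inf_le_left.trans hkc))
    refine le_iSup_cases' h6 fun x' => ?_
    by_cases hxx : x = x'
    · rw [hxx]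
      exact inf_le_right
    · refine (hA m x x').trans ?_
      rw [tv_neg hxx]
      exact bot_le
  have hA2 : ∀ (m : ℕ) (x : ℝ), E ⊓ M (γ m) ⊓ u (γ m) (kc y) x ≤ u (γ m) (kb D y) x := by
    intro m x
    have h6 : E ⊓ M (γ m) ⊓ u (γ m) (kc y) x ≤ ⨆ x', u (γ m) (kb D y) x' := by
      refine le_trans ?_ (fnT_tot (c := clK D) (kb D y))
      exact le_inf (inf_le_left.trans ((inf_le_inf_right _ EΓ).trans (hf _)))
        (by rw [hkb]; exact le_top)
    refine le_iSup_cases' h6 fun x' => ?_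
    by_cases hxx : x = x'
    · rw [hxx]
      exact inf_le_right
    · refine le_trans ?_ ((hA m x' x).trans ?_)
      · exact le_inf (le_inf (inf_le_left.trans inf_le_left) inf_le_right)
          (inf_le_left.trans inf_le_right)
      · rw [tv_neg (Ne.symm hxx)]
        exact bot_le
  -- equality of the values for all functions
  have hG : ∀ j, E ≤ M j ⇨ ⨅ x, (u j (kb D y) x ⇔ u j (kc y) x) := by
    intro j
    rw [le_himp_iff]
    have h7 : E ⊓ M j ≤ (⨆ m, M (γ m) ⊓ eqU (clK D) (u j) (u (γ m))) ⊔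
        ⨅ s : T, u j (wB D s) 0 := (inf_le_inf_right _ EΓ).trans (hc j)
    calc E ⊓ M j ≤ (E ⊓ M j) ⊓ ((⨆ m, M (γ m) ⊓ eqU (clK D) (u j) (u (γ m))) ⊔
          ⨅ s : T, u j (wB D s) 0) := le_inf le_rfl h7
      _ ≤ _ := by
        rw [inf_sup_left, inf_iSup_eq]
        refine sup_le (iSup_le fun m => ?_) ?_
        · refine le_iInf fun x => ?_
          set W := E ⊓ M j ⊓ (M (γ m) ⊓ eqU (clK D) (u j) (u (γ m))) with hW
          have W1 : W ≤ E := inf_le_left.trans inf_le_left
          have W2 : W ≤ M (γ m) := inf_le_right.trans inf_le_left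
          have W3 : ∀ κ, W ≤ clK D κ → W ≤ (u j κ x ⇔ u (γ m) κ x) := by
            intro κ hκ
            have h8 : W ≤ clK D κ ⇨ (u j κ x ⇔ u (γ m) κ x) :=
              inf_le_right.trans (inf_le_right.trans ((iInf_le _ κ).trans (iInf_le _ x)))
            exact (le_inf h8 hκ).trans himp_inf_le
          have W4 : W ≤ (u j (kb D y) x ⇔ u (γ m) (kb D y) x) :=
            W3 _ (by rw [hkb]; exact le_top)
          have W5 : W ≤ (u j (kc y) x ⇔ u (γ m) (kc y) x) := W3 _ (W1.trans hkc)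
          have W6 : W ≤ (u (γ m) (kb D y) x ⇔ u (γ m) (kc y) x) :=
            le_bihimp' ((inf_le_inf_right _ (le_inf W1 W2)).trans (hA1 m x))
              ((inf_le_inf_right _ (le_inf W1 W2)).trans (hA2 m x))
          refine (le_inf (le_inf W4 W6) W5).trans ?_
          refine (inf_le_inf_right _ bihimp_trans).trans ?_
          rw [bihimp_comm (u j (kc y) x)]
          exact bihimp_trans
        · set W := E ⊓ M j ⊓ ⨅ s : T, u j (wB D s) 0 with hW
          have W1 : W ≤ E := inf_le_left.trans inf_le_left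
          have Wf : W ≤ fnT (clK D) (u j) :=
            inf_le_left.trans ((inf_le_inf_right _ EΓ).trans (hf j))
          have W0 : W ≤ ⨅ κ, clK D κ ⇨ u j κ 0 :=
            (le_inf Wf inf_le_right).trans (hZR B Ω D (u j) (hu j))
          have Wk : ∀ κ, W ≤ clK D κ → W ≤ u j κ 0 := by
            intro κ hκ
            exact (le_inf (W0.trans (iInf_le _ κ)) hκ).trans himp_inf_le
          have hb : W ≤ clK D (kb D y) := by rw [hkb]; exact le_top
          have hc' : W ≤ clK D (kc y) := W1.trans hkc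
          have Wu : ∀ κ x, W ≤ clK D κ → W ⊓ u j κ x ≤ tv (x = 0) := by
            intro κ x hκ
            refine le_trans ?_ (fnT_unq (c := clK D) (u := u j) κ x 0)
            exact le_inf (inf_le_left.trans Wf)
              (le_inf (le_inf (inf_le_left.trans hκ) inf_le_right) (inf_le_left.trans (Wk κ hκ)))
          have Wm : ∀ κ κ' x, W ≤ clK D κ → W ≤ clK D κ' → W ⊓ u j κ x ≤ u j κ' x := by
            intro κ κ' x hκ hκ'
            by_cases hx : x = 0
            · subst hx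
              exact inf_le_left.trans (Wk κ' hκ')
            · refine (Wu κ x hκ).trans ?_
              rw [tv_neg hx]
              exact bot_le
          exact le_iInf fun x => le_bihimp' (Wm _ _ x hb hc') (Wm _ _ x hc' hb)
  have hEq : E ≤ eqP (kb D y) (kc y) := by
    refine le_trans ?_ (hi (kb D y) (kc y))
    refine le_inf (le_inf (le_inf EΓ ?_) hkc) (le_iInf hG)
    rw [hkb]
    exact le_top
  exact (le_inf Ee hEq).trans (ev_ne i.1 y)

end Pool.Agent.Lib.MP_9ea9ae_an.V
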