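import Pool.Agent.Lib.MP_9ea9ae_an.V.Base

/-!
# Module NL: deep nodes are close to points of `L`
-/

open scoped symmDiff

namespace Pool.Agent.Lib.MP_9ea9ae_an.V.NL

open Pool.Agent.Lib.MP_9ea9ae_an
open Pool.Agent.Lib.MP_9ea9ae_an.V

/-- The letter of index `k` of a node. -/
def ltr : List ℕ → ℕ → ℕ
  | [], _ => 0
  | a :: s, k => if k = s.length then a else ltr s k

theorem ltr_cons_of_lt (a : ℕ) (s : List ℕ) {k : ℕ} (hk : k < s.length) :
    ltr (a :: s) k = ltr s k := by
  simp [ltr, hk.ne]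

theorem ltr_cons_self (a : ℕ) (s : List ℕ) : ltr (a :: s) s.length = a := by
  simp [ltr]

theorem ltr_lt {s : List ℕ} (hs : Legal s) {k : ℕ} (hk : k < s.length) : ltr s k < 2 ^ (k + 1) := by
  induction s with
  | nil => simp at hk
  | cons a s ih =>
    obtain ⟨h1, h2⟩ := hs
    rcases Nat.lt_succ_iff_lt_or_eq.1 (by simpa using hk) with h | h
    · rw [ltr_cons_of_lt a s h]
      exact ih h2 h
    · subst h
      rw [ltr_cons_self]
      exact h1

theorem avoids_iff (d : ℕ → ℕ) (s : List ℕ) : Avoids d s ↔ ∀ k < s.length, ltr s k ≠ d k := by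
  induction s with
  | nil => simp [Avoids]
  | cons a s ih =>
    constructor
    · rintro ⟨h1, h2⟩ k hk
      rcases Nat.lt_succ_iff_lt_or_eq.1 (by simpa using hk) with h | h
      · rw [ltr_cons_of_lt a s h]
        exact ih.1 h2 k h
      · subst h
        rw [ltr_cons_self]
        exact h1
    · intro h
      refine ⟨?_, ih.2 fun k hk => ?_⟩
      · have := h s.length (by simp)
        rwa [ltr_cons_self] at this
      · have := h k (by simp; omega)
        rwa [ltr_cons_of_lt a s hk] at this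

theorem ndl_eq (z : ℕ → ℕ) (s : List ℕ) (h : ∀ k < s.length, z k = ltr s k) :
    ndl z s.length = s := by
  induction s with
  | nil => rfl
  | cons a s ih =>
    have h1 : ndl z s.length = s := ih fun k hk => by
      rw [h k (by simp; omega), ltr_cons_of_lt a s hk]
    have h2 : z s.length = a := by
      rw [h s.length (by simp), ltr_cons_self]
    simp only [List.length_cons, ndl]
    rw [h1, h2]

theorem ndl_suffix (z : ℕ → ℕ) {m n : ℕ} (h : m ≤ n) : ndl z m <:+ ndl z n := by
  induction n, h using Nat.le_induction with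
  | base => exact List.suffix_rfl
  | succ n _ ih => exact ih.trans (List.suffix_cons _ _)

/-- Suffixes of a node of the branch. -/
theorem suffix_iff (z : Br) (n : ℕ) (s : T) (hs : lev s ≤ n) :
    (∃ m, s = nd z m) ↔ s.1 <:+ ndl z.1 n := by
  constructor
  · rintro ⟨m, rfl⟩
    have : lev (nd z m) = m := length_ndl z.1 m
    exact ndl_suffix z.1 (by omega)
  · intro h
    refine ⟨lev s, Subtype.ext ?_⟩
    have h1 : ndl z.1 (lev s) <:+ ndl z.1 n := ndl_suffix z.1 hs
    have h2 : s.1.length = (ndl z.1 (lev s)).length := by rw [length_ndl]; rfl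
    exact (List.suffix_of_suffix_length_le h h1 h2.le).eq_of_length h2

/-- A legal branch through `t` which avoids finitely many branches above `t`. -/
theorem exists_branch (t : T) (I : Finset Br) (hI : I.card < 2 ^ (lev t + 1)) :
    ∃ z : Br, (∀ k < lev t, z.1 k = ltr t.1 k) ∧ ∀ e ∈ I, ∀ k, lev t ≤ k → z.1 k ≠ e.1 k := by
  classical
  have h1 : ∀ k, ∃ a : ℕ, a < 2 ^ (k + 1) ∧ (k < lev t → a = ltr t.1 k) ∧
      (lev t ≤ k → ∀ e ∈ I, a ≠ e.1 k) := by
    intro k
    by_cases hk : k < lev t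
    · exact ⟨ltr t.1 k, ltr_lt t.2 hk, fun _ => rfl, fun h => absurd hk (not_lt.2 h)⟩
    · push Not at hk
      have h2 : (I.image fun e => e.1 k).card < (Finset.range (2 ^ (k + 1))).card := by
        rw [Finset.card_range]
        refine lt_of_le_of_lt Finset.card_image_le (lt_of_lt_of_le hI ?_)
        exact Nat.pow_le_pow_right (by norm_num) (by omega)
      obtain ⟨a, ha, ha'⟩ := Finset.exists_mem_notMem_of_card_lt_card h2
      refine ⟨a, Finset.mem_range.1 ha, fun h => absurd h (not_lt.2 hk), fun _ e he hae => ?_⟩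
      exact ha' (Finset.mem_image.2 ⟨e, he, hae.symm⟩)
  choose z hz1 hz2 hz3 using h1
  exact ⟨⟨z, hz1⟩, fun k hk => hz2 k hk, fun e he k hk => hz3 k hk e he⟩

open Classical in
theorem nl : NLStatement := by
  intro B Ω _ D hD F
  -- the indices of the first kind
  let I : Finset Ω := F.preimage Sum.inl (Sum.inl_injective.injOn)
  let J : Finset (T ⊕ T) := F.preimage Sum.inr (Sum.inr_injective.injOn)
  let lv : T ⊕ T → ℕ := Sum.elim lev lev
  refine ⟨J.sup lv + 1 + I.card, fun t ht => ?_⟩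
  refine top_le_iff.1 (le_iSup_cases (iSup_dcd hD I) fun h => ?_)
  have hcard : (I.image h).card < 2 ^ (lev t + 1) := by
    refine lt_of_le_of_lt Finset.card_image_le (lt_of_lt_of_le ?_ (Nat.lt_two_pow_self).le)
    omega
  obtain ⟨z, hz1, hz2⟩ := exists_branch t (I.image h) hcard
  have hzt : ndl z.1 (lev t) = t.1 := ndl_eq z.1 t.1 hz1
  refine le_trans ?_ (le_iSup _ z)
  refine inf_le_right.trans (le_agree fun o ho => ?_)
  rcases o with i | s | s
  · have hi : i ∈ I := Finset.mem_preimage.2 ho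
    have hiff : (∃ n, (h i).1 n = z.1 n) ↔ ¬ Avoids (h i).1 t.1 := by
      rw [avoids_iff]
      push Not
      constructor
      · rintro ⟨n, hn⟩
        by_cases hnt : n < lev t
        · exact ⟨n, hnt, by rw [← hz1 n hnt, hn]⟩
        · exact absurd hn.symm (hz2 (h i) (Finset.mem_image_of_mem h hi) n (not_lt.1 hnt))
      · rintro ⟨n, hn, hn'⟩
        exact ⟨n, by rw [hz1 n hn, hn']⟩
    have h1 := dcd_hit hD I h hi z
    have h2 := dcd_Wv hD I h hi t
    have h3 : (tv (∃ n, (h i).1 n = z.1 n) : B) = (tv (Avoids (h i).1 t.1))ᶜ := by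
      rw [← tv_not]
      exact tv_congr hiff
    rw [h3] at h1
    show dcd D I h ≤ ((hit D i z)ᶜ ⇔ Wv D i t)
    refine le_bihimp' ?_ ?_
    · -- from not hit to W
      refine le_contra ?_
      have h4 : dcd D I h ⊓ (hit D i z)ᶜ ⊓ (Wv D i t)ᶜ ≤ (tv (Avoids (h i).1 t.1))ᶜ := by
        rw [le_compl_iff_disjoint_right, disjoint_iff_inf_le]
        calc dcd D I h ⊓ (hit D i z)ᶜ ⊓ (Wv D i t)ᶜ ⊓ tv (Avoids (h i).1 t.1)
            ≤ ((Wv D i t ⇔ tv (Avoids (h i).1 t.1)) ⊓ tv (Avoids (h i).1 t.1)) ⊓ (Wv D i t)ᶜ :=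
              le_inf (le_inf ((inf_le_left.trans (inf_le_left.trans inf_le_left)).trans h2)
                inf_le_right) (inf_le_left.trans inf_le_right)
          _ ≤ Wv D i t ⊓ (Wv D i t)ᶜ := inf_le_inf_right _ bihimp_inf_le'
          _ ≤ ⊥ := by rw [inf_compl_self]
      calc dcd D I h ⊓ (hit D i z)ᶜ ⊓ (Wv D i t)ᶜ
          ≤ ((hit D i z ⇔ (tv (Avoids (h i).1 t.1))ᶜ) ⊓ (tv (Avoids (h i).1 t.1))ᶜ) ⊓
              (hit D i z)ᶜ :=
            le_inf (le_inf ((inf_le_left.trans inf_le_left).trans h1) h4)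
              (inf_le_left.trans inf_le_right)
        _ ≤ hit D i z ⊓ (hit D i z)ᶜ := inf_le_inf_right _ bihimp_inf_le'
        _ ≤ ⊥ := by rw [inf_compl_self]
    · rw [le_compl_iff_disjoint_right, disjoint_iff_inf_le]
      calc dcd D I h ⊓ Wv D i t ⊓ hit D i z
          ≤ ((Wv D i t ⇔ tv (Avoids (h i).1 t.1)) ⊓ Wv D i t) ⊓
              ((hit D i z ⇔ (tv (Avoids (h i).1 t.1))ᶜ) ⊓ hit D i z) :=
            le_inf (le_inf ((inf_le_left.trans inf_le_left).trans h2)
              (inf_le_left.trans inf_le_right))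
              (le_inf ((inf_le_left.trans inf_le_left).trans h1) inf_le_right)
        _ ≤ tv (Avoids (h i).1 t.1) ⊓ (tv (Avoids (h i).1 t.1))ᶜ :=
            inf_le_inf bihimp_inf_le bihimp_inf_le
        _ ≤ ⊥ := by rw [inf_compl_self]
  · have hs : Sum.inl s ∈ J := Finset.mem_preimage.2 ho
    have hl : lev s ≤ J.sup lv := Finset.le_sup (f := lv) hs
    have hiff : (∃ n, s = nd z n) ↔ s.1 <:+ t.1 := by
      rw [suffix_iff z (lev t) s (by omega), hzt]
    show dcd D I h ≤ ((tv (∃ n, s = nd z n) : B) ⇔ tv (s.1 <:+ t.1))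
    rw [tv_congr hiff, bihimp_self]
    exact le_top
  · have hs : Sum.inr s ∈ J := Finset.mem_preimage.2 ho
    have hl : lev s ≤ J.sup lv := Finset.le_sup (f := lv) hs
    have hne : ¬ t = s := by
      rintro rfl
      omega
    show dcd D I h ≤ ((⊥ : B) ⇔ tv (t = s))
    rw [tv_neg hne, bihimp_self]
    exact le_top

end Pool.Agent.Lib.MP_9ea9ae_an.V.NL
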