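import Pool.Agent.Lib.MP_9ea9ae_an.V.Base

/-!
# P1: the conditions form a countably closed preorder
-/

namespace Pool.Agent.Lib.MP_9ea9ae_an.V.P1

open Pool.Agent.Lib.MP_9ea9ae_an Pool.Agent.Lib.MP_9ea9ae_an.V

theorem le_refl' {Ω : Type} (p : Cnd Ω) : Cnd.Le p p :=
  ⟨subset_rfl, fun _ _ => rfl, subset_rfl, fun _ hi hi' => absurd hi hi'⟩

theorem le_trans' {Ω : Type} (p q r : Cnd Ω) (h : Cnd.Le p q) (k : Cnd.Le q r) : Cnd.Le p r := by
  obtain ⟨h1, h2, h3, h4⟩ := h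
  obtain ⟨k1, k2, k3, k4⟩ := k
  refine ⟨k1.trans h1, fun i hi => (h2 i (k1 hi)).trans (k2 i hi), k3.trans h3,
    fun i hi hir z hz => ?_⟩
  by_cases hq : i ∈ q.dom
  · obtain ⟨n, hn⟩ := k4 i hq hir z hz
    exact ⟨n, by rw [h2 i hq]; exact hn⟩
  · exact h4 i hi hq z (k3 hz)

open Classical in
theorem closed {Ω : Type} (p : ℕ → Cnd Ω) (hp : ∀ n, Cnd.Le (p (n + 1)) (p n)) :
    ∃ q, ∀ n, Cnd.Le q (p n) := by
  have mono : ∀ m k, Cnd.Le (p (m + k)) (p m) := by
    intro m k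
    induction k with
    | zero => exact le_refl' _
    | succ k ih => exact le_trans' _ _ _ (hp (m + k)) ih
  have mono' : ∀ m n, m ≤ n → Cnd.Le (p n) (p m) := by
    intro m n h
    obtain ⟨k, rfl⟩ := Nat.exists_eq_add_of_le h
    exact mono m k
  let q : Cnd Ω := ⟨⋃ n, (p n).dom,
    fun i => if h : ∃ n, i ∈ (p n).dom then (p (Nat.find h)).val i else (p 0).val i,
    ⋃ n, (p n).prom, Set.countable_iUnion fun n => (p n).cdom,
    Set.countable_iUnion fun n => (p n).cprom⟩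
  have hval : ∀ n i, i ∈ (p n).dom → q.val i = (p n).val i := by
    intro n i hi
    have h : ∃ n, i ∈ (p n).dom := ⟨n, hi⟩
    have e : q.val i = (p (Nat.find h)).val i := dif_pos h
    rw [e]
    have h1 : i ∈ (p (Nat.find h)).dom := Nat.find_spec h
    exact ((mono' _ n (Nat.find_min' h hi)).2.1 i h1).symm
  refine ⟨q, fun n => ⟨Set.subset_iUnion (fun n => (p n).dom) n, fun i hi => hval n i hi,
    Set.subset_iUnion (fun n => (p n).prom) n, fun i hi hin z hz => ?_⟩⟩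
  obtain ⟨k, hk⟩ := Set.mem_iUnion.1 hi
  rcases le_total k n with hkn | hkn
  · exact absurd ((mono' k n hkn).1 hk) hin
  · rw [hval k i hk]
    exact (mono' n k hkn).2.2.2 i hk hin z hz

/-- P1. -/
theorem p1 : P1Statement := fun _ => ⟨le_refl', le_trans', closed⟩

end Pool.Agent.Lib.MP_9ea9ae_an.V.P1
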