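import Pool.Agent.Lib.MP_9ea9ae_an.V.Base

/-!
# P2: extensions of conditions
-/

namespace Pool.Agent.Lib.MP_9ea9ae_an.V.P2

open Pool.Agent.Lib.MP_9ea9ae_an Pool.Agent.Lib.MP_9ea9ae_an.V

/-- A letter different from `a`. -/
def oth (a : ℕ) : ℕ := if a = 0 then 1 else 0

theorem oth_ne (a : ℕ) : oth a ≠ a := by
  unfold oth
  split_ifs with h
  · omega
  · omega

theorem oth_lt (a n : ℕ) : oth a < 2 ^ (n + 1) := by
  have h : 2 ≤ 2 ^ (n + 1) := by
    calc 2 = 2 ^ 1 := rfl
      _ ≤ 2 ^ (n + 1) := Nat.pow_le_pow_right (by norm_num) (by omega)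
  unfold oth
  split_ifs <;> omega

theorem exists_enum {X : Type} [Nonempty X] {S : Set X} (hS : S.Countable) :
    ∃ f : ℕ → X, ∀ z ∈ S, ∃ n, f n = z := by
  obtain ⟨f, hf⟩ := Set.countable_iff_exists_subset_range.1 hS
  exact ⟨f, fun z hz => hf hz⟩

open Classical in
/-- P2. -/
theorem p2 : P2Statement := by
  intro Ω
  refine ⟨fun p i => ?_, fun p z => ?_, fun p i hi => ?_⟩
  · by_cases hi : i ∈ p.dom
    · exact ⟨p, ⟨subset_rfl, fun _ _ => rfl, subset_rfl, fun _ h h' => absurd h h'⟩, hi⟩
    · obtain ⟨z, hz⟩ := exists_enum p.cprom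
      let d : Br := ⟨fun n => (z n).1 n, fun n => (z n).2 n⟩
      refine ⟨⟨insert i p.dom, Function.update p.val i d, p.prom, p.cdom.insert i, p.cprom⟩,
        ⟨Set.subset_insert _ _, fun l hl => ?_, subset_rfl, fun l hl hlp z' hz' => ?_⟩,
        Set.mem_insert _ _⟩
      · have hli : l ≠ i := fun h => hi (h ▸ hl)
        exact Function.update_of_ne hli _ _
      · have hli : l = i := (Set.mem_insert_iff.1 hl).resolve_right hlp
        subst hli
        obtain ⟨n, hn⟩ := hz z' hz'
        refine ⟨n, ?_⟩
        have e : (Function.update p.val l d) l = d := Function.update_self _ _ _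
        change ((Function.update p.val l d) l).1 n = z'.1 n
        rw [e, ← hn]
  · exact ⟨⟨p.dom, p.val, insert z p.prom, p.cdom, p.cprom.insert z⟩,
      ⟨subset_rfl, fun _ _ => rfl, Set.subset_insert _ _, fun _ h h' => absurd h h'⟩,
      Set.mem_insert _ _, rfl⟩
  · have : Nonempty Ω := ⟨i⟩
    obtain ⟨z, hz⟩ := exists_enum p.cprom
    obtain ⟨l, hl⟩ := exists_enum p.cdom
    let d : Br := ⟨fun n => if n % 2 = 0 then oth ((p.val (l (n / 2))).1 n) else (z (n / 2)).1 n,
      fun n => by
        dsimp only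
        split_ifs
        · exact oth_lt _ _
        · exact (z (n / 2)).2 n⟩
    let y : Br := ⟨fun n => if n % 2 = 0 then (p.val (l (n / 2))).1 n else oth ((z (n / 2)).1 n),
      fun n => by
        dsimp only
        split_ifs
        · exact (p.val (l (n / 2))).2 n
        · exact oth_lt _ _⟩
    refine ⟨⟨insert i p.dom, Function.update p.val i d, insert y p.prom, p.cdom.insert i,
      p.cprom.insert y⟩, y, ⟨Set.subset_insert _ _, fun j hj => ?_, Set.subset_insert _ _,
      fun j hj hjp z' hz' => ?_⟩, Set.mem_insert _ _, Set.mem_insert _ _, fun n => ?_,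
      fun j hj hji => ?_⟩
    · have hji : j ≠ i := fun h => hi (h ▸ hj)
      exact Function.update_of_ne hji _ _
    · have hji : j = i := (Set.mem_insert_iff.1 hj).resolve_right hjp
      subst hji
      obtain ⟨k, hk⟩ := hz z' hz'
      refine ⟨2 * k + 1, ?_⟩
      have e : (Function.update p.val j d) j = d := Function.update_self _ _ _
      change ((Function.update p.val j d) j).1 (2 * k + 1) = z'.1 (2 * k + 1)
      rw [e, ← hk]
      have h1 : ¬ (2 * k + 1) % 2 = 0 := by omega
      have h2 : (2 * k + 1) / 2 = k := by omega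
      change (if (2 * k + 1) % 2 = 0 then _ else (z ((2 * k + 1) / 2)).1 (2 * k + 1)) = _
      rw [if_neg h1, h2]
    · have e : (Function.update p.val i d) i = d := Function.update_self _ _ _
      change ((Function.update p.val i d) i).1 n ≠ y.1 n
      rw [e]
      change (if n % 2 = 0 then oth ((p.val (l (n / 2))).1 n) else (z (n / 2)).1 n) ≠
        (if n % 2 = 0 then (p.val (l (n / 2))).1 n else oth ((z (n / 2)).1 n))
      split_ifs
      · exact oth_ne _
      · exact (oth_ne _).symm
    · have hjp : j ∈ p.dom := (Set.mem_insert_iff.1 hj).resolve_left hji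
      obtain ⟨k, hk⟩ := hl j hjp
      refine ⟨2 * k, ?_⟩
      have e : (Function.update p.val i d) j = p.val j := Function.update_of_ne hji _ _
      change ((Function.update p.val i d) j).1 (2 * k) =
        (if (2 * k) % 2 = 0 then (p.val (l ((2 * k) / 2))).1 (2 * k) else _)
      have h1 : (2 * k) % 2 = 0 := by omega
      have h2 : (2 * k) / 2 = k := by omega
      rw [e, if_pos h1, h2, hk]

end Pool.Agent.Lib.MP_9ea9ae_an.V.P2
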