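import Pool.Agent.Lib.MP_9ea9ae_an.V.Base

/-!
# P3: countably closed preorders have countably distributive regular open algebras
-/

namespace Pool.Agent.Lib.MP_9ea9ae_an.V

open Pool.Agent.Lib.MP_6b029b_lc.H57 (Dns)

theorem p3 : P3Statement := by
  intro P B _ _ d hd hcl Y a
  refine hd.le_of_fo fun p hp => ?_
  rw [hd.fo_iSup]
  intro q hq
  -- one step
  have step : ∀ (n : ℕ) (r : {r : P // r ≤ q}), ∃ r' : {r : P // r ≤ q}, r'.1 ≤ r.1 ∧
      ∃ y, d r'.1 ≤ a n y := by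
    intro n r
    have h1 : d r.1 ≤ ⨆ y, a n y :=
      (hd.mono (r.2.trans hq)).trans (hp.trans (iInf_le _ n))
    obtain ⟨r', hr', y, hy⟩ := (hd.fo_iSup r.1 _).1 h1 r.1 le_rfl
    exact ⟨⟨r', hr'.trans r.2⟩, hr', y, hy⟩
  choose f hf y hy using step
  let s : ℕ → {r : P // r ≤ q} := fun n => Nat.rec ⟨q, le_rfl⟩ (fun n r => f n r) n
  have hs : ∀ n, s (n + 1) = f n (s n) := fun n => rfl
  obtain ⟨r, hr⟩ := hcl (fun n => (s n).1) fun n => by
    rw [hs]
    exact hf n (s n)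
  refine ⟨r, hr 0, fun n => y n (s n), ?_⟩
  refine le_iInf fun n => ?_
  exact (hd.mono (hr (n + 1))).trans (by rw [hs]; exact hy n (s n))

end Pool.Agent.Lib.MP_9ea9ae_an.V
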