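import Pool.Agent.Lib.MP_9ea9ae_an.V.Base

/-!
# P4: the generic functions
-/

namespace Pool.Agent.Lib.MP_9ea9ae_an.V

open Pool.Agent.Lib.MP_6b029b_lc.H57 (Dns)

namespace P4

variable {Ω B : Type} [CompleteBooleanAlgebra B]

/-- the generic functions -/
def DD (d : Cnd Ω → B) (i : Ω) (δ : Br) : B :=
  ⨆ q : {q : Cnd Ω // i ∈ q.dom ∧ q.val i = δ}, d q.1

theorem le_DD (d : Cnd Ω → B) {p : Cnd Ω} {i : Ω} (hi : i ∈ p.dom) :
    d p ≤ DD d i (p.val i) :=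
  le_iSup (fun q : {q : Cnd Ω // i ∈ q.dom ∧ q.val i = p.val i} => d q.1) ⟨p, hi, rfl⟩

theorem inf_DD [inst : Preorder (Cnd Ω)] {d : Cnd Ω → B}
    (hle : ∀ p q : Cnd Ω, p ≤ q ↔ Cnd.Le p q) (hd : Dns d) {p : Cnd Ω} {i : Ω}
    (hi : i ∈ p.dom) {δ : Br} (hδ : p.val i ≠ δ) : d p ⊓ DD d i δ = ⊥ := by
  by_contra hne
  obtain ⟨q, hq, hqd⟩ := hd.exists_ext hne
  obtain ⟨r, hr, q', hrq⟩ := (hd.fo_iSup q _).1 hqd q le_rfl
  obtain ⟨r', hr1, hr2⟩ := hd.comp hrq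
  have h1 := (hle _ _).1 (hr1.trans (hr.trans hq))
  have h2 := (hle _ _).1 hr2
  exact hδ ((h1.2.1 i hi).symm.trans ((h2.2.1 i q'.2.1).trans q'.2.2))

theorem le_hit_of_mem (d : Cnd Ω → B) {p : Cnd Ω} {i : Ω} (hi : i ∈ p.dom) {z : Br}
    (hz : ∃ n, (p.val i).1 n = z.1 n) : d p ≤ hit (DD d) i z :=
  (le_DD d hi).trans (le_iSup (fun δ : {δ : Br // ∃ n, δ.1 n = z.1 n} => DD d i δ.1)
    ⟨p.val i, hz⟩)

theorem le_hit_of_prom (h2 : P2Statement) [inst : Preorder (Cnd Ω)] {d : Cnd Ω → B}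
    (hle : ∀ p q : Cnd Ω, p ≤ q ↔ Cnd.Le p q) (hd : Dns d) {p : Cnd Ω} {i : Ω}
    (hi : i ∉ p.dom) {z : Br} (hz : z ∈ p.prom) : d p ≤ hit (DD d) i z := by
  rw [hd.fo_dense]
  intro q hq
  obtain ⟨r, hr, hir⟩ := (h2 Ω).1 q i
  have hr' := (hle _ _).2 hr
  refine ⟨r, hr', le_hit_of_mem d hir ?_⟩
  exact ((hle _ _).1 (hr'.trans hq)).2.2.2 i hir hi z hz

theorem not_hit [inst : Preorder (Cnd Ω)] {d : Cnd Ω → B}
    (hle : ∀ p q : Cnd Ω, p ≤ q ↔ Cnd.Le p q) (hd : Dns d) {p : Cnd Ω} {i : Ω}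
    (hi : i ∈ p.dom) {z : Br} (hz : ∀ n, (p.val i).1 n ≠ z.1 n) :
    d p ≤ (hit (DD d) i z)ᶜ := by
  rw [le_compl_iff_disjoint_right, disjoint_iff]
  unfold hit
  rw [inf_iSup_eq, iSup_eq_bot]
  rintro ⟨δ, n, hn⟩
  refine inf_DD hle hd hi ?_
  rintro rfl
  exact hz n hn

end P4

open P4 in
theorem p4 (_h1 : P1Statement) (h2 : P2Statement) : P4Statement := by
  intro Ω B _ _ inst d hle hd
  have hle' : ∀ p q : Cnd Ω, p ≤ q ↔ Cnd.Le p q := hle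
  refine ⟨DD d, ?_, ?_, ?_, ?_⟩
  · intro i
    refine hd.eq_top fun p => ?_
    obtain ⟨q, hq, hi⟩ := (h2 Ω).1 p i
    exact ⟨q, (hle' _ _).2 hq, (le_DD d hi).trans (le_iSup (fun δ => DD d i δ) _)⟩
  · intro i δ δ' hne
    unfold DD
    rw [iSup_inf_eq, iSup_eq_bot]
    rintro ⟨q, hi, rfl⟩
    exact inf_DD hle' hd hi hne
  · intro z
    refine hd.eq_top fun p => ?_
    obtain ⟨q, hq, hz, hdom⟩ := (h2 Ω).2.1 p z
    refine ⟨q, (hle' _ _).2 hq, le_trans ?_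
      (le_iSup (fun C : {C : Set Ω // C.Countable} => ⨅ i : {i // i ∉ C.1}, hit (DD d) i.1 z)
        ⟨q.dom, q.cdom⟩)⟩
    exact le_iInf fun i => le_hit_of_prom h2 hle' hd i.2 hz
  · intro C hC
    refine hd.eq_top fun p => ?_
    obtain ⟨i, hi⟩ : ∃ i, i ∉ C ∪ p.dom := by
      by_contra hcon
      push Not at hcon
      refine Set.not_countable_univ (α := Ω) ((hC.union p.cdom).mono fun x _ => hcon x)
    obtain ⟨q, y, hq, hiq, hy, hne, hag⟩ := (h2 Ω).2.2 p i fun h => hi (Or.inr h)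
    refine ⟨q, (hle' _ _).2 hq, le_trans ?_
      (le_iSup (fun i : {i // i ∉ C} => ⨆ y : Br, (hit (DD d) i.1 y)ᶜ ⊓
        ⨅ l : {l // l ≠ i.1}, hit (DD d) l.1 y) ⟨i, fun h => hi (Or.inl h)⟩)⟩
    refine le_trans ?_ (le_iSup (fun y : Br => (hit (DD d) i y)ᶜ ⊓
        ⨅ l : {l // l ≠ i}, hit (DD d) l.1 y) y)
    refine le_inf (not_hit hle' hd hiq hne) (le_iInf fun l => ?_)
    by_cases hl : l.1 ∈ q.dom
    · exact le_hit_of_mem d hl (hag l.1 hl l.2)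
    · exact le_hit_of_prom h2 hle' hd hl hy

end Pool.Agent.Lib.MP_9ea9ae_an.V
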