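import Pool.Agent.Lib.MP_9ea9ae_an.V.Base

/-!
# P5: the algebra
-/

namespace Pool.Agent.Lib.MP_9ea9ae_an.V

open Pool.Agent.Lib.MP_6b029b_lc.H57 (Dns dns_pr)
open Pool.Agent.Lib.MP_c5d73d_lc.F

theorem p5 (h1 : P1Statement) (h3 : P3Statement) (h4 : P4Statement) : P5Statement := by
  obtain ⟨hrefl, htrans, hcl⟩ := h1 ℝ
  let inst : Preorder (Cnd ℝ) :=
    { le := Cnd.Le
      le_refl := hrefl
      le_trans := htrans }
  have hd := dns_pr (Cnd ℝ)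
  obtain ⟨D, hD⟩ := h4 ℝ _ inst _ (fun _ _ => Iff.rfl) hd
  refine ⟨_, ℝ, inferInstance, D, ?_, h3 _ _ _ hd hcl, hD⟩
  intro h
  let p : Cnd ℝ := ⟨∅, fun _ => ⟨fun _ => 0, fun _ => by positivity⟩, ∅,
    Set.countable_empty, Set.countable_empty⟩
  refine hd.ne_bot p (le_bot_iff.1 ?_)
  rw [h]
  exact le_top

end Pool.Agent.Lib.MP_9ea9ae_an.V
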