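import Pool.Agent.Lib.MP_9ea9ae_an.V.Base

/-!
# QG: the values at the nodes of a continuous function form a nice function
-/

open scoped symmDiff

namespace Pool.Agent.Lib.MP_9ea9ae_an.V

open Pool.Agent.Lib.MP_9ea9ae_an

theorem qg (hUC : UCStatement) (hCLK : CLKStatement) : QGStatement := by
  classical
  intro B Ω _ D hD u hu g
  obtain ⟨hclo, hnode, -⟩ := hCLK B Ω D
  refine le_tv_of fun hN => ?_
  unfold Nice at hN
  push Not at hN
  obtain ⟨ε, hε, hN⟩ := hN
  refine le_iSup_cases' (inf_le_left.trans (hUC B Ω (clK D) hclo u hu ε hε)) fun F => ?_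
  have hi1 : Function.Injective (fun i : Ω => (Sum.inl i : Om Ω)) := fun a b h => Sum.inl.inj h
  have hi2 : Function.Injective (fun t : T => (Sum.inr (Sum.inl t) : Om Ω)) :=
    fun a b h => Sum.inl.inj (Sum.inr.inj h)
  have hi3 : Function.Injective (fun t : T => (Sum.inr (Sum.inr t) : Om Ω)) :=
    fun a b h => Sum.inr.inj (Sum.inr.inj h)
  let F1 : Finset Ω := F.preimage (fun i : Ω => (Sum.inl i : Om Ω)) hi1.injOn
  let F2 : Finset T := F.preimage (fun t : T => (Sum.inr (Sum.inl t) : Om Ω)) hi2.injOn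
  let F3 : Finset T := F.preimage (fun t : T => (Sum.inr (Sum.inr t) : Om Ω)) hi3.injOn
  refine le_iSup_cases (iSup_dcd hD F1) fun h => ?_
  obtain ⟨s, s', hE, hF, hgt⟩ := hN (F1.image h) (F2 ∪ F3)
  have hagree : dcd D F1 h ≤ agree F (wB D s) (wB D s') := by
    refine le_agree fun o ho => ?_
    rcases o with i | t | t
    · have hi : i ∈ F1 := Finset.mem_preimage.2 ho
      have h1 := dcd_Wv hD F1 h hi s
      have h2 := dcd_Wv hD F1 h hi s'
      have h3 : (tv (Avoids (h i).1 s.1) : B) = tv (Avoids (h i).1 s'.1) :=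
        tv_congr (hE (h i) (Finset.mem_image_of_mem h hi))
      refine (le_inf h1 h2).trans ?_
      rw [h3, bihimp_comm (Wv D i s')]
      exact bihimp_trans
    · have ht : t ∈ F2 ∪ F3 := Finset.mem_union_left _ (Finset.mem_preimage.2 ho)
      have h3 : (wB D s (Sum.inr (Sum.inl t)) : B) = wB D s' (Sum.inr (Sum.inl t)) :=
        tv_congr (hF t ht).1
      rw [h3]
      simp
    · have ht : t ∈ F2 ∪ F3 := Finset.mem_union_right _ (Finset.mem_preimage.2 ho)
      have h3 : (wB D s (Sum.inr (Sum.inr t)) : B) = wB D s' (Sum.inr (Sum.inr t)) :=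
        tv_congr (hF t ht).2
      rw [h3]
      simp
  have hg : gr D u g ≤ u (wB D s) (g s) := iInf_le _ s
  have hg' : gr D u g ≤ u (wB D s') (g s') := iInf_le _ s'
  have hlt : ¬ |g s - g s'| < ε := not_lt.2 hgt.le
  have key := uc_le (c := clK D) (u := u) F ε (wB D s) (wB D s') (g s) (g s')
  rw [hnode, hnode, tv_neg hlt] at key
  refine le_trans ?_ key
  refine le_inf (inf_le_left.trans inf_le_right) (le_inf (le_inf (le_inf ?_ ?_) ?_) ?_)
  · simp
  · exact inf_le_right.trans hagree
  · exact inf_le_left.trans (inf_le_left.trans (inf_le_right.trans hg))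
  · exact inf_le_left.trans (inf_le_left.trans (inf_le_right.trans hg'))

end Pool.Agent.Lib.MP_9ea9ae_an.V
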