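import Pool.Agent.Lib.MP_9ea9ae_an.V.Base

/-!
# RP: identity elements, positive numbers, `near`, `absb` for the names of the real numbers
-/

set_option autoImplicit false

open scoped symmDiff

namespace Pool.Agent.Lib.MP_9ea9ae_an.V

open Pool.Agent.Lib.MP_9ea9ae_an
open Pool.Agent.Lib.MP_100a6c_lc Pool.Agent.Lib.MP_c5d73d_lc.F BName
open Pool.Agent.Lib.MP_6d445e_gt (op isTopo isHaus isFin fsub)

namespace RP

variable {B : Type} [CompleteBooleanAlgebra B]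

theorem iSup_beq_tv {X : Type} (e : BName B) (p : X → Prop) (x : X)
    (hHT : ∀ x y : X, beq (hat x) (hat y : BName B) = tv (x = y)) :
    (⨆ y : X, tv (p y) ⊓ beq (hat x : BName B) (hat y)) = tv (p x) := by
  refine le_antisymm (iSup_le fun y => ?_) (le_trans ?_ (le_iSup _ x))
  · rw [hHT, tv_inf_le_iff]
    intro hy
    rw [tv_le_iff]
    rintro rfl
    exact tv_pos hy
  · rw [beq_refl, inf_top_eq]

/-- `x < s` from `p = s`, `x ≤ p`, `x ≠ p`. -/
theorem lt_le (hRO : ROStatement) (hHT : HTStatement) (x s : ℝ) (p : BName B) {Γ : B}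
    (h1 : Γ ≤ beq p (hat s)) (h2 : Γ ≤ (VB B).rel (rO B) (hat x) p)
    (h3 : Γ ≤ (beq (hat x) p)ᶜ) : Γ ≤ tv (x < s) := by
  have h2' : Γ ≤ (VB B).rel (rO B) (hat x) (hat s) := (ext_rel_trd (rO B) (hat x)).of_le h1 h2
  have h3' : Γ ≤ (beq (hat x) (hat s))ᶜ := ((ext_eq_right (hat x)).compl).of_le h1 h3
  rw [(hRO B).2.2.2.2.2] at h2'
  rw [(hHT B ℝ).1, ← tv_not] at h3'
  refine (le_inf h2' h3').trans ?_
  rw [← tv_and]
  exact tv_mono fun h => lt_of_le_of_ne h.1 h.2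

theorem isId_A (hRO : ROStatement) (hHT : HTStatement) (z : BName B) :
    isId (VB B) (Xn B ℝ) (rA B) z = beq z (hat (0 : ℝ)) := by
  refine le_antisymm ?_ (le_inf ?_ (le_iInf fun x => ?_))
  · have h1 : isId (VB B) (Xn B ℝ) (rA B) z ≤ op (VB B) (rA B) (hat (0 : ℝ)) z (hat (0 : ℝ)) := by
      refine iInf_himp_apply (Γ := isId (VB B) (Xn B ℝ) (rA B) z) inf_le_right (hat (0 : ℝ))
        le_rfl ?_
      rw [VB_mem, (hHT B ℝ).2.2]
      exact le_top
    refine h1.trans ?_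
    rw [(hRO B).1]
    refine iSup_le fun x => iSup_le fun y => ?_
    rw [(hHT B ℝ).1, (hHT B ℝ).1, inf_tv_le_iff]
    intro hxy
    rw [tv_inf_le_iff]
    intro hx
    have : y = 0 := by subst hx; simpa using hxy.symm
    rw [this]
  · rw [VB_mem, (hHT B ℝ).2.1]
    exact le_iSup (fun x : ℝ => beq z (hat x)) 0
  · rw [le_himp_iff, VB_mem, (hHT B ℝ).2.1, (hRO B).1, inf_iSup_eq]
    refine iSup_le fun r => le_trans ?_ (le_iSup _ r)
    refine le_trans ?_ (le_iSup _ (0 : ℝ))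
    rw [add_zero]
    exact le_inf (le_inf inf_le_right inf_le_left) inf_le_right

theorem isId_M (hRO : ROStatement) (hHT : HTStatement) (z : BName B) :
    isId (VB B) (Xn B ℝ) (rM B) z = beq z (hat (1 : ℝ)) := by
  refine le_antisymm ?_ (le_inf ?_ (le_iInf fun x => ?_))
  · have h1 : isId (VB B) (Xn B ℝ) (rM B) z ≤ op (VB B) (rM B) (hat (1 : ℝ)) z (hat (1 : ℝ)) := by
      refine iInf_himp_apply (Γ := isId (VB B) (Xn B ℝ) (rM B) z) inf_le_right (hat (1 : ℝ))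
        le_rfl ?_
      rw [VB_mem, (hHT B ℝ).2.2]
      exact le_top
    refine h1.trans ?_
    rw [(hRO B).2.1]
    refine iSup_le fun x => iSup_le fun y => ?_
    rw [(hHT B ℝ).1, (hHT B ℝ).1, inf_tv_le_iff]
    intro hxy
    rw [tv_inf_le_iff]
    intro hx
    have : y = 1 := by subst hx; simpa using hxy.symm
    rw [this]
  · rw [VB_mem, (hHT B ℝ).2.1]
    exact le_iSup (fun x : ℝ => beq z (hat x)) 1
  · rw [le_himp_iff, VB_mem, (hHT B ℝ).2.1, (hRO B).2.1, inf_iSup_eq]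
    refine iSup_le fun r => le_trans ?_ (le_iSup _ r)
    refine le_trans ?_ (le_iSup _ (1 : ℝ))
    rw [mul_one]
    exact le_inf (le_inf inf_le_right inf_le_left) inf_le_right

theorem pos_eq (hRO : ROStatement) (hHT : HTStatement) (e : BName B) :
    pos (VB B) (Xn B ℝ) (rA B) (rO B) e = ⨆ x : ℝ, tv (0 < x) ⊓ beq e (hat x) := by
  refine le_antisymm ?_ (iSup_le fun x => ?_)
  · have h0 : pos (VB B) (Xn B ℝ) (rA B) (rO B) e ≤ ⨆ r : ℝ, beq e (hat r) := by
      rw [← (hHT B ℝ).2.1]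
      exact inf_le_left
    refine le_iSup_cases' h0 fun r => ?_
    have h1 : pos (VB B) (Xn B ℝ) (rA B) (rO B) e ⊓ beq e (hat r) ≤
        ⨆ z, isId (VB B) (Xn B ℝ) (rA B) z ⊓ (VB B).rel (rO B) z e ⊓ ((VB B).eq z e)ᶜ :=
      inf_le_left.trans inf_le_right
    refine le_iSup_cases' h1 fun z => le_trans ?_ (le_iSup _ r)
    obtain ⟨Γ, hΓ⟩ : ∃ Γ, Γ = pos (VB B) (Xn B ℝ) (rA B) (rO B) e ⊓ beq e (hat r) ⊓
        (isId (VB B) (Xn B ℝ) (rA B) z ⊓ (VB B).rel (rO B) z e ⊓ ((VB B).eq z e)ᶜ) := ⟨_, rfl⟩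
    rw [← hΓ]
    have g1 : Γ ≤ beq e (hat r) := by rw [hΓ]; exact inf_le_left.trans inf_le_right
    have g2 : Γ ≤ beq z (hat (0 : ℝ)) := by
      rw [hΓ, ← isId_A hRO hHT]; exact inf_le_right.trans (inf_le_left.trans inf_le_left)
    have g3 : Γ ≤ (VB B).rel (rO B) z e := by
      rw [hΓ]; exact inf_le_right.trans (inf_le_left.trans inf_le_right)
    have g4 : Γ ≤ (beq z e)ᶜ := by
      rw [hΓ]; exact inf_le_right.trans inf_le_right
    have g5 : Γ ≤ (VB B).rel (rO B) (hat (0 : ℝ)) e := (ext_rel_snd (rO B) e).of_le g2 g3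
    have g6 : Γ ≤ (beq (hat (0 : ℝ)) e)ᶜ := ((ext_eq_left e).compl).of_le g2 g4
    exact le_inf (lt_le hRO hHT 0 r e g1 g5 g6) g1
  · rw [tv_inf_le_iff]
    intro hx
    refine le_inf ?_ (le_trans ?_ (le_iSup _ (hat (0 : ℝ))))
    · rw [VB_mem, (hHT B ℝ).2.1]
      exact le_iSup (fun x : ℝ => beq e (hat x)) x
    · refine le_inf (le_inf ?_ ?_) ?_
      · rw [isId_A hRO hHT, beq_refl]; exact le_top
      · refine (ext_rel_trd (rO B) (hat (0 : ℝ))).of_le' (x := hat x) le_rfl ?_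
        rw [(hRO B).2.2.2.2.2, tv_pos hx.le]; exact le_top
      · refine ((ext_eq_right (hat (0 : ℝ))).compl).of_le' (x := hat x) le_rfl ?_
        rw [(hHT B ℝ).1, tv_neg hx.ne, compl_bot]; exact le_top

theorem near_eq (hRO : ROStatement) (hHT : HTStatement) (x y e : ℝ) :
    near (VB B) (rA B) (rO B) (hat x) (hat y) (hat e) = tv (|x - y| < e) := by
  refine le_antisymm (iSup_le fun p => iSup_le fun q => ?_) ?_
  · rw [(hRO B).2.2.1, (hRO B).2.2.1]
    obtain ⟨Γ, hΓ⟩ : ∃ Γ, Γ = beq p (hat (y + e)) ⊓ beq q (hat (x + e)) ⊓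
        (VB B).rel (rO B) (hat x) p ⊓ ((VB B).eq (hat x) p)ᶜ ⊓ (VB B).rel (rO B) (hat y) q ⊓
        ((VB B).eq (hat y) q)ᶜ := ⟨_, rfl⟩
    rw [← hΓ]
    have g1 : Γ ≤ beq p (hat (y + e)) := by
      rw [hΓ]; exact inf_le_left.trans (inf_le_left.trans (inf_le_left.trans
        (inf_le_left.trans inf_le_left)))
    have g2 : Γ ≤ beq q (hat (x + e)) := by
      rw [hΓ]; exact inf_le_left.trans (inf_le_left.trans (inf_le_left.trans
        (inf_le_left.trans inf_le_right)))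
    have g3 : Γ ≤ (VB B).rel (rO B) (hat x) p := by
      rw [hΓ]; exact inf_le_left.trans (inf_le_left.trans (inf_le_left.trans inf_le_right))
    have g4 : Γ ≤ (beq (hat x) p)ᶜ := by
      rw [hΓ]; exact inf_le_left.trans (inf_le_left.trans inf_le_right)
    have g5 : Γ ≤ (VB B).rel (rO B) (hat y) q := by
      rw [hΓ]; exact inf_le_left.trans inf_le_right
    have g6 : Γ ≤ (beq (hat y) q)ᶜ := by rw [hΓ]; exact inf_le_right
    refine (le_inf (lt_le hRO hHT x (y + e) p g1 g3 g4) (lt_le hRO hHT y (x + e) q g2 g5 g6)).trans ?_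
    rw [← tv_and]
    refine tv_mono fun h => abs_sub_lt_iff.2 ⟨by linarith [h.1], by linarith [h.2]⟩
  · refine tv_le_iff.2 fun h => top_le_iff.1 ?_
    obtain ⟨h1, h2⟩ := abs_sub_lt_iff.1 h
    refine le_trans ?_ (le_iSup _ (hat (y + e)))
    refine le_trans ?_ (le_iSup _ (hat (x + e)))
    rw [(hRO B).2.2.1, (hRO B).2.2.1, beq_refl, beq_refl, (hRO B).2.2.2.2.2, (hRO B).2.2.2.2.2,
      VB_eq, VB_eq, (hHT B ℝ).1, (hHT B ℝ).1, tv_pos (by linarith : x ≤ y + e),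
      tv_pos (by linarith : y ≤ x + e), tv_neg (by intro hh; linarith : ¬ x = y + e),
      tv_neg (by intro hh; linarith : ¬ y = x + e), compl_bot]
    simp

theorem absb_eq (hRO : ROStatement) (hHT : HTStatement) (x e : ℝ) :
    absb (VB B) (Xn B ℝ) (rA B) (rO B) (hat x) (hat e) = tv (|x| ≤ e) := by
  have hA : absb (VB B) (Xn B ℝ) (rA B) (rO B) (hat x) (hat e)
      = tv (x ≤ e) ⊓ tv ((0 : ℝ) ≤ x + e) := by
    unfold absb
    rw [(hRO B).2.2.2.2.2]
    congr 1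
    refine le_antisymm (iSup_le fun z => iSup_le fun p => ?_) ?_
    · rw [isId_A hRO hHT, (hRO B).2.2.1, ← (hRO B).2.2.2.2.2]
      refine (ext_rel_trd (rO B) (hat (0 : ℝ))).of_le (x := p) (inf_le_left.trans inf_le_right) ?_
      refine (ext_rel_snd (rO B) p).of_le (x := z) (inf_le_left.trans inf_le_left) inf_le_right
    · refine le_trans ?_ (le_iSup _ (hat (0 : ℝ)))
      refine le_trans ?_ (le_iSup _ (hat (x + e)))
      rw [isId_A hRO hHT, (hRO B).2.2.1, beq_refl, beq_refl, (hRO B).2.2.2.2.2]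
      simp
  rw [hA, ← tv_and]
  refine tv_congr ?_
  rw [abs_le]
  constructor
  · intro h; exact ⟨by linarith [h.2], h.1⟩
  · intro h; exact ⟨h.2, by linarith [h.1]⟩

end RP

theorem rp (hRO : ROStatement) (hHT : HTStatement) : RPStatement := by
  intro B _
  refine ⟨RP.isId_A hRO hHT, RP.isId_M hRO hHT, RP.pos_eq hRO hHT, fun x => ?_,
    RP.near_eq hRO hHT, RP.absb_eq hRO hHT⟩
  rw [RP.pos_eq hRO hHT]
  exact RP.iSup_beq_tv (hat x) (fun y => (0 : ℝ) < y) x (hHT B ℝ).1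

end Pool.Agent.Lib.MP_9ea9ae_an.V
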