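import Pool.Agent.Lib.MP_9ea9ae_an.V.HT

/-!
# SB: names of points and of sets of points
-/

set_option autoImplicit false

open scoped symmDiff

namespace Pool.Agent.Lib.MP_9ea9ae_an.V

open Pool.Agent.Lib.MP_9ea9ae_an
open Pool.Agent.Lib.MP_100a6c_lc Pool.Agent.Lib.MP_c5d73d_lc.F BName

namespace SB

variable {B Ω : Type} [CompleteBooleanAlgebra B]

theorem mem_sb_gen (κ : Pt Ω B) (z : BName B) :
    bmem z (sb κ) = ⨆ o : Om Ω, κ o ⊓ beq z (hat o) := by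
  rw [sb, mem_mk]

theorem mem_sb (κ : Pt Ω B) (o : Om Ω) : bmem (hat o) (sb κ) = κ o := by
  rw [mem_sb_gen]
  refine le_antisymm (iSup_le fun i => ?_) (le_trans ?_ (le_iSup _ o))
  · rw [HT.hat_beq, inf_tv_le_iff]
    intro h
    rw [h]
  · rw [beq_refl, inf_top_eq]

theorem eqP_inf_mem_le (κ κ' : Pt Ω B) (z : BName B) :
    eqP κ κ' ⊓ bmem z (sb κ) ≤ bmem z (sb κ') := by
  rw [mem_sb_gen, mem_sb_gen, inf_iSup_eq]
  refine iSup_le fun o => le_trans ?_ (le_iSup _ o)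
  refine le_inf ?_ (inf_le_right.trans inf_le_right)
  exact (inf_le_inf_left _ inf_le_left).trans (eqP_inf_le κ κ' o)

theorem beq_sb (κ κ' : Pt Ω B) : beq (sb κ) (sb κ') = eqP κ κ' := by
  rw [beq_eq_iInf]
  refine le_antisymm (le_eqP fun o => ?_) (le_iInf fun z => le_bihimp' ?_ ?_)
  · refine (iInf_le _ (hat o)).trans ?_
    rw [mem_sb, mem_sb]
  · exact eqP_inf_mem_le κ κ' z
  · rw [eqP_comm]
    exact eqP_inf_mem_le κ' κ z

theorem mem_Cn (c : Pt Ω B → B) (z : BName B) : bmem z (Cn c) = ⨆ κ, c κ ⊓ beq z (sb κ) := by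
  rw [Cn, mem_mk]

end SB

theorem sb' : SBStatement := by
  intro B Ω _
  refine ⟨SB.mem_sb, SB.beq_sb, fun c κ hc => ?_, SB.mem_Cn⟩
  rw [SB.mem_Cn]
  refine le_antisymm (iSup_le fun κ' => ?_) (le_trans ?_ (le_iSup _ κ))
  · rw [SB.beq_sb, inf_comm, eqP_comm]
    exact hc κ' κ
  · rw [beq_refl, inf_top_eq]

end Pool.Agent.Lib.MP_9ea9ae_an.V
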