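import Pool.Agent.Lib.MP_9ea9ae_an.V.Base

/-!
# TA: the topology
-/

set_option autoImplicit false

open scoped symmDiff

namespace Pool.Agent.Lib.MP_9ea9ae_an.V

open Pool.Agent.Lib.MP_9ea9ae_an
open Pool.Agent.Lib.MP_100a6c_lc Pool.Agent.Lib.MP_c5d73d_lc.F BName
open Pool.Agent.Lib.MP_6d445e_gt (op isTopo isHaus isFin fsub)

namespace TA

variable {B Ω : Type} [CompleteBooleanAlgebra B]

theorem ext_opn (c : Pt Ω B → B) : Ext (fun A : BName B => opn c A) :=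
  Ext.iInf fun κ => (ext_mem_right (sb κ)).himp (Ext.iSup fun _ => Ext.iInf fun κ' =>
    (Ext.const _).himp (ext_mem_right (sb κ')))

theorem mem_tau (c : Pt Ω B → B) (A : BName B) :
    bmem A (tau c) = (VB B).sub A (Cn c) ⊓ opn c A := by
  rw [tau, mem_sepn ((ext_sub_left (Cn c)).inf (ext_opn c))]
  exact inf_eq_right.2 (inf_le_left.trans (H36.sub_le_mem_pow A (Cn c)))

theorem opn_apply (c : Pt Ω B → B) (A : BName B) (κ : Pt Ω B) {Γ : B} (h : Γ ≤ opn c A)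
    (h' : Γ ≤ bmem (sb κ) A) :
    Γ ≤ ⨆ F : Finset (Om Ω), ⨅ κ' : Pt Ω B, c κ' ⊓ agree F κ κ' ⇨ bmem (sb κ') A :=
  iInf_himp_apply h κ le_rfl h'

/-- The points of `c` with `κ1 o ⇔ a`. -/
def cut (c : Pt Ω B → B) (o : Om Ω) (a : B) (κ : Pt Ω B) : B := c κ ⊓ (κ o ⇔ a)

theorem cut_ext {c : Pt Ω B → B} (hc : ∀ κ κ', eqP κ κ' ⊓ c κ ≤ c κ') (o : Om Ω) (a : B) :
    ∀ κ κ', eqP κ κ' ⊓ cut c o a κ ≤ cut c o a κ' := by
  intro κ κ'
  refine le_inf ((inf_le_inf_left _ inf_le_left).trans (hc κ κ')) ?_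
  refine le_trans (le_inf ?_ (inf_le_right.trans inf_le_right)) (bihimp_trans (b := κ o))
  rw [bihimp_comm]
  exact inf_le_left.trans (eqP_le κ κ' o)

theorem isTopo_top (hS : SBStatement) (c : Pt Ω B → B)
    (hc : ∀ κ κ', eqP κ κ' ⊓ c κ ≤ c κ') : isTopo (VB B) (Cn c) (tau c) = ⊤ := by
  rw [eq_top_iff]
  have hmem := (hS B Ω).2.2.1 c
  refine le_inf (le_inf (le_inf ?_ ?_) ?_) ?_
  · refine le_iInf fun A => ?_
    rw [le_himp_iff, top_inf_eq, VB_mem, mem_tau]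
    exact inf_le_left
  · rw [VB_mem, mem_tau]
    refine le_inf ?_ (le_iInf fun κ => ?_)
    · refine le_iInf fun z => ?_
      rw [himp_self]
    · rw [le_himp_iff]
      refine le_iSup_of_le ∅ (le_iInf fun κ' => ?_)
      rw [le_himp_iff, hmem κ' hc]
      exact inf_le_right.trans inf_le_left
  · refine le_iInf fun A => le_iInf fun A' => le_iInf fun C => ?_
    rw [le_himp_iff, top_inf_eq, VB_mem, VB_mem, VB_mem, mem_tau, mem_tau, mem_tau]
    obtain ⟨Γ, hΓ⟩ : ∃ Γ, Γ = (VB B).sub A (Cn c) ⊓ opn c A ⊓ ((VB B).sub A' (Cn c) ⊓ opn c A') ⊓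
      isInter (VB B) C A A' := ⟨_, rfl⟩
    rw [← hΓ]
    have e1 : Γ ≤ (VB B).sub A (Cn c) := hΓ.le.trans (inf_le_left.trans (inf_le_left.trans inf_le_left))
    have e2 : Γ ≤ opn c A := hΓ.le.trans (inf_le_left.trans (inf_le_left.trans inf_le_right))
    have e3 : Γ ≤ opn c A' := hΓ.le.trans (inf_le_left.trans (inf_le_right.trans inf_le_right))
    have e4 : ∀ z, Γ ⊓ bmem z C = Γ ⊓ (bmem z A ⊓ bmem z A') := fun z => by
      have h1 : Γ ≤ (VB B).mem z C ⇔ ((VB B).mem z A ⊓ (VB B).mem z A') :=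
        hΓ.le.trans (inf_le_right.trans (iInf_le _ z))
      rw [le_bihimp_iff'] at h1
      exact h1
    have e5 : ∀ z {Δ : B}, Δ ≤ Γ → Δ ≤ bmem z C → Δ ≤ bmem z A ⊓ bmem z A' := fun z Δ h h' =>
      (le_inf h h').trans ((e4 z).le.trans inf_le_right)
    have e6 : ∀ z {Δ : B}, Δ ≤ Γ → Δ ≤ bmem z A → Δ ≤ bmem z A' → Δ ≤ bmem z C :=
      fun z Δ h h' h'' => (le_inf h (le_inf h' h'')).trans ((e4 z).ge.trans inf_le_right)
    refine le_inf (le_iInf fun z => ?_) (le_iInf fun κ => ?_)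
    · rw [le_himp_iff]
      exact sub_apply e1 z inf_le_left ((e5 z inf_le_left inf_le_right).trans inf_le_left)
    · rw [le_himp_iff]
      have h1 := e5 (sb κ) (Δ := Γ ⊓ bmem (sb κ) C) inf_le_left inf_le_right
      refine le_iSup_cases' (opn_apply c A κ (inf_le_left.trans e2) (h1.trans inf_le_left))
        fun F => ?_
      refine le_iSup_cases' (inf_le_left.trans (opn_apply c A' κ (inf_le_left.trans e3)
        (h1.trans inf_le_right))) fun F' => ?_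
      classical
      refine le_iSup_of_le (F ∪ F') (le_iInf fun κ' => ?_)
      rw [le_himp_iff]
      refine e6 (sb κ') (inf_le_left.trans (inf_le_left.trans (inf_le_left.trans inf_le_left)))
        ?_ ?_
      · refine iInf_himp_apply (Γ := ⨅ κ' : Pt Ω B, c κ' ⊓ agree F κ κ' ⇨ bmem (sb κ') A) le_rfl κ'
          (inf_le_left.trans (inf_le_left.trans inf_le_right)) ?_
        exact le_inf (inf_le_right.trans inf_le_left) (inf_le_right.trans (inf_le_right.trans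
          (agree_mono Finset.subset_union_left _ _)))
      · refine iInf_himp_apply (Γ := ⨅ κ' : Pt Ω B, c κ' ⊓ agree F' κ κ' ⇨ bmem (sb κ') A')
          le_rfl κ' (inf_le_left.trans inf_le_right) ?_
        exact le_inf (inf_le_right.trans inf_le_left) (inf_le_right.trans (inf_le_right.trans
          (agree_mono Finset.subset_union_right _ _)))
  · refine le_iInf fun D => le_iInf fun C => ?_
    rw [le_himp_iff, top_inf_eq, VB_mem, mem_tau]
    obtain ⟨Γ, hΓ⟩ : ∃ Γ, Γ = (VB B).sub D (tau c) ⊓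
      (⨅ z, (VB B).mem z C ⇔ ⨆ A, (VB B).mem A D ⊓ (VB B).mem z A) := ⟨_, rfl⟩
    rw [← hΓ]
    have e1 : Γ ≤ (VB B).sub D (tau c) := hΓ.le.trans inf_le_left
    have e4 : ∀ z, Γ ⊓ bmem z C = Γ ⊓ ⨆ A, bmem A D ⊓ bmem z A := fun z => by
      have h1 : Γ ≤ (VB B).mem z C ⇔ (⨆ A, (VB B).mem A D ⊓ (VB B).mem z A) :=
        hΓ.le.trans (inf_le_right.trans (iInf_le _ z))
      rw [le_bihimp_iff'] at h1
      exact h1
    have e5 : ∀ z {Δ : B}, Δ ≤ Γ → Δ ≤ bmem z C → Δ ≤ ⨆ A, bmem A D ⊓ bmem z A :=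
      fun z Δ h h' => (le_inf h h').trans ((e4 z).le.trans inf_le_right)
    have e6 : ∀ A z {Δ : B}, Δ ≤ Γ → Δ ≤ bmem A D → Δ ≤ bmem z A → Δ ≤ bmem z C :=
      fun A z Δ h h' h'' => (le_inf h (le_iSup_of_le A (le_inf h' h''))).trans
        ((e4 z).ge.trans inf_le_right)
    refine le_inf (le_iInf fun z => ?_) (le_iInf fun κ => ?_)
    · rw [le_himp_iff]
      refine le_iSup_cases' (e5 z (Δ := Γ ⊓ (VB B).mem z C) inf_le_left inf_le_right) fun A => ?_
      have h1 : Γ ⊓ (VB B).mem z C ⊓ (bmem A D ⊓ bmem z A) ≤ bmem A (tau c) :=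
        sub_apply e1 A (inf_le_left.trans inf_le_left) (inf_le_right.trans inf_le_left)
      rw [mem_tau] at h1
      exact sub_apply (h1.trans inf_le_left) z le_rfl (inf_le_right.trans inf_le_right)
    · rw [le_himp_iff]
      refine le_iSup_cases' (e5 (sb κ) (Δ := Γ ⊓ bmem (sb κ) C) inf_le_left inf_le_right)
        fun A => ?_
      have h1 : Γ ⊓ bmem (sb κ) C ⊓ (bmem A D ⊓ bmem (sb κ) A) ≤ bmem A (tau c) :=
        sub_apply e1 A (inf_le_left.trans inf_le_left) (inf_le_right.trans inf_le_left)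
      rw [mem_tau] at h1
      refine le_iSup_cases' (opn_apply c A κ (h1.trans inf_le_right)
        (inf_le_right.trans inf_le_right)) fun F => ?_
      refine le_iSup_of_le F (le_iInf fun κ' => ?_)
      rw [le_himp_iff]
      refine e6 A (sb κ') (inf_le_left.trans (inf_le_left.trans (inf_le_left.trans inf_le_left)))
        (inf_le_left.trans (inf_le_left.trans (inf_le_right.trans inf_le_left))) ?_
      exact iInf_himp_apply (Γ := ⨅ κ' : Pt Ω B, c κ' ⊓ agree F κ κ' ⇨ bmem (sb κ') A) le_rfl κ'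
        (inf_le_left.trans inf_le_right) inf_le_right

theorem cut_mem_tau (hS : SBStatement) (c : Pt Ω B → B)
    (hc : ∀ κ κ', eqP κ κ' ⊓ c κ ≤ c κ') (o : Om Ω) (a : B) :
    bmem (Cn (cut c o a)) (tau c) = ⊤ := by
  rw [mem_tau, eq_top_iff]
  have hm := (hS B Ω).2.2.1 (cut c o a)
  refine le_inf (le_iInf fun z => ?_) (le_iInf fun κ => ?_)
  · rw [le_himp_iff, VB_mem, VB_mem, (hS B Ω).2.2.2, (hS B Ω).2.2.2]
    refine inf_le_right.trans (iSup_mono fun κ => inf_le_inf_right _ inf_le_left)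
  · rw [le_himp_iff, hm κ (cut_ext hc o a), top_inf_eq]
    refine le_iSup_of_le {o} (le_iInf fun κ' => ?_)
    rw [le_himp_iff, hm κ' (cut_ext hc o a)]
    refine le_inf (inf_le_right.trans inf_le_left) ?_
    refine le_trans (le_inf ?_ (inf_le_left.trans inf_le_right)) (bihimp_trans (b := κ o))
    rw [bihimp_comm]
    exact inf_le_right.trans (inf_le_right.trans (agree_le κ κ' (Finset.mem_singleton_self o)))

theorem isHaus_top (hS : SBStatement) (c : Pt Ω B → B)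
    (hc : ∀ κ κ', eqP κ κ' ⊓ c κ ≤ c κ') : isHaus (VB B) (Cn c) (tau c) = ⊤ := by
  rw [eq_top_iff]
  refine le_iInf fun x => le_iInf fun y => ?_
  rw [le_himp_iff, top_inf_eq]
  simp only [VB_mem, VB_eq]
  obtain ⟨Γ, hΓ⟩ : ∃ Γ, Γ = bmem x (Cn c) ⊓ bmem y (Cn c) ⊓ (beq x y)ᶜ := ⟨_, rfl⟩
  rw [← hΓ]
  have hx : Γ ≤ ⨆ κ, c κ ⊓ beq x (sb κ) := by
    rw [← (hS B Ω).2.2.2]
    exact hΓ.le.trans (inf_le_left.trans inf_le_left)
  have hy : Γ ≤ ⨆ κ, c κ ⊓ beq y (sb κ) := by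
    rw [← (hS B Ω).2.2.2]
    exact hΓ.le.trans (inf_le_left.trans inf_le_right)
  have hxy : Γ ≤ (beq x y)ᶜ := hΓ.le.trans inf_le_right
  refine le_iSup_cases' hx fun κ => ?_
  refine le_iSup_cases' (inf_le_left.trans hy) fun κ' => ?_
  obtain ⟨Δ, hΔ⟩ : ∃ Δ, Δ = Γ ⊓ (c κ ⊓ beq x (sb κ)) ⊓ (c κ' ⊓ beq y (sb κ')) := ⟨_, rfl⟩
  rw [← hΔ]
  have d0 : Δ ≤ Γ := hΔ.le.trans (inf_le_left.trans inf_le_left)
  have d1 : Δ ≤ c κ := hΔ.le.trans (inf_le_left.trans (inf_le_right.trans inf_le_left))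
  have d2 : Δ ≤ beq x (sb κ) := hΔ.le.trans (inf_le_left.trans (inf_le_right.trans inf_le_right))
  have d3 : Δ ≤ c κ' := hΔ.le.trans (inf_le_right.trans inf_le_left)
  have d4 : Δ ≤ beq y (sb κ') := hΔ.le.trans (inf_le_right.trans inf_le_right)
  have d5 : Δ ≤ (eqP κ κ')ᶜ := by
    rw [le_compl_iff_disjoint_right, disjoint_iff_inf_le]
    have h1 : Δ ⊓ eqP κ κ' ≤ beq x y := by
      have k1 : Δ ⊓ eqP κ κ' ≤ beq (sb κ) (sb κ') := by
        rw [(hS B Ω).2.1]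
        exact inf_le_right
      have k2 : Δ ⊓ eqP κ κ' ≤ beq (sb κ') y := by
        rw [beq_symm]
        exact inf_le_left.trans d4
      exact (le_inf (inf_le_left.trans d2) ((le_inf k1 k2).trans (beq_trans _ _ _))).trans
        (beq_trans x (sb κ) y)
    calc Δ ⊓ eqP κ κ' ≤ beq x y ⊓ (beq x y)ᶜ := le_inf h1 (inf_le_left.trans (d0.trans hxy))
      _ ≤ ⊥ := inf_compl_self _ |>.le
  have d6 : Δ ≤ ⨆ o, (κ o ⇔ κ' o)ᶜ := by
    rw [← compl_iInf]
    exact d5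
  refine le_iSup_cases' d6 fun o => ?_
  refine le_iSup_of_le (Cn (cut c o (κ o))) (le_iSup_of_le (Cn (cut c o (κ' o))) ?_)
  rw [cut_mem_tau hS c hc, cut_mem_tau hS c hc]
  refine le_inf (le_inf (le_inf (le_inf le_top le_top) ?_) ?_) (le_iInf fun z => ?_)
  · refine (ext_mem_left _).of_le' (inf_le_left.trans d2) ?_
    rw [(hS B Ω).2.2.1 _ κ (cut_ext hc o (κ o))]
    exact le_inf (inf_le_left.trans d1) (by rw [bihimp_self]; exact le_top)
  · refine (ext_mem_left _).of_le' (inf_le_left.trans d4) ?_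
    rw [(hS B Ω).2.2.1 _ κ' (cut_ext hc o (κ' o))]
    exact le_inf (inf_le_left.trans d3) (by rw [bihimp_self]; exact le_top)
  · rw [le_compl_iff_disjoint_right, disjoint_iff_inf_le]
    rw [(hS B Ω).2.2.2, (hS B Ω).2.2.2]
    have h1 : (⨆ κ1, cut c o (κ o) κ1 ⊓ beq z (sb κ1)) ⊓
        (⨆ κ1, cut c o (κ' o) κ1 ⊓ beq z (sb κ1)) ≤ (κ o ⇔ κ' o) := by
      rw [iSup_inf_iSup]
      refine iSup_le fun p => ?_
      have k1 : cut c o (κ o) p.1 ⊓ beq z (sb p.1) ⊓ (cut c o (κ' o) p.2 ⊓ beq z (sb p.2)) ≤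
          (p.1 o ⇔ p.2 o) := by
        refine le_trans ?_ (eqP_le p.1 p.2 o)
        rw [← (hS B Ω).2.1]
        refine le_trans (le_inf ?_ (inf_le_right.trans inf_le_right)) (beq_trans _ z _)
        rw [beq_symm]
        exact inf_le_left.trans inf_le_right
      have k2 : cut c o (κ o) p.1 ⊓ beq z (sb p.1) ⊓ (cut c o (κ' o) p.2 ⊓ beq z (sb p.2)) ≤
          (κ o ⇔ p.1 o) := by
        rw [bihimp_comm]
        exact inf_le_left.trans (inf_le_left.trans inf_le_right)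
      have k3 : cut c o (κ o) p.1 ⊓ beq z (sb p.1) ⊓ (cut c o (κ' o) p.2 ⊓ beq z (sb p.2)) ≤
          (p.2 o ⇔ κ' o) := inf_le_right.trans (inf_le_left.trans inf_le_right)
      exact (le_inf ((le_inf k2 k1).trans bihimp_trans) k3).trans bihimp_trans
    calc _ ≤ (κ o ⇔ κ' o)ᶜ ⊓ (κ o ⇔ κ' o) := inf_le_inf inf_le_right h1
      _ ≤ ⊥ := by rw [compl_inf_self]

end TA

theorem ta (_ : HTStatement) (hS : SBStatement) : TAStatement := by
  intro B Ω _ c hc
  exact ⟨TA.mem_tau c, TA.isTopo_top hS c hc, TA.isHaus_top hS c hc⟩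

end Pool.Agent.Lib.MP_9ea9ae_an.V
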