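import Pool.Agent.Lib.MP_9ea9ae_an.V.Iface
import Pool.Agent.Lib.MP_6b029b_lc.H57.Transfer

/-!
# TR: transfer of the statement to the two-valued quotient
-/

universe u v w

open scoped symmDiff

namespace Pool.Agent.Lib.MP_9ea9ae_an.V.TR

open Pool.Agent.Lib.MP_9ea9ae_an.V
open Pool.Agent.Lib.MP_100a6c_lc Pool.Agent.Lib.MP_c5d73d_lc.F BName
open Pool.Agent.Lib.MP_6d445e_gt (op isTopo isHaus isFin fsub)
open Pool.Agent.Lib.MP_6b029b_lc.H57 (Ml QS Ctx Mor Tf tf_sub tf_isUPair tf_isPair tf_rel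
  tf_leCard tf_isTrans tf_isOrd tf_isFun tf_isEmpty tf_isSuc tf_isOm tf_isInter)

variable {B : Type u} [CompleteBooleanAlgebra B] {G : Set B} [hG : Fact (IsUlt G)]
  {V V' : Type (u + 1)} [Ctx G V V']


theorem tf_op {s1 s2 s3 s4 : V → BName B}
    {s1' s2' s3' s4' : V' → Ml G}
    (h1 : Mor G s1 s1') (h2 : Mor G s2 s2') (h3 : Mor G s3 s3') (h4 : Mor G s4 s4') :
    Tf G (fun v => op (VB B) (s1 v) (s2 v) (s3 v) (s4 v))
      (fun v' => op (QS G) (s1' v') (s2' v') (s3' v') (s4' v')) := by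
  unfold op
  with_reducible
  repeat' first
    | exact Mor.id
    | refine Mor.snd ?_
    | refine Mor.fst ?_
    | refine Mor.comp h1 ?_
    | refine Mor.comp h2 ?_
    | refine Mor.comp h3 ?_
    | refine Mor.comp h4 ?_
    | refine Tf.mem ?_ ?_
    | refine Tf.eq ?_ ?_
    | refine tf_rel ?_ ?_ ?_
    | refine tf_isPair ?_ ?_ ?_
    | refine Tf.inf ?_ ?_
    | refine Tf.sup ?_ ?_
    | refine Tf.bihimp ?_ ?_
    | refine Tf.himp ?_ ?_
    | refine Tf.compl ?_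
    | refine Tf.iInf ?_
    | refine Tf.iSup ?_

theorem tf_isTopo {s1 s2 : V → BName B}
    {s1' s2' : V' → Ml G}
    (h1 : Mor G s1 s1') (h2 : Mor G s2 s2') :
    Tf G (fun v => isTopo (VB B) (s1 v) (s2 v))
      (fun v' => isTopo (QS G) (s1' v') (s2' v')) := by
  unfold isTopo
  with_reducible
  repeat' first
    | exact Mor.id
    | refine Mor.snd ?_
    | refine Mor.fst ?_
    | refine Mor.comp h1 ?_
    | refine Mor.comp h2 ?_
    | refine Tf.mem ?_ ?_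
    | refine Tf.eq ?_ ?_
    | refine tf_isInter ?_ ?_ ?_
    | refine tf_sub ?_ ?_
    | refine Tf.inf ?_ ?_
    | refine Tf.sup ?_ ?_
    | refine Tf.bihimp ?_ ?_
    | refine Tf.himp ?_ ?_
    | refine Tf.compl ?_
    | refine Tf.iInf ?_
    | refine Tf.iSup ?_

theorem tf_isHaus {s1 s2 : V → BName B}
    {s1' s2' : V' → Ml G}
    (h1 : Mor G s1 s1') (h2 : Mor G s2 s2') :
    Tf G (fun v => isHaus (VB B) (s1 v) (s2 v))
      (fun v' => isHaus (QS G) (s1' v') (s2' v')) := by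
  unfold isHaus
  with_reducible
  repeat' first
    | exact Mor.id
    | refine Mor.snd ?_
    | refine Mor.fst ?_
    | refine Mor.comp h1 ?_
    | refine Mor.comp h2 ?_
    | refine Tf.mem ?_ ?_
    | refine Tf.eq ?_ ?_
    | refine Tf.inf ?_ ?_
    | refine Tf.sup ?_ ?_
    | refine Tf.bihimp ?_ ?_
    | refine Tf.himp ?_ ?_
    | refine Tf.compl ?_
    | refine Tf.iInf ?_
    | refine Tf.iSup ?_

theorem tf_isFin {s1 s2 : V → BName B}
    {s1' s2' : V' → Ml G}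
    (h1 : Mor G s1 s1') (h2 : Mor G s2 s2') :
    Tf G (fun v => isFin (VB B) (s1 v) (s2 v))
      (fun v' => isFin (QS G) (s1' v') (s2' v')) := by
  unfold isFin
  with_reducible
  repeat' first
    | exact Mor.id
    | refine Mor.snd ?_
    | refine Mor.fst ?_
    | refine Mor.comp h1 ?_
    | refine Mor.comp h2 ?_
    | refine Tf.mem ?_ ?_
    | refine Tf.eq ?_ ?_
    | refine tf_leCard ?_ ?_
    | refine Tf.inf ?_ ?_
    | refine Tf.sup ?_ ?_
    | refine Tf.bihimp ?_ ?_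
    | refine Tf.himp ?_ ?_
    | refine Tf.compl ?_
    | refine Tf.iInf ?_
    | refine Tf.iSup ?_

theorem tf_fsub {s1 s2 s3 : V → BName B}
    {s1' s2' s3' : V' → Ml G}
    (h1 : Mor G s1 s1') (h2 : Mor G s2 s2') (h3 : Mor G s3 s3') :
    Tf G (fun v => fsub (VB B) (s1 v) (s2 v) (s3 v))
      (fun v' => fsub (QS G) (s1' v') (s2' v') (s3' v')) := by
  unfold fsub
  with_reducible
  repeat' first
    | exact Mor.id
    | refine Mor.snd ?_
    | refine Mor.fst ?_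
    | refine Mor.comp h1 ?_
    | refine Mor.comp h2 ?_
    | refine Mor.comp h3 ?_
    | refine Tf.mem ?_ ?_
    | refine Tf.eq ?_ ?_
    | refine tf_isFin ?_ ?_
    | refine tf_sub ?_ ?_
    | refine Tf.inf ?_ ?_
    | refine Tf.sup ?_ ?_
    | refine Tf.bihimp ?_ ?_
    | refine Tf.himp ?_ ?_
    | refine Tf.compl ?_
    | refine Tf.iInf ?_
    | refine Tf.iSup ?_

theorem tf_isId {s1 s2 s3 : V → BName B}
    {s1' s2' s3' : V' → Ml G}
    (h1 : Mor G s1 s1') (h2 : Mor G s2 s2') (h3 : Mor G s3 s3') :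
    Tf G (fun v => isId (VB B) (s1 v) (s2 v) (s3 v))
      (fun v' => isId (QS G) (s1' v') (s2' v') (s3' v')) := by
  unfold isId
  with_reducible
  repeat' first
    | exact Mor.id
    | refine Mor.snd ?_
    | refine Mor.fst ?_
    | refine Mor.comp h1 ?_
    | refine Mor.comp h2 ?_
    | refine Mor.comp h3 ?_
    | refine Tf.mem ?_ ?_
    | refine Tf.eq ?_ ?_
    | refine tf_op ?_ ?_ ?_ ?_
    | refine Tf.inf ?_ ?_
    | refine Tf.sup ?_ ?_
    | refine Tf.bihimp ?_ ?_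
    | refine Tf.himp ?_ ?_
    | refine Tf.compl ?_
    | refine Tf.iInf ?_
    | refine Tf.iSup ?_

theorem tf_isBin {s1 s2 : V → BName B}
    {s1' s2' : V' → Ml G}
    (h1 : Mor G s1 s1') (h2 : Mor G s2 s2') :
    Tf G (fun v => isBin (VB B) (s1 v) (s2 v))
      (fun v' => isBin (QS G) (s1' v') (s2' v')) := by
  unfold isBin
  with_reducible
  repeat' first
    | exact Mor.id
    | refine Mor.snd ?_
    | refine Mor.fst ?_
    | refine Mor.comp h1 ?_
    | refine Mor.comp h2 ?_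
    | refine Tf.mem ?_ ?_
    | refine Tf.eq ?_ ?_
    | refine tf_op ?_ ?_ ?_ ?_
    | refine Tf.inf ?_ ?_
    | refine Tf.sup ?_ ?_
    | refine Tf.bihimp ?_ ?_
    | refine Tf.himp ?_ ?_
    | refine Tf.compl ?_
    | refine Tf.iInf ?_
    | refine Tf.iSup ?_

theorem tf_isCA {s1 s2 : V → BName B}
    {s1' s2' : V' → Ml G}
    (h1 : Mor G s1 s1') (h2 : Mor G s2 s2') :
    Tf G (fun v => isCA (VB B) (s1 v) (s2 v))
      (fun v' => isCA (QS G) (s1' v') (s2' v')) := by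
  unfold isCA
  with_reducible
  repeat' first
    | exact Mor.id
    | refine Mor.snd ?_
    | refine Mor.fst ?_
    | refine Mor.comp h1 ?_
    | refine Mor.comp h2 ?_
    | refine Tf.mem ?_ ?_
    | refine Tf.eq ?_ ?_
    | refine tf_op ?_ ?_ ?_ ?_
    | refine Tf.inf ?_ ?_
    | refine Tf.sup ?_ ?_
    | refine Tf.bihimp ?_ ?_
    | refine Tf.himp ?_ ?_
    | refine Tf.compl ?_
    | refine Tf.iInf ?_
    | refine Tf.iSup ?_

theorem tf_isField {s1 s2 s3 : V → BName B}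
    {s1' s2' s3' : V' → Ml G}
    (h1 : Mor G s1 s1') (h2 : Mor G s2 s2') (h3 : Mor G s3 s3') :
    Tf G (fun v => isField (VB B) (s1 v) (s2 v) (s3 v))
      (fun v' => isField (QS G) (s1' v') (s2' v') (s3' v')) := by
  unfold isField
  with_reducible
  repeat' first
    | exact Mor.id
    | refine Mor.snd ?_
    | refine Mor.fst ?_
    | refine Mor.comp h1 ?_
    | refine Mor.comp h2 ?_
    | refine Mor.comp h3 ?_
    | refine Tf.mem ?_ ?_
    | refine Tf.eq ?_ ?_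
    | refine tf_isCA ?_ ?_
    | refine tf_isBin ?_ ?_
    | refine tf_isId ?_ ?_ ?_
    | refine tf_op ?_ ?_ ?_ ?_
    | refine Tf.inf ?_ ?_
    | refine Tf.sup ?_ ?_
    | refine Tf.bihimp ?_ ?_
    | refine Tf.himp ?_ ?_
    | refine Tf.compl ?_
    | refine Tf.iInf ?_
    | refine Tf.iSup ?_

theorem tf_isLin {s1 s2 : V → BName B}
    {s1' s2' : V' → Ml G}
    (h1 : Mor G s1 s1') (h2 : Mor G s2 s2') :
    Tf G (fun v => isLin (VB B) (s1 v) (s2 v))
      (fun v' => isLin (QS G) (s1' v') (s2' v')) := by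
  unfold isLin
  with_reducible
  repeat' first
    | exact Mor.id
    | refine Mor.snd ?_
    | refine Mor.fst ?_
    | refine Mor.comp h1 ?_
    | refine Mor.comp h2 ?_
    | refine Tf.mem ?_ ?_
    | refine Tf.eq ?_ ?_
    | refine tf_rel ?_ ?_ ?_
    | refine Tf.inf ?_ ?_
    | refine Tf.sup ?_ ?_
    | refine Tf.bihimp ?_ ?_
    | refine Tf.himp ?_ ?_
    | refine Tf.compl ?_
    | refine Tf.iInf ?_
    | refine Tf.iSup ?_

theorem tf_isOF {s1 s2 s3 s4 : V → BName B}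
    {s1' s2' s3' s4' : V' → Ml G}
    (h1 : Mor G s1 s1') (h2 : Mor G s2 s2') (h3 : Mor G s3 s3') (h4 : Mor G s4 s4') :
    Tf G (fun v => isOF (VB B) (s1 v) (s2 v) (s3 v) (s4 v))
      (fun v' => isOF (QS G) (s1' v') (s2' v') (s3' v') (s4' v')) := by
  unfold isOF
  with_reducible
  repeat' first
    | exact Mor.id
    | refine Mor.snd ?_
    | refine Mor.fst ?_
    | refine Mor.comp h1 ?_
    | refine Mor.comp h2 ?_
    | refine Mor.comp h3 ?_
    | refine Mor.comp h4 ?_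
    | refine Tf.mem ?_ ?_
    | refine Tf.eq ?_ ?_
    | refine tf_isId ?_ ?_ ?_
    | refine tf_op ?_ ?_ ?_ ?_
    | refine tf_rel ?_ ?_ ?_
    | refine Tf.inf ?_ ?_
    | refine Tf.sup ?_ ?_
    | refine Tf.bihimp ?_ ?_
    | refine Tf.himp ?_ ?_
    | refine Tf.compl ?_
    | refine Tf.iInf ?_
    | refine Tf.iSup ?_

theorem tf_isUB {s1 s2 s3 s4 : V → BName B}
    {s1' s2' s3' s4' : V' → Ml G}
    (h1 : Mor G s1 s1') (h2 : Mor G s2 s2') (h3 : Mor G s3 s3') (h4 : Mor G s4 s4') :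
    Tf G (fun v => isUB (VB B) (s1 v) (s2 v) (s3 v) (s4 v))
      (fun v' => isUB (QS G) (s1' v') (s2' v') (s3' v') (s4' v')) := by
  unfold isUB
  with_reducible
  repeat' first
    | exact Mor.id
    | refine Mor.snd ?_
    | refine Mor.fst ?_
    | refine Mor.comp h1 ?_
    | refine Mor.comp h2 ?_
    | refine Mor.comp h3 ?_
    | refine Mor.comp h4 ?_
    | refine Tf.mem ?_ ?_
    | refine Tf.eq ?_ ?_
    | refine tf_rel ?_ ?_ ?_
    | refine Tf.inf ?_ ?_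
    | refine Tf.sup ?_ ?_
    | refine Tf.bihimp ?_ ?_
    | refine Tf.himp ?_ ?_
    | refine Tf.compl ?_
    | refine Tf.iInf ?_
    | refine Tf.iSup ?_

theorem tf_isCpl {s1 s2 : V → BName B}
    {s1' s2' : V' → Ml G}
    (h1 : Mor G s1 s1') (h2 : Mor G s2 s2') :
    Tf G (fun v => isCpl (VB B) (s1 v) (s2 v))
      (fun v' => isCpl (QS G) (s1' v') (s2' v')) := by
  unfold isCpl
  with_reducible
  repeat' first
    | exact Mor.id
    | refine Mor.snd ?_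
    | refine Mor.fst ?_
    | refine Mor.comp h1 ?_
    | refine Mor.comp h2 ?_
    | refine Tf.mem ?_ ?_
    | refine Tf.eq ?_ ?_
    | refine tf_isUB ?_ ?_ ?_ ?_
    | refine tf_rel ?_ ?_ ?_
    | refine tf_sub ?_ ?_
    | refine Tf.inf ?_ ?_
    | refine Tf.sup ?_ ?_
    | refine Tf.bihimp ?_ ?_
    | refine Tf.himp ?_ ?_
    | refine Tf.compl ?_
    | refine Tf.iInf ?_
    | refine Tf.iSup ?_

theorem tf_isCOF {s1 s2 s3 s4 : V → BName B}
    {s1' s2' s3' s4' : V' → Ml G}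
    (h1 : Mor G s1 s1') (h2 : Mor G s2 s2') (h3 : Mor G s3 s3') (h4 : Mor G s4 s4') :
    Tf G (fun v => isCOF (VB B) (s1 v) (s2 v) (s3 v) (s4 v))
      (fun v' => isCOF (QS G) (s1' v') (s2' v') (s3' v') (s4' v')) := by
  unfold isCOF
  with_reducible
  repeat' first
    | exact Mor.id
    | refine Mor.snd ?_
    | refine Mor.fst ?_
    | refine Mor.comp h1 ?_
    | refine Mor.comp h2 ?_
    | refine Mor.comp h3 ?_
    | refine Mor.comp h4 ?_
    | refine Tf.mem ?_ ?_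
    | refine Tf.eq ?_ ?_
    | refine tf_isCpl ?_ ?_
    | refine tf_isOF ?_ ?_ ?_ ?_
    | refine tf_isLin ?_ ?_
    | refine tf_isField ?_ ?_ ?_
    | refine Tf.inf ?_ ?_
    | refine Tf.sup ?_ ?_
    | refine Tf.bihimp ?_ ?_
    | refine Tf.himp ?_ ?_
    | refine Tf.compl ?_
    | refine Tf.iInf ?_
    | refine Tf.iSup ?_

theorem tf_pos {s1 s2 s3 s4 : V → BName B}
    {s1' s2' s3' s4' : V' → Ml G}
    (h1 : Mor G s1 s1') (h2 : Mor G s2 s2') (h3 : Mor G s3 s3') (h4 : Mor G s4 s4') :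
    Tf G (fun v => pos (VB B) (s1 v) (s2 v) (s3 v) (s4 v))
      (fun v' => pos (QS G) (s1' v') (s2' v') (s3' v') (s4' v')) := by
  unfold pos
  with_reducible
  repeat' first
    | exact Mor.id
    | refine Mor.snd ?_
    | refine Mor.fst ?_
    | refine Mor.comp h1 ?_
    | refine Mor.comp h2 ?_
    | refine Mor.comp h3 ?_
    | refine Mor.comp h4 ?_
    | refine Tf.mem ?_ ?_
    | refine Tf.eq ?_ ?_
    | refine tf_isId ?_ ?_ ?_
    | refine tf_rel ?_ ?_ ?_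
    | refine Tf.inf ?_ ?_
    | refine Tf.sup ?_ ?_
    | refine Tf.bihimp ?_ ?_
    | refine Tf.himp ?_ ?_
    | refine Tf.compl ?_
    | refine Tf.iInf ?_
    | refine Tf.iSup ?_

theorem tf_near {s1 s2 s3 s4 s5 : V → BName B}
    {s1' s2' s3' s4' s5' : V' → Ml G}
    (h1 : Mor G s1 s1') (h2 : Mor G s2 s2') (h3 : Mor G s3 s3') (h4 : Mor G s4 s4') (h5 : Mor G s5 s5') :
    Tf G (fun v => near (VB B) (s1 v) (s2 v) (s3 v) (s4 v) (s5 v))
      (fun v' => near (QS G) (s1' v') (s2' v') (s3' v') (s4' v') (s5' v')) := by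
  unfold near
  with_reducible
  repeat' first
    | exact Mor.id
    | refine Mor.snd ?_
    | refine Mor.fst ?_
    | refine Mor.comp h1 ?_
    | refine Mor.comp h2 ?_
    | refine Mor.comp h3 ?_
    | refine Mor.comp h4 ?_
    | refine Mor.comp h5 ?_
    | refine Tf.mem ?_ ?_
    | refine Tf.eq ?_ ?_
    | refine tf_op ?_ ?_ ?_ ?_
    | refine tf_rel ?_ ?_ ?_
    | refine Tf.inf ?_ ?_
    | refine Tf.sup ?_ ?_
    | refine Tf.bihimp ?_ ?_
    | refine Tf.himp ?_ ?_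
    | refine Tf.compl ?_
    | refine Tf.iInf ?_
    | refine Tf.iSup ?_

theorem tf_absb {s1 s2 s3 s4 s5 : V → BName B}
    {s1' s2' s3' s4' s5' : V' → Ml G}
    (h1 : Mor G s1 s1') (h2 : Mor G s2 s2') (h3 : Mor G s3 s3') (h4 : Mor G s4 s4') (h5 : Mor G s5 s5') :
    Tf G (fun v => absb (VB B) (s1 v) (s2 v) (s3 v) (s4 v) (s5 v))
      (fun v' => absb (QS G) (s1' v') (s2' v') (s3' v') (s4' v') (s5' v')) := by
  unfold absb
  with_reducible
  repeat' first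
    | exact Mor.id
    | refine Mor.snd ?_
    | refine Mor.fst ?_
    | refine Mor.comp h1 ?_
    | refine Mor.comp h2 ?_
    | refine Mor.comp h3 ?_
    | refine Mor.comp h4 ?_
    | refine Mor.comp h5 ?_
    | refine Tf.mem ?_ ?_
    | refine Tf.eq ?_ ?_
    | refine tf_isId ?_ ?_ ?_
    | refine tf_op ?_ ?_ ?_ ?_
    | refine tf_rel ?_ ?_ ?_
    | refine Tf.inf ?_ ?_
    | refine Tf.sup ?_ ?_
    | refine Tf.bihimp ?_ ?_
    | refine Tf.himp ?_ ?_
    | refine Tf.compl ?_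
    | refine Tf.iInf ?_
    | refine Tf.iSup ?_

theorem tf_isCont {s1 s2 s3 s4 s5 s6 : V → BName B}
    {s1' s2' s3' s4' s5' s6' : V' → Ml G}
    (h1 : Mor G s1 s1') (h2 : Mor G s2 s2') (h3 : Mor G s3 s3') (h4 : Mor G s4 s4') (h5 : Mor G s5 s5') (h6 : Mor G s6 s6') :
    Tf G (fun v => isCont (VB B) (s1 v) (s2 v) (s3 v) (s4 v) (s5 v) (s6 v))
      (fun v' => isCont (QS G) (s1' v') (s2' v') (s3' v') (s4' v') (s5' v') (s6' v')) := by
  unfold isCont
  with_reducible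
  repeat' first
    | exact Mor.id
    | refine Mor.snd ?_
    | refine Mor.fst ?_
    | refine Mor.comp h1 ?_
    | refine Mor.comp h2 ?_
    | refine Mor.comp h3 ?_
    | refine Mor.comp h4 ?_
    | refine Mor.comp h5 ?_
    | refine Mor.comp h6 ?_
    | refine Tf.mem ?_ ?_
    | refine Tf.eq ?_ ?_
    | refine tf_near ?_ ?_ ?_ ?_ ?_
    | refine tf_pos ?_ ?_ ?_ ?_
    | refine tf_isFun ?_ ?_ ?_
    | refine tf_rel ?_ ?_ ?_
    | refine Tf.inf ?_ ?_
    | refine Tf.sup ?_ ?_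
    | refine Tf.bihimp ?_ ?_
    | refine Tf.himp ?_ ?_
    | refine Tf.compl ?_
    | refine Tf.iInf ?_
    | refine Tf.iSup ?_

theorem tf_bdd {s1 s2 s3 s4 s5 s6 : V → BName B}
    {s1' s2' s3' s4' s5' s6' : V' → Ml G}
    (h1 : Mor G s1 s1') (h2 : Mor G s2 s2') (h3 : Mor G s3 s3') (h4 : Mor G s4 s4') (h5 : Mor G s5 s5') (h6 : Mor G s6 s6') :
    Tf G (fun v => bdd (VB B) (s1 v) (s2 v) (s3 v) (s4 v) (s5 v) (s6 v))
      (fun v' => bdd (QS G) (s1' v') (s2' v') (s3' v') (s4' v') (s5' v') (s6' v')) := by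
  unfold bdd
  with_reducible
  repeat' first
    | exact Mor.id
    | refine Mor.snd ?_
    | refine Mor.fst ?_
    | refine Mor.comp h1 ?_
    | refine Mor.comp h2 ?_
    | refine Mor.comp h3 ?_
    | refine Mor.comp h4 ?_
    | refine Mor.comp h5 ?_
    | refine Mor.comp h6 ?_
    | refine Tf.mem ?_ ?_
    | refine Tf.eq ?_ ?_
    | refine tf_absb ?_ ?_ ?_ ?_ ?_
    | refine tf_rel ?_ ?_ ?_
    | refine Tf.inf ?_ ?_
    | refine Tf.sup ?_ ?_
    | refine Tf.bihimp ?_ ?_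
    | refine Tf.himp ?_ ?_
    | refine Tf.compl ?_
    | refine Tf.iInf ?_
    | refine Tf.iSup ?_

theorem tf_isSum {s1 s2 s3 s4 s5 : V → BName B}
    {s1' s2' s3' s4' s5' : V' → Ml G}
    (h1 : Mor G s1 s1') (h2 : Mor G s2 s2') (h3 : Mor G s3 s3') (h4 : Mor G s4 s4') (h5 : Mor G s5 s5') :
    Tf G (fun v => isSum (VB B) (s1 v) (s2 v) (s3 v) (s4 v) (s5 v))
      (fun v' => isSum (QS G) (s1' v') (s2' v') (s3' v') (s4' v') (s5' v')) := by
  unfold isSum
  with_reducible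
  repeat' first
    | exact Mor.id
    | refine Mor.snd ?_
    | refine Mor.fst ?_
    | refine Mor.comp h1 ?_
    | refine Mor.comp h2 ?_
    | refine Mor.comp h3 ?_
    | refine Mor.comp h4 ?_
    | refine Mor.comp h5 ?_
    | refine Tf.mem ?_ ?_
    | refine Tf.eq ?_ ?_
    | refine tf_op ?_ ?_ ?_ ?_
    | refine tf_rel ?_ ?_ ?_
    | refine Tf.inf ?_ ?_
    | refine Tf.sup ?_ ?_
    | refine Tf.bihimp ?_ ?_
    | refine Tf.himp ?_ ?_
    | refine Tf.compl ?_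
    | refine Tf.iInf ?_
    | refine Tf.iSup ?_

theorem tf_isMul {s1 s2 s3 s4 s5 : V → BName B}
    {s1' s2' s3' s4' s5' : V' → Ml G}
    (h1 : Mor G s1 s1') (h2 : Mor G s2 s2') (h3 : Mor G s3 s3') (h4 : Mor G s4 s4') (h5 : Mor G s5 s5') :
    Tf G (fun v => isMul (VB B) (s1 v) (s2 v) (s3 v) (s4 v) (s5 v))
      (fun v' => isMul (QS G) (s1' v') (s2' v') (s3' v') (s4' v') (s5' v')) := by
  unfold isMul
  with_reducible
  repeat' first
    | exact Mor.id
    | refine Mor.snd ?_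
    | refine Mor.fst ?_
    | refine Mor.comp h1 ?_
    | refine Mor.comp h2 ?_
    | refine Mor.comp h3 ?_
    | refine Mor.comp h4 ?_
    | refine Mor.comp h5 ?_
    | refine Tf.mem ?_ ?_
    | refine Tf.eq ?_ ?_
    | refine tf_op ?_ ?_ ?_ ?_
    | refine tf_rel ?_ ?_ ?_
    | refine Tf.inf ?_ ?_
    | refine Tf.sup ?_ ?_
    | refine Tf.bihimp ?_ ?_
    | refine Tf.himp ?_ ?_
    | refine Tf.compl ?_
    | refine Tf.iInf ?_
    | refine Tf.iSup ?_

theorem tf_isCH {s1 s2 s3 : V → BName B}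
    {s1' s2' s3' : V' → Ml G}
    (h1 : Mor G s1 s1') (h2 : Mor G s2 s2') (h3 : Mor G s3 s3') :
    Tf G (fun v => isCH (VB B) (s1 v) (s2 v) (s3 v))
      (fun v' => isCH (QS G) (s1' v') (s2' v') (s3' v')) := by
  unfold isCH
  with_reducible
  repeat' first
    | exact Mor.id
    | refine Mor.snd ?_
    | refine Mor.fst ?_
    | refine Mor.comp h1 ?_
    | refine Mor.comp h2 ?_
    | refine Mor.comp h3 ?_
    | refine Tf.mem ?_ ?_
    | refine Tf.eq ?_ ?_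
    | refine tf_isFin ?_ ?_
    | refine tf_isHaus ?_ ?_
    | refine tf_isTopo ?_ ?_
    | refine tf_sub ?_ ?_
    | refine Tf.inf ?_ ?_
    | refine Tf.sup ?_ ?_
    | refine Tf.bihimp ?_ ?_
    | refine Tf.himp ?_ ?_
    | refine Tf.compl ?_
    | refine Tf.iInf ?_
    | refine Tf.iSup ?_

theorem tf_isMap {s1 s2 s3 s4 : V → BName B}
    {s1' s2' s3' s4' : V' → Ml G}
    (h1 : Mor G s1 s1') (h2 : Mor G s2 s2') (h3 : Mor G s3 s3') (h4 : Mor G s4 s4') :
    Tf G (fun v => isMap (VB B) (s1 v) (s2 v) (s3 v) (s4 v))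
      (fun v' => isMap (QS G) (s1' v') (s2' v') (s3' v') (s4' v')) := by
  unfold isMap
  with_reducible
  repeat' first
    | exact Mor.id
    | refine Mor.snd ?_
    | refine Mor.fst ?_
    | refine Mor.comp h1 ?_
    | refine Mor.comp h2 ?_
    | refine Mor.comp h3 ?_
    | refine Mor.comp h4 ?_
    | refine Tf.mem ?_ ?_
    | refine Tf.eq ?_ ?_
    | refine tf_op ?_ ?_ ?_ ?_
    | refine Tf.inf ?_ ?_
    | refine Tf.sup ?_ ?_
    | refine Tf.bihimp ?_ ?_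
    | refine Tf.himp ?_ ?_
    | refine Tf.compl ?_
    | refine Tf.iInf ?_
    | refine Tf.iSup ?_

theorem tf_isSig {s1 s2 s3 s4 s5 s6 : V → BName B}
    {s1' s2' s3' s4' s5' s6' : V' → Ml G}
    (h1 : Mor G s1 s1') (h2 : Mor G s2 s2') (h3 : Mor G s3 s3') (h4 : Mor G s4 s4') (h5 : Mor G s5 s5') (h6 : Mor G s6 s6') :
    Tf G (fun v => isSig (VB B) (s1 v) (s2 v) (s3 v) (s4 v) (s5 v) (s6 v))
      (fun v' => isSig (QS G) (s1' v') (s2' v') (s3' v') (s4' v') (s5' v') (s6' v')) := by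
  unfold isSig
  with_reducible
  repeat' first
    | exact Mor.id
    | refine Mor.snd ?_
    | refine Mor.fst ?_
    | refine Mor.comp h1 ?_
    | refine Mor.comp h2 ?_
    | refine Mor.comp h3 ?_
    | refine Mor.comp h4 ?_
    | refine Mor.comp h5 ?_
    | refine Mor.comp h6 ?_
    | refine Tf.mem ?_ ?_
    | refine Tf.eq ?_ ?_
    | refine tf_isId ?_ ?_ ?_
    | refine tf_op ?_ ?_ ?_ ?_
    | refine tf_leCard ?_ ?_
    | refine Tf.inf ?_ ?_
    | refine Tf.sup ?_ ?_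
    | refine Tf.bihimp ?_ ?_
    | refine Tf.himp ?_ ?_
    | refine Tf.compl ?_
    | refine Tf.iInf ?_
    | refine Tf.iSup ?_

theorem tf_isInj {s1 s2 s3 : V → BName B}
    {s1' s2' s3' : V' → Ml G}
    (h1 : Mor G s1 s1') (h2 : Mor G s2 s2') (h3 : Mor G s3 s3') :
    Tf G (fun v => isInj (VB B) (s1 v) (s2 v) (s3 v))
      (fun v' => isInj (QS G) (s1' v') (s2' v') (s3' v')) := by
  unfold isInj
  with_reducible
  repeat' first
    | exact Mor.id
    | refine Mor.snd ?_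
    | refine Mor.fst ?_
    | refine Mor.comp h1 ?_
    | refine Mor.comp h2 ?_
    | refine Mor.comp h3 ?_
    | refine Tf.mem ?_ ?_
    | refine Tf.eq ?_ ?_
    | refine tf_op ?_ ?_ ?_ ?_
    | refine Tf.inf ?_ ?_
    | refine Tf.sup ?_ ?_
    | refine Tf.bihimp ?_ ?_
    | refine Tf.himp ?_ ?_
    | refine Tf.compl ?_
    | refine Tf.iInf ?_
    | refine Tf.iSup ?_

theorem tf_isBall {s1 s2 s3 s4 s5 s6 s7 s8 : V → BName B}
    {s1' s2' s3' s4' s5' s6' s7' s8' : V' → Ml G}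
    (h1 : Mor G s1 s1') (h2 : Mor G s2 s2') (h3 : Mor G s3 s3') (h4 : Mor G s4 s4') (h5 : Mor G s5 s5') (h6 : Mor G s6 s6') (h7 : Mor G s7 s7') (h8 : Mor G s8 s8') :
    Tf G (fun v => isBall (VB B) (s1 v) (s2 v) (s3 v) (s4 v) (s5 v) (s6 v) (s7 v) (s8 v))
      (fun v' => isBall (QS G) (s1' v') (s2' v') (s3' v') (s4' v') (s5' v') (s6' v') (s7' v') (s8' v')) := by
  unfold isBall
  with_reducible
  repeat' first
    | exact Mor.id
    | refine Mor.snd ?_
    | refine Mor.fst ?_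
    | refine Mor.comp h1 ?_
    | refine Mor.comp h2 ?_
    | refine Mor.comp h3 ?_
    | refine Mor.comp h4 ?_
    | refine Mor.comp h5 ?_
    | refine Mor.comp h6 ?_
    | refine Mor.comp h7 ?_
    | refine Mor.comp h8 ?_
    | refine Tf.mem ?_ ?_
    | refine Tf.eq ?_ ?_
    | refine tf_near ?_ ?_ ?_ ?_ ?_
    | refine tf_op ?_ ?_ ?_ ?_
    | refine Tf.inf ?_ ?_
    | refine Tf.sup ?_ ?_
    | refine Tf.bihimp ?_ ?_
    | refine Tf.himp ?_ ?_
    | refine Tf.compl ?_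
    | refine Tf.iInf ?_
    | refine Tf.iSup ?_

theorem tf_isInd {s1 s2 s3 s4 s5 s6 s7 s8 : V → BName B}
    {s1' s2' s3' s4' s5' s6' s7' s8' : V' → Ml G}
    (h1 : Mor G s1 s1') (h2 : Mor G s2 s2') (h3 : Mor G s3 s3') (h4 : Mor G s4 s4') (h5 : Mor G s5 s5') (h6 : Mor G s6 s6') (h7 : Mor G s7 s7') (h8 : Mor G s8 s8') :
    Tf G (fun v => isInd (VB B) (s1 v) (s2 v) (s3 v) (s4 v) (s5 v) (s6 v) (s7 v) (s8 v))
      (fun v' => isInd (QS G) (s1' v') (s2' v') (s3' v') (s4' v') (s5' v') (s6' v') (s7' v') (s8' v')) := by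
  unfold isInd
  with_reducible
  repeat' first
    | exact Mor.id
    | refine Mor.snd ?_
    | refine Mor.fst ?_
    | refine Mor.comp h1 ?_
    | refine Mor.comp h2 ?_
    | refine Mor.comp h3 ?_
    | refine Mor.comp h4 ?_
    | refine Mor.comp h5 ?_
    | refine Mor.comp h6 ?_
    | refine Mor.comp h7 ?_
    | refine Mor.comp h8 ?_
    | refine Tf.mem ?_ ?_
    | refine Tf.eq ?_ ?_
    | refine tf_isBall ?_ ?_ ?_ ?_ ?_ ?_ ?_ ?_
    | refine tf_pos ?_ ?_ ?_ ?_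
    | refine tf_fsub ?_ ?_ ?_
    | refine tf_sub ?_ ?_
    | refine Tf.inf ?_ ?_
    | refine Tf.sup ?_ ?_
    | refine Tf.bihimp ?_ ?_
    | refine Tf.himp ?_ ?_
    | refine Tf.compl ?_
    | refine Tf.iInf ?_
    | refine Tf.iSup ?_

theorem tf_isCorson {s1 s2 s3 s4 s5 s6 : V → BName B}
    {s1' s2' s3' s4' s5' s6' : V' → Ml G}
    (h1 : Mor G s1 s1') (h2 : Mor G s2 s2') (h3 : Mor G s3 s3') (h4 : Mor G s4 s4') (h5 : Mor G s5 s5') (h6 : Mor G s6 s6') :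
    Tf G (fun v => isCorson (VB B) (s1 v) (s2 v) (s3 v) (s4 v) (s5 v) (s6 v))
      (fun v' => isCorson (QS G) (s1' v') (s2' v') (s3' v') (s4' v') (s5' v') (s6' v')) := by
  unfold isCorson
  with_reducible
  repeat' first
    | exact Mor.id
    | refine Mor.snd ?_
    | refine Mor.fst ?_
    | refine Mor.comp h1 ?_
    | refine Mor.comp h2 ?_
    | refine Mor.comp h3 ?_
    | refine Mor.comp h4 ?_
    | refine Mor.comp h5 ?_
    | refine Mor.comp h6 ?_
    | refine Tf.mem ?_ ?_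
    | refine Tf.eq ?_ ?_
    | refine tf_isInd ?_ ?_ ?_ ?_ ?_ ?_ ?_ ?_
    | refine tf_isInj ?_ ?_ ?_
    | refine tf_isSig ?_ ?_ ?_ ?_ ?_ ?_
    | refine tf_isMap ?_ ?_ ?_ ?_
    | refine Tf.inf ?_ ?_
    | refine Tf.sup ?_ ?_
    | refine Tf.bihimp ?_ ?_
    | refine Tf.himp ?_ ?_
    | refine Tf.compl ?_
    | refine Tf.iInf ?_
    | refine Tf.iSup ?_

theorem tf_isOp {s1 s2 s3 s4 s5 s6 s7 s8 : V → BName B}
    {s1' s2' s3' s4' s5' s6' s7' s8' : V' → Ml G}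
    (h1 : Mor G s1 s1') (h2 : Mor G s2 s2') (h3 : Mor G s3 s3') (h4 : Mor G s4 s4') (h5 : Mor G s5 s5') (h6 : Mor G s6 s6') (h7 : Mor G s7 s7') (h8 : Mor G s8 s8') :
    Tf G (fun v => isOp (VB B) (s1 v) (s2 v) (s3 v) (s4 v) (s5 v) (s6 v) (s7 v) (s8 v))
      (fun v' => isOp (QS G) (s1' v') (s2' v') (s3' v') (s4' v') (s5' v') (s6' v') (s7' v') (s8' v')) := by
  unfold isOp
  with_reducible
  repeat' first
    | exact Mor.id
    | refine Mor.snd ?_
    | refine Mor.fst ?_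
    | refine Mor.comp h1 ?_
    | refine Mor.comp h2 ?_
    | refine Mor.comp h3 ?_
    | refine Mor.comp h4 ?_
    | refine Mor.comp h5 ?_
    | refine Mor.comp h6 ?_
    | refine Mor.comp h7 ?_
    | refine Mor.comp h8 ?_
    | refine Tf.mem ?_ ?_
    | refine Tf.eq ?_ ?_
    | refine tf_isCont ?_ ?_ ?_ ?_ ?_ ?_
    | refine tf_rel ?_ ?_ ?_
    | refine Tf.inf ?_ ?_
    | refine Tf.sup ?_ ?_
    | refine Tf.bihimp ?_ ?_
    | refine Tf.himp ?_ ?_
    | refine Tf.compl ?_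
    | refine Tf.iInf ?_
    | refine Tf.iSup ?_

theorem tf_isLinear {s1 s2 s3 s4 s5 s6 s7 s8 : V → BName B}
    {s1' s2' s3' s4' s5' s6' s7' s8' : V' → Ml G}
    (h1 : Mor G s1 s1') (h2 : Mor G s2 s2') (h3 : Mor G s3 s3') (h4 : Mor G s4 s4') (h5 : Mor G s5 s5') (h6 : Mor G s6 s6') (h7 : Mor G s7 s7') (h8 : Mor G s8 s8') :
    Tf G (fun v => isLinear (VB B) (s1 v) (s2 v) (s3 v) (s4 v) (s5 v) (s6 v) (s7 v) (s8 v))
      (fun v' => isLinear (QS G) (s1' v') (s2' v') (s3' v') (s4' v') (s5' v') (s6' v') (s7' v') (s8' v')) := by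
  unfold isLinear
  with_reducible
  repeat' first
    | exact Mor.id
    | refine Mor.snd ?_
    | refine Mor.fst ?_
    | refine Mor.comp h1 ?_
    | refine Mor.comp h2 ?_
    | refine Mor.comp h3 ?_
    | refine Mor.comp h4 ?_
    | refine Mor.comp h5 ?_
    | refine Mor.comp h6 ?_
    | refine Mor.comp h7 ?_
    | refine Mor.comp h8 ?_
    | refine Tf.mem ?_ ?_
    | refine Tf.eq ?_ ?_
    | refine tf_isMul ?_ ?_ ?_ ?_ ?_
    | refine tf_isSum ?_ ?_ ?_ ?_ ?_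
    | refine tf_isCont ?_ ?_ ?_ ?_ ?_ ?_
    | refine tf_rel ?_ ?_ ?_
    | refine Tf.inf ?_ ?_
    | refine Tf.sup ?_ ?_
    | refine Tf.bihimp ?_ ?_
    | refine Tf.himp ?_ ?_
    | refine Tf.compl ?_
    | refine Tf.iInf ?_
    | refine Tf.iSup ?_

theorem tf_isIso {s1 s2 s3 s4 s5 s6 s7 s8 s9 : V → BName B}
    {s1' s2' s3' s4' s5' s6' s7' s8' s9' : V' → Ml G}
    (h1 : Mor G s1 s1') (h2 : Mor G s2 s2') (h3 : Mor G s3 s3') (h4 : Mor G s4 s4') (h5 : Mor G s5 s5') (h6 : Mor G s6 s6') (h7 : Mor G s7 s7') (h8 : Mor G s8 s8') (h9 : Mor G s9 s9') :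
    Tf G (fun v => isIso (VB B) (s1 v) (s2 v) (s3 v) (s4 v) (s5 v) (s6 v) (s7 v) (s8 v) (s9 v))
      (fun v' => isIso (QS G) (s1' v') (s2' v') (s3' v') (s4' v') (s5' v') (s6' v') (s7' v') (s8' v') (s9' v')) := by
  unfold isIso
  with_reducible
  repeat' first
    | exact Mor.id
    | refine Mor.snd ?_
    | refine Mor.fst ?_
    | refine Mor.comp h1 ?_
    | refine Mor.comp h2 ?_
    | refine Mor.comp h3 ?_
    | refine Mor.comp h4 ?_
    | refine Mor.comp h5 ?_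
    | refine Mor.comp h6 ?_
    | refine Mor.comp h7 ?_
    | refine Mor.comp h8 ?_
    | refine Mor.comp h9 ?_
    | refine Tf.mem ?_ ?_
    | refine Tf.eq ?_ ?_
    | refine tf_bdd ?_ ?_ ?_ ?_ ?_ ?_
    | refine tf_isCont ?_ ?_ ?_ ?_ ?_ ?_
    | refine tf_op ?_ ?_ ?_ ?_
    | refine tf_rel ?_ ?_ ?_
    | refine Tf.inf ?_ ?_
    | refine Tf.sup ?_ ?_
    | refine Tf.bihimp ?_ ?_
    | refine Tf.himp ?_ ?_
    | refine Tf.compl ?_
    | refine Tf.iInf ?_
    | refine Tf.iSup ?_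

theorem tf_isEmb {s1 s2 s3 s4 s5 s6 s7 s8 : V → BName B}
    {s1' s2' s3' s4' s5' s6' s7' s8' : V' → Ml G}
    (h1 : Mor G s1 s1') (h2 : Mor G s2 s2') (h3 : Mor G s3 s3') (h4 : Mor G s4 s4') (h5 : Mor G s5 s5') (h6 : Mor G s6 s6') (h7 : Mor G s7 s7') (h8 : Mor G s8 s8') :
    Tf G (fun v => isEmb (VB B) (s1 v) (s2 v) (s3 v) (s4 v) (s5 v) (s6 v) (s7 v) (s8 v))
      (fun v' => isEmb (QS G) (s1' v') (s2' v') (s3' v') (s4' v') (s5' v') (s6' v') (s7' v') (s8' v')) := by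
  unfold isEmb
  with_reducible
  repeat' first
    | exact Mor.id
    | refine Mor.snd ?_
    | refine Mor.fst ?_
    | refine Mor.comp h1 ?_
    | refine Mor.comp h2 ?_
    | refine Mor.comp h3 ?_
    | refine Mor.comp h4 ?_
    | refine Mor.comp h5 ?_
    | refine Mor.comp h6 ?_
    | refine Mor.comp h7 ?_
    | refine Mor.comp h8 ?_
    | refine Tf.mem ?_ ?_
    | refine Tf.eq ?_ ?_
    | refine tf_isIso ?_ ?_ ?_ ?_ ?_ ?_ ?_ ?_ ?_
    | refine tf_isLinear ?_ ?_ ?_ ?_ ?_ ?_ ?_ ?_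
    | refine tf_isOp ?_ ?_ ?_ ?_ ?_ ?_ ?_ ?_
    | refine Tf.inf ?_ ?_
    | refine Tf.sup ?_ ?_
    | refine Tf.bihimp ?_ ?_
    | refine Tf.himp ?_ ?_
    | refine Tf.compl ?_
    | refine Tf.iInf ?_
    | refine Tf.iSup ?_

theorem tf_amn :
    Tf G (fun _ : PUnit.{u + 2} => AMN (VB B)) (fun _ => AMN (QS G)) := by
  unfold AMN
  with_reducible
  repeat' first
    | exact Mor.id
    | refine Mor.snd ?_
    | refine Mor.fst ?_
    | refine Tf.mem ?_ ?_
    | refine Tf.eq ?_ ?_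
    | refine tf_isEmb ?_ ?_ ?_ ?_ ?_ ?_ ?_ ?_
    | refine tf_isCorson ?_ ?_ ?_ ?_ ?_ ?_
    | refine tf_isCH ?_ ?_ ?_
    | refine tf_isCOF ?_ ?_ ?_ ?_
    | refine tf_isOm ?_
    | refine Tf.inf ?_ ?_
    | refine Tf.sup ?_ ?_
    | refine Tf.bihimp ?_ ?_
    | refine Tf.himp ?_ ?_
    | refine Tf.compl ?_
    | refine Tf.iInf ?_
    | refine Tf.iSup ?_

/-- TR. -/
theorem tr : TRStatement := by
  intro B _ G hG
  have : Fact (IsUlt G) := ⟨hG⟩
  exact (tf_amn (G := G)).tr PUnit.unit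

end Pool.Agent.Lib.MP_9ea9ae_an.V.TR
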