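import Pool.Agent.Lib.MP_9ea9ae_an.V.Base

/-!
# UC: uniform continuity
-/

open scoped symmDiff

namespace Pool.Agent.Lib.MP_9ea9ae_an.V

open Pool.Agent.Lib.MP_9ea9ae_an

namespace UC

variable {B : Type} [CompleteBooleanAlgebra B] {Ω : Type}

/-- `F'` determines `u` up to `e` on the part of `c` given by the values of `κ` on `F`. -/
def Q (c : Pt Ω B → B) (u : Pt Ω B → ℝ → B) (e : ℝ) (F F' : Finset (Om Ω)) (κ : Pt Ω B) : B :=
  ⨅ κ1, ⨅ κ2, ⨅ x1, ⨅ x2, c κ1 ⊓ c κ2 ⊓ agree F κ κ1 ⊓ agree F κ κ2 ⊓ agree F' κ1 κ2 ⊓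
    u κ1 x1 ⊓ u κ2 x2 ⇨ tv (|x1 - x2| < e)

variable {c : Pt Ω B → B} {u : Pt Ω B → ℝ → B} {e : ℝ} {F F' : Finset (Om Ω)} {κ : Pt Ω B}

theorem le_Q {Γ : B} (h : ∀ κ1 κ2 x1 x2, Γ ⊓ (c κ1 ⊓ c κ2 ⊓ agree F κ κ1 ⊓ agree F κ κ2 ⊓
    agree F' κ1 κ2 ⊓ u κ1 x1 ⊓ u κ2 x2) ≤ tv (|x1 - x2| < e)) : Γ ≤ Q c u e F F' κ :=
  le_iInf fun κ1 => le_iInf fun κ2 => le_iInf fun x1 => le_iInf fun x2 =>
    le_himp_iff.2 (h κ1 κ2 x1 x2)

theorem Q_le (κ1 κ2 : Pt Ω B) (x1 x2 : ℝ) : Q c u e F F' κ ⊓ (c κ1 ⊓ c κ2 ⊓ agree F κ κ1 ⊓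
    agree F κ κ2 ⊓ agree F' κ1 κ2 ⊓ u κ1 x1 ⊓ u κ2 x2) ≤ tv (|x1 - x2| < e) := by
  rw [← le_himp_iff]
  exact (iInf_le _ κ1).trans ((iInf_le _ κ2).trans ((iInf_le _ x1).trans (iInf_le _ x2)))

/-- Comparison of the determinations: the premises may be weakened. -/
theorem Q_mono {Γ : B} {G G' : Finset (Om Ω)} {κ' : Pt Ω B}
    (h : ∀ κ1 : Pt Ω B, Γ ⊓ agree G κ' κ1 ≤ agree F κ κ1)
    (h' : ∀ κ1 κ2 : Pt Ω B, agree G' κ1 κ2 ≤ agree F' κ1 κ2) :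
    Γ ⊓ Q c u e F F' κ ≤ Q c u e G G' κ' := by
  refine le_Q fun κ1 κ2 x1 x2 => le_trans ?_ (Q_le (c := c) (u := u) (F := F) (F' := F') (κ := κ) κ1 κ2 x1 x2)
  refine le_inf (inf_le_left.trans inf_le_right) ?_
  have hΓ : Γ ⊓ Q c u e F F' κ ⊓ (c κ1 ⊓ c κ2 ⊓ agree G κ' κ1 ⊓ agree G κ' κ2 ⊓ agree G' κ1 κ2 ⊓
      u κ1 x1 ⊓ u κ2 x2) ≤ Γ := inf_le_left.trans inf_le_left
  have hX : Γ ⊓ Q c u e F F' κ ⊓ (c κ1 ⊓ c κ2 ⊓ agree G κ' κ1 ⊓ agree G κ' κ2 ⊓ agree G' κ1 κ2 ⊓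
      u κ1 x1 ⊓ u κ2 x2) ≤ c κ1 ⊓ c κ2 ⊓ agree G κ' κ1 ⊓ agree G κ' κ2 ⊓ agree G' κ1 κ2 ⊓
      u κ1 x1 ⊓ u κ2 x2 := inf_le_right
  have h7 := hX.trans inf_le_right
  have hX6 := hX.trans inf_le_left
  have h6 := hX6.trans inf_le_right
  have hX5 := hX6.trans inf_le_left
  have h5 := hX5.trans inf_le_right
  have hX4 := hX5.trans inf_le_left
  have h4 := hX4.trans inf_le_right
  have hX3 := hX4.trans inf_le_left
  have h3 := hX3.trans inf_le_right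
  have hX2 := hX3.trans inf_le_left
  exact le_inf (le_inf (le_inf (le_inf (le_inf hX2 ((le_inf hΓ h3).trans (h κ1)))
    ((le_inf hΓ h4).trans (h κ2))) (h5.trans (h' κ1 κ2))) h6) h7

/-- The property of the abstract compactness lemma. -/
def P (c : Pt Ω B → B) (u : Pt Ω B → ℝ → B) (e : ℝ) (F : Finset (Om Ω)) (κ : Pt Ω B) : B :=
  ⨆ F', Q c u e F F' κ

theorem P1 (F : Finset (Om Ω)) (κ κ' : Pt Ω B) : agree F κ κ' ⊓ P c u e F κ ≤ P c u e F κ' := by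
  unfold P
  rw [inf_iSup_eq]
  exact iSup_mono fun F' => Q_mono (fun κ1 => agree_trans F κ κ' κ1) fun _ _ => le_rfl

theorem P2 (F G : Finset (Om Ω)) (κ : Pt Ω B) (h : F ⊆ G) : P c u e F κ ≤ P c u e G κ := by
  refine iSup_mono fun F' => ?_
  refine le_trans (le_inf le_top le_rfl) (Q_mono (Γ := ⊤) (fun κ1 => ?_) fun _ _ => le_rfl)
  exact inf_le_right.trans (agree_mono h _ _)

theorem agree_upd [DecidableEq (Om Ω)] {F : Finset (Om Ω)} {o : Om Ω} (ho : o ∉ F)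
    (κ κ1 : Pt Ω B) (b : B) :
    (b ⇔ κ1 o) ⊓ agree F κ κ1 ≤ agree (insert o F) (Function.update κ o b) κ1 := by
  rw [agree_insert, Function.update_self]
  refine inf_le_inf_left _ (le_agree fun o' ho' => ?_)
  have hne : o' ≠ o := fun h => ho (h ▸ ho')
  rw [Function.update_of_ne hne]
  exact agree_le κ κ1 ho'

theorem P3 [DecidableEq (Om Ω)] (F : Finset (Om Ω)) (κ : Pt Ω B) (o : Om Ω) (ho : o ∉ F) :
    P c u e (insert o F) (Function.update κ o ⊤) ⊓ P c u e (insert o F) (Function.update κ o ⊥) ≤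
      P c u e F κ := by
  unfold P
  rw [iSup_inf_iSup]
  refine iSup_le fun q => ?_
  obtain ⟨F1, F2⟩ := q
  refine le_trans ?_ (le_iSup _ (insert o (F1 ∪ F2)))
  refine le_Q fun κ1 κ2 x1 x2 => ?_
  set X := c κ1 ⊓ c κ2 ⊓ agree F κ κ1 ⊓ agree F κ κ2 ⊓ agree (insert o (F1 ∪ F2)) κ1 κ2 ⊓
    u κ1 x1 ⊓ u κ2 x2 with hXdef
  have hX : X ≤ c κ1 ⊓ c κ2 ⊓ agree F κ κ1 ⊓ agree F κ κ2 ⊓ agree (insert o (F1 ∪ F2)) κ1 κ2 ⊓
    u κ1 x1 ⊓ u κ2 x2 := le_rfl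
  have h7 := hX.trans inf_le_right
  have hX6 := hX.trans inf_le_left
  have h6 := hX6.trans inf_le_right
  have hX5 := hX6.trans inf_le_left
  have h5 := hX5.trans inf_le_right
  have hX4 := hX5.trans inf_le_left
  have h4 := hX4.trans inf_le_right
  have hX3 := hX4.trans inf_le_left
  have h3 := hX3.trans inf_le_right
  have hX2 := hX3.trans inf_le_left
  have h5o : X ≤ (κ1 o ⇔ κ2 o) := h5.trans (agree_le _ _ (Finset.mem_insert_self _ _))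
  have h51 : X ≤ agree F1 κ1 κ2 := h5.trans
    (agree_mono (Finset.subset_union_left.trans (Finset.subset_insert _ _)) _ _)
  have h52 : X ≤ agree F2 κ1 κ2 := h5.trans
    (agree_mono (Finset.subset_union_right.trans (Finset.subset_insert _ _)) _ _)
  have key : ∀ (b : B) (G : Finset (Om Ω)) (Γ : B), Γ ≤ Q c u e (insert o F) G
      (Function.update κ o b) → Γ ≤ X → Γ ≤ agree G κ1 κ2 → Γ ≤ (b ⇔ κ1 o) →
      Γ ≤ tv (|x1 - x2| < e) := by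
    intro b G Γ hQ hΓ hG hb
    refine le_trans ?_ (Q_le (c := c) (u := u) (F := insert o F) (F' := G) (κ := Function.update κ o b) κ1 κ2 x1 x2)
    have hb2 : Γ ≤ (b ⇔ κ2 o) := (le_inf hb (hΓ.trans h5o)).trans bihimp_trans
    exact le_inf hQ (le_inf (le_inf (le_inf (le_inf (le_inf (hΓ.trans hX2)
      ((le_inf hb (hΓ.trans h3)).trans (agree_upd ho κ κ1 b)))
      ((le_inf hb2 (hΓ.trans h4)).trans (agree_upd ho κ κ2 b))) hG) (hΓ.trans h6))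
      (hΓ.trans h7))
  refine le_cases (κ1 o) ?_ ?_
  · refine key ⊤ F1 _ ?_ ?_ ?_ ?_
    · exact inf_le_left.trans (inf_le_left.trans inf_le_left)
    · exact inf_le_left.trans inf_le_right
    · exact inf_le_left.trans (inf_le_right.trans h51)
    · rw [top_bihimp]
      exact inf_le_right
  · refine key ⊥ F2 _ ?_ ?_ ?_ ?_
    · exact inf_le_left.trans (inf_le_left.trans inf_le_right)
    · exact inf_le_left.trans inf_le_right
    · exact inf_le_left.trans (inf_le_right.trans h52)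
    · rw [bot_bihimp]
      exact inf_le_right

theorem P4 (hc : Clo c) (he : 0 < e) (κ : Pt Ω B) : fnT c u ≤ ⨆ F, P c u e F κ := by
  refine le_cases (c κ) ?_ ?_
  · refine le_iSup_cases' (fnT_tot κ) fun x => ?_
    have h1 : fnT c u ⊓ c κ ⊓ u κ x ≤ ⨆ F : Finset (Om Ω), ⨅ κ', ⨅ x',
        c κ' ⊓ agree F κ κ' ⊓ u κ' x' ⇨ tv (|x' - x| < e / 2) := by
      rw [inf_assoc]
      exact fnT_cn κ x (half_pos he)
    refine h1.trans (iSup_mono fun F => le_trans ?_ (le_iSup _ ∅))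
    refine le_Q fun κ1 κ2 x1 x2 => ?_
    refine le_tv_of fun hne => ?_
    have hcase : ¬ (|x1 - x| < e / 2) ∨ ¬ (|x2 - x| < e / 2) := by
      by_contra hcon
      push Not at hcon
      apply hne
      have e1 := abs_lt.1 hcon.1
      have e2 := abs_lt.1 hcon.2
      rw [abs_lt]
      constructor <;> linarith [e1.1, e1.2, e2.1, e2.2]
    set X := c κ1 ⊓ c κ2 ⊓ agree F κ κ1 ⊓ agree F κ κ2 ⊓ agree ∅ κ1 κ2 ⊓
      u κ1 x1 ⊓ u κ2 x2 with hXdef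
    have hX : X ≤ c κ1 ⊓ c κ2 ⊓ agree F κ κ1 ⊓ agree F κ κ2 ⊓ agree ∅ κ1 κ2 ⊓
      u κ1 x1 ⊓ u κ2 x2 := le_rfl
    have h7 := hX.trans inf_le_right
    have hX6 := hX.trans inf_le_left
    have h6 := hX6.trans inf_le_right
    have hX5 := hX6.trans inf_le_left
    have hX4 := hX5.trans inf_le_left
    have h4 := hX4.trans inf_le_right
    have hX3 := hX4.trans inf_le_left
    have h3 := hX3.trans inf_le_right
    have hX2 := hX3.trans inf_le_left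
    have key : ∀ (κ' : Pt Ω B) (x' : ℝ), X ≤ c κ' ⊓ agree F κ κ' ⊓ u κ' x' →
        ¬ (|x' - x| < e / 2) → (⨅ κ', ⨅ x', c κ' ⊓ agree F κ κ' ⊓ u κ' x' ⇨
          (tv (|x' - x| < e / 2) : B)) ⊓ X ≤ ⊥ := by
      intro κ' x' h hn
      have h0 : (⨅ κ', ⨅ x', c κ' ⊓ agree F κ κ' ⊓ u κ' x' ⇨
          (tv (|x' - x| < e / 2) : B)) ≤ c κ' ⊓ agree F κ κ' ⊓ u κ' x' ⇨
          tv (|x' - x| < e / 2) := (iInf_le _ κ').trans (iInf_le _ x')
      refine (inf_le_inf h0 h).trans (himp_inf_le.trans ?_)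
      rw [tv_neg hn]
    rcases hcase with hn | hn
    · exact key κ1 x1 (le_inf (le_inf (hX2.trans inf_le_left) h3) h6) hn
    · exact key κ2 x2 (le_inf (le_inf (hX2.trans inf_le_right) h4) h7) hn
  · refine inf_le_right.trans ((hc.clo κ).trans (iSup_mono fun F => le_trans ?_ (le_iSup _ ∅)))
    refine le_Q fun κ1 κ2 x1 x2 => le_trans ?_ bot_le
    refine (inf_le_inf (iInf_le _ κ1) (inf_le_left.trans (inf_le_left.trans
      (inf_le_left.trans (inf_le_left.trans le_rfl))))).trans ?_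
    have h1 : (agree F κ κ1 ⇨ (c κ1)ᶜ) ⊓ (c κ1 ⊓ c κ2 ⊓ agree F κ κ1) ≤ (c κ1)ᶜ ⊓ c κ1 :=
      le_inf ((inf_le_inf_left _ inf_le_right).trans himp_inf_le)
        (inf_le_right.trans (inf_le_left.trans inf_le_left))
    exact h1.trans (compl_inf_self _).le

end UC

/-- UC. -/
theorem uc' (hAC : ACStatement) : UCStatement := by
  intro B Ω _ c hc u _ e he
  classical
  refine (hAC B Ω (UC.P c u e) (fnT c u) UC.P1 (fun F F' κ h => UC.P2 F F' κ h)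
    (fun F κ o ho => UC.P3 F κ o ho) (UC.P4 hc he) em).trans ?_
  refine iSup_mono fun F' => ?_
  refine le_iInf fun κ1 => le_iInf fun κ2 => le_iInf fun x1 => le_iInf fun x2 => ?_
  rw [le_himp_iff]
  refine le_trans (inf_le_inf_left _ ?_) (UC.Q_le (c := c) (u := u) (F := ∅) (F' := F') (κ := em) κ1 κ2 x1 x2)
  rw [agree_empty, agree_empty, inf_top_eq, inf_top_eq]

end Pool.Agent.Lib.MP_9ea9ae_an.V
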