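import Pool.Agent.Lib.MP_9ea9ae_an.V.Base

/-!
# Module ZR: a continuous function which vanishes at the nodes vanishes
-/

open scoped symmDiff

namespace Pool.Agent.Lib.MP_9ea9ae_an.V.ZR

open Pool.Agent.Lib.MP_9ea9ae_an Pool.Agent.Lib.MP_9ea9ae_an.V

theorem wB_mem {B Ω : Type} [CompleteBooleanAlgebra B] (D : Ω → Br → B) (s : T) :
    clK D (wB D s) = ⊤ := by
  refine top_le_iff.1 (le_iInf fun F => ?_)
  exact le_trans (agree_refl F (wB D s)).ge (le_iSup (fun s' => agree F (wB D s) (wB D s')) s)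

theorem zr : ZRStatement := by
  intro B Ω _ D u _
  refine le_iInf fun κ => ?_
  rw [le_himp_iff]
  obtain ⟨Γ, hΓ⟩ : ∃ Γ, Γ = fnT (clK D) u ⊓ (⨅ s : T, u (wB D s) 0) ⊓ clK D κ := ⟨_, rfl⟩
  rw [← hΓ]
  have g1 : Γ ≤ fnT (clK D) u := by rw [hΓ]; exact inf_le_left.trans inf_le_left
  have g2 : Γ ≤ ⨅ s : T, u (wB D s) 0 := by rw [hΓ]; exact inf_le_left.trans inf_le_right
  have g3 : Γ ≤ clK D κ := by rw [hΓ]; exact inf_le_right
  refine le_iSup_cases' ((le_inf g1 g3).trans (fnT_tot κ)) fun x => ?_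
  by_cases hx : x = 0
  · rw [hx]; exact inf_le_right
  refine le_trans ?_ bot_le
  have hpos : 0 < |x| := abs_pos.2 hx
  refine le_iSup_cases' ((le_inf (inf_le_left.trans g1)
    (le_inf (inf_le_left.trans g3) inf_le_right)).trans (fnT_cn κ x hpos)) fun F => ?_
  have h1 : Γ ⊓ u κ x ⊓ (⨅ κ', ⨅ x', clK D κ' ⊓ agree F κ κ' ⊓ u κ' x' ⇨ tv (|x' - x| < |x|)) ≤
      ⨆ s : T, agree F κ (wB D s) :=
    inf_le_left.trans (inf_le_left.trans (g3.trans (iInf_le _ F)))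
  refine le_iSup_cases' h1 fun s => ?_
  have h2 : Γ ⊓ u κ x ⊓ (⨅ κ', ⨅ x', clK D κ' ⊓ agree F κ κ' ⊓ u κ' x' ⇨ tv (|x' - x| < |x|)) ⊓
      agree F κ (wB D s) ≤ tv (|0 - x| < |x|) := by
    refine le_trans (le_inf (inf_le_left.trans (inf_le_right.trans ((iInf_le _ (wB D s)).trans
      (iInf_le _ 0)))) ?_) himp_inf_le
    refine le_inf (le_inf ?_ inf_le_right) ?_
    · rw [wB_mem]; exact le_top
    · exact inf_le_left.trans (inf_le_left.trans (inf_le_left.trans (g2.trans (iInf_le _ s))))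
  refine h2.trans ?_
  rw [tv_neg (by rw [zero_sub, abs_neg]; exact lt_irrefl _)]

end Pool.Agent.Lib.MP_9ea9ae_an.V.ZR
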