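import Pool.Agent.Lib.MP_9ea9ae_an.V.AC
import Pool.Agent.Lib.MP_9ea9ae_an.V.BRA
import Pool.Agent.Lib.MP_9ea9ae_an.V.C1
import Pool.Agent.Lib.MP_9ea9ae_an.V.C2
import Pool.Agent.Lib.MP_9ea9ae_an.V.C3
import Pool.Agent.Lib.MP_9ea9ae_an.V.CK
import Pool.Agent.Lib.MP_9ea9ae_an.V.CL
import Pool.Agent.Lib.MP_9ea9ae_an.V.CLK
import Pool.Agent.Lib.MP_9ea9ae_an.V.CLL
import Pool.Agent.Lib.MP_9ea9ae_an.V.CM
import Pool.Agent.Lib.MP_9ea9ae_an.V.CONE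
import Pool.Agent.Lib.MP_9ea9ae_an.V.CS
import Pool.Agent.Lib.MP_9ea9ae_an.V.E0
import Pool.Agent.Lib.MP_9ea9ae_an.V.E1
import Pool.Agent.Lib.MP_9ea9ae_an.V.E2h15
import Pool.Agent.Lib.MP_9ea9ae_an.V.E3
import Pool.Agent.Lib.MP_9ea9ae_an.V.E4
import Pool.Agent.Lib.MP_9ea9ae_an.V.E5
import Pool.Agent.Lib.MP_9ea9ae_an.V.E6
import Pool.Agent.Lib.MP_9ea9ae_an.V.EM
import Pool.Agent.Lib.MP_9ea9ae_an.V.F1
import Pool.Agent.Lib.MP_9ea9ae_an.V.F2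
import Pool.Agent.Lib.MP_9ea9ae_an.V.F3
import Pool.Agent.Lib.MP_9ea9ae_an.V.F4
import Pool.Agent.Lib.MP_9ea9ae_an.V.FI
import Pool.Agent.Lib.MP_9ea9ae_an.V.FIN
import Pool.Agent.Lib.MP_9ea9ae_an.V.GN
import Pool.Agent.Lib.MP_9ea9ae_an.V.GQ
import Pool.Agent.Lib.MP_9ea9ae_an.V.GR
import Pool.Agent.Lib.MP_9ea9ae_an.V.HT
import Pool.Agent.Lib.MP_9ea9ae_an.V.KB
import Pool.Agent.Lib.MP_9ea9ae_an.V.KC
import Pool.Agent.Lib.MP_9ea9ae_an.V.N1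
import Pool.Agent.Lib.MP_9ea9ae_an.V.N2
import Pool.Agent.Lib.MP_9ea9ae_an.V.N3
import Pool.Agent.Lib.MP_9ea9ae_an.V.NC
import Pool.Agent.Lib.MP_9ea9ae_an.V.NL
import Pool.Agent.Lib.MP_9ea9ae_an.V.P1
import Pool.Agent.Lib.MP_9ea9ae_an.V.P2
import Pool.Agent.Lib.MP_9ea9ae_an.V.P3
import Pool.Agent.Lib.MP_9ea9ae_an.V.P4
import Pool.Agent.Lib.MP_9ea9ae_an.V.P5
import Pool.Agent.Lib.MP_9ea9ae_an.V.QG
import Pool.Agent.Lib.MP_9ea9ae_an.V.RO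
import Pool.Agent.Lib.MP_9ea9ae_an.V.RP
import Pool.Agent.Lib.MP_9ea9ae_an.V.SB
import Pool.Agent.Lib.MP_9ea9ae_an.V.TA
import Pool.Agent.Lib.MP_9ea9ae_an.V.TR
import Pool.Agent.Lib.MP_9ea9ae_an.V.UC
import Pool.Agent.Lib.MP_9ea9ae_an.V.ZR

/-!
# Assembly
-/

namespace Pool.Agent.Lib.MP_9ea9ae_an.V

/-- There is a model of ZFC in which the statement (*) fails. -/
theorem final : FinStatement := by
  have hHT : HTStatement := ht
  have hSB : SBStatement := sb'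
  have hRO : ROStatement := RO.ro hHT
  have hRP : RPStatement := rp hRO hHT
  have hTA : TAStatement := ta hHT hSB
  have hFI : FIStatement := FI.fi hHT
  have hAC : ACStatement := AC.ac
  have hUC : UCStatement := uc' hAC
  have hCLK : CLKStatement := clk'
  have hCLL : CLLStatement := cll hCLK
  have hCM : CMStatement := cm hAC hSB hTA hFI
  have hCS : CSStatement := cs hCLK bra cone
  have hCL : CLStatement := CL.cl hHT hSB hTA hFI hRO hRP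
  have hP5 : P5Statement := p5 P1.p1 p3 (p4 P1.p1 P2.p2)
  have hZR : ZRStatement := ZR.zr
  have hNC : NCStatement := nc hUC hCLK kb' kc' hZR
  have hCK : CKStatement := ck hCLK hSB (N1.n1 hHT hSB hTA hFI hRO hRP) (N2.n2 hHT hSB hRO hRP)
    (n3 hHT hSB hRO hRP) hNC
  have hGR : GRStatement := GR.gr' hCLK
  have hQG : QGStatement := qg hUC hCLK
  have hGN : GNStatement := GN.gn
  have hGQ : GQStatement := gq
  have hE0 : E0Statement := E0.e0 hCLL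
  have hE1 : E1Statement := e1 hCLK hCLL hGR
  have hE2 : E2Statement := E2h15.e2 hCLK hCLL hGR hQG hGN hGQ hE1
  have hE3 : E3Statement := e3 hCLK hCLL hGR hQG hGN hGQ hE1
  have hE4 : E4Statement := e4 hCLK hCLL hGR hQG hGN hGQ hE1
  have hE5 : E5Statement := e5 hCLK hCLL hGR hQG hGN hGQ hE1
  have hE6 : E6Statement := E6.e6 hCLK hCLL hGR hQG hGN hGQ hUC kb' NL.nl hE1
  have hEM : EMStatement := EM.em hCLK hCLL hHT hSB hRO hRP (C1.c1 hHT hSB hTA hRO hRP)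
    (C2.c2 hHT hSB hTA hRO hRP) (C3.c3 hHT hSB hRO hRP) hE0 hE1 hE2 hE3 hE4 hE5 hE6
  exact fin hP5 hCLK hCLL hCS hCM hEM hCL (F1.f1 hHT hRO hRP) (F2.f2 hHT hRO hRP)
    (F3.f3 hHT hRO hRP) (f4 hHT hRO hRP) hCK TR.tr

end Pool.Agent.Lib.MP_9ea9ae_an.V
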