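import Pool.Agent.Lib.MP_9ea9ae_an.V.Iface

/-!
# Basic lemmas: truth values, agreement of points, finite decisions
-/

open scoped symmDiff

namespace Pool.Agent.Lib.MP_9ea9ae_an.V

open Pool.Agent.Lib.MP_9ea9ae_an
open Pool.Agent.Lib.MP_100a6c_lc Pool.Agent.Lib.MP_c5d73d_lc.F BName

section tv

variable {B : Type} [CompleteBooleanAlgebra B]

theorem tv_pos {p : Prop} (h : p) : (tv p : B) = ⊤ := by simp [tv, h]

theorem tv_neg {p : Prop} (h : ¬ p) : (tv p : B) = ⊥ := by simp [tv, h]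

theorem tv_true : (tv True : B) = ⊤ := tv_pos trivial

theorem tv_false : (tv False : B) = ⊥ := tv_neg id

theorem tv_inf_le_iff {p : Prop} {a b : B} : tv p ⊓ a ≤ b ↔ (p → a ≤ b) := by
  by_cases h : p <;> simp [tv_pos, tv_neg, h]

theorem inf_tv_le_iff {p : Prop} {a b : B} : a ⊓ tv p ≤ b ↔ (p → a ≤ b) := by
  rw [inf_comm, tv_inf_le_iff]

theorem tv_le_iff {p : Prop} {b : B} : tv p ≤ b ↔ (p → b = ⊤) := by
  by_cases h : p <;> simp [tv_pos, tv_neg, h]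

/-- To prove `a ≤ tv p` one may assume `¬ p`, and prove `a ≤ ⊥`. -/
theorem le_tv_of {p : Prop} {a : B} (h : ¬ p → a ≤ ⊥) : a ≤ tv p := by
  by_cases hp : p
  · simp [tv_pos hp]
  · exact (h hp).trans bot_le

theorem tv_mono {p q : Prop} (h : p → q) : (tv p : B) ≤ tv q :=
  tv_le_iff.2 fun hp => tv_pos (h hp)

theorem tv_congr {p q : Prop} (h : p ↔ q) : (tv p : B) = tv q := by rw [propext h]

theorem tv_and {p q : Prop} : (tv (p ∧ q) : B) = tv p ⊓ tv q := by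
  by_cases h : p <;> simp [tv_pos, tv_neg, h]

theorem tv_or {p q : Prop} : (tv (p ∨ q) : B) = tv p ⊔ tv q := by
  by_cases h : p <;> simp [tv_pos, tv_neg, h]

theorem tv_not {p : Prop} : (tv (¬ p) : B) = (tv p)ᶜ := by
  by_cases h : p <;> simp [tv_pos, tv_neg, h]

theorem tv_imp {p q : Prop} : (tv (p → q) : B) = tv p ⇨ tv q := by
  by_cases h : p <;> by_cases h' : q <;> simp [tv_pos, tv_neg, h, h']

theorem tv_iff {p q : Prop} : (tv (p ↔ q) : B) = tv p ⇔ tv q := by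
  by_cases h : p <;> by_cases h' : q <;> simp [tv_pos, tv_neg, h, h', bihimp]

theorem tv_forall {ι : Sort*} {p : ι → Prop} : (tv (∀ i, p i) : B) = ⨅ i, tv (p i) := by
  refine le_antisymm (le_iInf fun i => tv_mono fun h => h i) ?_
  by_cases h : ∀ i, p i
  · rw [tv_pos h]; exact le_top
  · push Not at h
    obtain ⟨i, hi⟩ := h
    exact (iInf_le _ i).trans (by rw [tv_neg hi]; exact bot_le)

theorem tv_exists {ι : Sort*} {p : ι → Prop} : (tv (∃ i, p i) : B) = ⨆ i, tv (p i) := by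
  refine le_antisymm ?_ (iSup_le fun i => tv_mono fun h => ⟨i, h⟩)
  refine tv_le_iff.2 fun ⟨i, hi⟩ => top_le_iff.1 (le_trans ?_ (le_iSup _ i))
  rw [tv_pos hi]

end tv

section bool

variable {B : Type} [CompleteBooleanAlgebra B]

theorem bihimp_inf_le {a b : B} : (a ⇔ b) ⊓ a ≤ b := by
  rw [bihimp]
  calc (b ⇨ a) ⊓ (a ⇨ b) ⊓ a ≤ (a ⇨ b) ⊓ a := inf_le_inf_right a inf_le_right
    _ ≤ b := himp_inf_le

theorem bihimp_inf_le' {a b : B} : (a ⇔ b) ⊓ b ≤ a := by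
  rw [bihimp_comm]
  exact bihimp_inf_le

theorem le_bihimp' {Γ a b : B} (h : Γ ⊓ a ≤ b) (h' : Γ ⊓ b ≤ a) : Γ ≤ a ⇔ b :=
  le_inf (le_himp_iff.2 h') (le_himp_iff.2 h)

/-- Proof by cases. -/
theorem le_cases (c : B) {a b : B} (h : a ⊓ c ≤ b) (h' : a ⊓ cᶜ ≤ b) : a ≤ b := by
  calc a = (a ⊓ c) ⊔ (a ⊓ cᶜ) := by rw [← inf_sup_left, sup_compl_eq_top, inf_top_eq]
    _ ≤ b := sup_le h h'

/-- Proof by contradiction. -/
theorem le_contra {a b : B} (h : a ⊓ bᶜ ≤ ⊥) : a ≤ b := by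
  refine le_cases b inf_le_right (h.trans bot_le)

/-- Proof by cases over a family with supremum `⊤`. -/
theorem le_iSup_cases {ι : Sort*} {c : ι → B} (hc : ⨆ i, c i = ⊤) {a b : B}
    (h : ∀ i, a ⊓ c i ≤ b) : a ≤ b := by
  calc a = a ⊓ ⨆ i, c i := by rw [hc, inf_top_eq]
    _ ≤ b := by rw [inf_iSup_eq]; exact iSup_le h

/-- Proof by cases over a family. -/
theorem le_iSup_cases' {ι : Sort*} {c : ι → B} {a b : B} (hc : a ≤ ⨆ i, c i)
    (h : ∀ i, a ⊓ c i ≤ b) : a ≤ b := by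
  calc a ≤ a ⊓ ⨆ i, c i := le_inf le_rfl hc
    _ ≤ b := by rw [inf_iSup_eq]; exact iSup_le h

open Classical in
/-- Finite distributivity. -/
theorem fin_distr {I Y : Type} [Nonempty Y] (F : Finset I) (a : I → Y → B) (Γ : B)
    (h : ∀ i ∈ F, Γ ≤ ⨆ y, a i y) : Γ ≤ ⨆ f : I → Y, ⨅ i : I, ⨅ _ : i ∈ F, a i (f i) := by
  induction F using Finset.induction_on with
  | empty =>
    refine le_trans le_top (le_trans ?_ (le_iSup _ (fun _ => Classical.arbitrary Y)))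
    simp
  | insert j F hj ih =>
    have h1 := ih fun i hi => h i (Finset.mem_insert_of_mem hi)
    refine le_iSup_cases' h1 fun f => ?_
    refine le_iSup_cases' (inf_le_left.trans (h j (Finset.mem_insert_self j F))) fun y => ?_
    refine le_trans ?_ (le_iSup _ (Function.update f j y))
    refine le_iInf fun i => le_iInf fun hi => ?_
    by_cases hij : i = j
    · subst hij
      rw [Function.update_self]
      exact inf_le_right
    · rw [Function.update_of_ne hij]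
      refine inf_le_left.trans (inf_le_right.trans ?_)
      exact (iInf_le _ i).trans (iInf_le _ ((Finset.mem_insert.1 hi).resolve_left hij))

/-- Countable distributivity, for countable index types. -/
theorem distr_countable (hB : Distr B) {I Y : Type} [Countable I] [Nonempty Y] (a : I → Y → B)
    (Γ : B) (h : ∀ i, Γ ≤ ⨆ y, a i y) : Γ ≤ ⨆ f : I → Y, ⨅ i : I, a i (f i) := by
  obtain ⟨e, he⟩ := Countable.exists_injective_nat I
  classical
  let b : ℕ → Y → B := fun n y => ⨅ i : I, ⨅ _ : e i = n, a i y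
  have h1 : Γ ≤ ⨅ n, ⨆ y, b n y := by
    refine le_iInf fun n => ?_
    by_cases hn : ∃ i, e i = n
    · obtain ⟨i, rfl⟩ := hn
      refine (h i).trans (iSup_mono fun y => ?_)
      refine le_iInf fun j => le_iInf fun hj => ?_
      rw [he hj]
    · refine le_trans le_top (le_trans ?_ (le_iSup _ (Classical.arbitrary Y)))
      simp only [b]
      refine le_iInf fun i => le_iInf fun hi => ?_
      exact absurd ⟨i, hi⟩ hn
  refine (h1.trans (hB Y b)).trans (iSup_le fun f => ?_)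
  refine le_trans ?_ (le_iSup _ fun i => f (e i))
  refine le_iInf fun i => (iInf_le _ (e i)).trans ?_
  exact (iInf_le _ i).trans (iInf_le _ rfl)

end bool

section agree

variable {B : Type} [CompleteBooleanAlgebra B] {Ω : Type}

theorem agree_le {F : Finset (Om Ω)} (κ κ' : Pt Ω B) {o : Om Ω} (ho : o ∈ F) :
    agree F κ κ' ≤ (κ o ⇔ κ' o) := (iInf_le _ o).trans (iInf_le _ ho)

theorem le_agree {F : Finset (Om Ω)} {κ κ' : Pt Ω B} {Γ : B} (h : ∀ o ∈ F, Γ ≤ (κ o ⇔ κ' o)) :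
    Γ ≤ agree F κ κ' := le_iInf fun o => le_iInf fun ho => h o ho

theorem agree_refl (F : Finset (Om Ω)) (κ : Pt Ω B) : agree F κ κ = ⊤ :=
  top_le_iff.1 (le_agree fun _ _ => by simp)

theorem agree_comm (F : Finset (Om Ω)) (κ κ' : Pt Ω B) : agree F κ κ' = agree F κ' κ := by
  simp only [agree, bihimp_comm]

theorem bihimp_trans {a b c : B} : (a ⇔ b) ⊓ (b ⇔ c) ≤ (a ⇔ c) := by
  refine le_bihimp' ?_ ?_
  · calc ((a ⇔ b) ⊓ (b ⇔ c)) ⊓ a ≤ (b ⇔ c) ⊓ b :=
          le_inf (inf_le_left.trans inf_le_right)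
            ((inf_le_inf_right a inf_le_left).trans bihimp_inf_le)
      _ ≤ c := bihimp_inf_le
  · calc ((a ⇔ b) ⊓ (b ⇔ c)) ⊓ c ≤ (a ⇔ b) ⊓ b :=
          le_inf (inf_le_left.trans inf_le_left)
            ((inf_le_inf_right c inf_le_right).trans bihimp_inf_le')
      _ ≤ a := bihimp_inf_le'

theorem agree_trans (F : Finset (Om Ω)) (κ κ' κ'' : Pt Ω B) :
    agree F κ κ' ⊓ agree F κ' κ'' ≤ agree F κ κ'' :=
  le_agree fun o ho => (inf_le_inf (agree_le _ _ ho) (agree_le _ _ ho)).trans bihimp_trans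

theorem agree_mono {F F' : Finset (Om Ω)} (h : F ⊆ F') (κ κ' : Pt Ω B) :
    agree F' κ κ' ≤ agree F κ κ' := le_agree fun _ ho => agree_le _ _ (h ho)

theorem agree_empty (κ κ' : Pt Ω B) : agree ∅ κ κ' = ⊤ :=
  top_le_iff.1 (le_agree fun o ho => absurd ho (Finset.notMem_empty o))

theorem agree_union [DecidableEq (Om Ω)] (F F' : Finset (Om Ω)) (κ κ' : Pt Ω B) :
    agree (F ∪ F') κ κ' = agree F κ κ' ⊓ agree F' κ κ' := by
  refine le_antisymm (le_inf (agree_mono Finset.subset_union_left _ _)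
    (agree_mono Finset.subset_union_right _ _)) (le_agree fun o ho => ?_)
  rcases Finset.mem_union.1 ho with h | h
  · exact inf_le_left.trans (agree_le _ _ h)
  · exact inf_le_right.trans (agree_le _ _ h)

theorem agree_insert [DecidableEq (Om Ω)] (o : Om Ω) (F : Finset (Om Ω)) (κ κ' : Pt Ω B) :
    agree (insert o F) κ κ' = (κ o ⇔ κ' o) ⊓ agree F κ κ' := by
  refine le_antisymm (le_inf (agree_le _ _ (Finset.mem_insert_self _ _))
    (agree_mono (Finset.subset_insert _ _) _ _)) (le_agree fun o' ho => ?_)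
  rcases Finset.mem_insert.1 ho with h | h
  · subst h
    exact inf_le_left
  · exact inf_le_right.trans (agree_le _ _ h)

/-- Transport of a coordinate along an agreement. -/
theorem agree_inf_le {F : Finset (Om Ω)} (κ κ' : Pt Ω B) {o : Om Ω} (ho : o ∈ F) :
    agree F κ κ' ⊓ κ o ≤ κ' o := (inf_le_inf_right _ (agree_le _ _ ho)).trans bihimp_inf_le

theorem agree_inf_le' {F : Finset (Om Ω)} (κ κ' : Pt Ω B) {o : Om Ω} (ho : o ∈ F) :
    agree F κ κ' ⊓ κ' o ≤ κ o := (inf_le_inf_right _ (agree_le _ _ ho)).trans bihimp_inf_le'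

theorem eqP_le (κ κ' : Pt Ω B) (o : Om Ω) : eqP κ κ' ≤ (κ o ⇔ κ' o) := iInf_le _ o

theorem le_eqP {κ κ' : Pt Ω B} {Γ : B} (h : ∀ o, Γ ≤ (κ o ⇔ κ' o)) : Γ ≤ eqP κ κ' := le_iInf h

theorem eqP_le_agree (F : Finset (Om Ω)) (κ κ' : Pt Ω B) : eqP κ κ' ≤ agree F κ κ' :=
  le_agree fun o _ => eqP_le _ _ o

theorem eqP_refl (κ : Pt Ω B) : eqP κ κ = ⊤ := top_le_iff.1 (le_eqP fun o => by simp)

theorem eqP_comm (κ κ' : Pt Ω B) : eqP κ κ' = eqP κ' κ := by
  simp only [eqP, bihimp_comm]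

theorem eqP_trans (κ κ' κ'' : Pt Ω B) : eqP κ κ' ⊓ eqP κ' κ'' ≤ eqP κ κ'' :=
  le_eqP fun o => (inf_le_inf (eqP_le _ _ o) (eqP_le _ _ o)).trans bihimp_trans

theorem eqP_inf_le (κ κ' : Pt Ω B) (o : Om Ω) : eqP κ κ' ⊓ κ o ≤ κ' o :=
  (inf_le_inf_right _ (eqP_le _ _ o)).trans bihimp_inf_le

theorem eqP_inf_le' (κ κ' : Pt Ω B) (o : Om Ω) : eqP κ κ' ⊓ κ' o ≤ κ o :=
  (inf_le_inf_right _ (eqP_le _ _ o)).trans bihimp_inf_le'

end agree

section gen

variable {B : Type} [CompleteBooleanAlgebra B] {Ω : Type} {D : Ω → Br → B}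

instance : Nonempty Br := ⟨⟨fun _ => 0, fun _ => by positivity⟩⟩

/-- The values `d_i`, `i ∈ F`, are decided. -/
def dcd (D : Ω → Br → B) (F : Finset Ω) (h : Ω → Br) : B := ⨅ i : Ω, ⨅ _ : i ∈ F, D i (h i)

theorem dcd_le (F : Finset Ω) (h : Ω → Br) {i : Ω} (hi : i ∈ F) : dcd D F h ≤ D i (h i) :=
  (iInf_le _ i).trans (iInf_le _ hi)

/-- Finitely many of the `d_i` can be decided. -/
theorem iSup_dcd (hD : Gen D) (F : Finset Ω) : ⨆ h : Ω → Br, dcd D F h = ⊤ :=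
  top_le_iff.1 (fin_distr F D ⊤ fun i _ => (hD.tot i).ge)

/-- A family of branches, decided: `d_i ∈ S` if and only if the decided value is in `S`. -/
theorem dcd_fam (hD : Gen D) (F : Finset Ω) (h : Ω → Br) {i : Ω} (hi : i ∈ F) (S : Br → Prop) :
    dcd D F h ≤ ((⨆ δ : {δ : Br // S δ}, D i δ.1) ⇔ tv (S (h i))) := by
  refine le_bihimp' ?_ ?_
  · refine (inf_le_inf_right _ (dcd_le F h hi)).trans ?_
    rw [inf_iSup_eq]
    refine iSup_le fun δ => ?_
    by_cases hδ : h i = δ.1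
    · rw [hδ, tv_pos δ.2]
      exact le_top
    · rw [hD.dis i _ _ hδ]
      exact bot_le
  · rw [inf_tv_le_iff]
    intro hS
    exact (dcd_le F h hi).trans (le_iSup (fun δ : {δ : Br // S δ} => D i δ.1) ⟨h i, hS⟩)

theorem dcd_hit (hD : Gen D) (F : Finset Ω) (h : Ω → Br) {i : Ω} (hi : i ∈ F) (z : Br) :
    dcd D F h ≤ (hit D i z ⇔ tv (∃ n, (h i).1 n = z.1 n)) :=
  dcd_fam hD F h hi fun δ => ∃ n, δ.1 n = z.1 n

theorem dcd_Wv (hD : Gen D) (F : Finset Ω) (h : Ω → Br) {i : Ω} (hi : i ∈ F) (s : T) :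
    dcd D F h ≤ (Wv D i s ⇔ tv (Avoids (h i).1 s.1)) :=
  dcd_fam hD F h hi fun δ => Avoids δ.1 s.1

end gen

section fnT

variable {B : Type} [CompleteBooleanAlgebra B] {Ω : Type} {c : Pt Ω B → B} {u : Pt Ω B → ℝ → B}

theorem fnT_tot (κ : Pt Ω B) : fnT c u ⊓ c κ ≤ ⨆ x, u κ x := by
  rw [← le_himp_iff]
  exact inf_le_left.trans (inf_le_left.trans (iInf_le _ κ))

theorem fnT_unq (κ : Pt Ω B) (x x' : ℝ) : fnT c u ⊓ (c κ ⊓ u κ x ⊓ u κ x') ≤ tv (x = x') := by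
  rw [← le_himp_iff]
  exact inf_le_left.trans (inf_le_right.trans ((iInf_le _ κ).trans ((iInf_le _ x).trans
    (iInf_le _ x'))))

theorem fnT_cn (κ : Pt Ω B) (x : ℝ) {e : ℝ} (he : 0 < e) : fnT c u ⊓ (c κ ⊓ u κ x) ≤
    ⨆ F : Finset (Om Ω), ⨅ κ', ⨅ x', c κ' ⊓ agree F κ κ' ⊓ u κ' x' ⇨ tv (|x' - x| < e) := by
  rw [← le_himp_iff]
  exact inf_le_right.trans ((iInf_le _ κ).trans ((iInf_le _ x).trans
    (iInf_le _ (⟨e, he⟩ : {e : ℝ // 0 < e}))))

theorem uc_le (F : Finset (Om Ω)) (e : ℝ) (κ κ' : Pt Ω B) (x x' : ℝ) :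
    uc c u F e ⊓ (c κ ⊓ c κ' ⊓ agree F κ κ' ⊓ u κ x ⊓ u κ' x') ≤ tv (|x - x'| < e) := by
  rw [← le_himp_iff]
  exact (iInf_le _ κ).trans ((iInf_le _ κ').trans ((iInf_le _ x).trans (iInf_le _ x')))

end fnT

end Pool.Agent.Lib.MP_9ea9ae_an.V
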