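import Pool.Agent.Lib.MP_9ea9ae_an.V.Base

/-!
# Module CONE

If a point of `K` contains the coordinate `i` and the node `t`, then `t` avoids `d_i`.
-/

namespace Pool.Agent.Lib.MP_9ea9ae_an.V

open Pool.Agent.Lib.MP_9ea9ae_an

private theorem CONE.Wv_mono {B Ω : Type} [CompleteBooleanAlgebra B] (D : Ω → Br → B) (i : Ω)
    {s t : T} (h : t.1 <:+ s.1) : Wv D i s ≤ Wv D i t := by
  unfold Wv
  refine iSup_le fun δ => ?_
  exact le_iSup (fun δ : {δ : Br // Avoids δ.1 t.1} => D i δ.1) ⟨δ.1, δ.2.of_suffix h⟩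

theorem cone : ConeStatement := by
  classical
  intro B Ω _ D _ κ i t
  have h1 : clK D κ ≤ ⨆ s : T, agree ({Sum.inl i, Sum.inr (Sum.inl t)} : Finset (Om Ω)) κ (wB D s) :=
    iInf_le _ _
  refine le_iSup_cases' (inf_le_left.trans (inf_le_left.trans h1)) fun s => ?_
  have ha : clK D κ ⊓ κ (Sum.inl i) ⊓ κ (Sum.inr (Sum.inl t)) ⊓
      agree ({Sum.inl i, Sum.inr (Sum.inl t)} : Finset (Om Ω)) κ (wB D s) ≤ Wv D i s := by
    refine le_trans (le_inf inf_le_right (inf_le_left.trans (inf_le_left.trans inf_le_right)))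
      (agree_inf_le (F := ({Sum.inl i, Sum.inr (Sum.inl t)} : Finset (Om Ω))) κ (wB D s)
        (o := Sum.inl i) (by simp))
  have hb : clK D κ ⊓ κ (Sum.inl i) ⊓ κ (Sum.inr (Sum.inl t)) ⊓
      agree ({Sum.inl i, Sum.inr (Sum.inl t)} : Finset (Om Ω)) κ (wB D s) ≤ tv (t.1 <:+ s.1) := by
    refine le_trans (le_inf inf_le_right (inf_le_left.trans inf_le_right))
      (agree_inf_le (F := ({Sum.inl i, Sum.inr (Sum.inl t)} : Finset (Om Ω))) κ (wB D s)
        (o := Sum.inr (Sum.inl t)) (by simp))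
  refine (le_inf hb ha).trans ?_
  rw [tv_inf_le_iff]
  exact fun h => CONE.Wv_mono D i h

end Pool.Agent.Lib.MP_9ea9ae_an.V
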