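import Pool.Agent.Lib.MP_6d445e_gt.V.Defs

/-!
# Corson compact spaces and embeddings of spaces `C(K)` in a universe

As in `Pool.Agent.Lib.MP_100a6c_lc.Defs`, all notions are written once, for an arbitrary
`Str B U`: a collection `U` with membership and equality relations with values in a complete Boolean
algebra `B`.  For `B = Prop` these are the usual notions in the structure `U`; for `VB B` they are
the Boolean values of the notions in the Boolean-valued universe `V^B`.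

`w` is always the set of natural numbers and `(R, a, m, o)` is always a complete ordered field: a set
`R` with the addition `a`, the multiplication `m` (sets of ordered pairs `((x, y), z)`) and the
order `o` (the set of the ordered pairs `(x, y)` with `x ≤ y`).
-/

universe u v w

open scoped symmDiff

namespace Pool.Agent.Lib.MP_9ea9ae_an.V

open Pool.Agent.Lib.MP_100a6c_lc Pool.Agent.Lib.MP_c5d73d_lc.F
open Pool.Agent.Lib.MP_6d445e_gt (op isTopo isHaus isFin fsub)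

variable {B : Type v} {U : Type w} [CompleteBooleanAlgebra B] (S : Str B U)

/-! ## Complete ordered fields -/

/-- `z` is an identity element of the operation `f` on `R`. -/
def isId (R f z : U) : B := S.mem z R ⊓ ⨅ x, S.mem x R ⇨ op S f x z x

/-- `f` is a binary operation on `R`: a function from `R × R` to `R`. -/
def isBin (R f : U) : B :=
  (⨅ x, ⨅ y, S.mem x R ⊓ S.mem y R ⇨ ⨆ z, S.mem z R ⊓ op S f x y z) ⊓
  ⨅ x, ⨅ y, ⨅ z, ⨅ z', op S f x y z ⊓ op S f x y z' ⇨ S.eq z z'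

/-- `f` is commutative and associative on `R`. -/
def isCA (R f : U) : B :=
  (⨅ x, ⨅ y, ⨅ z, S.mem x R ⊓ S.mem y R ⊓ op S f x y z ⇨ op S f y x z) ⊓
  ⨅ x, ⨅ y, ⨅ z, ⨅ p, ⨅ q, ⨅ r, ⨅ s,
    S.mem x R ⊓ S.mem y R ⊓ S.mem z R ⊓ op S f x y p ⊓ op S f p z r ⊓ op S f y z q ⊓
      op S f x q s ⇨ S.eq r s

/-- `(R, a, m)` is a field. -/
def isField (R a m : U) : B :=
  isBin S R a ⊓ isBin S R m ⊓ isCA S R a ⊓ isCA S R m ⊓
  (⨆ z, ⨆ e, isId S R a z ⊓ isId S R m e ⊓ (S.eq z e)ᶜ ⊓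
    (⨅ x, S.mem x R ⇨ ⨆ y, S.mem y R ⊓ op S a x y z) ⊓
    ⨅ x, S.mem x R ⊓ (S.eq x z)ᶜ ⇨ ⨆ y, S.mem y R ⊓ op S m x y e) ⊓
  ⨅ x, ⨅ y, ⨅ z, ⨅ p, ⨅ q, ⨅ r, ⨅ s,
    S.mem x R ⊓ S.mem y R ⊓ S.mem z R ⊓ op S a y z p ⊓ op S m x p q ⊓ op S m x y r ⊓
      op S m x z s ⇨ op S a r s q

/-- `o` is a linear order on `R`. -/
def isLin (R o : U) : B :=
  (⨅ x, S.mem x R ⇨ S.rel o x x) ⊓
  (⨅ x, ⨅ y, S.mem x R ⊓ S.mem y R ⊓ S.rel o x y ⊓ S.rel o y x ⇨ S.eq x y) ⊓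
  (⨅ x, ⨅ y, ⨅ z, S.mem x R ⊓ S.mem y R ⊓ S.mem z R ⊓ S.rel o x y ⊓ S.rel o y z ⇨
    S.rel o x z) ⊓
  ⨅ x, ⨅ y, S.mem x R ⊓ S.mem y R ⇨ S.rel o x y ⊔ S.rel o y x

/-- The order `o` is compatible with addition and with the multiplication of elements `≥ 0`. -/
def isOF (R a m o : U) : B :=
  (⨅ x, ⨅ y, ⨅ z, ⨅ p, ⨅ q, S.mem x R ⊓ S.mem y R ⊓ S.mem z R ⊓ S.rel o x y ⊓
    op S a x z p ⊓ op S a y z q ⇨ S.rel o p q) ⊓
  ⨅ z, ⨅ x, ⨅ y, ⨅ p, isId S R a z ⊓ S.mem x R ⊓ S.mem y R ⊓ S.rel o z x ⊓ S.rel o z y ⊓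
    op S m x y p ⇨ S.rel o z p

/-- `b` is an upper bound of `A` in `(R, o)`. -/
def isUB (R o A b : U) : B := S.mem b R ⊓ ⨅ x, S.mem x A ⇨ S.rel o x b

/-- Every nonempty subset of `R` which has an upper bound has a least upper bound. -/
def isCpl (R o : U) : B :=
  ⨅ A, S.sub A R ⊓ (⨆ x, S.mem x A) ⊓ (⨆ b, isUB S R o A b) ⇨
    ⨆ s, isUB S R o A s ⊓ ⨅ b, isUB S R o A b ⇨ S.rel o s b

/-- `(R, a, m, o)` is a complete ordered field. -/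
def isCOF (R a m o : U) : B :=
  isField S R a m ⊓ isLin S R o ⊓ isOF S R a m o ⊓ isCpl S R o

/-! ## Real numbers and real functions -/

/-- `e ∈ R` and `e > 0`. -/
def pos (R a o e : U) : B :=
  S.mem e R ⊓ ⨆ z, isId S R a z ⊓ S.rel o z e ⊓ (S.eq z e)ᶜ

/-- `|x - y| < e`: `x < y + e` and `y < x + e`. -/
def near (a o x y e : U) : B :=
  ⨆ p, ⨆ q, op S a y e p ⊓ op S a x e q ⊓ S.rel o x p ⊓ (S.eq x p)ᶜ ⊓ S.rel o y q ⊓ (S.eq y q)ᶜ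

/-- `|x| ≤ e`: `x ≤ e` and `0 ≤ x + e`. -/
def absb (R a o x e : U) : B :=
  S.rel o x e ⊓ ⨆ z, ⨆ p, isId S R a z ⊓ op S a x e p ⊓ S.rel o z p

/-- `f` is a continuous real function on the space `(X, t)` (`t` is the set of the open sets). -/
def isCont (R a o X t f : U) : B :=
  S.isFun f X R ⊓ ⨅ x, ⨅ r, ⨅ e, S.mem x X ⊓ S.rel f x r ⊓ pos S R a o e ⇨
    ⨆ A, S.mem A t ⊓ S.mem x A ⊓ ⨅ y, ⨅ s, S.mem y A ⊓ S.rel f y s ⇨ near S a o s r e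

/-- `‖f‖ ≤ e`: `|f(x)| ≤ e` for all `x ∈ X`. -/
def bdd (R a o X f e : U) : B := ⨅ x, ⨅ r, S.mem x X ⊓ S.rel f x r ⇨ absb S R a o r e

/-- `h(x) = f(x) + g(x)` for all `x ∈ X`. -/
def isSum (a X f g h : U) : B :=
  ⨅ x, ⨅ r, ⨅ s, ⨅ q, S.mem x X ⊓ S.rel f x r ⊓ S.rel g x s ⊓ S.rel h x q ⇨ op S a r s q

/-- `h(x) = c f(x)` for all `x ∈ X`. -/
def isMul (m X c f h : U) : B :=
  ⨅ x, ⨅ r, ⨅ q, S.mem x X ⊓ S.rel f x r ⊓ S.rel h x q ⇨ op S m c r q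

/-! ## Topology -/

/-- `(X, t)` is a compact Hausdorff space; `t` is the set of its open subsets. -/
def isCH (w X t : U) : B :=
  isTopo S X t ⊓ isHaus S X t ⊓
  ⨅ D, S.sub D t ⊓ (⨅ x, S.mem x X ⇨ ⨆ A, S.mem A D ⊓ S.mem x A) ⇨
    ⨆ E, S.sub E D ⊓ isFin S w E ⊓ ⨅ x, S.mem x X ⇨ ⨆ A, S.mem A E ⊓ S.mem x A

/-- `φ` is a function from `X × G` to `R`; it is read as the map from `X` to `R^G` which maps `x`
to the function `φ(x, ·)`. -/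
def isMap (R X G φ : U) : B :=
  (⨅ x, ⨅ γ, S.mem x X ⊓ S.mem γ G ⇨ ⨆ r, S.mem r R ⊓ op S φ x γ r) ⊓
  ⨅ x, ⨅ γ, ⨅ r, ⨅ s, op S φ x γ r ⊓ op S φ x γ s ⇨ S.eq r s

/-- For each `x ∈ X` the set of all `γ ∈ G` with `φ(x, γ) ≠ 0` is countable: all its subsets `E`
satisfy `|E| ≤ |w|`. -/
def isSig (w R a X G φ : U) : B :=
  ⨅ x, ⨅ E, S.mem x X ⊓ (⨅ γ, S.mem γ E ⇨ S.mem γ G ⊓ ⨅ z, isId S R a z ⇨ (op S φ x γ z)ᶜ) ⇨
    S.leCard E w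

/-- `φ(x, ·) ≠ φ(y, ·)` for all `x ≠ y` in `X`. -/
def isInj (X G φ : U) : B :=
  ⨅ x, ⨅ y, S.mem x X ⊓ S.mem y X ⊓
    (⨅ γ, ⨅ r, S.mem γ G ⊓ op S φ x γ r ⇨ op S φ y γ r) ⇨ S.eq x y

/-- `y ∈ X` and `|φ(x, γ) - φ(y, γ)| < e` for all `γ ∈ F`. -/
def isBall (a o X φ x F e y : U) : B :=
  S.mem y X ⊓ ⨅ γ, ⨅ r, ⨅ s, S.mem γ F ⊓ op S φ x γ r ⊓ op S φ y γ s ⇨ near S a o r s e

/-- The topology `t` of `X` is the one induced by the product topology of `R^G`: a set `A ⊆ X` is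
open if and only if for each `x ∈ A` there are a finite `F ⊆ G` and `e > 0` such that every `y ∈ X`
with `|φ(x, γ) - φ(y, γ)| < e` for all `γ ∈ F` is in `A`. -/
def isInd (w R a o X t G φ : U) : B :=
  ⨅ A, S.sub A X ⇨ (S.mem A t ⇔
    ⨅ x, S.mem x A ⇨ ⨆ F, ⨆ e, fsub S w F G ⊓ pos S R a o e ⊓
      ⨅ y, isBall S a o X φ x F e y ⇨ S.mem y A)

/-- `(X, t)` is homeomorphic to a subspace of `Σ(G) = {x ∈ R^G : x(γ) ≠ 0 for countably many γ}` for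
some set `G`, by the map `φ`. -/
def isCorson (w R a o X t : U) : B :=
  ⨆ G, ⨆ φ, isMap S R X G φ ⊓ isSig S w R a X G φ ⊓ isInj S X G φ ⊓ isInd S w R a o X t G φ

/-! ## Embeddings of `C(K)` into `C(L)` -/

/-- `T` maps each `f ∈ C(K)` to exactly one `g`, and this `g` is in `C(L)`. -/
def isOp (R a o K t L u T : U) : B :=
  (⨅ f, isCont S R a o K t f ⇨ ⨆ g, isCont S R a o L u g ⊓ S.rel T f g) ⊓
  ⨅ f, ⨅ g, ⨅ g', S.rel T f g ⊓ S.rel T f g' ⇨ S.eq g g'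

/-- `T : C(K) → C(L)` is linear. -/
def isLinear (R a m o K t L T : U) : B :=
  (⨅ f, ⨅ f', ⨅ f'', ⨅ g, ⨅ g', ⨅ g'',
    isCont S R a o K t f ⊓ isCont S R a o K t f' ⊓ isCont S R a o K t f'' ⊓
      S.rel T f g ⊓ S.rel T f' g' ⊓ S.rel T f'' g'' ⊓ isSum S a K f f' f'' ⇨
        isSum S a L g g' g'') ⊓
  ⨅ c, ⨅ f, ⨅ f', ⨅ g, ⨅ g', S.mem c R ⊓ isCont S R a o K t f ⊓ isCont S R a o K t f' ⊓
    S.rel T f g ⊓ S.rel T f' g' ⊓ isMul S m K c f f' ⇨ isMul S m L c g g'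

/-- `‖T f‖ ≤ c ‖f‖` and `‖f‖ ≤ c ‖T f‖` for all `f ∈ C(K)`. -/
def isIso (R a m o K t L T c : U) : B :=
  ⨅ f, ⨅ g, ⨅ e, ⨅ e', isCont S R a o K t f ⊓ S.rel T f g ⊓ S.mem e R ⊓ op S m c e e' ⇨
    (bdd S R a o K f e ⇨ bdd S R a o L g e') ⊓ (bdd S R a o L g e ⇨ bdd S R a o K f e')

/-- `C(K)` is isomorphic to a subspace of `C(L)`: some linear `T : C(K) → C(L)` is an isomorphism onto
its range. -/
def isEmb (R a m o K t L u : U) : B :=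
  ⨆ T, ⨆ c, S.mem c R ⊓ isOp S R a o K t L u T ⊓ isLinear S R a m o K t L T ⊓
    isIso S R a m o K t L T c

/-- The statement (*): for all compact Hausdorff spaces `(K, t)`, `(L, u)`, if `L` is Corson and
`C(K)` is isomorphic to a subspace of `C(L)`, then `K` is Corson. -/
def AMN : B :=
  ⨅ w, ⨅ R, ⨅ a, ⨅ m, ⨅ o, isOm S w ⊓ isCOF S R a m o ⇨
    ⨅ K, ⨅ t, ⨅ L, ⨅ u, isCH S w K t ⊓ isCH S w L u ⊓ isCorson S w R a o L u ⊓
      isEmb S R a m o K t L u ⇨ isCorson S w R a o K t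

end Pool.Agent.Lib.MP_9ea9ae_an.V
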