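import Pool.Agent.Lib.MP_9ea9ae_an.V.Base

/-!
# Module F2: the real numbers of the Boolean-valued universe are linearly ordered
-/

open scoped symmDiff

namespace Pool.Agent.Lib.MP_9ea9ae_an.V.F2

open Pool.Agent.Lib.MP_9ea9ae_an Pool.Agent.Lib.MP_9ea9ae_an.V
open Pool.Agent.Lib.MP_100a6c_lc Pool.Agent.Lib.MP_c5d73d_lc.F BName
open Pool.Agent.Lib.MP_6d445e_gt (op isTopo isHaus isFin fsub)

variable {B : Type} [CompleteBooleanAlgebra B]

theorem cases2 {ι κ : Type} {c : ι → κ → B} {Γ b : B} (hc : Γ ≤ ⨆ i, ⨆ j, c i j)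
    (h : ∀ i j Γ', Γ' ≤ Γ → Γ' ≤ c i j → Γ' ≤ b) : Γ ≤ b :=
  le_iSup_cases' hc fun i => le_iSup_cases' inf_le_right fun j =>
    h i j _ (inf_le_left.trans inf_le_left) inf_le_right

theorem uniq (hHT : HTStatement) {Γ : B} {x : BName B} {a a' : ℝ} (h : Γ ≤ beq x (hat a))
    (h' : Γ ≤ beq x (hat a')) : Γ ≤ tv (a = a') := by
  rw [← (hHT B ℝ).1 a a']
  refine le_trans (le_inf ?_ h') (beq_trans _ x _)
  rw [beq_symm]
  exact h

theorem le_tv_and {p q : Prop} {Γ : B} (h : Γ ≤ tv p) (h' : Γ ≤ tv q) : Γ ≤ tv (p ∧ q) := by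
  rw [tv_and]
  exact le_inf h h'

theorem f2 (hHT : HTStatement) (hRO : ROStatement) (_hRP : RPStatement) : F2Statement := by
  intro B _
  obtain ⟨-, -, -, -, rO0, -⟩ := hRO B
  have mem : ∀ z : BName B, (VB B).mem z (Xn B ℝ) = ⨆ x : ℝ, beq z (hat x) := (hHT B ℝ).2.1
  rw [isLin, eq_top_iff]
  refine le_inf (le_inf (le_inf ?_ ?_) ?_) ?_
  · refine le_iInf fun x => ?_
    rw [le_himp_iff, top_inf_eq, rO0, mem]
    refine iSup_le fun a => ?_
    refine le_trans ?_ (le_iSup _ a)
    refine le_trans ?_ (le_iSup _ a)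
    rw [tv_pos le_rfl]
    exact le_inf (le_inf le_rfl le_rfl) le_top
  · refine le_iInf fun x => le_iInf fun y => ?_
    rw [le_himp_iff, top_inf_eq, rO0, rO0]
    refine cases2 (inf_le_left.trans inf_le_right) fun a b Γ h hab => ?_
    refine cases2 (h.trans inf_le_right) fun b' a' Δ hΔ hba => ?_
    have hab' := hΔ.trans hab
    have e1 : Δ ≤ tv (a = a') := uniq hHT (hab'.trans (inf_le_left.trans inf_le_left))
      (hba.trans (inf_le_left.trans inf_le_right))
    have e2 : Δ ≤ tv (b = b') := uniq hHT (hab'.trans (inf_le_left.trans inf_le_right))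
      (hba.trans (inf_le_left.trans inf_le_left))
    have e3 : Δ ≤ tv (a = b) := by
      refine (le_tv_and (le_tv_and e1 e2) (le_tv_and (hab'.trans inf_le_right)
        (hba.trans inf_le_right))).trans (tv_mono ?_)
      rintro ⟨⟨rfl, rfl⟩, h3, h4⟩
      exact le_antisymm h3 h4
    rw [← (hHT B ℝ).1 a b] at e3
    have e4 : Δ ≤ beq x (hat b) :=
      (ext_eq_right x).of_le e3 (hab'.trans (inf_le_left.trans inf_le_left))
    exact (ext_eq_right x).of_le' (hab'.trans (inf_le_left.trans inf_le_right)) e4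
  · refine le_iInf fun x => le_iInf fun y => le_iInf fun z => ?_
    rw [le_himp_iff, top_inf_eq, rO0, rO0, rO0]
    refine cases2 (inf_le_left.trans inf_le_right) fun a b Γ h hab => ?_
    refine cases2 (h.trans inf_le_right) fun b' c Δ hΔ hbc => ?_
    have hab' := hΔ.trans hab
    have e2 : Δ ≤ tv (b = b') := uniq hHT (hab'.trans (inf_le_left.trans inf_le_right))
      (hbc.trans (inf_le_left.trans inf_le_left))
    refine le_trans ?_ (le_iSup _ a)
    refine le_trans ?_ (le_iSup _ c)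
    refine le_inf (le_inf (hab'.trans (inf_le_left.trans inf_le_left))
      (hbc.trans (inf_le_left.trans inf_le_right))) ?_
    refine (le_tv_and e2 (le_tv_and (hab'.trans inf_le_right) (hbc.trans inf_le_right))).trans
      (tv_mono ?_)
    rintro ⟨rfl, h3, h4⟩
    exact h3.trans h4
  · refine le_iInf fun x => le_iInf fun y => ?_
    rw [le_himp_iff, top_inf_eq, rO0, rO0, mem, mem]
    refine le_iSup_cases' inf_le_left fun a => ?_
    refine le_iSup_cases' (inf_le_left.trans inf_le_right) fun b => ?_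
    have h1 : (⨆ x_1 : ℝ, beq x (hat x_1)) ⊓ (⨆ x : ℝ, beq y (hat x)) ⊓ beq x (hat a) ⊓
        beq y (hat b) ≤ beq x (hat a) := inf_le_left.trans inf_le_right
    have h2 : (⨆ x_1 : ℝ, beq x (hat x_1)) ⊓ (⨆ x : ℝ, beq y (hat x)) ⊓ beq x (hat a) ⊓
        beq y (hat b) ≤ beq y (hat b) := inf_le_right
    rcases le_total a b with h | h
    · refine le_sup_of_le_left (le_trans ?_ (le_iSup _ a))
      refine le_trans ?_ (le_iSup _ b)
      rw [tv_pos h]
      exact le_inf (le_inf h1 h2) le_top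
    · refine le_sup_of_le_right (le_trans ?_ (le_iSup _ b))
      refine le_trans ?_ (le_iSup _ a)
      rw [tv_pos h]
      exact le_inf (le_inf h2 h1) le_top

end Pool.Agent.Lib.MP_9ea9ae_an.V.F2
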