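import Pool.Agent.Lib.MP_9ea9ae_an.V.NDefs
import Pool.Agent.Lib.MP_6b029b_lc.H57.Final

/-!
# Statements of the modules

Every module proves one of these statements; it may use the other ones only where the blueprint says
so (as a hypothesis or by importing the module).
-/

open scoped symmDiff

namespace Pool.Agent.Lib.MP_9ea9ae_an.V

open Pool.Agent.Lib.MP_9ea9ae_an
open Pool.Agent.Lib.MP_100a6c_lc Pool.Agent.Lib.MP_c5d73d_lc.F BName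
open Pool.Agent.Lib.MP_6d445e_gt (op isTopo isHaus isFin fsub)

/-! ## Ground statements -/

/-- GQ: the functional `nuG`. -/
def GQStatement : Prop :=
  (∀ (s : T) (g h : T → ℝ), Q g → Q h → nuG s (fun t => g t + h t) = nuG s g + nuG s h) ∧
  (∀ (s : T) (r : ℝ) (g : T → ℝ), Q g → nuG s (fun t => r * g t) = r * nuG s g) ∧
  (∀ (s : T) (g : T → ℝ) (c : ℝ) (n : ℕ), Q g → (∀ t, n ≤ lev t → |g t| ≤ c) → |nuG s g| ≤ c) ∧
  ∀ (g : T → ℝ), Q g → ∀ ε > 0, ∃ N, ∀ s, N ≤ lev s → |g s - nuG s g| ≤ ε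

/-- GN. -/
def GNStatement : Prop := ∀ g : T → ℝ, Nice g → Q g

/-! ## The forcing -/

/-- Conditions: a countable partial function `val` from `Ω` to the branches, and a countable set of
promises. -/
structure Cnd (Ω : Type) where
  dom : Set Ω
  val : Ω → Br
  prom : Set Br
  cdom : dom.Countable
  cprom : prom.Countable

/-- `q ≤ p`. -/
def Cnd.Le {Ω : Type} (q p : Cnd Ω) : Prop :=
  p.dom ⊆ q.dom ∧ (∀ i ∈ p.dom, q.val i = p.val i) ∧ p.prom ⊆ q.prom ∧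
    ∀ i ∈ q.dom, i ∉ p.dom → ∀ z ∈ p.prom, ∃ n, (q.val i).1 n = z.1 n

/-- P1: `Cnd.Le` is a countably closed preorder. -/
def P1Statement : Prop := ∀ Ω : Type,
  (∀ p : Cnd Ω, Cnd.Le p p) ∧ (∀ p q r : Cnd Ω, Cnd.Le p q → Cnd.Le q r → Cnd.Le p r) ∧
  ∀ p : ℕ → Cnd Ω, (∀ n, Cnd.Le (p (n + 1)) (p n)) → ∃ q, ∀ n, Cnd.Le q (p n)

/-- P2: extensions of conditions. -/
def P2Statement : Prop := ∀ Ω : Type,
  (∀ (p : Cnd Ω) (i : Ω), ∃ q, Cnd.Le q p ∧ i ∈ q.dom) ∧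
  (∀ (p : Cnd Ω) (z : Br), ∃ q, Cnd.Le q p ∧ z ∈ q.prom ∧ q.dom = p.dom) ∧
  ∀ (p : Cnd Ω) (i : Ω), i ∉ p.dom → ∃ (q : Cnd Ω) (y : Br), Cnd.Le q p ∧ i ∈ q.dom ∧ y ∈ q.prom ∧
    (∀ n, (q.val i).1 n ≠ y.1 n) ∧ ∀ l ∈ q.dom, l ≠ i → ∃ n, (q.val l).1 n = y.1 n

/-- P3: countably closed preorders have countably distributive regular open algebras. -/
def P3Statement : Prop := ∀ (P B : Type) [Preorder P] [CompleteBooleanAlgebra B] (d : P → B),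
  Pool.Agent.Lib.MP_6b029b_lc.H57.Dns d →
  (∀ p : ℕ → P, (∀ n, p (n + 1) ≤ p n) → ∃ q, ∀ n, q ≤ p n) → Distr B

/-- P4: the generic functions. -/
def P4Statement : Prop := ∀ (Ω B : Type) [Uncountable Ω] [CompleteBooleanAlgebra B]
  (inst : Preorder (Cnd Ω)) (d : Cnd Ω → B), (∀ p q : Cnd Ω, inst.le p q ↔ Cnd.Le p q) →
  Pool.Agent.Lib.MP_6b029b_lc.H57.Dns d → ∃ D : Ω → Br → B, Gen D

/-- P5: the algebra. -/
def P5Statement : Prop := ∃ (B Ω : Type) (_ : CompleteBooleanAlgebra B) (D : Ω → Br → B),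
  (⊥ : B) ≠ ⊤ ∧ Distr B ∧ Gen D

/-! ## Typed statements -/

/-- AC: abstract compactness. -/
def ACStatement : Prop := ∀ (B Ω : Type) [CompleteBooleanAlgebra B] [DecidableEq (Om Ω)]
  (P : Finset (Om Ω) → Pt Ω B → B) (Γ : B),
  (∀ F κ κ', agree F κ κ' ⊓ P F κ ≤ P F κ') →
  (∀ F F' κ, F ⊆ F' → P F κ ≤ P F' κ) →
  (∀ F κ o, o ∉ F → P (insert o F) (Function.update κ o ⊤) ⊓
    P (insert o F) (Function.update κ o ⊥) ≤ P F κ) →
  (∀ κ, Γ ≤ ⨆ F, P F κ) → ∀ κ, Γ ≤ P ∅ κ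

/-- UC: uniform continuity. -/
def UCStatement : Prop := ∀ (B Ω : Type) [CompleteBooleanAlgebra B] (c : Pt Ω B → B), Clo c →
  ∀ u : Pt Ω B → ℝ → B, ExU u → ∀ e : ℝ, 0 < e → fnT c u ≤ ⨆ F, uc c u F e

/-- CLK. -/
def CLKStatement : Prop := ∀ (B Ω : Type) [CompleteBooleanAlgebra B] (D : Ω → Br → B),
  Clo (clK D) ∧ (∀ s, clK D (wB D s) = ⊤) ∧ ∀ κ, clK D κ ≤ κ o0

/-- CLL. -/
def CLLStatement : Prop := ∀ (B Ω : Type) [CompleteBooleanAlgebra B] (D : Ω → Br → B),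
  Clo (clL D) ∧ ∀ κ, clL D κ ⊓ κ o0 ≤ clK D κ ⊓ noS κ

/-- CONE. -/
def ConeStatement : Prop := ∀ (B Ω : Type) [CompleteBooleanAlgebra B] (D : Ω → Br → B), Gen D →
  ∀ κ i t, clK D κ ⊓ κ (Sum.inl i) ⊓ κ (Sum.inr (Sum.inl t)) ≤ Wv D i t

/-- BRA. -/
def BraStatement : Prop := ∀ (B Ω : Type) [CompleteBooleanAlgebra B] (D : Ω → Br → B),
  Distr B → ∀ κ, clK D κ ⊓ noS κ ≤ ⨆ z : Br, ⨅ n, κ (Sum.inr (Sum.inl (nd z n)))

/-- KB. -/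
def KBStatement : Prop := ∀ (B Ω : Type) [CompleteBooleanAlgebra B] (D : Ω → Br → B), Gen D →
  ∀ z, clK D (kb D z) = ⊤ ∧ noS (kb D z) = ⊤ ∧ kb D z o0 = ⊤ ∧ clL D (kb D z) = ⊤

/-- KC. -/
def KCStatement : Prop := ∀ (B Ω : Type) [CompleteBooleanAlgebra B] (D : Ω → Br → B), Gen D →
  ∀ i y, (hit D i y)ᶜ ⊓ (⨅ l : {l // l ≠ i}, hit D l.1 y) ≤ clK D (kc y)

/-- NL: deep nodes are close to points of `L`. -/
def NLStatement : Prop := ∀ (B Ω : Type) [CompleteBooleanAlgebra B] (D : Ω → Br → B), Gen D →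
  ∀ F : Finset (Om Ω), ∃ N, ∀ t : T, N ≤ lev t → ⨆ z : Br, agree F (kb D z) (wB D t) = ⊤

/-- GR: the values at the nodes are ground model reals. -/
def GRStatement : Prop := ∀ (B Ω : Type) [CompleteBooleanAlgebra B] (D : Ω → Br → B), Distr B →
  ∀ u : Pt Ω B → ℝ → B, fn0 (clK D) u ≤ ⨆ g : T → ℝ, gr D u g

/-- QG. -/
def QGStatement : Prop := ∀ (B Ω : Type) [CompleteBooleanAlgebra B] (D : Ω → Br → B), Gen D →
  ∀ u : Pt Ω B → ℝ → B, ExU u → ∀ g : T → ℝ, fnT (clK D) u ⊓ gr D u g ≤ tv (Nice g)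

/-- E0: extensionality of the operator. -/
def E0Statement : Prop := ∀ (B Ω : Type) [CompleteBooleanAlgebra B] (D : Ω → Br → B),
  (∀ u : Pt Ω B → ℝ → B, ExU u → ExU (TT D u)) ∧
  ∀ u v : Pt Ω B → ℝ → B, ExU u → ExU v → eqU (clK D) u v ≤ eqU (clL D) (TT D u) (TT D v)

/-- E1: the values of the operator are functions. -/
def E1Statement : Prop := ∀ (B Ω : Type) [CompleteBooleanAlgebra B] (D : Ω → Br → B), Distr B →
  Gen D → ∀ u : Pt Ω B → ℝ → B, ExU u → fnT (clK D) u ≤ fn0 (clL D) (TT D u)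

/-- E2: the values of the operator are continuous. -/
def E2Statement : Prop := ∀ (B Ω : Type) [CompleteBooleanAlgebra B] (D : Ω → Br → B), Distr B →
  Gen D → ∀ u : Pt Ω B → ℝ → B, ExU u → fnT (clK D) u ≤ cn0 (clL D) (TT D u)

/-- E3: additivity. -/
def E3Statement : Prop := ∀ (B Ω : Type) [CompleteBooleanAlgebra B] (D : Ω → Br → B), Distr B →
  Gen D → ∀ u v w : Pt Ω B → ℝ → B, ExU u → ExU v → ExU w →
    fnT (clK D) u ⊓ fnT (clK D) v ⊓ fnT (clK D) w ⊓ sumT (clK D) u v w ≤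
      sumT (clL D) (TT D u) (TT D v) (TT D w)

/-- E4: homogeneity. -/
def E4Statement : Prop := ∀ (B Ω : Type) [CompleteBooleanAlgebra B] (D : Ω → Br → B), Distr B →
  Gen D → ∀ (r : ℝ) (u w : Pt Ω B → ℝ → B), ExU u → ExU w →
    fnT (clK D) u ⊓ fnT (clK D) w ⊓ mulT (clK D) r u w ≤ mulT (clL D) r (TT D u) (TT D w)

/-- E5: the operator is bounded. -/
def E5Statement : Prop := ∀ (B Ω : Type) [CompleteBooleanAlgebra B] (D : Ω → Br → B), Distr B →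
  Gen D → ∀ (u : Pt Ω B → ℝ → B) (e : ℝ), ExU u →
    fnT (clK D) u ⊓ bdT (clK D) u e ≤ bdT (clL D) (TT D u) (2 * e)

/-- E6: the operator is bounded below. -/
def E6Statement : Prop := ∀ (B Ω : Type) [CompleteBooleanAlgebra B] (D : Ω → Br → B), Distr B →
  Gen D → ∀ (u : Pt Ω B → ℝ → B) (e : ℝ), ExU u →
    fnT (clK D) u ⊓ bdT (clL D) (TT D u) e ≤ bdT (clK D) u (2 * e)

/-- CS: countable supports. -/
def CSStatement : Prop := ∀ (B Ω : Type) [CompleteBooleanAlgebra B] (D : Ω → Br → B), Distr B →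
  Gen D → ∀ κ, clL D κ ≤ ⨆ C : {C : Set (Om Ω) // C.Countable}, ⨅ o : {o // o ∉ C.1}, (κ o.1)ᶜ

/-- ZR: a continuous function vanishing at the nodes vanishes. -/
def ZRStatement : Prop := ∀ (B Ω : Type) [CompleteBooleanAlgebra B] (D : Ω → Br → B),
  ∀ u : Pt Ω B → ℝ → B, ExU u →
    fnT (clK D) u ⊓ (⨅ s : T, u (wB D s) 0) ≤ ⨅ κ, clK D κ ⇨ u κ 0

/-- NC: `K` is not Corson. -/
def NCStatement : Prop := ∀ (B Ω : Type) [CompleteBooleanAlgebra B] (D : Ω → Br → B), Distr B →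
  Gen D → ∀ (J : Type 1) (M : J → B) (u : J → Pt Ω B → ℝ → B) (Γ : B) (γ : ℕ → J),
    (∀ j, ExU (u j)) → (∀ j, Γ ⊓ M j ≤ fnT (clK D) (u j)) →
    (∀ j, Γ ⊓ M j ≤ (⨆ m, M (γ m) ⊓ eqU (clK D) (u j) (u (γ m))) ⊔ ⨅ s : T, u j (wB D s) 0) →
    (∀ κ κ', Γ ⊓ clK D κ ⊓ clK D κ' ⊓ (⨅ j, M j ⇨ ⨅ x, (u j κ x ⇔ u j κ' x)) ≤ eqP κ κ') →
    Γ = ⊥

/-! ## Names -/

/-- HT: names of elements of types. -/
def HTStatement : Prop := ∀ (B : Type) [CompleteBooleanAlgebra B] (X : Type),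
  (∀ x y : X, beq (hat x) (hat y : BName B) = tv (x = y)) ∧
  (∀ z : BName B, bmem z (Xn B X) = ⨆ x : X, beq z (hat x)) ∧
  (∀ x : X, bmem (hat x) (Xn B X) = ⊤)

/-- SB: names of points and of sets of points. -/
def SBStatement : Prop := ∀ (B Ω : Type) [CompleteBooleanAlgebra B],
  (∀ (κ : Pt Ω B) (o : Om Ω), bmem (hat o) (sb κ) = κ o) ∧
  (∀ κ κ' : Pt Ω B, beq (sb κ) (sb κ') = eqP κ κ') ∧
  (∀ (c : Pt Ω B → B) (κ : Pt Ω B), (∀ κ κ', eqP κ κ' ⊓ c κ ≤ c κ') → bmem (sb κ) (Cn c) = c κ) ∧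
  (∀ (c : Pt Ω B → B) (z : BName B), bmem z (Cn c) = ⨆ κ, c κ ⊓ beq z (sb κ))

/-- TA: the topology. -/
def TAStatement : Prop := ∀ (B Ω : Type) [CompleteBooleanAlgebra B] (c : Pt Ω B → B),
  (∀ κ κ', eqP κ κ' ⊓ c κ ≤ c κ') →
  (∀ A : BName B, bmem A (tau c) = (VB B).sub A (Cn c) ⊓ opn c A) ∧
  isTopo (VB B) (Cn c) (tau c) = ⊤ ∧ isHaus (VB B) (Cn c) (tau c) = ⊤

/-- CM: compactness. -/
def CMStatement : Prop := ∀ (B Ω : Type) [CompleteBooleanAlgebra B] (c : Pt Ω B → B), Clo c →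
  isCH (VB B) (check H36.om) (Cn c) (tau c) = ⊤

/-- FI: finite sets. -/
def FIStatement : Prop := ∀ (B : Type) [CompleteBooleanAlgebra B],
  (∀ (n : ℕ) (f : Fin n → BName B) (v : Fin n → B),
    isFin (VB B) (check H36.om) (mk (Fin n) f v) = ⊤) ∧
  ∀ (X : Type) (E : BName B), isFin (VB B) (check H36.om) E ⊓ (VB B).sub E (Xn B X) ≤
    ⨆ F : Finset X, ⨅ x : X, bmem (hat x) E ⇨ tv (x ∈ F)

/-- RO: operations and order of the real numbers. -/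
def ROStatement : Prop := ∀ (B : Type) [CompleteBooleanAlgebra B],
  (∀ a b c : BName B, op (VB B) (rA B) a b c =
    ⨆ x : ℝ, ⨆ y : ℝ, beq a (hat x) ⊓ beq b (hat y) ⊓ beq c (hat (x + y))) ∧
  (∀ a b c : BName B, op (VB B) (rM B) a b c =
    ⨆ x : ℝ, ⨆ y : ℝ, beq a (hat x) ⊓ beq b (hat y) ⊓ beq c (hat (x * y))) ∧
  (∀ (x y : ℝ) (c : BName B), op (VB B) (rA B) (hat x) (hat y) c = beq c (hat (x + y))) ∧
  (∀ (x y : ℝ) (c : BName B), op (VB B) (rM B) (hat x) (hat y) c = beq c (hat (x * y))) ∧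
  (∀ a b : BName B, (VB B).rel (rO B) a b =
    ⨆ x : ℝ, ⨆ y : ℝ, beq a (hat x) ⊓ beq b (hat y) ⊓ tv (x ≤ y)) ∧
  (∀ x y : ℝ, (VB B).rel (rO B) (hat x) (hat y) = tv (x ≤ y))

/-- RP: derived notions. -/
def RPStatement : Prop := ∀ (B : Type) [CompleteBooleanAlgebra B],
  (∀ z : BName B, isId (VB B) (Xn B ℝ) (rA B) z = beq z (hat (0 : ℝ))) ∧
  (∀ z : BName B, isId (VB B) (Xn B ℝ) (rM B) z = beq z (hat (1 : ℝ))) ∧
  (∀ e : BName B, pos (VB B) (Xn B ℝ) (rA B) (rO B) e = ⨆ x : ℝ, tv (0 < x) ⊓ beq e (hat x)) ∧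
  (∀ x : ℝ, pos (VB B) (Xn B ℝ) (rA B) (rO B) (hat x) = tv (0 < x)) ∧
  (∀ x y e : ℝ, near (VB B) (rA B) (rO B) (hat x) (hat y) (hat e) = tv (|x - y| < e)) ∧
  (∀ x e : ℝ, absb (VB B) (Xn B ℝ) (rA B) (rO B) (hat x) (hat e) = tv (|x| ≤ e))

/-- F1, F2, F3, F4: the real numbers are a complete ordered field. -/
def F1Statement : Prop := ∀ (B : Type) [CompleteBooleanAlgebra B],
  isField (VB B) (Xn B ℝ) (rA B) (rM B) = ⊤

/-- F2. -/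
def F2Statement : Prop := ∀ (B : Type) [CompleteBooleanAlgebra B], isLin (VB B) (Xn B ℝ) (rO B) = ⊤

/-- F3. -/
def F3Statement : Prop := ∀ (B : Type) [CompleteBooleanAlgebra B],
  isOF (VB B) (Xn B ℝ) (rA B) (rM B) (rO B) = ⊤

/-- F4. -/
def F4Statement : Prop := ∀ (B : Type) [CompleteBooleanAlgebra B], Distr B →
  isCpl (VB B) (Xn B ℝ) (rO B) = ⊤

/-- C1: from continuous functions to typed functions. -/
def C1Statement : Prop := ∀ (B Ω : Type) [CompleteBooleanAlgebra B] (c : Pt Ω B → B),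
  (∀ κ κ', eqP κ κ' ⊓ c κ ≤ c κ') → ∀ f : BName B,
    ExU (ft f : Pt Ω B → ℝ → B) ∧
    isCont (VB B) (Xn B ℝ) (rA B) (rO B) (Cn c) (tau c) f ≤
      fnT c (ft f) ⊓ beq f (fnn c (ft f))

/-- C2: from typed functions to continuous functions. -/
def C2Statement : Prop := ∀ (B Ω : Type) [CompleteBooleanAlgebra B] (c : Pt Ω B → B),
  (∀ κ κ', eqP κ κ' ⊓ c κ ≤ c κ') → ∀ u : Pt Ω B → ℝ → B, ExU u →
    (∀ κ x, (VB B).rel (fnn c u) (sb κ) (hat x) = c κ ⊓ u κ x) ∧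
    fnT c u ≤ isCont (VB B) (Xn B ℝ) (rA B) (rO B) (Cn c) (tau c) (fnn c u)

/-- C3: notions for named functions. -/
def C3Statement : Prop := ∀ (B Ω : Type) [CompleteBooleanAlgebra B] (c : Pt Ω B → B),
  (∀ κ κ', eqP κ κ' ⊓ c κ ≤ c κ') → ∀ u v w : Pt Ω B → ℝ → B, ExU u → ExU v → ExU w →
    beq (fnn c u) (fnn c v) = eqU c u v ∧
    (∀ e : ℝ, bdd (VB B) (Xn B ℝ) (rA B) (rO B) (Cn c) (fnn c u) (hat e) = bdT c u e) ∧
    isSum (VB B) (rA B) (Cn c) (fnn c u) (fnn c v) (fnn c w) = sumT c u v w ∧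
    ∀ r : ℝ, isMul (VB B) (rM B) (Cn c) (hat r) (fnn c u) (fnn c w) = mulT c r u w

/-- EM: the embedding. -/
def EMStatement : Prop := ∀ (B Ω : Type) [CompleteBooleanAlgebra B] (D : Ω → Br → B), Distr B →
  Gen D → isEmb (VB B) (Xn B ℝ) (rA B) (rM B) (rO B) (Cn (clK D)) (tau (clK D)) (Cn (clL D))
    (tau (clL D)) = ⊤

/-- CL: `L` is Corson. -/
def CLStatement : Prop := ∀ (B Ω : Type) [CompleteBooleanAlgebra B] (c : Pt Ω B → B),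
  (∀ κ κ', eqP κ κ' ⊓ c κ ≤ c κ') →
  (∀ κ, c κ ≤ ⨆ C : {C : Set (Om Ω) // C.Countable}, ⨅ o : {o // o ∉ C.1}, (κ o.1)ᶜ) →
  isCorson (VB B) (check H36.om) (Xn B ℝ) (rA B) (rO B) (Cn c) (tau c) = ⊤

/-- N1: the functions `φ(·, γ)` are continuous. -/
def N1Statement : Prop := ∀ (B Ω : Type) [CompleteBooleanAlgebra B] (c : Pt Ω B → B),
  (∀ κ κ', eqP κ κ' ⊓ c κ ≤ c κ') → ∀ G φ γ : BName B,
    ExU (uu φ γ : Pt Ω B → ℝ → B) ∧
    isMap (VB B) (Xn B ℝ) (Cn c) G φ ⊓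
      isInd (VB B) (check H36.om) (Xn B ℝ) (rA B) (rO B) (Cn c) (tau c) G φ ⊓ bmem γ G ≤
        fnT c (uu φ γ)

/-- N2: countable supports at a point. -/
def N2Statement : Prop := ∀ (B Ω : Type) [CompleteBooleanAlgebra B] (c : Pt Ω B → B),
  (∀ κ κ', eqP κ κ' ⊓ c κ ≤ c κ') → ∀ (G φ : BName B) (κ : Pt Ω B) (Γ : B),
    Γ ≤ isSig (VB B) (check H36.om) (Xn B ℝ) (rA B) (Cn c) G φ → Γ ≤ c κ →
    ∃ γ : ℕ → BName B, ∀ γ', Γ ⊓ bmem γ' G ⊓ (uu φ γ' κ 0)ᶜ ≤ ⨆ n, beq γ' (γ n)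

/-- N3: injectivity. -/
def N3Statement : Prop := ∀ (B Ω : Type) [CompleteBooleanAlgebra B] (c : Pt Ω B → B),
  (∀ κ κ', eqP κ κ' ⊓ c κ ≤ c κ') → ∀ (G φ : BName B) (κ κ' : Pt Ω B),
    isMap (VB B) (Xn B ℝ) (Cn c) G φ ⊓ isInj (VB B) (Cn c) G φ ⊓ c κ ⊓ c κ' ⊓
      (⨅ γ, bmem γ G ⇨ ⨅ x, (uu φ γ κ x ⇔ uu φ γ κ' x)) ≤ eqP κ κ'

/-- CK: `K` is not Corson. -/
def CKStatement : Prop := ∀ (B Ω : Type) [CompleteBooleanAlgebra B] (D : Ω → Br → B), Distr B →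
  Gen D → isCorson (VB B) (check H36.om) (Xn B ℝ) (rA B) (rO B) (Cn (clK D)) (tau (clK D)) = ⊥

/-- TR: transfer to the two-valued quotient. -/
def TRStatement : Prop := ∀ (B : Type) [CompleteBooleanAlgebra B] (G : Set B), IsUlt G →
  (AMN (VB B) ∈ G ↔ AMN (Pool.Agent.Lib.MP_6b029b_lc.H57.QS G))

/-- FIN: the final theorem. -/
def FinStatement : Prop := ∃ (M : Type 1) (E : M → M → Prop),
  ZFC (Str.mk E Eq) ∧ ¬ AMN (Str.mk E Eq)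

end Pool.Agent.Lib.MP_9ea9ae_an.V
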