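import Pool.Agent.Lib.MP_9ea9ae_an.V.Base

/-!
# Module N1: the functions `φ(·, γ)` are continuous
-/

open scoped symmDiff

namespace Pool.Agent.Lib.MP_9ea9ae_an.V.N1

open Pool.Agent.Lib.MP_9ea9ae_an Pool.Agent.Lib.MP_9ea9ae_an.V
open Pool.Agent.Lib.MP_100a6c_lc Pool.Agent.Lib.MP_c5d73d_lc.F BName
open Pool.Agent.Lib.MP_6d445e_gt (op isTopo isHaus isFin fsub)

variable {B : Type} [CompleteBooleanAlgebra B] {Ω : Type}

theorem ext_op_fst (m y z : BName B) : Ext (fun x => op (VB B) m x y z) :=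
  Ext.iSup fun p => (ext_isPair_snd p y).inf (Ext.const _)

theorem ext_op_trd (m x y : BName B) : Ext (fun z => op (VB B) m x y z) :=
  Ext.iSup fun p => (Ext.const _).inf (ext_rel_trd m p)

theorem exU (hSB : SBStatement) (φ γ : BName B) : ExU (uu φ γ : Pt Ω B → ℝ → B) := by
  intro κ κ' x
  rw [← (hSB B Ω).2.1]
  exact (ext_op_fst φ γ (hat x)) (sb κ) (sb κ')

/-- The ball. -/
noncomputable def vv (c : Pt Ω B → B) (u : Pt Ω B → ℝ → B) (x0 e0 : ℝ) (κ : Pt Ω B) : B :=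
  c κ ⊓ ⨆ x : ℝ, u κ x ⊓ tv (|x - x0| < e0)

theorem vv_ext {c : Pt Ω B → B} (hc : ∀ κ κ', eqP κ κ' ⊓ c κ ≤ c κ') {u : Pt Ω B → ℝ → B}
    (hu : ExU u) (x0 e0 : ℝ) (κ κ' : Pt Ω B) :
    eqP κ κ' ⊓ vv c u x0 e0 κ ≤ vv c u x0 e0 κ' := by
  refine le_inf ((inf_le_inf_left _ inf_le_left).trans (hc κ κ')) ?_
  refine (inf_le_inf_left _ inf_le_right).trans ?_
  rw [inf_iSup_eq]
  refine iSup_mono fun x => ?_
  rw [← inf_assoc]
  exact inf_le_inf_right _ (hu κ κ' x)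

theorem main (hHT : HTStatement) (hSB : SBStatement) (hTA : TAStatement) (hFI : FIStatement)
    (hRP : RPStatement) (c : Pt Ω B → B) (hc : ∀ κ κ', eqP κ κ' ⊓ c κ ≤ c κ')
    (G φ γ : BName B) : isMap (VB B) (Xn B ℝ) (Cn c) G φ ⊓
      isInd (VB B) (check H36.om) (Xn B ℝ) (rA B) (rO B) (Cn c) (tau c) G φ ⊓ bmem γ G ≤
        fnT c (uu φ γ) := by
  obtain ⟨Γ, hΓ⟩ : ∃ Γ, Γ = isMap (VB B) (Xn B ℝ) (Cn c) G φ ⊓
      isInd (VB B) (check H36.om) (Xn B ℝ) (rA B) (rO B) (Cn c) (tau c) G φ ⊓ bmem γ G := ⟨_, rfl⟩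
  rw [← hΓ]
  have gM : Γ ≤ isMap (VB B) (Xn B ℝ) (Cn c) G φ := by
    rw [hΓ]; exact inf_le_left.trans inf_le_left
  have gI : Γ ≤ isInd (VB B) (check H36.om) (Xn B ℝ) (rA B) (rO B) (Cn c) (tau c) G φ := by
    rw [hΓ]; exact inf_le_left.trans inf_le_right
  have gG : Γ ≤ bmem γ G := by rw [hΓ]; exact inf_le_right
  have hmem : ∀ κ, bmem (sb κ) (Cn c) = c κ := fun κ => (hSB B Ω).2.2.1 c κ hc
  have hu : ExU (uu φ γ : Pt Ω B → ℝ → B) := exU hSB φ γ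
  -- totality
  have tot : ∀ κ : Pt Ω B, Γ ⊓ c κ ≤ ⨆ x, uu φ γ κ x := by
    intro κ
    have h1 : Γ ≤ c κ ⊓ bmem γ G ⇨ ⨆ r, bmem r (Xn B ℝ) ⊓ op (VB B) φ (sb κ) γ r := by
      refine (gM.trans inf_le_left).trans ((iInf_le _ (sb κ)).trans ((iInf_le _ γ).trans ?_))
      rw [VB_mem, VB_mem, hmem]
      exact le_rfl
    have h2 : Γ ⊓ c κ ≤ ⨆ r, bmem r (Xn B ℝ) ⊓ op (VB B) φ (sb κ) γ r :=
      (le_inf (inf_le_left.trans h1) (le_inf inf_le_right (inf_le_left.trans gG))).trans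
        himp_inf_le
    refine le_iSup_cases' h2 fun r => ?_
    refine le_iSup_cases' (c := fun x : ℝ => beq r (hat x)) ?_ fun x => ?_
    · rw [← (hHT B ℝ).2.1]
      exact inf_le_right.trans inf_le_left
    · refine le_trans ?_ (le_iSup _ x)
      exact (ext_op_trd φ (sb κ) γ).of_le inf_le_right
        (inf_le_left.trans (inf_le_right.trans inf_le_right))
  -- uniqueness
  have unq : ∀ (κ : Pt Ω B) (x x' : ℝ), Γ ⊓ (uu φ γ κ x ⊓ uu φ γ κ x') ≤ tv (x = x') := by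
    intro κ x x'
    rw [← le_himp_iff]
    refine (gM.trans inf_le_right).trans ((iInf_le _ (sb κ)).trans ((iInf_le _ γ).trans
      ((iInf_le _ (hat x)).trans ((iInf_le _ (hat x')).trans ?_))))
    rw [VB_eq, (hHT B ℝ).1]
    exact le_rfl
  -- balls are open
  have opb : ∀ (x0 e0 : ℝ), Γ ≤ bmem (Cn (vv c (uu φ γ) x0 e0)) (tau c) := by
    intro x0 e0
    obtain ⟨v, hv⟩ : ∃ v, v = vv c (uu φ γ : Pt Ω B → ℝ → B) x0 e0 := ⟨_, rfl⟩
    have hve : ∀ κ κ', eqP κ κ' ⊓ v κ ≤ v κ' := by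
      rw [hv]; exact vv_ext hc hu x0 e0
    rw [← hv]
    have hmv : ∀ κ, bmem (sb κ) (Cn v) = v κ := fun κ => (hSB B Ω).2.2.1 v κ hve
    have hvc : ∀ κ, v κ ≤ c κ := fun κ => by rw [hv]; exact inf_le_left
    have h1 : (VB B).sub (Cn v) (Cn c) = ⊤ := by
      refine top_le_iff.1 (le_iInf fun z => ?_)
      rw [le_himp_iff, top_inf_eq, VB_mem, VB_mem, (hSB B Ω).2.2.2, (hSB B Ω).2.2.2]
      exact iSup_mono fun κ' => inf_le_inf_right _ (hvc κ')
    have h2 := gI.trans (iInf_le _ (Cn v))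
    rw [h1, top_himp] at h2
    refine (le_inf h2 ?_).trans bihimp_inf_le'
    refine le_iInf fun x => ?_
    rw [le_himp_iff, VB_mem, (hSB B Ω).2.2.2]
    refine le_iSup_cases' inf_le_right fun κ1 => ?_
    obtain ⟨Γ1, hΓ1⟩ : ∃ Γ1, Γ1 = Γ ⊓ (⨆ κ, v κ ⊓ beq x (sb κ)) ⊓ (v κ1 ⊓ beq x (sb κ1)) :=
      ⟨_, rfl⟩
    rw [← hΓ1]
    have a1 : Γ1 ≤ Γ := by rw [hΓ1]; exact inf_le_left.trans inf_le_left
    have a2 : Γ1 ≤ v κ1 := by rw [hΓ1]; exact inf_le_right.trans inf_le_left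
    have a3 : Γ1 ≤ beq x (sb κ1) := by rw [hΓ1]; exact inf_le_right.trans inf_le_right
    have a4 : Γ1 ≤ ⨆ x : ℝ, uu φ γ κ1 x ⊓ tv (|x - x0| < e0) := by
      rw [hv] at a2; exact a2.trans inf_le_right
    refine le_iSup_cases' a4 fun x1 => ?_
    rw [← inf_assoc, inf_tv_le_iff]
    intro hx1
    refine le_trans ?_ (le_iSup _ (mk (Fin 1) (fun _ => γ) fun _ => ⊤))
    refine le_trans ?_ (le_iSup _ (hat (e0 - |x1 - x0|)))
    refine le_inf (le_inf (le_inf ?_ ?_) ?_) ?_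
    · refine le_iInf fun z => ?_
      rw [le_himp_iff, VB_mem, VB_mem, mem_mk, inf_iSup_eq]
      refine iSup_le fun _ => ?_
      refine (ext_mem_left G).of_le' (inf_le_right.trans inf_le_right) ?_
      exact inf_le_left.trans (inf_le_left.trans (a1.trans gG))
    · rw [(hFI B).1]
      exact le_top
    · rw [(hRP B).2.2.2.1, tv_pos (by linarith)]
      exact le_top
    · refine le_iInf fun y => ?_
      rw [le_himp_iff]
      obtain ⟨Γ2, hΓ2⟩ : ∃ Γ2, Γ2 = Γ1 ⊓ uu φ γ κ1 x1 ⊓ isBall (VB B) (rA B) (rO B) (Cn c) φ x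
        (mk (Fin 1) (fun _ => γ) fun _ => ⊤) (hat (e0 - |x1 - x0|)) y := ⟨_, rfl⟩
      rw [← hΓ2]
      have b1 : Γ2 ≤ Γ1 := by rw [hΓ2]; exact inf_le_left.trans inf_le_left
      have b2 : Γ2 ≤ uu φ γ κ1 x1 := by rw [hΓ2]; exact inf_le_left.trans inf_le_right
      have b3 : Γ2 ≤ bmem y (Cn c) := by rw [hΓ2]; exact inf_le_right.trans inf_le_left
      rw [(hSB B Ω).2.2.2] at b3
      refine le_iSup_cases' b3 fun κ2 => ?_
      refine le_iSup_cases' ((le_inf (inf_le_left.trans (b1.trans a1))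
        (inf_le_right.trans inf_le_left)).trans (tot κ2)) fun x2 => ?_
      obtain ⟨Γ3, hΓ3⟩ : ∃ Γ3, Γ3 = Γ2 ⊓ (c κ2 ⊓ beq y (sb κ2)) ⊓ uu φ γ κ2 x2 := ⟨_, rfl⟩
      rw [← hΓ3]
      have d1 : Γ3 ≤ Γ2 := by rw [hΓ3]; exact inf_le_left.trans inf_le_left
      have d2 : Γ3 ≤ c κ2 := by
        rw [hΓ3]; exact inf_le_left.trans (inf_le_right.trans inf_le_left)
      have d3 : Γ3 ≤ beq y (sb κ2) := by
        rw [hΓ3]; exact inf_le_left.trans (inf_le_right.trans inf_le_right)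
      have d4 : Γ3 ≤ uu φ γ κ2 x2 := by rw [hΓ3]; exact inf_le_right
      have d5 : Γ3 ≤ tv (|x1 - x2| < e0 - |x1 - x0|) := by
        have e1 : Γ2 ≤ bmem γ (mk (Fin 1) (fun _ => γ) fun _ => ⊤) ⊓ op (VB B) φ x γ (hat x1) ⊓
            op (VB B) φ y γ (hat x2) ⇨ near (VB B) (rA B) (rO B) (hat x1) (hat x2)
              (hat (e0 - |x1 - x0|)) := by
          rw [hΓ2]
          exact inf_le_right.trans (inf_le_right.trans ((iInf_le _ γ).trans
            ((iInf_le _ (hat x1)).trans (iInf_le _ (hat x2)))))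
        have e2 : Γ3 ≤ bmem γ (mk (Fin 1) (fun _ => γ) fun _ => ⊤) := by
          rw [mem_mk]
          refine le_trans ?_ (le_iSup _ 0)
          rw [beq_refl, inf_top_eq]
          exact le_top
        have e3 : Γ3 ≤ op (VB B) φ x γ (hat x1) :=
          (ext_op_fst φ γ (hat x1)).of_le' (d1.trans (b1.trans a3)) (d1.trans b2)
        have e4 : Γ3 ≤ op (VB B) φ y γ (hat x2) :=
          (ext_op_fst φ γ (hat x2)).of_le' d3 d4
        have e5 := (le_inf (d1.trans e1) (le_inf (le_inf e2 e3) e4)).trans himp_inf_le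
        rwa [(hRP B).2.2.2.2.1] at e5
      refine (ext_mem_left (Cn v)).of_le' d3 ?_
      rw [hmv, hv]
      refine le_inf d2 (le_trans ?_ (le_iSup _ x2))
      refine le_inf d4 (d5.trans (tv_mono fun h => ?_))
      have h3 : |x2 - x0| ≤ |x1 - x2| + |x1 - x0| := by
        have : x2 - x0 = -(x1 - x2) + (x1 - x0) := by ring
        rw [this]
        refine (abs_add_le _ _).trans ?_
        rw [abs_neg]
      linarith
  refine le_inf (le_inf (le_iInf fun κ => ?_) (le_iInf fun κ => le_iInf fun x =>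
    le_iInf fun x' => ?_)) (le_iInf fun κ => le_iInf fun x => le_iInf fun e => ?_)
  · rw [le_himp_iff]
    exact tot κ
  · rw [le_himp_iff, inf_assoc (c κ)]
    exact (inf_le_inf_left _ inf_le_right).trans (unq κ x x')
  · rw [le_himp_iff]
    obtain ⟨v, hv⟩ : ∃ v, v = vv c (uu φ γ : Pt Ω B → ℝ → B) x e.1 := ⟨_, rfl⟩
    have hve : ∀ κ κ', eqP κ κ' ⊓ v κ ≤ v κ' := by
      rw [hv]; exact vv_ext hc hu x e.1
    have hmv : ∀ κ, bmem (sb κ) (Cn v) = v κ := fun κ => (hSB B Ω).2.2.1 v κ hve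
    have h1 : Γ ≤ opn c (Cn v) := by
      have := opb x e.1
      rw [(hTA B Ω c hc).1, ← hv] at this
      exact this.trans inf_le_right
    have h2 : Γ ⊓ (c κ ⊓ uu φ γ κ x) ≤ ⨆ F : Finset (Om Ω), ⨅ κ' : Pt Ω B,
        c κ' ⊓ agree F κ κ' ⇨ bmem (sb κ') (Cn v) := by
      refine (le_inf (inf_le_left.trans (h1.trans (iInf_le _ κ))) ?_).trans himp_inf_le
      rw [hmv, hv]
      refine le_inf (inf_le_right.trans inf_le_left) (le_trans ?_ (le_iSup _ x))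
      rw [tv_pos (by rw [sub_self, abs_zero]; exact e.2), inf_top_eq]
      exact inf_le_right.trans inf_le_right
    refine le_iSup_cases' h2 fun F => ?_
    refine le_trans ?_ (le_iSup _ F)
    refine le_iInf fun κ' => le_iInf fun x' => ?_
    rw [le_himp_iff]
    have h3 : Γ ⊓ (c κ ⊓ uu φ γ κ x) ⊓ (⨅ κ' : Pt Ω B, c κ' ⊓ agree F κ κ' ⇨ bmem (sb κ') (Cn v)) ⊓
        (c κ' ⊓ agree F κ κ' ⊓ uu φ γ κ' x') ≤ v κ' := by
      rw [← hmv]
      exact (le_inf (inf_le_left.trans (inf_le_right.trans (iInf_le _ κ')))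
        (inf_le_right.trans inf_le_left)).trans himp_inf_le
    have hvs : v κ' ≤ ⨆ x2 : ℝ, uu φ γ κ' x2 ⊓ tv (|x2 - x| < e.1) := by
      rw [hv]; exact inf_le_right
    refine le_iSup_cases' (h3.trans hvs) fun x2 => ?_
    have h4 := unq κ' x' x2
    have h5 : Γ ⊓ (c κ ⊓ uu φ γ κ x) ⊓ (⨅ κ' : Pt Ω B, c κ' ⊓ agree F κ κ' ⇨ bmem (sb κ') (Cn v)) ⊓
        (c κ' ⊓ agree F κ κ' ⊓ uu φ γ κ' x') ⊓ (uu φ γ κ' x2 ⊓ tv (|x2 - x| < e.1)) ≤
          tv (x' = x2) := by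
      refine le_trans (le_inf ?_ (le_inf ?_ (inf_le_right.trans inf_le_left))) h4
      · exact inf_le_left.trans (inf_le_left.trans (inf_le_left.trans inf_le_left))
      · exact inf_le_left.trans (inf_le_right.trans inf_le_right)
    refine (le_inf h5 (inf_le_right.trans inf_le_right)).trans ?_
    rw [← tv_and]
    refine tv_mono ?_
    rintro ⟨h, h'⟩
    rw [h]
    exact h'

/-- Module N1. -/
theorem n1 (hHT : HTStatement) (hSB : SBStatement) (hTA : TAStatement) (hFI : FIStatement)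
    (_hRO : ROStatement) (hRP : RPStatement) : N1Statement := by
  intro B Ω _ c hc G φ γ
  exact ⟨exU hSB φ γ, main hHT hSB hTA hFI hRP c hc G φ γ⟩

end Pool.Agent.Lib.MP_9ea9ae_an.V.N1
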