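import Pool.Agent.Lib.MP_9ea9ae_an.Space

/-!
# Typed Boolean-valued form: points, functions, the operator
-/

open scoped symmDiff

namespace Pool.Agent.Lib.MP_9ea9ae_an.V

open Pool.Agent.Lib.MP_9ea9ae_an

/-! ## Ground notions -/

/-- Legal branches of the tree `T`. -/
abbrev Br : Type := {z : ℕ → ℕ // ∀ n, z n < 2 ^ (n + 1)}

/-- The node of level `n` of a function (newest letter at the head). -/
def ndl (z : ℕ → ℕ) : ℕ → List ℕ
  | 0 => []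
  | n + 1 => z n :: ndl z n

theorem length_ndl (z : ℕ → ℕ) (n : ℕ) : (ndl z n).length = n := by
  induction n with
  | zero => rfl
  | succ n ih => simp [ndl, ih]

theorem legal_ndl (z : Br) (n : ℕ) : Legal (ndl z.1 n) := by
  induction n with
  | zero => trivial
  | succ n ih =>
    refine ⟨?_, ih⟩
    rw [length_ndl]
    exact z.2 n

/-- The node of level `n` of the branch `z`. -/
def nd (z : Br) (n : ℕ) : T := ⟨ndl z.1 n, legal_ndl z n⟩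

open Classical in
/-- The limit of the averages of `g` at the node `s`. -/
noncomputable def nuG (s : T) (g : T → ℝ) : ℝ :=
  if h : ∃ v, Filter.Tendsto (fun m => (A ^ m) g s) Filter.atTop (nhds v) then h.choose else 0

/-- `g` is determined, up to `ε`, by the membership of the node in finitely many pruned trees,
finitely many cones and by equality with finitely many nodes. -/
def Nice (g : T → ℝ) : Prop :=
  ∀ ε > 0, ∃ (E : Finset Br) (F : Finset T), ∀ s s' : T,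
    (∀ e ∈ E, (Avoids e.1 s.1 ↔ Avoids e.1 s'.1)) →
    (∀ t ∈ F, (t.1 <:+ s.1 ↔ t.1 <:+ s'.1) ∧ (s = t ↔ s' = t)) → |g s - g s'| ≤ ε

/-! ## Boolean values -/

variable {B : Type} [CompleteBooleanAlgebra B] {Ω : Type}

/-- The truth value of a proposition. -/
def tv (p : Prop) : B := ⨆ _ : p, ⊤

/-- The distributive law for countable meets. -/
def Distr (B : Type) [CompleteBooleanAlgebra B] : Prop :=
  ∀ (Y : Type) (a : ℕ → Y → B), ⨅ n, ⨆ y, a n y ≤ ⨆ h : ℕ → Y, ⨅ n, a n (h n)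

/-- The Boolean value of: `d_i` agrees somewhere with `z`. -/
def hit (D : Ω → Br → B) (i : Ω) (z : Br) : B := ⨆ δ : {δ : Br // ∃ n, δ.1 n = z.1 n}, D i δ.1

/-- The Boolean value of: `s` avoids `d_i`. -/
def Wv (D : Ω → Br → B) (i : Ω) (s : T) : B := ⨆ δ : {δ : Br // Avoids δ.1 s.1}, D i δ.1

/-- `D i δ` is the Boolean value of `d_i = δ`. -/
structure Gen (D : Ω → Br → B) : Prop where
  tot : ∀ i, ⨆ δ, D i δ = ⊤
  dis : ∀ i δ δ', δ ≠ δ' → D i δ ⊓ D i δ' = ⊥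
  luz : ∀ z : Br, ⨆ C : {C : Set Ω // C.Countable}, ⨅ i : {i // i ∉ C.1}, hit D i.1 z = ⊤
  gen : ∀ C : Set Ω, C.Countable → ⨆ i : {i // i ∉ C}, ⨆ y : Br,
    (hit D i.1 y)ᶜ ⊓ ⨅ l : {l // l ≠ i.1}, hit D l.1 y = ⊤

/-- Boolean-valued points: subsets of the set `Om Ω` of coordinates. -/
abbrev Pt (Ω B : Type) : Type := Om Ω → B

/-- The coordinate of the cone of the root. -/
def o0 : Om Ω := Sum.inr (Sum.inl ⟨[], trivial⟩)

open Classical in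
/-- The point of a node. -/
noncomputable def wB (D : Ω → Br → B) (s : T) : Pt Ω B
  | Sum.inl i => Wv D i s
  | Sum.inr (Sum.inl t) => tv (t.1 <:+ s.1)
  | Sum.inr (Sum.inr t) => tv (s = t)

/-- `κ` and `κ'` agree on `F`. -/
def agree (F : Finset (Om Ω)) (κ κ' : Pt Ω B) : B := ⨅ o : Om Ω, ⨅ _ : o ∈ F, (κ o ⇔ κ' o)

/-- `κ = κ'`. -/
def eqP (κ κ' : Pt Ω B) : B := ⨅ o, (κ o ⇔ κ' o)

/-- The point `{s}` (only the coordinate `s` of the last kind). -/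
noncomputable def sg (s : T) : Pt Ω B
  | Sum.inl _ => ⊥
  | Sum.inr (Sum.inl _) => ⊥
  | Sum.inr (Sum.inr t) => tv (s = t)

/-- The empty point. -/
def em : Pt Ω B := fun _ => ⊥

/-- `κ ∈ K`. -/
noncomputable def clK (D : Ω → Br → B) (κ : Pt Ω B) : B :=
  ⨅ F : Finset (Om Ω), ⨆ s : T, agree F κ (wB D s)

/-- `κ` contains no coordinate of the last kind. -/
def noS (κ : Pt Ω B) : B := ⨅ t : T, (κ (Sum.inr (Sum.inr t)))ᶜ

/-- `κ ∈ L ∪ {{s} : s ∈ T} ∪ {∅}`, where `L` is the remainder of `K`. -/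
noncomputable def clL (D : Ω → Br → B) (κ : Pt Ω B) : B :=
  (clK D κ ⊓ noS κ) ⊔ (⨆ s : T, eqP κ (sg s)) ⊔ eqP κ em

/-- `c` is the Boolean-valued membership in a closed set of points. -/
structure Clo (c : Pt Ω B → B) : Prop where
  ext : ∀ κ κ', eqP κ κ' ⊓ c κ ≤ c κ'
  clo : ∀ κ, (c κ)ᶜ ≤ ⨆ F : Finset (Om Ω), ⨅ κ', agree F κ κ' ⇨ (c κ')ᶜ

/-- The point of the branch `z` which contains all possible coordinates of the first kind. -/
noncomputable def kb (D : Ω → Br → B) (z : Br) : Pt Ω B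
  | Sum.inl i => (hit D i z)ᶜ
  | Sum.inr (Sum.inl t) => tv (∃ n, t = nd z n)
  | Sum.inr (Sum.inr _) => ⊥

/-- The point of the branch `z` without coordinates of the first kind. -/
noncomputable def kc (z : Br) : Pt Ω B
  | Sum.inl _ => ⊥
  | Sum.inr (Sum.inl t) => tv (∃ n, t = nd z n)
  | Sum.inr (Sum.inr _) => ⊥

/-! ## Boolean-valued real functions

`u κ x` is the Boolean value of `u(κ) = x`. -/

/-- Extensionality. -/
def ExU (u : Pt Ω B → ℝ → B) : Prop := ∀ κ κ' x, eqP κ κ' ⊓ u κ x ≤ u κ' x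

/-- `u` is a function on the set of points `c`. -/
def fn0 (c : Pt Ω B → B) (u : Pt Ω B → ℝ → B) : B :=
  (⨅ κ, c κ ⇨ ⨆ x, u κ x) ⊓ ⨅ κ, ⨅ x, ⨅ x', c κ ⊓ u κ x ⊓ u κ x' ⇨ tv (x = x')

/-- `u` is continuous on `c`. -/
def cn0 (c : Pt Ω B → B) (u : Pt Ω B → ℝ → B) : B :=
  ⨅ κ, ⨅ x, ⨅ e : {e : ℝ // 0 < e}, c κ ⊓ u κ x ⇨
    ⨆ F : Finset (Om Ω), ⨅ κ', ⨅ x', c κ' ⊓ agree F κ κ' ⊓ u κ' x' ⇨ tv (|x' - x| < e.1)

/-- `u` is a continuous function on `c`. -/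
def fnT (c : Pt Ω B → B) (u : Pt Ω B → ℝ → B) : B := fn0 c u ⊓ cn0 c u

/-- `u = u'` on `c`. -/
def eqU (c : Pt Ω B → B) (u u' : Pt Ω B → ℝ → B) : B := ⨅ κ, ⨅ x, c κ ⇨ (u κ x ⇔ u' κ x)

/-- `|u| ≤ e` on `c`. -/
def bdT (c : Pt Ω B → B) (u : Pt Ω B → ℝ → B) (e : ℝ) : B := ⨅ κ, ⨅ x, c κ ⊓ u κ x ⇨ tv (|x| ≤ e)

/-- `w = u + v` on `c`. -/
def sumT (c : Pt Ω B → B) (u v w : Pt Ω B → ℝ → B) : B :=
  ⨅ κ, ⨅ x, ⨅ y, ⨅ z, c κ ⊓ u κ x ⊓ v κ y ⊓ w κ z ⇨ tv (x + y = z)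

/-- `w = r u` on `c`. -/
def mulT (c : Pt Ω B → B) (r : ℝ) (u w : Pt Ω B → ℝ → B) : B :=
  ⨅ κ, ⨅ x, ⨅ z, c κ ⊓ u κ x ⊓ w κ z ⇨ tv (r * x = z)

/-- `F` determines `u` up to `e` on `c`. -/
def uc (c : Pt Ω B → B) (u : Pt Ω B → ℝ → B) (F : Finset (Om Ω)) (e : ℝ) : B :=
  ⨅ κ, ⨅ κ', ⨅ x, ⨅ x', c κ ⊓ c κ' ⊓ agree F κ κ' ⊓ u κ x ⊓ u κ' x' ⇨ tv (|x - x'| < e)

/-- The values of `u` at the nodes are given by `g`. -/
noncomputable def gr (D : Ω → Br → B) (u : Pt Ω B → ℝ → B) (g : T → ℝ) : B :=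
  ⨅ t : T, u (wB D t) (g t)

/-- The operator: restriction to `L`, the differences `g(s) - ν_s(g)` at the points `{s}`, and `0` at
the empty point. -/
noncomputable def TT (D : Ω → Br → B) (u : Pt Ω B → ℝ → B) (κ : Pt Ω B) (x : ℝ) : B :=
  (κ o0 ⊓ u κ x) ⊔ (⨆ s : T, eqP κ (sg s) ⊓ ⨆ g : T → ℝ, gr D u g ⊓ tv (x = g s - nuG s g)) ⊔
    (eqP κ em ⊓ tv (x = 0))

end Pool.Agent.Lib.MP_9ea9ae_an.V
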