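import Pool.Agent.Lib.MP_9ea9ae_an.V.Defs
import Pool.Agent.Lib.MP_9ea9ae_an.V.TDefs
import Pool.Agent.Lib.MP_6b029b_lc.H57.Boolean
import Pool.Agent.Lib.MP_6b029b_lc.H57.Forc
import Pool.Agent.Lib.MP_100a6c_lc.H36.PE
import Pool.Agent.Lib.MP_100a6c_lc.Base5

/-!
# Names: points, sets of points, topologies, real numbers, real functions
-/

open scoped symmDiff

namespace Pool.Agent.Lib.MP_9ea9ae_an.V

open Pool.Agent.Lib.MP_9ea9ae_an
open Pool.Agent.Lib.MP_100a6c_lc Pool.Agent.Lib.MP_c5d73d_lc.F BName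
open Pool.Agent.Lib.MP_6d445e_gt (op isTopo isHaus isFin fsub)

variable {B : Type} [CompleteBooleanAlgebra B] {Ω : Type}

/-- The name of an element of a type. -/
noncomputable def hat {X : Type} (x : X) : BName B :=
  check (Ordinal.typein (α := X) WellOrderingRel x).toZFSet

variable (B) in
/-- The name of the set of all elements of `X`. -/
noncomputable def Xn (X : Type) : BName B := mk X (fun x => hat x) fun _ => ⊤

/-- The name of a Boolean-valued point. -/
noncomputable def sb (κ : Pt Ω B) : BName B := mk (Om Ω) (fun o => hat o) κ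

/-- The name of a set of points. -/
noncomputable def Cn (c : Pt Ω B → B) : BName B := mk (Pt Ω B) (fun κ => sb κ) c

/-- `A` is open in `Cn c`. -/
noncomputable def opn (c : Pt Ω B → B) (A : BName B) : B :=
  ⨅ κ : Pt Ω B, bmem (sb κ) A ⇨
    ⨆ F : Finset (Om Ω), ⨅ κ' : Pt Ω B, c κ' ⊓ agree F κ κ' ⇨ bmem (sb κ') A

/-- The name of the topology of `Cn c`. -/
noncomputable def tau (c : Pt Ω B → B) : BName B :=
  sepn (H36.pow (Cn c)) fun A => (VB B).sub A (Cn c) ⊓ opn c A

variable (B) in
/-- The name of the addition of real numbers. -/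
noncomputable def rA : BName B :=
  mk (ℝ × ℝ) (fun p => opr (opr (hat p.1) (hat p.2)) (hat (p.1 + p.2))) fun _ => ⊤

variable (B) in
/-- The name of the multiplication of real numbers. -/
noncomputable def rM : BName B :=
  mk (ℝ × ℝ) (fun p => opr (opr (hat p.1) (hat p.2)) (hat (p.1 * p.2))) fun _ => ⊤

variable (B) in
/-- The name of the order of the real numbers. -/
noncomputable def rO : BName B :=
  mk {p : ℝ × ℝ // p.1 ≤ p.2} (fun p => opr (hat p.1.1) (hat p.1.2)) fun _ => ⊤

/-- The name of a real function. -/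
noncomputable def fnn (c : Pt Ω B → B) (u : Pt Ω B → ℝ → B) : BName B :=
  mk (Pt Ω B × ℝ) (fun p => opr (sb p.1) (hat p.2)) fun p => c p.1 ⊓ u p.1 p.2

/-- The typed form of the real function with name `f`. -/
noncomputable def ft (f : BName B) (κ : Pt Ω B) (x : ℝ) : B := (VB B).rel f (sb κ) (hat x)

/-- The name of the coordinate map of `Cn c`. -/
noncomputable def phn (c : Pt Ω B → B) : BName B :=
  mk (Pt Ω B × Om Ω × Bool)
    (fun p => opr (opr (sb p.1) (hat p.2.1)) (if p.2.2 then hat (1 : ℝ) else hat (0 : ℝ)))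
    fun p => c p.1 ⊓ if p.2.2 then p.1 p.2.1 else (p.1 p.2.1)ᶜ

/-- The name of the operator. -/
noncomputable def Tn (D : Ω → Br → B) : BName B :=
  mk {u : Pt Ω B → ℝ → B // ExU u} (fun u => opr (fnn (clK D) u.1) (fnn (clL D) (TT D u.1)))
    fun u => fnT (clK D) u.1

/-- The typed form of the real function `φ(·, γ)`. -/
noncomputable def uu (φ γ : BName B) (κ : Pt Ω B) (x : ℝ) : B := op (VB B) φ (sb κ) γ (hat x)

end Pool.Agent.Lib.MP_9ea9ae_an.V
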