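import Pool.Agent.Lib.MP_9ea9ae_an.V.Base

/-!
# Module RO: the operations and the order of the real numbers of the Boolean-valued universe
-/

open scoped symmDiff

namespace Pool.Agent.Lib.MP_9ea9ae_an.V.RO

open Pool.Agent.Lib.MP_9ea9ae_an Pool.Agent.Lib.MP_9ea9ae_an.V
open Pool.Agent.Lib.MP_100a6c_lc Pool.Agent.Lib.MP_c5d73d_lc.F BName
open Pool.Agent.Lib.MP_6d445e_gt (op isTopo isHaus isFin fsub)

variable {B : Type} [CompleteBooleanAlgebra B]

theorem op_eq (m x y z : BName B) : op (VB B) m x y z = bmem (opr (opr x y) z) m := by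
  unfold op
  simp only [isPair_eq, rel_eq]
  refine le_antisymm (iSup_le fun p => ?_) ?_
  · exact (ext_opr_left z (ext_mem_left m)).of_le (x := p) inf_le_left inf_le_right
  · refine le_iSup_of_le (opr x y) ?_
    rw [beq_refl, top_inf_eq]

/-- An operation with name `mk (ℝ × ℝ) ((x, y), f x y) ⊤`. -/
theorem op_mk (f : ℝ → ℝ → ℝ) (a b c : BName B) :
    op (VB B) (mk (ℝ × ℝ) (fun p => opr (opr (hat p.1) (hat p.2)) (hat (f p.1 p.2))) fun _ => ⊤)
      a b c = ⨆ x : ℝ, ⨆ y : ℝ, beq a (hat x) ⊓ beq b (hat y) ⊓ beq c (hat (f x y)) := by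
  rw [op_eq, mem_mk, iSup_prod]
  simp only [beq_opr, top_inf_eq]

theorem op_hat (hHT : HTStatement) (f : ℝ → ℝ → ℝ) (x y : ℝ) (c : BName B) :
    (⨆ x' : ℝ, ⨆ y' : ℝ, beq (hat x : BName B) (hat x') ⊓ beq (hat y) (hat y') ⊓
      beq c (hat (f x' y'))) = beq c (hat (f x y)) := by
  refine le_antisymm (iSup_le fun x' => iSup_le fun y' => ?_) ?_
  · rw [(hHT B ℝ).1, (hHT B ℝ).1, ← tv_and, tv_inf_le_iff]
    rintro ⟨rfl, rfl⟩
    exact le_rfl
  · refine le_iSup_of_le x (le_iSup_of_le y ?_)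
    rw [beq_refl, beq_refl, top_inf_eq, top_inf_eq]

theorem rel_rO (a b : BName B) : (VB B).rel (rO B) a b =
    ⨆ x : ℝ, ⨆ y : ℝ, beq a (hat x) ⊓ beq b (hat y) ⊓ tv (x ≤ y) := by
  rw [rel_eq, rO, mem_mk]
  simp only [beq_opr, top_inf_eq]
  refine le_antisymm (iSup_le fun p => ?_) (iSup_le fun x => iSup_le fun y => ?_)
  · refine le_iSup_of_le p.1.1 (le_iSup_of_le p.1.2 ?_)
    rw [tv_pos p.2, inf_top_eq]
  · rw [inf_tv_le_iff]
    intro h
    exact le_iSup (fun p : {p : ℝ × ℝ // p.1 ≤ p.2} => beq a (hat p.1.1) ⊓ beq b (hat p.1.2))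
      ⟨(x, y), h⟩

theorem ro (hHT : HTStatement) : ROStatement := by
  intro B _
  refine ⟨fun a b c => op_mk (fun x y => x + y) a b c, fun a b c => op_mk (fun x y => x * y) a b c,
    fun x y c => ?_, fun x y c => ?_, rel_rO, fun x y => ?_⟩
  · exact (op_mk (fun x y => x + y) (hat x) (hat y) c).trans
      (op_hat hHT (fun x y => x + y) x y c)
  · exact (op_mk (fun x y => x * y) (hat x) (hat y) c).trans
      (op_hat hHT (fun x y => x * y) x y c)
  · rw [rel_rO]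
    refine le_antisymm (iSup_le fun x' => iSup_le fun y' => ?_) ?_
    · rw [(hHT B ℝ).1, (hHT B ℝ).1, ← tv_and, ← tv_and]
      refine tv_mono ?_
      rintro ⟨⟨rfl, rfl⟩, h⟩
      exact h
    · refine le_iSup_of_le x (le_iSup_of_le y ?_)
      rw [beq_refl, beq_refl, top_inf_eq, top_inf_eq]

end Pool.Agent.Lib.MP_9ea9ae_an.V.RO
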